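import Pool.Agent.T2H64.AP.Stm2

set_option autoImplicit false

namespace Pool.Agent.T2H64.AP

open Matrix Complex OnePoint Topology Filter Set

/-- orbit of circles, as a set of matrices -/
def Orb (Γ : Subgroup G) (C : Set X) : Set G := {h | ∃ γ ∈ Γ, cir h = img γ C}

def UPo : Set X := OnePoint.some '' {z : ℂ | 0 < z.im}
def LOo : Set X := OnePoint.some '' {z : ℂ | z.im < 0}

/-- the conclusion for a family of circles `P` -/
def Concl (P : Set (Set X)) : Prop := ∃ Γ : Subgroup G,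
  (∃ g : G, ∀ γ ∈ Γ, GI (g * γ * g⁻¹)) ∧
  (∀ γ ∈ Γ, ∀ S : Set X, S ∈ P ↔ img γ S ∈ P) ∧
  (∀ z : X, derivedSet {w : X | ∃ g ∈ Γ, w = g • z} = closure (⋃₀ P)) ∧
  ∃ C : Set X, (∃ g : G, C = cir g ∧ (img g UPo ∩ closure (⋃₀ P)).Nonempty ∧
    (img g LOo ∩ closure (⋃₀ P)).Nonempty) ∧
    ¬ IsClosed (Orb Γ C) ∧ ∃ h : G, (cir h ∩ closure (⋃₀ P)).Nonempty ∧ h ∉ closure (Orb Γ C)

theorem core2 (hTG : P_TG) (hTB : P_TB) (hTC : P_TC) (hGR : P_GR) (hSQ : P_SQ) (hPG : P_PG)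
    (hLU : P_LU) (hLD : P_LD) (hFC : P_FC) (hFD : P_FD) (hGE : P_GE) (hSE : P_SE) : Concl PP := by
  obtain ⟨tg1, tg2, tg3, tg4, tg5, tg6, tg7, tg8, tg9⟩ := hTG
  obtain ⟨τ, a, ha, hgen⟩ := hGE
  obtain ⟨hFcl, hOmo, hOmd, hgn, hm1, hm1R, hinfR, h0R, hinfn, hinf0, h00⟩ := hFC τ a ha
  obtain ⟨A, hA, hAU⟩ := hSQ (FF τ a) hFcl hgen
  obtain ⟨⟨gr0, gr0'⟩, gr1, gr2, gr3, gr4, gr5, gr6, gr7⟩ := hGR
  obtain ⟨hg0A, hA1, hA2, hA3, hA4⟩ := id hA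
  have hΓ : ∀ g ∈ Subgroup.closure A, InG0 g := by
    intro g hg
    induction hg using Subgroup.closure_induction with
    | mem x hx => exact hA1 x hx
    | one => exact ⟨gr0, gr0'⟩
    | mul x y _ _ hx hy => exact ⟨gr1 _ _ hx.1 hy.1, gr3 _ _ hx.2 hy.2⟩
    | inv x _ hx => exact ⟨gr2 _ hx.1, gr4 _ hx.2⟩
  have hg0n : ∀ n : ℤ, g0 ^ n ∈ Subgroup.closure A := fun n =>
    (Subgroup.closure A).zpow_mem (Subgroup.subset_closure hg0A) n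
  have hpos : ∀ n : ℤ, 0 < a * ph ^ n := fun n => mul_pos ha (zpow_pos ph_pos n)
  have hcn : ∀ n : ℤ, img (g0 ^ n) (cc τ a) = cc τ (a * ph ^ (-(4 * n))) := fun n => hgn a n
  have hPG' := hPG (FF τ a) (cc τ a) A hA (by
    intro n
    rw [hcn n]
    refine subset_union_of_subset_right (Set.subset_iUnion_of_subset (-n) ?_) _
    rw [show (4 : ℤ) * -n = -(4 * n) by ring])
  have hx1 := hFD.1
  have hx2 := hFD.2.1
  refine ⟨Subgroup.closure A, ⟨1, fun γ hγ => by simpa using (hΓ γ hγ).1⟩, fun g hg S => (hΓ g hg).2 S,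
    fun z => Subset.antisymm (hLU _ hΓ z) (hLD (FF τ a) A hA hAU z), cc τ a,
    ⟨kk * Mr τ a, rfl, (hSE τ a ha).1.1, (hSE τ a ha).1.2⟩, fun hcl => ?_, 1, ?_, fun h1 => ?_⟩
  · have hmem : kk * Mr τ 0 ∈ Orb (Subgroup.closure A) (cc τ a) := by
      refine hcl.mem_of_tendsto (hSE τ a ha).2 (Eventually.of_forall fun n => ?_)
      refine ⟨g0 ^ (n : ℤ), hg0n _, ?_⟩
      exact (hcn n).symm
    obtain ⟨γ, hγ, he⟩ := hmem
    have he' : cc τ 0 = img γ (cc τ a) := he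
    rcases hPG' γ hγ with ⟨n, hn⟩ | hd | hd
    · rw [hn, hcn n] at he'
      exact hinfn _ (hpos _) (he' ▸ hinf0)
    · have : kk • ((0 : ℂ) : X) ∈ img γ (cc τ a) ∩ Eo g0 := ⟨he' ▸ h00, hx2⟩
      rw [hd] at this
      exact this
    · have : kk • (∞ : X) ∈ img γ (cc τ a) ∩ Eo g0⁻¹ := ⟨he' ▸ hinf0, hx1⟩
      rw [hd] at this
      exact this
  · exact ⟨kk • (∞ : X), by rw [tg8]; exact hinfR, gr6 hinfR⟩
  · rw [mem_closure_iff] at h1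
    have ho1 : IsOpen {h : G | h • (kk • ((0 : ℂ) : X)) ∈ Eo g0} := (hTC g0).1.preimage (hTB _)
    have ho2 : IsOpen {h : G | h • (kk • (∞ : X)) ∈ Eo g0⁻¹} := (hTC g0⁻¹).1.preimage (hTB _)
    have ho3 : IsOpen {h : G | h • (kk • ((-1 : ℂ) : X)) ∈ Om τ} := hOmo.preimage (hTB _)
    obtain ⟨h, ⟨⟨hh1, hh2⟩, hh3⟩, γ, hγ, he⟩ := h1 _ ((ho1.inter ho2).inter ho3)
      ⟨⟨by simpa using hx2, by simpa using hx1⟩, by simpa using hm1⟩
    have he' : cir h = img γ (cc τ a) := he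
    have hc : ∀ p ∈ RL, h • p ∈ img γ (cc τ a) := fun p hp => he' ▸ ⟨p, hp, rfl⟩
    rcases hPG' γ hγ with ⟨n, hn⟩ | hd | hd
    · have h3 := hc _ hm1R
      rw [hn, hcn n] at h3
      have : h • (kk • ((-1 : ℂ) : X)) ∈ cc τ (a * ph ^ (-(4 * n))) ∩ Om τ := ⟨h3, hh3⟩
      rw [hOmd _ (hpos _).le] at this
      exact this
    · have : h • (kk • ((0 : ℂ) : X)) ∈ img γ (cc τ a) ∩ Eo g0 := ⟨hc _ h0R, hh1⟩
      rw [hd] at this
      exact this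
    · have : h • (kk • (∞ : X)) ∈ img γ (cc τ a) ∩ Eo g0⁻¹ := ⟨hc _ hinfR, hh2⟩
      rw [hd] at this
      exact this

/-- the family generated by four circles -/
def Pk (C₁ C₂ C₃ C₄ : Set X) : Set (Set X) := ⋂₀ {F : Set (Set X) | C₁ ∈ F ∧ C₂ ∈ F ∧ C₃ ∈ F ∧ C₄ ∈ F ∧ ClF F}

def Apol (P : Set (Set X)) : Prop := ∃ C₁ C₂ C₃ C₄ : Set X,
  IsCir C₁ ∧ IsCir C₂ ∧ IsCir C₃ ∧ IsCir C₄ ∧ Tan C₁ C₂ ∧ Tan C₁ C₃ ∧ Tan C₁ C₄ ∧ Tan C₂ C₃ ∧ Tan C₂ C₄ ∧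
  Tan C₃ C₄ ∧ C₁ ∩ C₂ ∩ C₃ = ∅ ∧ C₁ ∩ C₂ ∩ C₄ = ∅ ∧ C₁ ∩ C₃ ∩ C₄ = ∅ ∧ C₂ ∩ C₃ ∩ C₄ = ∅ ∧ P = Pk C₁ C₂ C₃ C₄

lemma ClF_img (hTG : P_TG) (g : G) (F : Set (Set X)) (hF : ClF F) : ClF {S | img g S ∈ F} := by
  obtain ⟨tg1, tg2, tg3, tg4, tg5, tg6, tg7, tg8, tg9⟩ := hTG
  intro S hS T hT U hU V hV h1 h2 h3 h4 h5 h6 h7
  exact hF _ hS _ hT _ hU _ ((tg5 g V).2 hV) ((tg4 g _ _).2 h1) ((tg4 g _ _).2 h2) ((tg4 g _ _).2 h3)
    ((tg6 g _ _ _).2 h4) ((tg4 g _ _).2 h5) ((tg4 g _ _).2 h6) ((tg4 g _ _).2 h7)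

/-- every Apollonian packing is a Moebius image of the strip packing -/
lemma apol_std (hTG : P_TG) (hNF : P_NF) (P : Set (Set X)) (hP : Apol P) :
    ∃ g : G, ∀ S : Set X, S ∈ P ↔ img g S ∈ PP := by
  obtain ⟨C₁, C₂, C₃, C₄, c1, c2, c3, c4, t12, t13, t14, t23, t24, t34, e1, e2, e3, e4, rfl⟩ := hP
  obtain ⟨g, hg⟩ := hNF C₁ C₂ C₃ C₄ c1 c2 c3 c4 t12 t13 t14 t23 t24 t34 e1 e2 e3 e4
  have tg2 := hTG.2.1
  have tg3 := hTG.2.2.1
  have hset : ∀ F : Set (Set X), (img g C₁ ∈ F ∧ img g C₂ ∈ F ∧ img g C₃ ∈ F ∧ img g C₄ ∈ F) ↔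
      (cir 1 ∈ F ∧ cir tJ ∈ F ∧ cir (tW * tJ) ∈ F ∧ cir (tT * tW * tJ) ∈ F) := by
    intro F
    have h1 : (img g C₁ ∈ F ∧ img g C₂ ∈ F ∧ img g C₃ ∈ F ∧ img g C₄ ∈ F) ↔
        ({img g C₁, img g C₂, img g C₃, img g C₄} : Set (Set X)) ⊆ F := by
      simp [Set.insert_subset_iff]
    have h2 : (cir 1 ∈ F ∧ cir tJ ∈ F ∧ cir (tW * tJ) ∈ F ∧ cir (tT * tW * tJ) ∈ F) ↔
        ({cir 1, cir tJ, cir (tW * tJ), cir (tT * tW * tJ)} : Set (Set X)) ⊆ F := by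
      simp [Set.insert_subset_iff]
    rw [h1, h2, hg]
  refine ⟨g, fun S => ⟨fun h => ?_, fun h => ?_⟩⟩
  · -- `{S | img g S ∈ F}` is a closed family for all closed `F` with the standard circles
    rintro F ⟨f1, f2, f3, f4, hF⟩
    have hh := (hset F).2 ⟨f1, f2, f3, f4⟩
    exact h {S | img g S ∈ F} ⟨hh.1, hh.2.1, hh.2.2.1, hh.2.2.2, ClF_img hTG g F hF⟩
  · rintro F ⟨f1, f2, f3, f4, hF⟩
    have hc := ClF_img hTG g⁻¹ F hF
    have hi : ∀ S : Set X, img g⁻¹ (img g S) = S := fun S => by rw [tg2, inv_mul_cancel, tg3]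
    have hh := (hset {S | img g⁻¹ S ∈ F}).1 ⟨by simpa [hi] using f1, by simpa [hi] using f2,
      by simpa [hi] using f3, by simpa [hi] using f4⟩
    have := h {S | img g⁻¹ S ∈ F} ⟨hh.1, hh.2.1, hh.2.2.1, hh.2.2.2, hc⟩
    simpa [hi] using this

lemma mem_img (g : G) (S : Set X) (p : X) : p ∈ img g S ↔ g⁻¹ • p ∈ S := by
  constructor
  · rintro ⟨q, hq, rfl⟩
    simpa using hq
  · intro h
    exact ⟨g⁻¹ • p, h, by simp⟩

/-- the action of `g` as a homeomorphism -/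
noncomputable def hom (hTA : P_TA) (g : G) : X ≃ₜ X where
  toFun p := g • p
  invFun p := g⁻¹ • p
  left_inv p := by simp
  right_inv p := by simp
  continuous_toFun := hTA.1 g
  continuous_invFun := hTA.1 g⁻¹

lemma img_closure (hTA : P_TA) (g : G) (S : Set X) : img g (closure S) = closure (img g S) :=
  (hom hTA g).image_closure S

lemma img_derived (hTA : P_TA) (g : G) (S : Set X) : img g (derivedSet S) = derivedSet (img g S) := by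
  have key : ∀ (g : G) (S : Set X), img g (derivedSet S) ⊆ derivedSet (img g S) := by
    intro g S
    rintro _ ⟨p, hp, rfl⟩
    rw [mem_derivedSet, accPt_iff_nhds] at hp ⊢
    intro U hU
    obtain ⟨y, ⟨hy1, hy2⟩, hy3⟩ := hp ((fun w : X => g • w) ⁻¹' U) ((hTA.1 g).continuousAt hU)
    refine ⟨g • y, ⟨hy1, ⟨y, hy2, rfl⟩⟩, fun h => hy3 ?_⟩
    exact smul_left_cancel g h
  refine Subset.antisymm (key g S) fun p hp => ?_
  rw [mem_img]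
  have h2 := key g⁻¹ (img g S) ⟨p, hp, rfl⟩
  have h3 : img g⁻¹ (img g S) = S := by
    ext q
    rw [mem_img, mem_img]
    simp
  rwa [h3] at h2

theorem transfer (hTG : P_TG) (hTA : P_TA) (g : G) (P Q : Set (Set X)) (hg : ∀ S : Set X, S ∈ P ↔ img g S ∈ Q)
    (hQ : Concl Q) : Concl P := by
  obtain ⟨tg1, tg2, tg3, tg4, tg5, tg6, tg7, tg8, tg9⟩ := hTG
  obtain ⟨Γ, ⟨k, hk⟩, hst, hd, C, ⟨c, hc, hc1, hc2⟩, hncl, h0, hh0, hh1⟩ := hQ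
  have hi : ∀ S : Set X, img g⁻¹ (img g S) = S := fun S => by rw [tg2, inv_mul_cancel, tg3]
  have hi' : ∀ S : Set X, img g (img g⁻¹ S) = S := fun S => by rw [tg2, mul_inv_cancel, tg3]
  have hPQ : closure (⋃₀ P) = img g⁻¹ (closure (⋃₀ Q)) := by
    rw [img_closure hTA]
    congr 1
    ext p
    rw [mem_img, inv_inv]
    constructor
    · rintro ⟨S, hS, hp⟩
      exact ⟨img g S, (hg S).1 hS, ⟨p, hp, rfl⟩⟩
    · rintro ⟨S, hS, hp⟩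
      refine ⟨img g⁻¹ S, (hg _).2 (by rw [hi']; exact hS), ?_⟩
      rw [mem_img, inv_inv]
      exact hp
  have hmap : ∀ γ : G, γ ∈ Γ.map (MulAut.conj g⁻¹).toMonoidHom ↔ g * γ * g⁻¹ ∈ Γ := by
    intro γ
    rw [Subgroup.mem_map]
    constructor
    · rintro ⟨x, hx, rfl⟩
      have : g * ((MulAut.conj g⁻¹).toMonoidHom x) * g⁻¹ = x := by
        simp [mul_assoc]
      rw [this]
      exact hx
    · intro h
      exact ⟨_, h, by simp [mul_assoc]⟩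
  refine ⟨Γ.map (MulAut.conj g⁻¹).toMonoidHom, ⟨k * g, fun γ hγ => ?_⟩, fun γ hγ S => ?_, fun z => ?_,
    img g⁻¹ C, ⟨g⁻¹ * c, ?_, ?_, ?_⟩, fun hcl => hncl ?_, g⁻¹ * h0, ?_, fun hcl => hh1 ?_⟩
  · have := hk _ ((hmap γ).1 hγ)
    have e : k * g * γ * (k * g)⁻¹ = k * (g * γ * g⁻¹) * k⁻¹ := by group
    rw [e]
    exact this
  · rw [hg S, hst _ ((hmap γ).1 hγ), hg (img γ S), tg2, tg2]
    have : g * γ * g⁻¹ * g = g * γ := by group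
    rw [this]
  · have e : {w : X | ∃ x ∈ Γ.map (MulAut.conj g⁻¹).toMonoidHom, w = x • z} =
        img g⁻¹ {w : X | ∃ x ∈ Γ, w = x • (g • z)} := by
      ext w
      rw [mem_img, inv_inv]
      constructor
      · rintro ⟨x, hx, rfl⟩
        exact ⟨_, (hmap x).1 hx, by simp [mul_smul]⟩
      · rintro ⟨x, hx, h⟩
        refine ⟨g⁻¹ * x * g, (hmap _).2 (by simpa [mul_assoc] using hx), ?_⟩
        rw [mul_smul, mul_smul, ← h]
        simp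
    rw [e, ← img_derived hTA, hd, hPQ]
  · rw [hc, tg1]
  · obtain ⟨p, hp1, hp2⟩ := hc1
    refine ⟨g⁻¹ • p, ?_, ?_⟩
    · rw [← tg2]
      exact ⟨p, hp1, rfl⟩
    · rw [hPQ]
      exact ⟨p, hp2, rfl⟩
  · obtain ⟨p, hp1, hp2⟩ := hc2
    refine ⟨g⁻¹ • p, ?_, ?_⟩
    · rw [← tg2]
      exact ⟨p, hp1, rfl⟩
    · rw [hPQ]
      exact ⟨p, hp2, rfl⟩
  · have e : Orb Γ C = (fun h : G => g⁻¹ * h) ⁻¹' Orb (Γ.map (MulAut.conj g⁻¹).toMonoidHom) (img g⁻¹ C) := by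
      ext h
      constructor
      · rintro ⟨γ, hγ, h1⟩
        refine ⟨g⁻¹ * γ * g, (hmap _).2 (by simpa [mul_assoc] using hγ), ?_⟩
        rw [← tg1, h1, tg2, tg2]
        congr 1
        group
      · rintro ⟨γ, hγ, h1⟩
        refine ⟨_, (hmap γ).1 hγ, ?_⟩
        have := congrArg (img g) h1
        rw [← tg1, tg2, tg2, tg2, mul_inv_cancel, tg3] at this
        rw [this]
    rw [e]
    exact hcl.preimage (continuous_const.mul continuous_id)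
  · obtain ⟨p, hp1, hp2⟩ := hh0
    refine ⟨g⁻¹ • p, ?_, ?_⟩
    · rw [← tg1]
      exact ⟨p, hp1, rfl⟩
    · rw [hPQ]
      exact ⟨p, hp2, rfl⟩
  · have e : Orb (Γ.map (MulAut.conj g⁻¹).toMonoidHom) (img g⁻¹ C) = (fun h : G => g * h) ⁻¹' Orb Γ C := by
      ext h
      constructor
      · rintro ⟨γ, hγ, h1⟩
        refine ⟨_, (hmap γ).1 hγ, ?_⟩
        rw [← tg1, h1, tg2, tg2]
      · rintro ⟨γ, hγ, h1⟩
        refine ⟨g⁻¹ * γ * g, (hmap _).2 (by simpa [mul_assoc] using hγ), ?_⟩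
        have := congrArg (img g⁻¹) h1
        rw [← tg1, tg2, tg2, inv_mul_cancel, tg3] at this
        rw [this, tg2]
        congr 1
        group
    rw [e] at hcl
    have h5 : g⁻¹ * h0 ∈ (fun h : G => g * h) ⁻¹' closure (Orb Γ C) := by
      have hcont : Continuous (fun h : G => g * h) := continuous_const.mul continuous_id
      exact hcont.closure_preimage_subset _ hcl
    simpa using h5

theorem all_packings (hTG : P_TG) (hTA : P_TA) (hNF : P_NF) (hPP : Concl PP) (P : Set (Set X)) (hP : Apol P) :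
    Concl P := by
  obtain ⟨g, hg⟩ := apol_std hTG hNF P hP
  exact transfer hTG hTA g P PP hg hPP

end Pool.Agent.T2H64.AP
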