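import Pool.Agent.T2H64.AP.Stm

set_option autoImplicit false

namespace Pool.Agent.T2H64.AP

open Matrix Complex OnePoint Topology Filter Set

namespace PG

/-- letters -/
def L (A : Set G) : Set G := {s | s ∈ A ∨ s⁻¹ ∈ A}

lemma L_inv {A : Set G} {s : G} (h : s ∈ L A) : s⁻¹ ∈ L A := by
  rcases h with h | h
  · right; rwa [inv_inv]
  · left; exact h

lemma disj {F : Set X} {A : Set G} (hF : Fam F A) {s t : G} (hs : s ∈ L A) (ht : t ∈ L A) (hst : s ≠ t) :
    Ec s ∩ Ec t = ∅ := by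
  obtain ⟨_, _, h3, h4, _⟩ := hF
  have key : ∀ g h : G, g ∈ A → h ∈ A → ∀ s t : G, (s = g ∨ s = g⁻¹) → (t = h ∨ t = h⁻¹) → s ≠ t →
      Ec s ∩ Ec t = ∅ := by
    intro g h hg hh s t hs ht hst
    by_cases hgh : g = h
    · subst hgh
      rcases hs with rfl | rfl <;> rcases ht with rfl | rfl
      · exact absurd rfl hst
      · exact h3 _ hg
      · rw [inter_comm]; exact h3 _ hg
      · exact absurd rfl hst
    · have h5 := h4 g hg h hh hgh
      rw [eq_empty_iff_forall_notMem] at h5 ⊢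
      rintro p ⟨hp1, hp2⟩
      refine h5 p ⟨?_, ?_⟩
      · rcases hs with rfl | rfl
        · left; exact hp1
        · right; exact hp1
      · rcases ht with rfl | rfl
        · left; exact hp2
        · right; exact hp2
  rcases hs with hs | hs <;> rcases ht with ht | ht
  · exact key s t hs ht s t (Or.inl rfl) (Or.inl rfl) hst
  · exact key s t⁻¹ hs ht s t (Or.inl rfl) (Or.inr (inv_inv t).symm) hst
  · exact key s⁻¹ t hs ht s t (Or.inr (inv_inv s).symm) (Or.inl rfl) hst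
  · exact key s⁻¹ t⁻¹ hs ht s t (Or.inr (inv_inv s).symm) (Or.inr (inv_inv t).symm) hst

/-- reduced words which contain another letter than `g0` -/
inductive W (A : Set G) : G → G → Prop
  | base (n : ℤ) (s : G) (hs : s ∈ L A) (h1 : s ≠ g0) (h2 : s ≠ g0⁻¹) : W A (s * g0 ^ n) s
  | step (γ s t : G) (h : W A γ s) (ht : t ∈ L A) (hts : t ≠ s⁻¹) : W A (t * γ) t

lemma W_mem {A : Set G} {γ s : G} (h : W A γ s) : s ∈ L A := by
  cases h with
  | base n s hs h1 h2 => exact hs
  | step γ s t h ht hts => exact ht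

lemma mul_letter {A : Set G} (t γ : G) (ht : t ∈ L A) (h : (∃ n : ℤ, γ = g0 ^ n) ∨ ∃ s, W A γ s) :
    (∃ n : ℤ, t * γ = g0 ^ n) ∨ ∃ s, W A (t * γ) s := by
  rcases h with ⟨n, rfl⟩ | ⟨s, hs⟩
  · by_cases h1 : t = g0
    · left; exact ⟨1 + n, by rw [h1, _root_.zpow_add, zpow_one]⟩
    · by_cases h2 : t = g0⁻¹
      · left; exact ⟨-1 + n, by rw [h2, _root_.zpow_add, _root_.zpow_neg_one]⟩
      · right; exact ⟨t, W.base n t ht h1 h2⟩
  · by_cases h1 : t = s⁻¹
    · cases hs with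
      | base n s hs h1' h2' =>
        left; exact ⟨n, by rw [h1, inv_mul_cancel_left]⟩
      | step γ' s' t' h' ht' hts' =>
        right; exact ⟨s', by rw [h1, inv_mul_cancel_left]; exact h'⟩
    · right; exact ⟨t, W.step γ s t hs ht h1⟩

end PG

theorem T_PG (hEE : P_EE) (hTG : P_TG) : P_PG := by
  intro F C A hF hC γ hγ
  obtain ⟨_, hsub, _, hEc⟩ := hEE
  have hall : (∃ n : ℤ, γ = g0 ^ n) ∨ ∃ s, PG.W A γ s := by
    refine Subgroup.closure_induction_left (p := fun γ _ => (∃ n : ℤ, γ = g0 ^ n) ∨ ∃ s, PG.W A γ s)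
      ?_ ?_ ?_ hγ
    · left; exact ⟨0, by rw [zpow_zero]⟩
    · intro x hx y _ h
      exact PG.mul_letter x y (Or.inl hx) h
    · intro x hx y _ h
      exact PG.mul_letter x⁻¹ y (Or.inr (by rwa [inv_inv])) h
  have hW : ∀ γ s : G, PG.W A γ s → img γ C ⊆ Eo s⁻¹ := by
    intro γ s h
    induction h with
    | base n s hs h1 h2 =>
      rw [← hTG.2.1]
      rintro _ ⟨p, hp, rfl⟩
      refine hEc s p ?_
      intro hps
      have hpF : p ∈ F := hC n hp
      obtain ⟨_, _, _, _, h5⟩ := hF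
      rcases hs with hs | hs
      · have := h5 s hs h1
        rw [eq_empty_iff_forall_notMem] at this
        exact this p ⟨Or.inl hps, hpF⟩
      · have h3 : s⁻¹ ≠ g0 := fun h => h2 (by rw [← h, inv_inv])
        have := h5 s⁻¹ hs h3
        rw [eq_empty_iff_forall_notMem] at this
        exact this p ⟨Or.inr (by rw [inv_inv]; exact hps), hpF⟩
    | step γ s t h ht hts ih =>
      rw [← hTG.2.1]
      rintro _ ⟨p, hp, rfl⟩
      refine hEc t p ?_
      intro hpt
      have h1 : p ∈ Ec s⁻¹ := hsub _ (ih hp)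
      have h2 := PG.disj hF ht (PG.L_inv (PG.W_mem h)) hts
      rw [eq_empty_iff_forall_notMem] at h2
      exact h2 p ⟨hpt, h1⟩
  rcases hall with ⟨n, hn⟩ | ⟨s, hs⟩
  · left; exact ⟨n, by rw [hn]⟩
  · right
    have h1 := hW γ s hs
    have hsL := PG.L_inv (PG.W_mem hs)
    have hg0 : g0 ∈ PG.L A := Or.inl hF.1
    by_cases h2 : s⁻¹ = g0
    · right
      rw [eq_empty_iff_forall_notMem]
      rintro p ⟨hp1, hp2⟩
      have h3 := hF.2.2.1 g0 hF.1
      rw [eq_empty_iff_forall_notMem] at h3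
      exact h3 p ⟨hsub _ (by rw [← h2]; exact h1 hp1), hsub _ hp2⟩
    · left
      rw [eq_empty_iff_forall_notMem]
      rintro p ⟨hp1, hp2⟩
      have h3 := PG.disj hF hsL hg0 h2
      rw [eq_empty_iff_forall_notMem] at h3
      exact h3 p ⟨hsub _ (h1 hp1), hsub _ hp2⟩

end Pool.Agent.T2H64.AP
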