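import Pool.Agent.T2H64.AP.Stm

set_option autoImplicit false

namespace Pool.Agent.T2H64.AP

open Matrix Complex OnePoint Topology Filter Set

namespace TS

lemma mk00 (a b c d : ℂ) (h : a * d - b * c ≠ 0) : (mk a b c d h) 0 0 = a := rfl
lemma mk01 (a b c d : ℂ) (h : a * d - b * c ≠ 0) : (mk a b c d h) 0 1 = b := rfl
lemma mk10 (a b c d : ℂ) (h : a * d - b * c ≠ 0) : (mk a b c d h) 1 0 = c := rfl
lemma mk11 (a b c d : ℂ) (h : a * d - b * c ≠ 0) : (mk a b c d h) 1 1 = d := rfl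

/-- the cusp `n` -/
noncomputable def u (n : ℤ) : G := mk (n : ℂ) (-1) 1 0 (by norm_num)

lemma u_InG0 (hSZ : P_SZ) (n : ℤ) : InG0 (u n) := by
  refine hSZ (u n) ?_ ?_
  · intro i j
    fin_cases i <;> fin_cases j
    · exact ⟨n, rfl⟩
    · exact ⟨-1, by change (-1 : ℂ) = _; simp⟩
    · exact ⟨1, by change (1 : ℂ) = _; simp⟩
    · exact ⟨0, by change (0 : ℂ) = _; simp⟩
  · change (n : ℂ) * 0 - (-1) * 1 = 1
    ring

lemma pt_e1 : pt ![1, 0] = ∞ := by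
  unfold pt
  simp

lemma u_inf (hPT : P_PT) (n : ℤ) : (u n) • (∞ : X) = (((n : ℂ)) : X) := by
  obtain ⟨_, _, h3, _⟩ := hPT
  have hv : (![1, 0] : Fin 2 → ℂ) ≠ 0 := by
    intro h
    have := congrFun h 0
    simp at this
  have h1 := (h3 (u n) ![1, 0] hv).2
  rw [pt_e1] at h1
  rw [h1]
  have h2 : act (u n) ![1, 0] = ![(n : ℂ), 1] := by
    unfold act
    have e1 : (u n) 0 0 = (n : ℂ) := rfl
    have e2 : (u n) 0 1 = -1 := rfl
    have e3 : (u n) 1 0 = 1 := rfl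
    have e4 : (u n) 1 1 = 0 := rfl
    rw [e1, e2, e3, e4]
    simp
  rw [h2]
  unfold pt
  simp

lemma tJ_GI : GI tJ := by
  refine ⟨?_, ?_⟩
  · intro i j
    fin_cases i <;> fin_cases j
    · exact ⟨0, -1, by change (-I : ℂ) = _; simp⟩
    · exact ⟨-1, 0, by change (-1 : ℂ) = _; simp⟩
    · exact ⟨0, 0, by change (0 : ℂ) = _; simp⟩
    · exact ⟨0, 1, by change (I : ℂ) = _; simp⟩
  · change (-I) * I - (-1) * 0 = 1
    simp

lemma tJ_coe (hPT : P_PT) (z : ℂ) : tJ • ((z : ℂ) : X) = ((I - z : ℂ) : X) := by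
  obtain ⟨_, _, h3, _⟩ := hPT
  have hv : (![z, 1] : Fin 2 → ℂ) ≠ 0 := by
    intro h
    have := congrFun h 1
    simp at this
  have hp : pt ![z, 1] = ((z : ℂ) : X) := by
    unfold pt
    simp
  have h1 := (h3 tJ ![z, 1] hv).2
  rw [hp] at h1
  rw [h1]
  have h2 : act tJ ![z, 1] = ![-I * z - 1, I] := by
    unfold act
    have e1 : tJ 0 0 = -I := rfl
    have e2 : tJ 0 1 = -1 := rfl
    have e3 : tJ 1 0 = 0 := rfl
    have e4 : tJ 1 1 = I := rfl
    rw [e1, e2, e3, e4]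
    simp [sub_eq_add_neg]
  rw [h2]
  unfold pt
  simp only [Matrix.cons_val_one, Matrix.cons_val_zero, Matrix.cons_val_fin_one, if_neg I_ne_zero]
  congr 1
  rw [div_eq_iff I_ne_zero]
  ring_nf
  rw [I_sq]
  ring

end TS

theorem T_TS (hPT : P_PT) (hEE : P_EE) (hTA : P_TA) (hGR : P_GR) (hSZ : P_SZ) (hSB : P_SB)
    (hUP : P_UP) : P_TS := by
  intro s h V hh hV hhV hho hLam
  by_cases hE : h • (∞ : X) ∉ Ec s
  · exact ⟨h, hh, hhV, hE⟩
  push Not at hE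
  by_contra hcon
  push Not at hcon
  obtain ⟨⟨_, _⟩, hGImul, hGIinv, hSmul, hSinv, hLaminv, hRL, _⟩ := hGR
  have hJ : InG0 tJ := ⟨TS.tJ_GI, hSB.2.2.2.2⟩
  have hmul : ∀ g k : G, InG0 g → InG0 k → InG0 (g * k) := fun g k hg hk =>
    ⟨hGImul g k hg.1 hk.1, hSmul g k hg.2 hk.2⟩
  have hPT' := hPT
  obtain ⟨hp1, hp2, hp3, hp4, hp5, hp6, hp7, hp8⟩ := hPT
  -- neighbourhood of infinity
  have hWo : IsOpen ((fun p : X => h • p) ⁻¹' V) := hV.preimage (hTA.1 h)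
  obtain ⟨R, hR⟩ := hTA.2 _ hWo hhV
  -- formula
  obtain ⟨a, ha⟩ : ∃ a, a = (s * h) 0 0 := ⟨_, rfl⟩
  obtain ⟨b, hb⟩ : ∃ b, b = (s * h) 0 1 := ⟨_, rfl⟩
  obtain ⟨c, hc⟩ : ∃ c, c = (s * h) 1 0 := ⟨_, rfl⟩
  obtain ⟨d, hd⟩ : ∃ d, d = (s * h) 1 1 := ⟨_, rfl⟩
  obtain ⟨a', ha'⟩ : ∃ a, a = h 0 0 := ⟨_, rfl⟩
  obtain ⟨b', hb'⟩ : ∃ a, a = h 0 1 := ⟨_, rfl⟩
  obtain ⟨c', hc'⟩ : ∃ a, a = h 1 0 := ⟨_, rfl⟩
  obtain ⟨d', hd'⟩ : ∃ a, a = h 1 1 := ⟨_, rfl⟩
  have hmem : ∀ v : Fin 2 → ℂ, v ≠ 0 → (h • pt v ∈ Ec s ↔ nn (act (s * h) v) ≤ nn (act h v)) := by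
    intro v hv
    rw [(hp3 h v hv).2, (hEE.1 s (act h v) (hp3 h v hv).1).2, hp4]
  have hmemo : ∀ v : Fin 2 → ℂ, v ≠ 0 → (h • pt v ∈ Eo s ↔ nn (act (s * h) v) < nn (act h v)) := by
    intro v hv
    rw [(hp3 h v hv).2, (hEE.1 s (act h v) (hp3 h v hv).1).1, hp4]
  have hv1 : (![1, 0] : Fin 2 → ℂ) ≠ 0 := by
    intro h
    have := congrFun h 0
    simp at this
  have hvz : ∀ z : ℂ, (![z, 1] : Fin 2 → ℂ) ≠ 0 := by
    intro z h
    have := congrFun h 1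
    simp at this
  have hptz : ∀ z : ℂ, pt ![z, 1] = ((z : ℂ) : X) := by
    intro z
    unfold pt
    simp
  have hn1 : nn (act (s * h) ![1, 0]) = normSq a + normSq c := by
    unfold nn act
    rw [← ha, ← hb, ← hc, ← hd]
    simp
  have hn2 : nn (act h ![1, 0]) = normSq a' + normSq c' := by
    unfold nn act
    rw [← ha', ← hb', ← hc', ← hd']
    simp
  have hα : normSq a + normSq c = normSq a' + normSq c' := by
    have h1 := (hmem ![1, 0] hv1).mp (by rw [TS.pt_e1]; exact hE)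
    have h2 : ¬ nn (act (s * h) ![1, 0]) < nn (act h ![1, 0]) := fun h3 =>
      hho (by rw [← TS.pt_e1]; exact (hmemo ![1, 0] hv1).mpr h3)
    rw [hn1, hn2] at h1 h2
    linarith [not_lt.mp h2]
  have hz1 : ∀ z : ℂ, nn (act (s * h) ![z, 1]) = normSq (a * z + b) + normSq (c * z + d) := by
    intro z
    unfold nn act
    rw [← ha, ← hb, ← hc, ← hd]
    simp
  have hz2 : ∀ z : ℂ, nn (act h ![z, 1]) = normSq (a' * z + b') + normSq (c' * z + d') := by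
    intro z
    unfold nn act
    rw [← ha', ← hb', ← hc', ← hd']
    simp
  obtain ⟨A, B, D, hABD⟩ : ∃ A B D : ℝ, ∀ z : ℂ, nn (act (s * h) ![z, 1]) - nn (act h ![z, 1]) =
      A * z.re + B * z.im + D := by
    refine ⟨2 * ((a.re * b.re + a.im * b.im) + (c.re * d.re + c.im * d.im) -
      (a'.re * b'.re + a'.im * b'.im) - (c'.re * d'.re + c'.im * d'.im)),
      2 * ((a.re * b.im - a.im * b.re) + (c.re * d.im - c.im * d.re) -
      (a'.re * b'.im - a'.im * b'.re) - (c'.re * d'.im - c'.im * d'.re)),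
      normSq b + normSq d - normSq b' - normSq d', fun z => ?_⟩
    rw [hz1, hz2]
    have e : ∀ x y : ℂ, normSq (x * z + y) = normSq x * normSq z + normSq y +
        2 * (x.re * y.re + x.im * y.im) * z.re + 2 * (x.re * y.im - x.im * y.re) * z.im := by
      intro x y
      simp only [normSq_apply, add_re, add_im, mul_re, mul_im]
      ring
    rw [e a b, e c d, e a' b', e c' d']
    have : (normSq a + normSq c) * normSq z = (normSq a' + normSq c') * normSq z := by rw [hα]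
    linarith
  have hEc : ∀ z : ℂ, h • ((z : ℂ) : X) ∈ Ec s ↔ A * z.re + B * z.im + D ≤ 0 := by
    intro z
    rw [← hptz z, hmem _ (hvz z), ← hABD z]
    constructor <;> intro h <;> linarith
  -- the cusps n and n + i
  have hc1 : ∀ n : ℤ, R < |(n : ℝ)| → A * n + D ≤ 0 := by
    intro n hn
    have h1 : (((n : ℂ) : ℂ) : X) ∈ (fun p : X => h • p) ⁻¹' V := by
      refine hR _ ?_
      rw [Complex.norm_intCast]; exact hn
    have h2 := hcon (h * TS.u n) (hmul _ _ hh (TS.u_InG0 hSZ n)) (by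
      rw [mul_smul, TS.u_inf hPT']; exact h1)
    rw [mul_smul, TS.u_inf hPT', hEc] at h2
    simpa using h2
  have hc2 : ∀ n : ℤ, R < |(n : ℝ)| → A * n + B + D ≤ 0 := by
    intro n hn
    have h1 : (((I + n : ℂ)) : X) ∈ (fun p : X => h • p) ⁻¹' V := by
      refine hR _ ?_
      refine hn.trans_le ?_
      have := Complex.abs_re_le_norm (I + (n : ℂ))
      simpa using this
    have h0 : (tJ * TS.u (-n)) • (∞ : X) = ((I + n : ℂ) : X) := by
      rw [mul_smul, TS.u_inf hPT', TS.tJ_coe hPT']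
      congr 1
      push_cast
      ring
    have h2 := hcon (h * (tJ * TS.u (-n))) (hmul _ _ hh (hmul _ _ hJ (TS.u_InG0 hSZ (-n)))) (by
      rw [mul_smul, h0]; exact h1)
    rw [mul_smul, h0, hEc] at h2
    simpa using h2
  obtain ⟨N, hN1, hN2⟩ : ∃ N : ℕ, R < N ∧ (0 : ℝ) < N := by
    obtain ⟨N, hN⟩ := exists_nat_gt (max R 0)
    exact ⟨N, (le_max_left _ _).trans_lt hN, (le_max_right _ _).trans_lt hN⟩
  have habs : ∀ k : ℕ, N ≤ k → R < |((k : ℤ) : ℝ)| ∧ R < |((-(k : ℤ) : ℤ) : ℝ)| := by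
    intro k hk
    have hk' : (N : ℝ) ≤ k := by exact_mod_cast hk
    have : |((k : ℤ) : ℝ)| = k := by
      push_cast; exact abs_of_nonneg (Nat.cast_nonneg k)
    refine ⟨by rw [this]; linarith, ?_⟩
    push_cast
    rw [abs_neg, abs_of_nonneg (Nat.cast_nonneg k)]
    linarith
  have hD : D ≤ 0 := by
    have h1 := hc1 N (habs N le_rfl).1
    have h2 := hc1 (-(N : ℤ)) (habs N le_rfl).2
    push_cast at h1 h2
    linarith
  have hBD : B + D ≤ 0 := by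
    have h1 := hc2 N (habs N le_rfl).1
    have h2 := hc2 (-(N : ℤ)) (habs N le_rfl).2
    push_cast at h1 h2
    linarith
  have hA : A = 0 := by
    by_contra hne
    obtain ⟨k, hk⟩ := exists_nat_gt ((-D) / |A|)
    have hApos : 0 < |A| := abs_pos.mpr hne
    rw [div_lt_iff₀ hApos] at hk
    have hkN : N ≤ max k N := le_max_right _ _
    have h1 := hc1 (max k N : ℕ) (habs _ hkN).1
    have h2 := hc1 (-((max k N : ℕ) : ℤ)) (habs _ hkN).2
    have h3 : (k : ℝ) ≤ ((max k N : ℕ) : ℝ) := by exact_mod_cast le_max_left k N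
    have h4 : (k : ℝ) * |A| ≤ ((max k N : ℕ) : ℝ) * |A| := mul_le_mul_of_nonneg_right h3 hApos.le
    generalize (max k N : ℕ) = m at h1 h2 h4
    push_cast at h1 h2
    rcases abs_cases A with ⟨h5, _⟩ | ⟨h5, _⟩
    · rw [h5] at h4 hk
      nlinarith
    · rw [h5] at h4 hk
      nlinarith
  -- conclusion
  obtain ⟨p, hpL, hpE⟩ := hLam
  have hq : h⁻¹ • p ∈ Lam := (hLaminv h⁻¹ (hSinv h hh.2) p).mp hpL
  have hqS := hUP.2 hq
  have hpq : p = h • (h⁻¹ • p) := by rw [smul_inv_smul]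
  apply hpE
  rw [hpq]
  rcases hqS with h1 | ⟨z, hz, hz0, hz1'⟩
  · rw [h1]; exact hE
  · rw [hz, hEc, hA]
    nlinarith

end Pool.Agent.T2H64.AP
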