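import Pool.Agent.T2H64.AP.Stm

set_option autoImplicit false

/-!
# Package CU: the cusps are dense in the limit set
-/

namespace Pool.Agent.T2H64.AP

open Matrix Complex OnePoint Topology Filter Set

namespace PkgCU

lemma mk_apply (a b c d : ℂ) (h : a * d - b * c ≠ 0) :
    (mk a b c d h) 0 0 = a ∧ (mk a b c d h) 0 1 = b ∧ (mk a b c d h) 1 0 = c ∧ (mk a b c d h) 1 1 = d := by
  unfold mk
  refine ⟨?_, ?_, ?_, ?_⟩ <;> rfl

/-- rational numbers are cusps of `SL₂(ℤ)` -/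
lemma rat_cusp (q : ℚ) : ∃ s : G, (∀ i j, ∃ m : ℤ, s i j = (m : ℂ)) ∧
    s 0 0 * s 1 1 - s 0 1 * s 1 0 = 1 ∧ s • (∞ : X) = (((q : ℝ) : ℂ) : X) := by
  have hco : IsCoprime q.num (q.den : ℤ) := by
    rw [Int.isCoprime_iff_nat_coprime]
    simpa using q.reduced
  obtain ⟨u, v, huv⟩ := hco
  have hc : ((q.den : ℤ) : ℂ) ≠ 0 := by
    have := q.den_nz
    exact_mod_cast this
  have huvC : (u : ℂ) * (q.num : ℂ) + (v : ℂ) * ((q.den : ℤ) : ℂ) = 1 := by exact_mod_cast huv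
  have hdet : (q.num : ℂ) * (u : ℂ) - (-(v : ℂ)) * ((q.den : ℤ) : ℂ) = 1 := by linear_combination huvC
  obtain ⟨h00, h01, h10, h11⟩ := mk_apply (q.num : ℂ) (-(v : ℂ)) ((q.den : ℤ) : ℂ) (u : ℂ)
    (by rw [hdet]; exact one_ne_zero)
  refine ⟨mk (q.num : ℂ) (-(v : ℂ)) ((q.den : ℤ) : ℂ) (u : ℂ) (by rw [hdet]; exact one_ne_zero),
    ?_, ?_, ?_⟩
  · intro i j
    fin_cases i <;> fin_cases j
    · exact ⟨q.num, h00⟩
    · exact ⟨-v, by rw [Int.cast_neg]; exact h01⟩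
    · exact ⟨q.den, h10⟩
    · exact ⟨u, h11⟩
  · rw [h00, h01, h10, h11]
    exact hdet
  · rw [OnePoint.smul_infty_eq_ite, if_neg (by rw [h10]; exact hc), h00, h10]
    congr 1
    have : (q : ℝ) = (q.num : ℝ) / (q.den : ℝ) := by exact_mod_cast (Rat.num_div_den q).symm
    rw [this]
    push_cast
    rfl

end PkgCU

open PkgCU in
theorem T_CU (hOR : P_OR) (hSZ : P_SZ) (hGR : P_GR) (hTA : P_TA) : P_CU := by
  intro U hU hne
  obtain ⟨-, hGm, -, hSm, -⟩ := hGR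
  obtain ⟨x, hxU, hxL⟩ := hne
  unfold Lam at hxL
  obtain ⟨p, hpU, S, hS, hpS⟩ := mem_closure_iff.1 hxL U hU hxU
  obtain ⟨h, hh, rfl⟩ := hOR S hS
  obtain ⟨w, hw, rfl⟩ := hpS
  have hV : IsOpen ((fun p : X => h • p) ⁻¹' U) := hU.preimage (hTA.1 h)
  -- a cusp of `SL₂(ℤ)`
  have key : ∃ s : G, (∀ i j, ∃ m : ℤ, s i j = (m : ℂ)) ∧
      s 0 0 * s 1 1 - s 0 1 * s 1 0 = 1 ∧ h • (s • (∞ : X)) ∈ U := by
    rcases hw with hw | ⟨x, rfl⟩
    · refine ⟨1, fun i j => ?_, ?_, ?_⟩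
      · rw [Matrix.GeneralLinearGroup.coe_one]
        by_cases hij : i = j
        · exact ⟨1, by rw [hij]; simp⟩
        · exact ⟨0, by simp [Matrix.one_apply_ne hij]⟩
      · simp
      · rw [one_smul]
        rw [hw] at hpU
        exact hpU
    · have hcont : Continuous (fun r : ℝ => (((r : ℝ) : ℂ) : X)) :=
        OnePoint.continuous_coe.comp Complex.continuous_ofReal
      have hW : IsOpen ((fun r : ℝ => (((r : ℝ) : ℂ) : X)) ⁻¹' ((fun p : X => h • p) ⁻¹' U)) :=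
        hV.preimage hcont
      obtain ⟨q, hq⟩ := Rat.denseRange_cast.exists_mem_open hW ⟨x, hpU⟩
      obtain ⟨s, h1, h2, h3⟩ := rat_cusp q
      refine ⟨s, h1, h2, ?_⟩
      rw [h3]
      exact hq
  obtain ⟨s, h1, h2, h3⟩ := key
  have hs := hSZ s h1 h2
  refine ⟨h * s, ⟨hGm h s hh.1 hs.1, hSm h s hh.2 hs.2⟩, ?_⟩
  rw [mul_smul]
  exact h3

end Pool.Agent.T2H64.AP
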