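import Pool.Agent.T2H64.AP.Stm

set_option autoImplicit false

namespace Pool.Agent.T2H64.AP

open Matrix Complex OnePoint Topology Filter Set

theorem T_EE (hPT : P_PT) : P_EE := by
  obtain ⟨hex, heq, hact, hmul, hone, hsm, hnn, hpos⟩ := hPT
  have hmem : ∀ (g : G) (v : Fin 2 → ℂ), v ≠ 0 → ((pt v ∈ Eo g ↔ nn (act g v) < nn v) ∧
      (pt v ∈ Ec g ↔ nn (act g v) ≤ nn v)) := by
    intro g v hv
    constructor
    · constructor
      · rintro ⟨w, hw, hpw, hlt⟩
        obtain ⟨c, hc, rfl⟩ := (heq v w hv hw).1 hpw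
        rw [hsm, hnn, hnn] at hlt
        exact lt_of_mul_lt_mul_left hlt (Complex.normSq_nonneg c)
      · intro h
        exact ⟨v, hv, rfl, h⟩
    · constructor
      · rintro ⟨w, hw, hpw, hlt⟩
        obtain ⟨c, hc, rfl⟩ := (heq v w hv hw).1 hpw
        rw [hsm, hnn, hnn] at hlt
        exact le_of_mul_le_mul_left hlt (Complex.normSq_pos.2 hc)
      · intro h
        exact ⟨v, hv, rfl, h⟩
  have hinv : ∀ (g : G) (v : Fin 2 → ℂ), act g⁻¹ (act g v) = v := by
    intro g v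
    rw [← hmul, inv_mul_cancel, hone]
  refine ⟨hmem, ?_, ?_, ?_⟩
  · rintro g p ⟨v, hv, hp, h⟩
    exact ⟨v, hv, hp, h.le⟩
  · intro g p hp
    obtain ⟨v, hv, rfl⟩ := hex p
    rw [(hmem g v hv).1, not_lt] at hp
    rw [(hact g v hv).2, (hmem g⁻¹ _ (hact g v hv).1).2, hinv]
    exact hp
  · intro g p hp
    obtain ⟨v, hv, rfl⟩ := hex p
    rw [(hmem g v hv).2, not_le] at hp
    rw [(hact g v hv).2, (hmem g⁻¹ _ (hact g v hv).1).1, hinv]
    exact hp

end Pool.Agent.T2H64.AP
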