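import Pool.Agent.T2H64.AP.Stm

/-!
# Package EX: elements with small discs near a cusp
-/

set_option autoImplicit false

namespace Pool.Agent.T2H64.AP

open Matrix Complex OnePoint Topology Filter Set

namespace PkgEX

/-- the key estimate -/
lemma est (m κ : ℝ) (hκ : 1 ≤ κ) (hm : 4 * κ < |m|) (v0 v1 : ℂ)
    (h : Complex.normSq (m * v0 + (m ^ 2 - 1) * v1) + Complex.normSq (v0 + m * v1) ≤
      κ ^ 2 * (Complex.normSq v0 + Complex.normSq v1)) :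
    ‖v0 + m * v1‖ ≤ (5 * κ + 2) * ‖v1‖ := by
  obtain ⟨u, hu⟩ : ∃ u : ℂ, u = v0 + m * v1 := ⟨_, rfl⟩
  have e1 : (m : ℂ) * v0 + (m ^ 2 - 1) * v1 = m * u - v1 := by rw [hu]; ring
  have e2 : v0 = u - m * v1 := by rw [hu]; ring
  rw [e1, ← hu] at h
  rw [← hu]
  rw [e2] at h
  simp only [Complex.normSq_eq_norm_sq] at h
  obtain ⟨M, hM⟩ : ∃ M : ℝ, M = |m| := ⟨_, rfl⟩
  rw [← hM] at hm
  have n1 : M * ‖u‖ - ‖v1‖ ≤ ‖(m : ℂ) * u - v1‖ := by
    have := norm_sub_norm_le ((m : ℂ) * u) v1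
    rw [norm_mul, Complex.norm_real, Real.norm_eq_abs, ← hM] at this
    exact this
  have n2 : ‖u - m * v1‖ ≤ ‖u‖ + M * ‖v1‖ := by
    have := norm_sub_le u ((m : ℂ) * v1)
    rw [norm_mul, Complex.norm_real, Real.norm_eq_abs, ← hM] at this
    exact this
  obtain ⟨a, ha⟩ : ∃ a : ℝ, a = ‖u‖ := ⟨_, rfl⟩
  obtain ⟨b, hb⟩ : ∃ b : ℝ, b = ‖v1‖ := ⟨_, rfl⟩
  have ha0 : 0 ≤ a := by rw [ha]; exact norm_nonneg _
  have hb0 : 0 ≤ b := by rw [hb]; exact norm_nonneg _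
  rw [← ha, ← hb] at n1 n2 h
  rw [← ha, ← hb]
  by_contra hcon
  push Not at hcon
  have hM1 : 4 < M := by linarith
  have hb2 : 2 * b ≤ a := by nlinarith
  have ha1 : 0 < a := lt_of_le_of_lt (by positivity) hcon
  have s1 : M * a / 2 ≤ M * a - b := by nlinarith
  have s2 : (M * a / 2) ^ 2 ≤ ‖(m : ℂ) * u - v1‖ ^ 2 :=
    pow_le_pow_left₀ (by positivity) (s1.trans n1) 2
  have s3 : ‖u - m * v1‖ ^ 2 ≤ (a + M * b) ^ 2 := pow_le_pow_left₀ (norm_nonneg _) n2 2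
  have s4 : (a + M * b) ^ 2 ≤ 2 * a ^ 2 + 2 * (M * b) ^ 2 := by
    nlinarith [sq_nonneg (a - M * b)]
  have s5 : (5 * κ) * b ≤ a := by nlinarith
  have s6 : 25 * κ ^ 2 * b ^ 2 ≤ a ^ 2 := by
    have := pow_le_pow_left₀ (by positivity) s5 2
    nlinarith
  have s7 : κ ^ 2 * ((a + M * b) ^ 2 + b ^ 2) ≤ 2 * κ ^ 2 * a ^ 2 + 3 * M ^ 2 * (κ ^ 2 * b ^ 2) := by
    have : b ^ 2 ≤ (M * b) ^ 2 := by
      rw [mul_pow]
      have hM2 : 1 ≤ M ^ 2 := by nlinarith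
      exact le_mul_of_one_le_left (sq_nonneg b) hM2
    have h5 : (a + M * b) ^ 2 + b ^ 2 ≤ 2 * a ^ 2 + 3 * (M * b) ^ 2 := by linarith
    have h6 := mul_le_mul_of_nonneg_left h5 (sq_nonneg κ)
    refine h6.trans (le_of_eq ?_)
    ring
  have s8 : (M * a / 2) ^ 2 ≤ 2 * κ ^ 2 * a ^ 2 + 3 * M ^ 2 * (κ ^ 2 * b ^ 2) := by
    have h5 : κ ^ 2 * (‖u - m * v1‖ ^ 2 + b ^ 2) ≤ κ ^ 2 * ((a + M * b) ^ 2 + b ^ 2) :=
      mul_le_mul_of_nonneg_left (by linarith) (sq_nonneg κ)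
    have h6 : 0 ≤ a ^ 2 := sq_nonneg a
    linarith
  have s9 : 3 * M ^ 2 * (κ ^ 2 * b ^ 2) ≤ M ^ 2 * a ^ 2 / 8 := by
    have h5 : 24 * (κ ^ 2 * b ^ 2) ≤ a ^ 2 := by nlinarith [mul_nonneg (sq_nonneg κ) (sq_nonneg b)]
    nlinarith [sq_nonneg M]
  have s10 : 16 * κ ^ 2 < M ^ 2 := by nlinarith
  have s11 : 0 < a ^ 2 := by positivity
  nlinarith

/-- norm bound for a matrix -/
lemma nn_act_le (g : G) (v : Fin 2 → ℂ) : nn (act g v) ≤
    (Complex.normSq (g 0 0) + Complex.normSq (g 0 1) + Complex.normSq (g 1 0) +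
      Complex.normSq (g 1 1)) * nn v := by
  have key : ∀ a b x y : ℂ, Complex.normSq (a * x + b * y) ≤
      (Complex.normSq a + Complex.normSq b) * (Complex.normSq x + Complex.normSq y) := by
    intro a b x y
    simp only [Complex.normSq_eq_norm_sq]
    have h1 := norm_add_le (a * x) (b * y)
    rw [norm_mul, norm_mul] at h1
    have h2 := pow_le_pow_left₀ (norm_nonneg _) h1 2
    nlinarith [sq_nonneg (‖a‖ * ‖y‖ - ‖b‖ * ‖x‖)]
  unfold nn act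
  simp only [Matrix.cons_val_zero, Matrix.cons_val_one]
  have h1 := key (g 0 0) (g 0 1) (v 0) (v 1)
  have h2 := key (g 1 0) (g 1 1) (v 0) (v 1)
  nlinarith

lemma fdet (m : ℂ) : m * m - (m ^ 2 - 1) * 1 ≠ 0 := by
  have : m * m - (m ^ 2 - 1) * 1 = 1 := by ring
  rw [this]
  exact one_ne_zero

lemma fdet' (m : ℂ) : m * m - (-(m ^ 2 - 1)) * (-1) ≠ 0 := by
  have : m * m - (-(m ^ 2 - 1)) * (-1) = 1 := by ring
  rw [this]
  exact one_ne_zero

/-- the element `f` -/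
noncomputable def ff (m : ℂ) : G := mk m (m ^ 2 - 1) 1 m (fdet m)
noncomputable def ff' (m : ℂ) : G := mk m (-(m ^ 2 - 1)) (-1) m (fdet' m)

lemma ff_inv (m : ℂ) : (ff m)⁻¹ = ff' m := by
  rw [inv_eq_iff_mul_eq_one]
  apply Units.ext
  show (!![m, m ^ 2 - 1; 1, m] : Matrix (Fin 2) (Fin 2) ℂ) * !![m, -(m ^ 2 - 1); -1, m] = 1
  rw [Matrix.mul_fin_two, Matrix.one_fin_two]
  congr 1
  ext i j
  fin_cases i <;> fin_cases j <;> simp <;> ring

lemma act_ff (m : ℂ) (v : Fin 2 → ℂ) :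
    nn (act (ff m) v) = Complex.normSq (m * v 0 + (m ^ 2 - 1) * v 1) +
      Complex.normSq (v 0 + m * v 1) := by
  show Complex.normSq (m * v 0 + (m ^ 2 - 1) * v 1) + Complex.normSq (1 * v 0 + m * v 1) = _
  rw [one_mul]

lemma act_ff' (m : ℂ) (v : Fin 2 → ℂ) :
    nn (act (ff' m) v) = Complex.normSq ((-m) * v 0 + ((-m) ^ 2 - 1) * v 1) +
      Complex.normSq (v 0 + (-m) * v 1) := by
  show Complex.normSq (m * v 0 + -(m ^ 2 - 1) * v 1) + Complex.normSq (-1 * v 0 + m * v 1) = _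
  rw [← Complex.normSq_neg (m * v 0 + -(m ^ 2 - 1) * v 1), ← Complex.normSq_neg (-1 * v 0 + m * v 1)]
  congr 2 <;> ring

end PkgEX

open PkgEX in
theorem T_EX (h1 : P_PT) (h2 : P_TA) (h3 : P_GR) (h4 : P_SZ) : P_EX := by
  intro h V hh hV hc
  obtain ⟨p1, p2, p3, p4, p5, p6, p7, p8⟩ := h1
  obtain ⟨⟨-, -⟩, r1, r2, r3, r4, -⟩ := h3
  -- the constant
  obtain ⟨K, hK0, hK1, hK2⟩ : ∃ K : ℝ, 1 ≤ K ∧ (∀ v, nn (act h v) ≤ K * nn v) ∧
      ∀ v, nn v ≤ K * nn (act h v) := by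
    obtain ⟨K1, hK1⟩ : ∃ K1 : ℝ, K1 = Complex.normSq (h 0 0) + Complex.normSq (h 0 1) +
      Complex.normSq (h 1 0) + Complex.normSq (h 1 1) := ⟨_, rfl⟩
    obtain ⟨K2, hK2⟩ : ∃ K2 : ℝ, K2 = Complex.normSq (h⁻¹ 0 0) + Complex.normSq (h⁻¹ 0 1) +
      Complex.normSq (h⁻¹ 1 0) + Complex.normSq (h⁻¹ 1 1) := ⟨_, rfl⟩
    have hK10 : 0 ≤ K1 := by
      rw [hK1]
      have := Complex.normSq_nonneg (h 0 0)
      have := Complex.normSq_nonneg (h 0 1)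
      have := Complex.normSq_nonneg (h 1 0)
      have := Complex.normSq_nonneg (h 1 1)
      positivity
    have hK20 : 0 ≤ K2 := by
      rw [hK2]
      have := Complex.normSq_nonneg (h⁻¹ 0 0)
      have := Complex.normSq_nonneg (h⁻¹ 0 1)
      have := Complex.normSq_nonneg (h⁻¹ 1 0)
      have := Complex.normSq_nonneg (h⁻¹ 1 1)
      positivity
    have hnn : ∀ v, 0 ≤ nn v := fun v =>
      add_nonneg (Complex.normSq_nonneg _) (Complex.normSq_nonneg _)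
    refine ⟨1 + K1 + K2, by linarith, fun v => ?_, fun v => ?_⟩
    · have g1 := nn_act_le h v
      rw [← hK1] at g1
      refine g1.trans ?_
      exact mul_le_mul_of_nonneg_right (by linarith) (hnn v)
    · have g1 := nn_act_le h⁻¹ (act h v)
      rw [← hK2, ← p4, inv_mul_cancel, p5] at g1
      refine g1.trans ?_
      exact mul_le_mul_of_nonneg_right (by linarith) (hnn _)
  -- neighbourhood of infinity
  obtain ⟨R, hR⟩ := h2.2 ((fun p : X => h • p) ⁻¹' V) (hV.preimage (h2.1 h)) hc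
  obtain ⟨N, hN⟩ := exists_nat_gt (4 * K + (5 * K + 2) + |R|)
  have hNK : 4 * K < |(N : ℝ)| := by
    rw [abs_of_nonneg (Nat.cast_nonneg N)]
    have := abs_nonneg R
    linarith
  have hNK' : 4 * K < |(-(N : ℝ))| := by rw [abs_neg]; exact hNK
  have hInf : InG0 (ff (N : ℂ)) := by
    refine h4 _ (fun i j => ?_) ?_
    · fin_cases i <;> fin_cases j
      · exact ⟨N, by show (N : ℂ) = _; push_cast; rfl⟩
      · exact ⟨N ^ 2 - 1, by show (N : ℂ) ^ 2 - 1 = _; push_cast; rfl⟩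
      · exact ⟨1, by show (1 : ℂ) = _; push_cast; rfl⟩
      · exact ⟨N, by show (N : ℂ) = _; push_cast; rfl⟩
    · show (N : ℂ) * N - ((N : ℂ) ^ 2 - 1) * 1 = 1
      ring
  obtain ⟨g, hg⟩ : ∃ g : G, g = h * ff (N : ℂ) * h⁻¹ := ⟨_, rfl⟩
  have hginv : g⁻¹ = h * ff' (N : ℂ) * h⁻¹ := by
    rw [hg, ← ff_inv]
    group
  have hInG : InG0 g := by
    rw [hg]
    exact ⟨r1 _ _ (r1 _ _ hh.1 hInf.1) (r2 _ hh.1), r3 _ _ (r3 _ _ hh.2 hInf.2) (r4 _ hh.2)⟩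
  -- description of the discs
  have hkey : ∀ (f : G) (m : ℝ), 4 * K < |m| → (∀ v, nn (act f v) =
      Complex.normSq (m * v 0 + (m ^ 2 - 1) * v 1) + Complex.normSq (v 0 + m * v 1)) →
      ∀ p ∈ Ec (h * f * h⁻¹), ∃ z : ℂ, p = h • (z : X) ∧ ‖z + m‖ ≤ 5 * K + 2 := by
    intro f m hm hf p hp
    obtain ⟨w, hw0, hpw, hw⟩ := hp
    obtain ⟨v, hv⟩ : ∃ v, v = act h⁻¹ w := ⟨_, rfl⟩
    have hv0 : v ≠ 0 := by
      rw [hv]
      exact (p3 h⁻¹ w hw0).1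
    have hwv : w = act h v := by rw [hv, ← p4, mul_inv_cancel, p5]
    rw [p4, p4, ← hv] at hw
    rw [hwv] at hw
    have hv2 : nn (act f v) ≤ K ^ 2 * nn v := by
      have g1 := hK2 (act f v)
      have g2 := hK1 v
      have hKp : 0 ≤ K := by linarith
      have g3 := mul_le_mul_of_nonneg_left (hw.trans g2) hKp
      calc nn (act f v) ≤ K * nn (act h (act f v)) := g1
        _ ≤ K * (K * nn v) := g3
        _ = K ^ 2 * nn v := by ring
    rw [hf] at hv2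
    have hest := est m K hK0 hm (v 0) (v 1) hv2
    have hv1 : v 1 ≠ 0 := by
      intro h0
      rw [h0, mul_zero, add_zero, norm_zero, mul_zero] at hest
      have h5 : v 0 = 0 := norm_eq_zero.1 (le_antisymm hest (norm_nonneg _))
      apply hv0
      funext i
      fin_cases i
      · exact h5
      · exact h0
    refine ⟨v 0 / v 1, ?_, ?_⟩
    · rw [hpw, hwv, ← (p3 h v hv0).2]
      unfold pt
      rw [if_neg hv1]
    · have e : v 0 / v 1 + m = (v 0 + m * v 1) / v 1 := by field_simp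
      rw [e, norm_div, div_le_iff₀ (norm_pos_iff.2 hv1)]
      exact hest
  have hE1 := hkey (ff (N : ℂ)) (N : ℝ) hNK (fun v => by
    rw [act_ff]
    push_cast
    rfl)
  have hE2 := hkey (ff' (N : ℂ)) (-(N : ℝ)) hNK' (fun v => by
    rw [act_ff']
    push_cast
    rfl)
  rw [← hg] at hE1
  rw [← hginv] at hE2
  have hRabs := le_abs_self R
  refine ⟨g, hInG, ?_, ?_, ?_⟩
  · intro p hp
    obtain ⟨z, hz, hz2⟩ := hE1 p hp
    rw [hz]
    refine hR z ?_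
    have h5 : ‖((N : ℝ) : ℂ)‖ ≤ ‖z + (N : ℝ)‖ + ‖z‖ := by
      have := norm_sub_le (z + (N : ℝ)) z
      rwa [add_sub_cancel_left] at this
    rw [Complex.norm_real, Real.norm_of_nonneg (Nat.cast_nonneg N)] at h5
    linarith
  · intro p hp
    obtain ⟨z, hz, hz2⟩ := hE2 p hp
    rw [hz]
    refine hR z ?_
    have h5 : ‖((-(N : ℝ) : ℝ) : ℂ)‖ ≤ ‖z + (-(N : ℝ) : ℝ)‖ + ‖z‖ := by
      have := norm_sub_le (z + (-(N : ℝ) : ℝ)) z
      rwa [add_sub_cancel_left] at this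
    rw [Complex.norm_real, norm_neg, Real.norm_of_nonneg (Nat.cast_nonneg N)] at h5
    linarith
  · rw [Set.eq_empty_iff_forall_notMem]
    rintro p ⟨hp1, hp2⟩
    obtain ⟨z, hz, hz2⟩ := hE1 p hp1
    obtain ⟨y, hy, hy2⟩ := hE2 p hp2
    rw [hz] at hy
    have h5 : (z : X) = (y : X) := by
      have := congrArg (fun q => h⁻¹ • q) hy
      simpa using this
    have h6 : z = y := OnePoint.coe_injective h5
    rw [← h6] at hy2
    have h7 : ‖((2 * (N : ℝ) : ℝ) : ℂ)‖ ≤ ‖z + (N : ℝ)‖ + ‖z + (-(N : ℝ) : ℝ)‖ := by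
      have := norm_sub_le (z + (N : ℝ)) (z + (-(N : ℝ) : ℝ))
      refine le_trans (le_of_eq ?_) this
      congr 1
      push_cast
      ring
    rw [Complex.norm_real, Real.norm_of_nonneg (by positivity)] at h7
    have := abs_nonneg R
    linarith

end Pool.Agent.T2H64.AP
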