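import Pool.Agent.T2H64.AP.Stm

/-!
# Package FC: facts about the circles `cc τ a`
-/

set_option autoImplicit false

namespace Pool.Agent.T2H64.AP

open Matrix Complex OnePoint Topology Filter Set

namespace PkgFC

/-- the linear form, homogeneous -/
noncomputable def ll (τ : ℝ) (v : Fin 2 → ℂ) : ℝ :=
  (v 0 * (starRingEnd ℂ) (v 1)).re + τ * (v 0 * (starRingEnd ℂ) (v 1)).im

noncomputable def qq (τ b : ℝ) (v : Fin 2 → ℂ) : ℝ := b * Complex.normSq (v 0) - ll τ v

lemma ll_smul (τ : ℝ) (c : ℂ) (v : Fin 2 → ℂ) : ll τ (c • v) = Complex.normSq c * ll τ v := by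
  unfold ll
  simp only [Pi.smul_apply, smul_eq_mul, Complex.normSq_apply, Complex.mul_re, Complex.mul_im,
    Complex.conj_re, Complex.conj_im]
  ring

lemma qq_smul (τ b : ℝ) (c : ℂ) (v : Fin 2 → ℂ) :
    qq τ b (c • v) = Complex.normSq c * qq τ b v := by
  unfold qq
  rw [ll_smul]
  simp only [Pi.smul_apply, smul_eq_mul, map_mul]
  ring

lemma coe_pt (z : ℂ) : pt ![z, 1] = (z : X) := by
  unfold pt
  simp

lemma inf_pt : pt ![1, 0] = ∞ := by
  unfold pt
  simp

lemma ne1 (z : ℂ) : (![z, 1] : Fin 2 → ℂ) ≠ 0 := by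
  intro h
  have := congrFun h 1
  simp at this

lemma ne0 : (![1, 0] : Fin 2 → ℂ) ≠ 0 := by
  intro h
  have := congrFun h 0
  simp at this

lemma real_pt (w : Fin 2 → ℂ) (h : ∀ i, (w i).im = 0) : pt w ∈ RL := by
  unfold pt RL
  split_ifs with h1
  · exact Set.mem_insert _ _
  · refine Set.mem_insert_of_mem _ ⟨(w 0).re / (w 1).re, ?_⟩
    have e0 : w 0 = ((w 0).re : ℂ) := Complex.ext rfl (by simpa using h 0)
    have e1 : w 1 = ((w 1).re : ℂ) := Complex.ext rfl (by simpa using h 1)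
    show (((((w 0).re / (w 1).re : ℝ) : ℂ)) : X) = ((w 0 / w 1 : ℂ) : X)
    rw [Complex.ofReal_div, ← e0, ← e1]

lemma pt_real (r : X) (h : r ∈ RL) :
    ∃ x y : ℝ, (![(x : ℂ), (y : ℂ)] : Fin 2 → ℂ) ≠ 0 ∧ r = pt ![(x : ℂ), (y : ℂ)] := by
  rcases Set.mem_insert_iff.1 h with h | ⟨x, hx⟩
  · refine ⟨1, 0, ?_, ?_⟩
    · intro h
      have := congrFun h 0
      simp at this
    · rw [h]
      unfold pt
      simp
  · refine ⟨x, 1, ?_, ?_⟩
    · intro h
      have := congrFun h 1
      simp at this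
    · rw [← hx]
      unfold pt
      simp

lemma qq_Mr (τ b x y : ℝ) : qq τ b (act (Mr τ b) ![(x : ℂ), (y : ℂ)]) = 0 := by
  have e : act (Mr τ b) ![(x : ℂ), (y : ℂ)] =
      ![I * (1 + I * τ) * x + 0 * y, I * b * x + 1 * y] := rfl
  rw [e]
  unfold qq ll
  simp [Complex.normSq_apply]
  ring

lemma mem_cc (h1 : P_PT) (τ b : ℝ) (v : Fin 2 → ℂ) (hv : v ≠ 0) :
    kk • pt v ∈ cc τ b ↔ qq τ b v = 0 := by
  obtain ⟨p1, p2, p3, p4, p5, p6, p7, p8⟩ := h1
  constructor
  · rintro ⟨r, hr, hrv⟩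
    obtain ⟨x, y, hxy, rfl⟩ := pt_real r hr
    have h2 : kk • (Mr τ b • pt ![(x : ℂ), (y : ℂ)]) = kk • pt v := by
      rw [← mul_smul]
      exact hrv
    have h3 := smul_left_cancel kk h2
    rw [(p3 (Mr τ b) _ hxy).2, p2 _ _ (p3 (Mr τ b) _ hxy).1 hv] at h3
    obtain ⟨c, hc, hcv⟩ := h3
    rw [hcv, qq_smul, qq_Mr, mul_zero]
  · intro hq
    have hτ : (I * (1 + I * (τ : ℂ))) ≠ 0 := by
      have := Mr_det τ 0
      simpa using this
    have main : ∃ w : Fin 2 → ℂ, w ≠ 0 ∧ (∀ i, (w i).im = 0) ∧ ∃ c : ℂ, c ≠ 0 ∧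
        act (Mr τ b) w = c • v := by
      by_cases h0 : v 0 = 0
      · have h10 : v 1 ≠ 0 := by
          intro h10
          apply hv
          funext i
          fin_cases i
          · exact h0
          · exact h10
        refine ⟨![0, 1], ne1 0, ?_, (v 1)⁻¹, inv_ne_zero h10, ?_⟩
        · intro i
          fin_cases i <;> simp
        · have e : act (Mr τ b) ![0, 1] = ![I * (1 + I * τ) * 0 + 0 * 1, I * b * 0 + 1 * 1] := rfl
          rw [e]
          funext i
          fin_cases i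
          · simp [h0]
          · simp [h10]
      · refine ⟨![(Complex.normSq (v 0) : ℂ),
          ((I * (1 + I * τ)) * v 1 - I * b * v 0) * (starRingEnd ℂ) (v 0)], ?_, ?_,
          (I * (1 + I * τ)) * (starRingEnd ℂ) (v 0), ?_, ?_⟩
        · intro h
          have := congrFun h 0
          simp at this
          exact h0 this
        · intro i
          fin_cases i
          · simp
          · unfold qq ll at hq
            simp [Complex.normSq_apply] at hq ⊢
            linarith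
        · refine mul_ne_zero hτ ?_
          rw [Ne, map_eq_zero]
          exact h0
        · have e : act (Mr τ b) ![(Complex.normSq (v 0) : ℂ),
              ((I * (1 + I * τ)) * v 1 - I * b * v 0) * (starRingEnd ℂ) (v 0)] =
              ![I * (1 + I * τ) * (Complex.normSq (v 0) : ℂ) +
                0 * (((I * (1 + I * τ)) * v 1 - I * b * v 0) * (starRingEnd ℂ) (v 0)),
                I * b * (Complex.normSq (v 0) : ℂ) +
                1 * (((I * (1 + I * τ)) * v 1 - I * b * v 0) * (starRingEnd ℂ) (v 0))] := rfl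
          rw [e]
          have e2 : (Complex.normSq (v 0) : ℂ) = v 0 * (starRingEnd ℂ) (v 0) :=
            (Complex.mul_conj _).symm
          funext i
          fin_cases i
          · show I * (1 + I * τ) * (Complex.normSq (v 0) : ℂ) +
                0 * (((I * (1 + I * τ)) * v 1 - I * b * v 0) * (starRingEnd ℂ) (v 0)) =
                (I * (1 + I * τ)) * (starRingEnd ℂ) (v 0) * v 0
            rw [e2]
            ring
          · show I * b * (Complex.normSq (v 0) : ℂ) +
                1 * (((I * (1 + I * τ)) * v 1 - I * b * v 0) * (starRingEnd ℂ) (v 0)) =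
                (I * (1 + I * τ)) * (starRingEnd ℂ) (v 0) * v 1
            rw [e2]
            ring
    obtain ⟨w, hw, hwr, c, hc, hcv⟩ := main
    refine ⟨pt w, real_pt w hwr, ?_⟩
    show (kk * Mr τ b) • pt w = kk • pt v
    rw [mul_smul, (p3 (Mr τ b) w hw).2, hcv]
    congr 1
    rw [p2 _ _ (smul_ne_zero hc hv) hv]
    exact ⟨c⁻¹, inv_ne_zero hc, by rw [smul_smul, inv_mul_cancel₀ hc, one_smul]⟩

lemma mem_cc_coe (h1 : P_PT) (τ b : ℝ) (z : ℂ) :
    kk • (z : X) ∈ cc τ b ↔ b * Complex.normSq z = z.re + τ * z.im := by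
  rw [← coe_pt z, mem_cc h1 τ b _ (ne1 z)]
  unfold qq ll
  simp only [Matrix.cons_val_zero, Matrix.cons_val_one, map_one, mul_one]
  constructor <;> intro h <;> linarith

lemma mem_Om (h1 : P_PT) (τ : ℝ) (v : Fin 2 → ℂ) (hv : v ≠ 0) :
    kk • pt v ∈ Om τ ↔ ll τ v < 0 := by
  obtain ⟨p1, p2, p3, p4, p5, p6, p7, p8⟩ := h1
  constructor
  · rintro ⟨z, hz, hz2⟩
    have h3 := smul_left_cancel kk hz
    rw [← coe_pt z] at h3
    have h4 := (p2 _ _ (ne1 z) hv).1 h3.symm
    obtain ⟨c, hc, hcv⟩ := h4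
    rw [hcv, ll_smul]
    have : ll τ ![z, 1] = z.re + τ * z.im := by
      unfold ll
      simp
    rw [this]
    exact mul_neg_of_pos_of_neg (Complex.normSq_pos.2 hc) hz2
  · intro h
    have hv1 : v 1 ≠ 0 := by
      intro h0
      unfold ll at h
      rw [h0] at h
      simp at h
    have e : v = (v 1) • ![v 0 / v 1, 1] := by
      funext i
      fin_cases i
      · show v 0 = v 1 * (v 0 / v 1)
        field_simp
      · show v 1 = v 1 * 1
        rw [mul_one]
    refine ⟨v 0 / v 1, ?_, ?_⟩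
    · congr 1
      unfold pt
      rw [if_neg hv1]
    · rw [e, ll_smul] at h
      have h5 : ll τ ![v 0 / v 1, 1] = (v 0 / v 1).re + τ * (v 0 / v 1).im := by
        unfold ll
        simp
      rw [h5] at h
      have h6 := Complex.normSq_pos.2 hv1
      by_contra hcon
      push Not at hcon
      exact absurd (mul_nonneg h6.le hcon) (not_le.2 h)

lemma ex_pt (h1 : P_PT) (p : X) : ∃ v : Fin 2 → ℂ, v ≠ 0 ∧ p = kk • pt v := by
  obtain ⟨v, hv, hp⟩ := h1.1 (kk⁻¹ • p)
  exact ⟨v, hv, by rw [← hp, smul_inv_smul]⟩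

/-- the conjugation of `g0` -/
lemma g0_kk (h1 : P_PT) (v : Fin 2 → ℂ) (hv : v ≠ 0) :
    (![(ph : ℂ) ^ 2 * v 0, (2 - ph) * v 1] : Fin 2 → ℂ) ≠ 0 ∧
    g0 • (kk • pt v) = kk • pt ![(ph : ℂ) ^ 2 * v 0, (2 - ph) * v 1] := by
  obtain ⟨p1, p2, p3, p4, p5, p6, p7, p8⟩ := h1
  have hph := ph_pos
  have hsq : (ph : ℂ) ^ 2 = ph + 1 := by exact_mod_cast ph_sq
  have hδ : (ph : ℂ) ^ 2 * (2 - ph) = 1 := by
    rw [hsq]
    linear_combination -hsq
  have hne : (![(ph : ℂ) ^ 2 * v 0, (2 - ph) * v 1] : Fin 2 → ℂ) ≠ 0 := by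
    intro h
    apply hv
    have a0 : (ph : ℂ) ^ 2 * v 0 = 0 := congrFun h 0
    have a1 : (2 - (ph : ℂ)) * v 1 = 0 := congrFun h 1
    have b0 : v 0 = 0 := by
      calc v 0 = ((ph : ℂ) ^ 2 * (2 - ph)) * v 0 := by rw [hδ, one_mul]
        _ = (2 - ph) * ((ph : ℂ) ^ 2 * v 0) := by ring
        _ = 0 := by rw [a0, mul_zero]
    have b1 : v 1 = 0 := by
      calc v 1 = ((ph : ℂ) ^ 2 * (2 - ph)) * v 1 := by rw [hδ, one_mul]
        _ = (ph : ℂ) ^ 2 * ((2 - ph) * v 1) := by ring
        _ = 0 := by rw [a1, mul_zero]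
    funext i
    fin_cases i
    · exact b0
    · exact b1
  refine ⟨hne, ?_⟩
  rw [(p3 kk v hv).2, (p3 g0 _ (p3 kk v hv).1).2, (p3 kk _ hne).2]
  congr 1
  have e1 : act g0 (act kk v) = ![2 * (ph * v 0 + (-1) * v 1) + 1 * (1 * v 0 + ph * v 1),
      1 * (ph * v 0 + (-1) * v 1) + 1 * (1 * v 0 + ph * v 1)] := rfl
  have e2 : act kk ![(ph : ℂ) ^ 2 * v 0, (2 - ph) * v 1] =
      ![ph * ((ph : ℂ) ^ 2 * v 0) + (-1) * ((2 - ph) * v 1),
        1 * ((ph : ℂ) ^ 2 * v 0) + ph * ((2 - ph) * v 1)] := rfl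
  rw [e1, e2]
  funext i
  fin_cases i
  · show 2 * (ph * v 0 + (-1) * v 1) + 1 * (1 * v 0 + ph * v 1) =
      ph * ((ph : ℂ) ^ 2 * v 0) + (-1) * ((2 - ph) * v 1)
    linear_combination (-(ph : ℂ) * v 0 - v 0) * hsq
  · show 1 * (ph * v 0 + (-1) * v 1) + 1 * (1 * v 0 + ph * v 1) =
      1 * ((ph : ℂ) ^ 2 * v 0) + ph * ((2 - ph) * v 1)
    linear_combination (-v 0 + v 1) * hsq

lemma step (h1 : P_PT) (τ b : ℝ) (p : X) :
    p ∈ cc τ b ↔ g0 • p ∈ cc τ (b * ph ^ (-4 : ℤ)) := by
  obtain ⟨v, hv, rfl⟩ := ex_pt h1 p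
  obtain ⟨hne, he⟩ := g0_kk h1 v hv
  rw [he, mem_cc h1 τ b v hv, mem_cc h1 τ _ _ hne]
  have hph := ph_pos
  have hsq := ph_sq
  have hδ : ph ^ 2 * (2 - ph) = 1 := by
    rw [hsq]
    linear_combination -hsq
  have e : qq τ (b * ph ^ (-4 : ℤ)) ![(ph : ℂ) ^ 2 * v 0, (2 - ph) * v 1] = qq τ b v := by
    have e1 : ll τ ![(ph : ℂ) ^ 2 * v 0, (2 - ph) * v 1] = ph ^ 2 * (2 - ph) * ll τ v := by
      have e2 : (ph : ℂ) ^ 2 * v 0 * (starRingEnd ℂ) ((2 - ph) * v 1) =
          ((ph ^ 2 * (2 - ph) : ℝ) : ℂ) * (v 0 * (starRingEnd ℂ) (v 1)) := by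
        rw [map_mul, map_sub, Complex.conj_ofReal]
        push_cast
        rw [map_ofNat]
        ring
      unfold ll
      simp only [Matrix.cons_val_zero, Matrix.cons_val_one]
      rw [e2, Complex.re_ofReal_mul, Complex.im_ofReal_mul]
      ring
    unfold qq
    rw [e1, hδ, one_mul]
    simp only [Matrix.cons_val_zero]
    rw [map_mul, map_pow, Complex.normSq_ofReal]
    have e3 : (ph : ℝ) ^ (-4 : ℤ) * ((ph * ph) ^ 2) = 1 := by
      rw [_root_.zpow_neg]
      have : (ph : ℝ) ^ (4 : ℤ) = (ph * ph) ^ 2 := by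
        rw [show (4 : ℤ) = ((4 : ℕ) : ℤ) by norm_num, zpow_natCast]
        ring
      rw [this]
      exact inv_mul_cancel₀ (by positivity)
    linear_combination (b * Complex.normSq (v 0)) * e3
  rw [e]

lemma steps (h1 : P_PT) (τ : ℝ) (n : ℤ) : ∀ (b : ℝ) (p : X),
    p ∈ cc τ b ↔ (g0 ^ n) • p ∈ cc τ (b * ph ^ (-(4 * n))) := by
  have hph : (ph : ℝ) ≠ 0 := ph_pos.ne'
  induction n using Int.induction_on with
  | zero =>
    intro b p
    simp
  | succ n ih =>
    intro b p
    rw [ih b p, step h1 τ, ← mul_smul, ← _root_.zpow_one_add, add_comm 1 (n : ℤ)]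
    have e : b * ph ^ (-(4 * (n : ℤ))) * ph ^ (-4 : ℤ) = b * ph ^ (-(4 * ((n : ℤ) + 1))) := by
      rw [mul_assoc, ← zpow_add₀ hph]
      congr 2
      ring
    rw [e]
  | pred n ih =>
    intro b p
    rw [ih b p, step h1 τ (b * ph ^ (-(4 * (-(n : ℤ) - 1)))), ← mul_smul, ← _root_.zpow_one_add]
    have e : b * ph ^ (-(4 * (-(n : ℤ) - 1))) * ph ^ (-4 : ℤ) = b * ph ^ (-(4 * (-(n : ℤ)))) := by
      rw [mul_assoc, ← zpow_add₀ hph]
      congr 2
      ring
    rw [e, show 1 + (-(n : ℤ) - 1) = -(n : ℤ) by ring]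

/-- the closed set in the plane -/
lemma closed0 (τ a : ℝ) (ha : 0 < a) : IsClosed {z : ℂ | a * 0 * Complex.normSq z = z.re + τ * z.im ∨
    ∃ n : ℤ, a * ph ^ (4 * n) * Complex.normSq z = z.re + τ * z.im} := by
  have hph1 : 1 < ph := by
    have h1 := ph_sq
    have h2 := ph_pos
    nlinarith
  have hlog : 0 < Real.log ph := Real.log_pos hph1
  have hc : Continuous fun z : ℂ => z.re + τ * z.im := by fun_prop
  have hcN : Continuous fun z : ℂ => a * Complex.normSq z :=
    continuous_const.mul Complex.continuous_normSq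
  have hS : IsOpen {z : ℂ | 0 < z.re + τ * z.im} := isOpen_lt continuous_const hc
  have hne : ∀ z : ℂ, 0 < z.re + τ * z.im → 0 < Complex.normSq z := by
    intro z hz
    refine Complex.normSq_pos.2 ?_
    rintro rfl
    simp at hz
  have hf : ContinuousOn (fun z : ℂ => Real.log ((z.re + τ * z.im) / (a * Complex.normSq z)) /
      (4 * Real.log ph)) {z : ℂ | 0 < z.re + τ * z.im} := by
    refine ContinuousOn.div_const (ContinuousOn.log (hc.continuousOn.div hcN.continuousOn ?_) ?_) _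
    · intro z hz
      exact (mul_pos ha (hne z hz)).ne'
    · intro z hz
      exact (div_pos hz (mul_pos ha (hne z hz))).ne'
  have hO := hf.isOpen_inter_preimage hS
    (Int.isClosedEmbedding_coe_real.isClosed_range.isOpen_compl)
  have hO2 : IsOpen {z : ℂ | z.re + τ * z.im < 0} := isOpen_lt hc continuous_const
  rw [← isOpen_compl_iff]
  convert hO2.union hO using 1
  ext z
  simp only [Set.mem_compl_iff, Set.mem_setOf_eq, Set.mem_union, Set.mem_inter_iff,
    Set.mem_preimage, Set.mem_range, mul_zero, zero_mul]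
  rcases lt_trichotomy (z.re + τ * z.im) 0 with h | h | h
  · refine ⟨fun _ => Or.inl h, fun _ => ?_⟩
    rintro (h5 | ⟨n, h5⟩)
    · exact h.ne h5.symm
    · have h6 : 0 ≤ a * ph ^ (4 * n) * Complex.normSq z :=
        mul_nonneg (mul_pos ha (zpow_pos (by linarith) _)).le (Complex.normSq_nonneg _)
      rw [h5] at h6
      exact absurd h6 (not_le.2 h)
  · constructor
    · intro h5
      exact absurd (Or.inl h.symm) h5
    · rintro (h5 | ⟨h5, -⟩)
      · exact absurd h h5.ne
      · exact absurd h h5.ne'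
  · have hN := hne z h
    have key : ∀ n : ℤ, a * ph ^ (4 * n) * Complex.normSq z = z.re + τ * z.im ↔
        (n : ℝ) = Real.log ((z.re + τ * z.im) / (a * Complex.normSq z)) / (4 * Real.log ph) := by
      intro n
      have hz := zpow_pos (show (0 : ℝ) < ph by linarith) (4 * n)
      have h7 : Real.log (ph ^ (4 * n)) = (n : ℝ) * (4 * Real.log ph) := by
        rw [Real.log_zpow]
        push_cast
        ring
      rw [eq_div_iff (by positivity), ← h7]
      constructor
      · intro h8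
        congr 1
        rw [eq_div_iff (mul_pos ha hN).ne']
        linarith
      · intro h8
        have h9 := Real.log_injOn_pos (Set.mem_Ioi.2 hz)
          (Set.mem_Ioi.2 (div_pos h (mul_pos ha hN))) h8
        rw [eq_div_iff (mul_pos ha hN).ne'] at h9
        linarith
    constructor
    · intro h5
      refine Or.inr ⟨h, ?_⟩
      rintro ⟨n, hn⟩
      exact h5 (Or.inr ⟨n, (key n).2 hn⟩)
    · rintro (h5 | ⟨-, h5⟩)
      · exact absurd h (not_lt.2 h5.le)
      · rintro (h6 | ⟨n, h6⟩)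
        · exact h.ne h6
        · exact h5 ⟨n, (key n).1 h6⟩

end PkgFC

open PkgFC in
theorem T_FC (h1 : P_PT) (h2 : P_TA) : P_FC := by
  intro τ a ha
  have hinf : ∀ b : ℝ, kk • (∞ : X) ∈ cc τ b ↔ b = 0 := by
    intro b
    rw [← inf_pt, mem_cc h1 τ b _ ne0]
    unfold qq ll
    simp
  have hcont : Continuous fun p : X => kk⁻¹ • p := h2.1 kk⁻¹
  have hRLkk : ∀ x y : ℝ, (![(x : ℂ), (y : ℂ)] : Fin 2 → ℂ) ≠ 0 →
      kk • pt ![(x : ℂ), (y : ℂ)] ∈ RL := by
    intro x y hxy
    rw [(h1.2.2.1 kk _ hxy).2]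
    refine real_pt _ fun i => ?_
    have e : act kk ![(x : ℂ), (y : ℂ)] =
        ![(ph : ℂ) * x + (-1) * y, 1 * (x : ℂ) + ph * y] := rfl
    rw [e]
    fin_cases i <;> simp
  refine ⟨?_, ?_, ?_, ?_, ?_, ?_, ?_, ?_, ?_, ?_, ?_⟩
  · -- closed
    have e : FF τ a = (fun p : X => kk⁻¹ • p) ⁻¹' (insert ∞ ((fun z : ℂ => (z : X)) ''
        {z : ℂ | a * 0 * Complex.normSq z = z.re + τ * z.im ∨
          ∃ n : ℤ, a * ph ^ (4 * n) * Complex.normSq z = z.re + τ * z.im})) := by
      ext p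
      obtain ⟨q, hq⟩ : ∃ q : X, q = kk⁻¹ • p := ⟨_, rfl⟩
      have hp : p = kk • q := by rw [hq, smul_inv_smul]
      rw [Set.mem_preimage, ← hq, hp]
      induction q using OnePoint.rec with
      | infty =>
        refine ⟨fun _ => Set.mem_insert _ _, fun _ => Or.inl ?_⟩
        exact (hinf 0).2 rfl
      | coe z =>
        unfold FF
        rw [Set.mem_union, Set.mem_iUnion, mem_cc_coe h1]
        simp only [mem_cc_coe h1]
        constructor
        · intro h
          refine Set.mem_insert_of_mem _ ⟨z, ?_, rfl⟩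
          simpa using h
        · intro h
          rcases Set.mem_insert_iff.1 h with h | ⟨y, hy, hyz⟩
          · exact absurd h (OnePoint.coe_ne_infty z)
          · have : y = z := OnePoint.coe_injective hyz
            rw [← this]
            simpa using hy
    rw [e]
    refine IsClosed.preimage hcont ?_
    rw [OnePoint.isClosed_iff_of_mem (Set.mem_insert _ _)]
    convert closed0 τ a ha using 1
    ext z
    constructor
    · intro h
      rcases Set.mem_insert_iff.1 h with h | ⟨y, hy, hyz⟩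
      · exact absurd h (OnePoint.coe_ne_infty z)
      · have : y = z := OnePoint.coe_injective hyz
        rw [← this]
        exact hy
    · intro h
      exact Set.mem_insert_of_mem _ ⟨z, h, rfl⟩
  · -- open
    have e : Om τ = (fun p : X => kk⁻¹ • p) ⁻¹' ((fun z : ℂ => (z : X)) ''
        {z : ℂ | z.re + τ * z.im < 0}) := by
      ext p
      constructor
      · rintro ⟨z, hz, hz2⟩
        refine ⟨z, hz2, ?_⟩
        show (z : X) = kk⁻¹ • p
        rw [hz, inv_smul_smul]
      · rintro ⟨z, hz, hz2⟩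
        refine ⟨z, ?_, hz⟩
        have hz3 : (z : X) = kk⁻¹ • p := hz2
        rw [hz3, smul_inv_smul]
    rw [e]
    refine IsOpen.preimage hcont ?_
    rw [OnePoint.isOpen_image_coe]
    exact isOpen_lt (by fun_prop) continuous_const
  · intro b hb
    rw [Set.eq_empty_iff_forall_notMem]
    rintro p ⟨hp1, hp2⟩
    obtain ⟨v, hv, rfl⟩ := ex_pt h1 p
    rw [mem_cc h1 τ b v hv] at hp1
    rw [mem_Om h1 τ v hv] at hp2
    unfold qq at hp1
    have := mul_nonneg hb (Complex.normSq_nonneg (v 0))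
    linarith
  · intro b n
    ext p
    constructor
    · rintro ⟨q, hq, rfl⟩
      exact (steps h1 τ n b q).1 hq
    · intro hp
      refine ⟨(g0 ^ n)⁻¹ • p, ?_, ?_⟩
      · rw [steps h1 τ n b, smul_inv_smul]
        exact hp
      · show (g0 ^ n) • ((g0 ^ n)⁻¹ • p) = p
        rw [smul_inv_smul]
  · exact ⟨-1, rfl, by simp⟩
  · have := hRLkk (-1) 1 (by
      intro h
      have := congrFun h 1
      simp at this)
    rw [← coe_pt (-1)]
    simpa using this
  · have := hRLkk 1 0 (by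
      intro h
      have := congrFun h 0
      simp at this)
    rw [← inf_pt]
    simpa using this
  · have := hRLkk 0 1 (by
      intro h
      have := congrFun h 1
      simp at this)
    rw [← coe_pt 0]
    simpa using this
  · intro b hb h
    exact hb.ne' ((hinf b).1 h)
  · exact (hinf 0).2 rfl
  · rw [mem_cc_coe h1]
    simp

end Pool.Agent.T2H64.AP
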