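import Pool.Agent.T2H64.AP.Stm

set_option autoImplicit false

namespace Pool.Agent.T2H64.AP

open Matrix Complex OnePoint Topology Filter Set

namespace PkgFD

lemma mk_apply (a b c d : ℂ) (h : a * d - b * c ≠ 0) :
    mk a b c d h 0 0 = a ∧ mk a b c d h 0 1 = b ∧ mk a b c d h 1 0 = c ∧ mk a b c d h 1 1 = d := by
  refine ⟨?_, ?_, ?_, ?_⟩ <;> simp [mk]

lemma act_mk (a b c d : ℂ) (h : a * d - b * c ≠ 0) (v : Fin 2 → ℂ) :
    act (mk a b c d h) v = ![a * v 0 + b * v 1, c * v 0 + d * v 1] := by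
  obtain ⟨h1, h2, h3, h4⟩ := mk_apply a b c d h
  unfold act
  rw [h1, h2, h3, h4]

lemma inv_eq : g0⁻¹ = mk 1 (-1) (-1) 2 (by norm_num) := by
  refine inv_eq_of_mul_eq_one_right ?_
  ext i j
  fin_cases i <;> fin_cases j <;>
    simp [g0, mk, Matrix.mul_apply, Fin.sum_univ_two] <;> norm_num

lemma nn_pos {v : Fin 2 → ℂ} (hv : v ≠ 0) : 0 < nn v := by
  unfold nn
  by_contra hcon
  push Not at hcon
  have h0 := Complex.normSq_nonneg (v 0)
  have h1 := Complex.normSq_nonneg (v 1)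
  have e0 : v 0 = 0 := Complex.normSq_eq_zero.1 (by linarith)
  have e1 : v 1 = 0 := Complex.normSq_eq_zero.1 (by linarith)
  apply hv
  ext i
  fin_cases i
  · exact e0
  · exact e1

lemma ph_lt : ph < 2 := by
  have h := ph_sq
  have h0 := ph_pos
  nlinarith

lemma ph_gt : 1 < ph := by
  have h := ph_sq
  have h0 := ph_pos
  nlinarith

end PkgFD

open PkgFD in
theorem T_FD (h1 : P_PT) (h2 : P_EE) (h3 : P_SZ) : P_FD := by
  obtain ⟨hp, -, hact, -⟩ := h1
  obtain ⟨hE, -⟩ := h2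
  have hphlt := ph_lt
  have hphgt := ph_gt
  have hsq := ph_sq
  refine ⟨?_, ?_, ?_, ?_⟩
  · have hv : (![1, 0] : Fin 2 → ℂ) ≠ 0 := by
      intro h; have := congrFun h 0; simp at this
    have e1 : (∞ : X) = pt ![1, 0] := by simp [pt]
    rw [e1, (hact kk _ hv).2]
    have hv2 := (hact kk _ hv).1
    rw [((hE g0⁻¹ _ hv2).1), inv_eq, act_mk, kk, act_mk]
    simp only [nn, Matrix.cons_val_zero, Matrix.cons_val_one]
    have e2 : (1 : ℂ) * (↑ph * 1 + -1 * 0) + -1 * (1 * 1 + ↑ph * 0) = ((ph - 1 : ℝ) : ℂ) := by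
      push_cast; ring
    have e3 : (-1 : ℂ) * (↑ph * 1 + -1 * 0) + 2 * (1 * 1 + ↑ph * 0) = ((2 - ph : ℝ) : ℂ) := by
      push_cast; ring
    have e4 : ((ph : ℂ) * 1 + -1 * 0) = ((ph : ℝ) : ℂ) := by ring
    have e5 : ((1 : ℂ) * 1 + ↑ph * 0) = ((1 : ℝ) : ℂ) := by push_cast; ring
    rw [e2, e3, e4, e5]
    simp only [Complex.normSq_ofReal]
    nlinarith
  · have hv : (![0, 1] : Fin 2 → ℂ) ≠ 0 := by
      intro h; have := congrFun h 1; simp at this
    have e1 : (((0 : ℂ) : OnePoint ℂ) : X) = pt ![0, 1] := by simp [pt]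
    rw [e1, (hact kk _ hv).2]
    have hv2 := (hact kk _ hv).1
    rw [((hE g0 _ hv2).1), g0, act_mk, kk, act_mk]
    simp only [nn, Matrix.cons_val_zero, Matrix.cons_val_one]
    have e2 : (2 : ℂ) * (↑ph * 0 + -1 * 1) + 1 * (1 * 0 + ↑ph * 1) = ((ph - 2 : ℝ) : ℂ) := by
      push_cast; ring
    have e3 : (1 : ℂ) * (↑ph * 0 + -1 * 1) + 1 * (1 * 0 + ↑ph * 1) = ((ph - 1 : ℝ) : ℂ) := by
      push_cast; ring
    have e4 : ((ph : ℂ) * 0 + -1 * 1) = ((-1 : ℝ) : ℂ) := by push_cast; ring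
    have e5 : ((1 : ℂ) * 0 + ↑ph * 1) = ((ph : ℝ) : ℂ) := by ring
    rw [e2, e3, e4, e5]
    simp only [Complex.normSq_ofReal]
    nlinarith
  · rw [Set.eq_empty_iff_forall_notMem]
    rintro p ⟨ha, hb⟩
    obtain ⟨v, hv, rfl⟩ := hp p
    rw [(hE _ v hv).2] at ha hb
    rw [g0, act_mk] at ha
    rw [inv_eq, act_mk] at hb
    have hpos := nn_pos hv
    simp only [nn, Matrix.cons_val_zero, Matrix.cons_val_one, Complex.normSq_apply,
      Complex.add_re, Complex.add_im, Complex.mul_re, Complex.mul_im, Complex.neg_re,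
      Complex.neg_im, Complex.one_re, Complex.one_im, Complex.re_ofNat, Complex.im_ofNat] at ha hb hpos
    nlinarith
  · refine h3 g0 ?_ ?_
    · intro i j
      obtain ⟨a1, a2, a3, a4⟩ := mk_apply 2 1 1 1 (by norm_num)
      fin_cases i <;> fin_cases j
      · exact ⟨2, by simpa [g0] using a1⟩
      · exact ⟨1, by simpa [g0] using a2⟩
      · exact ⟨1, by simpa [g0] using a3⟩
      · exact ⟨1, by simpa [g0] using a4⟩
    · obtain ⟨a1, a2, a3, a4⟩ := mk_apply 2 1 1 1 (by norm_num)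
      rw [g0, a1, a2, a3, a4]; norm_num

end Pool.Agent.T2H64.AP
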