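import Pool.Agent.T2H64.AP.Stm

set_option autoImplicit false

namespace Pool.Agent.T2H64.AP

open Matrix Complex OnePoint Topology Filter Set

namespace PkgGE

theorem ph_irr : Irrational ph := by
  have h := Real.goldenRatio_irrational
  have e : ph = Real.goldenRatio := rfl
  rw [e]
  exact h

theorem ph_int (m n : ℤ) (h : (m : ℝ) = ph * n) : n = 0 := by
  by_contra hn
  have hn' : (n : ℝ) ≠ 0 := by exact_mod_cast hn
  apply ph_irr
  refine ⟨(m : ℚ) / n, ?_⟩
  push_cast
  rw [h]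
  field_simp

/-- the cusps are not the fixed points of `g0` -/
theorem cusp_ne (h : G) (hh : GI h) : h • (∞ : X) ≠ ((ph : ℂ) : X) ∧ h • (∞ : X) ≠ ((-(1 / ph : ℂ) : ℂ) : X) := by
  obtain ⟨he, hd⟩ := hh
  obtain ⟨m, n, h1⟩ := he 0 0
  obtain ⟨m', n', h2⟩ := he 1 0
  have hph : (ph : ℂ) ≠ 0 := by
    exact_mod_cast ph_pos.ne'
  rw [OnePoint.smul_infty_eq_ite]
  by_cases h0 : h 1 0 = 0
  · rw [if_pos h0]
    exact ⟨(OnePoint.coe_ne_infty _).symm, (OnePoint.coe_ne_infty _).symm⟩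
  · rw [if_neg h0]
    constructor
    · intro e
      have e' : h 0 0 / h 1 0 = (ph : ℂ) := by exact_mod_cast e
      rw [div_eq_iff h0, h1, h2] at e'
      have er := congrArg Complex.re e'
      have ei := congrArg Complex.im e'
      simp at er ei
      have a1 := ph_int m m' er
      have a2 := ph_int n n' ei
      apply h0
      rw [h2, a1, a2]
      simp
    · intro e
      have e' : h 0 0 / h 1 0 = -(1 / (ph : ℂ)) := by exact_mod_cast e
      rw [div_eq_iff h0] at e'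
      have e2 : h 1 0 = -(ph : ℂ) * h 0 0 := by
        rw [e']
        field_simp
      rw [h1, h2] at e2
      have er := congrArg Complex.re e2
      have ei := congrArg Complex.im e2
      simp at er ei
      have a1 := ph_int (-m') m (by push_cast; linarith)
      have a2 := ph_int (-n') n (by push_cast; linarith)
      have b1 : m' = 0 := by
        have : (m' : ℝ) = 0 := by rw [er, a1]; simp
        exact_mod_cast this
      have b2 : n' = 0 := by
        have : (n' : ℝ) = 0 := by rw [ei, a2]; simp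
        exact_mod_cast this
      apply h0
      rw [h2, b1, b2]
      simp

theorem mk_entries (a b c d : ℂ) (h : a * d - b * c ≠ 0) :
    (mk a b c d h) 0 0 = a ∧ (mk a b c d h) 0 1 = b ∧ (mk a b c d h) 1 0 = c ∧ (mk a b c d h) 1 1 = d := by
  refine ⟨rfl, rfl, rfl, rfl⟩

theorem kk_inf : kk • (∞ : X) = ((ph : ℂ) : X) := by
  rw [OnePoint.smul_infty_eq_ite]
  have h1 : kk 1 0 = 1 := rfl
  have h2 : kk 0 0 = (ph : ℂ) := rfl
  rw [h1, h2, if_neg one_ne_zero, div_one]

theorem kk_zero : kk • ((0 : ℂ) : X) = ((-(1 / ph : ℂ) : ℂ) : X) := by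
  rw [OnePoint.smul_some_eq_ite]
  have h1 : kk 1 0 = 1 := rfl
  have h2 : kk 0 0 = (ph : ℂ) := rfl
  have h3 : kk 1 1 = (ph : ℂ) := rfl
  have h4 : kk 0 1 = (-1 : ℂ) := rfl
  have hph : (ph : ℂ) ≠ 0 := by
    exact_mod_cast ph_pos.ne'
  rw [h1, h2, h3, h4, mul_zero, zero_add, if_neg hph]
  congr 1
  ring

/-- the equation of the circle -/
theorem eqn (τ b : ℝ) (ζ : ℂ) (h : (ζ : X) ∈ cir (Mr τ b)) :
    b * Complex.normSq ζ = ζ.re + τ * ζ.im := by
  obtain ⟨w, hw, e⟩ := h
  have m00 : (Mr τ b) 0 0 = I * (1 + I * τ) := rfl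
  have m01 : (Mr τ b) 0 1 = 0 := rfl
  have m10 : (Mr τ b) 1 0 = I * (b : ℂ) := rfl
  have m11 : (Mr τ b) 1 1 = 1 := rfl
  rcases hw with hw | ⟨x, hx⟩
  · rw [hw] at e
    simp only at e
    change (Mr τ b) • (∞ : X) = (ζ : X) at e
    rw [OnePoint.smul_infty_eq_ite, m00, m10] at e
    by_cases hb : I * (b : ℂ) = 0
    · rw [if_pos hb] at e
      exact absurd e.symm (OnePoint.coe_ne_infty _)
    · rw [if_neg hb] at e
      have e' : I * (1 + I * (τ : ℂ)) / (I * (b : ℂ)) = ζ := by exact_mod_cast e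
      have hb' : (b : ℂ) ≠ 0 := fun h => hb (by rw [h, mul_zero])
      have hb'' : b ≠ 0 := by exact_mod_cast hb'
      rw [div_eq_iff hb] at e'
      have e2 : (b : ℂ) * ζ = 1 + I * τ := by
        have := congrArg (fun u => -I * u) e'
        have hI := Complex.I_mul_I
        linear_combination (-1 : ℂ) * this + (-(1 + I * (τ : ℂ)) + ζ * b) * hI
      have er := congrArg Complex.re e2
      have ei := congrArg Complex.im e2
      simp at er ei
      rw [Complex.normSq_apply]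
      have : b * (b * (ζ.re * ζ.re + ζ.im * ζ.im)) = b * (ζ.re + τ * ζ.im) := by
        calc b * (b * (ζ.re * ζ.re + ζ.im * ζ.im)) = (b * ζ.re) * (b * ζ.re) + (b * ζ.im) * (b * ζ.im) := by ring
          _ = 1 + τ * τ := by rw [er, ei]; ring
          _ = b * ζ.re + τ * (b * ζ.im) := by rw [er, ei]
          _ = _ := by ring
      exact mul_left_cancel₀ hb'' this
  · rw [← hx] at e
    simp only at e
    change (Mr τ b) • ((x : ℂ) : X) = (ζ : X) at e
    rw [OnePoint.smul_some_eq_ite, m00, m01, m10, m11] at e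
    have hd : I * (b : ℂ) * (x : ℂ) + 1 ≠ 0 := by
      intro h
      have := congrArg Complex.re h
      simp at this
    rw [if_neg hd] at e
    have e' : (I * (1 + I * (τ : ℂ)) * (x : ℂ) + 0) / (I * (b : ℂ) * (x : ℂ) + 1) = ζ := by exact_mod_cast e
    rw [div_eq_iff hd] at e'
    have er := congrArg Complex.re e'
    have ei := congrArg Complex.im e'
    simp at er ei
    rw [Complex.normSq_apply]
    linear_combination (1 - b * ζ.re) * er + (τ - b * ζ.im) * ei

theorem mem_cc (τ b : ℝ) (p : X) (h : kk • p ∈ cc τ b) : p ∈ cir (Mr τ b) := by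
  obtain ⟨w, hw, e⟩ := h
  refine ⟨w, hw, ?_⟩
  simp only at e ⊢
  rw [mul_smul] at e
  exact smul_left_cancel _ e

/-- the cusps -/
def C : Set X := {q | ∃ h : G, GI h ∧ q = h • (∞ : X)}

theorem C_countable : C.Countable := by
  let f : ℤ × ℤ × ℤ × ℤ → X := fun t =>
    if ((t.2.2.1 : ℂ) + (t.2.2.2 : ℂ) * I) = 0 then (∞ : X) else
      ((((t.1 : ℂ) + (t.2.1 : ℂ) * I) / ((t.2.2.1 : ℂ) + (t.2.2.2 : ℂ) * I) : ℂ) : X)
  refine (Set.countable_range f).mono ?_
  rintro q ⟨h, ⟨he, -⟩, rfl⟩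
  obtain ⟨m, n, h1⟩ := he 0 0
  obtain ⟨m', n', h2⟩ := he 1 0
  refine ⟨(m, n, m', n'), ?_⟩
  rw [OnePoint.smul_infty_eq_ite, h1, h2]

/-- every cusp is `kk • ζ` with `ζ ≠ 0` -/
theorem cusp_rep (q : X) (hq : q ∈ C) : ∃ ζ : ℂ, ζ ≠ 0 ∧ q = kk • (ζ : X) := by
  obtain ⟨h, hh, rfl⟩ := hq
  obtain ⟨h1, h2⟩ := cusp_ne h hh
  have hrep : h • (∞ : X) = kk • (kk⁻¹ • (h • (∞ : X))) := (smul_inv_smul _ _).symm
  generalize hp : kk⁻¹ • (h • (∞ : X)) = p at hrep
  induction p using OnePoint.rec with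
  | infty =>
    rw [kk_inf] at hrep
    exact absurd hrep h1
  | coe z =>
    refine ⟨z, ?_, hrep⟩
    rintro rfl
    rw [kk_zero] at hrep
    exact h2 hrep

end PkgGE

open PkgGE in
theorem T_GE : P_GE := by
  have hB1 : (⋃ q ∈ C, {τ : ℝ | q ∈ cc τ 0}).Countable := by
    refine C_countable.biUnion fun q hq => ?_
    refine Set.Subsingleton.countable ?_
    intro τ hτ τ' hτ'
    obtain ⟨ζ, hζ, rfl⟩ := cusp_rep q hq
    have e1 := eqn τ 0 ζ (mem_cc τ 0 _ hτ)
    have e2 := eqn τ' 0 ζ (mem_cc τ' 0 _ hτ')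
    rw [zero_mul] at e1 e2
    by_cases him : ζ.im = 0
    · exfalso
      apply hζ
      rw [him] at e1
      apply Complex.ext
      · simp only [Complex.zero_re]
        linarith
      · simpa using him
    · have : (τ - τ') * ζ.im = 0 := by linear_combination e2 - e1
      rcases mul_eq_zero.mp this with h | h
      · linarith
      · exact absurd h him
  obtain ⟨τ, hτ⟩ := (hB1.dense_compl ℝ).nonempty
  have hB2 : (⋃ q ∈ C, ⋃ n : ℤ, {a : ℝ | q ∈ cc τ (a * ph ^ (4 * n))}).Countable := by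
    refine C_countable.biUnion fun q hq => ?_
    refine Set.countable_iUnion fun n => ?_
    refine Set.Subsingleton.countable ?_
    intro a ha a' ha'
    obtain ⟨ζ, hζ, rfl⟩ := cusp_rep q hq
    have e1 := eqn τ _ ζ (mem_cc τ _ _ ha)
    have e2 := eqn τ _ ζ (mem_cc τ _ _ ha')
    have hn : 0 < Complex.normSq ζ := Complex.normSq_pos.mpr hζ
    have hp : 0 < ph ^ (4 * n) := zpow_pos ph_pos _
    have : (a - a') * (ph ^ (4 * n) * Complex.normSq ζ) = 0 := by linear_combination e1 - e2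
    rcases mul_eq_zero.mp this with h | h
    · linarith
    · exact absurd h (by positivity)
  obtain ⟨a, ha0, ha⟩ := (hB2.dense_compl ℝ).inter_open_nonempty (Set.Ioi 0) isOpen_Ioi ⟨1, Set.mem_Ioi.mpr one_pos⟩
  refine ⟨τ, a, ha0, fun h hh hF => ?_⟩
  have hC : h • (∞ : X) ∈ C := ⟨h, hh, rfl⟩
  rcases hF with hF | hF
  · apply hτ
    simp only [Set.mem_iUnion]
    exact ⟨_, hC, hF⟩
  · obtain ⟨n, hn⟩ := Set.mem_iUnion.mp hF
    apply ha
    simp only [Set.mem_iUnion]
    exact ⟨_, hC, n, hn⟩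

end Pool.Agent.T2H64.AP
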