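import Pool.Agent.T2H64.AP.Stm

set_option autoImplicit false

namespace Pool.Agent.T2H64.AP

open Matrix Complex OnePoint Topology Filter Set

namespace PkgGR

theorem coe_mul_apply (g h : G) (i j : Fin 2) : (g * h) i j = g i 0 * h 0 j + g i 1 * h 1 j := by
  have : ((g * h : G) : Matrix (Fin 2) (Fin 2) ℂ) = (g : Matrix (Fin 2) (Fin 2) ℂ) * (h : Matrix (Fin 2) (Fin 2) ℂ) := rfl
  show ((g * h : G) : Matrix (Fin 2) (Fin 2) ℂ) i j = _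
  rw [this, Matrix.mul_apply, Fin.sum_univ_two]

theorem gauss_mul {z w : ℂ} (hz : ∃ m n : ℤ, z = (m : ℂ) + (n : ℂ) * I) (hw : ∃ m n : ℤ, w = (m : ℂ) + (n : ℂ) * I) :
    ∃ m n : ℤ, z * w = (m : ℂ) + (n : ℂ) * I := by
  obtain ⟨a, b, rfl⟩ := hz
  obtain ⟨c, d, rfl⟩ := hw
  refine ⟨a * c - b * d, a * d + b * c, ?_⟩
  push_cast
  linear_combination (b : ℂ) * d * I_mul_I

theorem gauss_add {z w : ℂ} (hz : ∃ m n : ℤ, z = (m : ℂ) + (n : ℂ) * I) (hw : ∃ m n : ℤ, w = (m : ℂ) + (n : ℂ) * I) :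
    ∃ m n : ℤ, z + w = (m : ℂ) + (n : ℂ) * I := by
  obtain ⟨a, b, rfl⟩ := hz
  obtain ⟨c, d, rfl⟩ := hw
  refine ⟨a + c, b + d, ?_⟩
  push_cast
  ring

theorem gauss_neg {z : ℂ} (hz : ∃ m n : ℤ, z = (m : ℂ) + (n : ℂ) * I) :
    ∃ m n : ℤ, -z = (m : ℂ) + (n : ℂ) * I := by
  obtain ⟨a, b, rfl⟩ := hz
  refine ⟨-a, -b, ?_⟩
  push_cast
  ring

theorem inv_entries (g : G) (hg : g 0 0 * g 1 1 - g 0 1 * g 1 0 = 1) :
    (g⁻¹ : G) 0 0 = g 1 1 ∧ (g⁻¹ : G) 0 1 = - g 0 1 ∧ (g⁻¹ : G) 1 0 = - g 1 0 ∧ (g⁻¹ : G) 1 1 = g 0 0 := by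
  have h1 : ((g⁻¹ : G) : Matrix (Fin 2) (Fin 2) ℂ) = ((g : Matrix (Fin 2) (Fin 2) ℂ))⁻¹ :=
    Matrix.coe_units_inv g
  have h2 : (g : Matrix (Fin 2) (Fin 2) ℂ).det = 1 := by
    rw [Matrix.det_fin_two]; exact hg
  have h3 : ((g : Matrix (Fin 2) (Fin 2) ℂ))⁻¹ = !![g 1 1, -g 0 1; -g 1 0, g 0 0] := by
    rw [Matrix.inv_def, h2, Ring.inverse_one, one_smul, Matrix.adjugate_fin_two]
  rw [h3] at h1
  refine ⟨?_, ?_, ?_, ?_⟩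
  · show ((g⁻¹ : G) : Matrix (Fin 2) (Fin 2) ℂ) 0 0 = _
    rw [h1]; rfl
  · show ((g⁻¹ : G) : Matrix (Fin 2) (Fin 2) ℂ) 0 1 = _
    rw [h1]; rfl
  · show ((g⁻¹ : G) : Matrix (Fin 2) (Fin 2) ℂ) 1 0 = _
    rw [h1]; rfl
  · show ((g⁻¹ : G) : Matrix (Fin 2) (Fin 2) ℂ) 1 1 = _
    rw [h1]; rfl

end PkgGR

open PkgGR in
theorem T_GR (hTG : P_TG) (hTA : P_TA) : P_GR := by
  obtain ⟨-, himg, himg1, -, -, -, -, hc1, -⟩ := hTG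
  have hStabInv : ∀ g : G, StabP g → StabP g⁻¹ := by
    intro g hg S
    have h := hg (img g⁻¹ S)
    rw [himg, mul_inv_cancel, himg1] at h
    exact h.symm
  have hsub : ∀ g : G, StabP g → ∀ p : X, p ∈ Lam → g • p ∈ Lam := by
    intro g hg p hp
    have h1 : (fun p : X => g • p) '' (⋃₀ PP) ⊆ ⋃₀ PP := by
      rintro _ ⟨q, ⟨S, hS, hq⟩, rfl⟩
      exact ⟨img g S, (hg S).1 hS, ⟨q, hq, rfl⟩⟩
    have h2 : g • p ∈ (fun p : X => g • p) '' closure (⋃₀ PP) := ⟨p, hp, rfl⟩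
    exact closure_mono h1 (image_closure_subset_closure_image (hTA.1 g) h2)
  refine ⟨⟨⟨?_, ?_⟩, ?_⟩, ?_, ?_, ?_, hStabInv, ?_, ?_, isClosed_closure⟩
  · intro i j
    have e : (1 : G) i j = (1 : Matrix (Fin 2) (Fin 2) ℂ) i j := rfl
    rw [e, Matrix.one_apply]
    split_ifs
    · exact ⟨1, 0, by simp⟩
    · exact ⟨0, 0, by simp⟩
  · have e : ∀ i j, (1 : G) i j = (1 : Matrix (Fin 2) (Fin 2) ℂ) i j := fun i j => rfl
    rw [e, e, e, e]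
    simp
  · intro S
    rw [himg1]
  · rintro g h ⟨hg1, hg2⟩ ⟨hh1, hh2⟩
    refine ⟨?_, ?_⟩
    · intro i j
      rw [coe_mul_apply]
      exact gauss_add (gauss_mul (hg1 i 0) (hh1 0 j)) (gauss_mul (hg1 i 1) (hh1 1 j))
    · rw [coe_mul_apply, coe_mul_apply, coe_mul_apply, coe_mul_apply]
      linear_combination (h 0 0 * h 1 1 - h 0 1 * h 1 0) * hg2 + hh2
  · rintro g ⟨hg1, hg2⟩
    obtain ⟨e1, e2, e3, e4⟩ := inv_entries g hg2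
    refine ⟨?_, ?_⟩
    · intro i j
      fin_cases i <;> fin_cases j
      · show ∃ m n : ℤ, (g⁻¹ : G) 0 0 = (m : ℂ) + (n : ℂ) * I
        rw [e1]; exact hg1 1 1
      · show ∃ m n : ℤ, (g⁻¹ : G) 0 1 = (m : ℂ) + (n : ℂ) * I
        rw [e2]; exact gauss_neg (hg1 0 1)
      · show ∃ m n : ℤ, (g⁻¹ : G) 1 0 = (m : ℂ) + (n : ℂ) * I
        rw [e3]; exact gauss_neg (hg1 1 0)
      · show ∃ m n : ℤ, (g⁻¹ : G) 1 1 = (m : ℂ) + (n : ℂ) * I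
        rw [e4]; exact hg1 0 0
    · rw [e1, e2, e3, e4]
      linear_combination hg2
  · intro g h hg hh S
    rw [← himg]
    exact (hh S).trans (hg _)
  · intro g hg p
    refine ⟨hsub g hg p, fun h => ?_⟩
    have h2 := hsub g⁻¹ (hStabInv g hg) _ h
    rwa [inv_smul_smul] at h2
  · intro p hp
    refine subset_closure ⟨cir 1, ?_, by rw [hc1]; exact hp⟩
    intro F hF
    exact hF.1

end Pool.Agent.T2H64.AP
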