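import Pool.Agent.T2H64.AP.Stm

/-!
# Package LD: orbits accumulate at all points of `Lam`
-/

set_option autoImplicit false

namespace Pool.Agent.T2H64.AP

open Matrix Complex OnePoint Topology Filter Set

theorem T_LD (hEE : P_EE) (hTA : P_TA) (hTC : P_TC) : P_LD := by
  intro F A hFam hU z p hp
  obtain ⟨-, hsub, -, hout⟩ := hEE
  obtain ⟨h0, -, hdis, hpair, -⟩ := hFam
  set O : Set X := {w : OnePoint ℂ | ∃ g ∈ Subgroup.closure A, w = g • z} with hO
  have hclosed : IsClosed (derivedSet O) := isClosed_derivedSet O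
  rw [← hclosed.closure_eq, mem_closure_iff]
  intro U hUo hpU
  obtain ⟨g, hg, γ, hγ, hgg, hin⟩ := hU U hUo ⟨p, hpU, hp⟩
  have hgc : g ∈ Subgroup.closure A := Subgroup.subset_closure hg
  have h0c : g0 ∈ Subgroup.closure A := Subgroup.subset_closure h0
  -- a point of the orbit outside the two discs
  obtain ⟨z', hz'O, hz'⟩ : ∃ z' ∈ O, z' ∉ Ec g ∪ Ec g⁻¹ := by
    by_cases hz : z ∈ Ec g ∪ Ec g⁻¹
    · refine ⟨g0 • z, ⟨g0, h0c, rfl⟩, ?_⟩
      have hd := hpair g hg g0 h0 hgg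
      have h1 : z ∉ Ec g0 := by
        intro h
        have : z ∈ (Ec g ∪ Ec g⁻¹) ∩ (Ec g0 ∪ Ec g0⁻¹) := ⟨hz, Or.inl h⟩
        rw [hd] at this
        exact this
      have h2 := hsub _ (hout g0 z h1)
      intro h
      have : g0 • z ∈ (Ec g ∪ Ec g⁻¹) ∩ (Ec g0 ∪ Ec g0⁻¹) := ⟨h, Or.inr h2⟩
      rw [hd] at this
      exact this
    · exact ⟨z, ⟨1, one_mem _, (one_smul _ _).symm⟩, hz⟩
  have hz1 : z' ∉ Ec g := fun h => hz' (Or.inl h)
  have hz2 : z' ∉ Ec g⁻¹ := fun h => hz' (Or.inr h)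
  have hpow : ∀ n : ℕ, g ^ (n + 1) • z' ∈ Ec g⁻¹ := by
    intro n
    induction n with
    | zero => simpa using hsub _ (hout g z' hz1)
    | succ n ih =>
      have h1 : g ^ (n + 1) • z' ∉ Ec g := by
        intro h
        have : g ^ (n + 1) • z' ∈ Ec g ∩ Ec g⁻¹ := ⟨h, ih⟩
        rw [hdis g hg] at this
        exact this
      have h2 := hsub _ (hout g _ h1)
      rw [pow_succ', mul_smul]
      exact h2
  have hinj : Function.Injective (fun n : ℕ => g ^ (n + 1) • z') := by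
    have key : ∀ n d : ℕ, g ^ (n + 1) • z' ≠ g ^ (n + (d + 1) + 1) • z' := by
      intro n d h
      have e : g ^ (n + (d + 1) + 1) = g ^ (n + 1) * g ^ (d + 1) := by
        rw [← pow_add]; congr 1; omega
      rw [e, mul_smul] at h
      have h3 := MulAction.injective (g ^ (n + 1)) h
      exact hz2 (h3 ▸ hpow d)
    intro n m h
    simp only at h
    rcases lt_trichotomy n m with hlt | heq | hgt
    · exfalso
      obtain ⟨d, rfl⟩ := Nat.exists_eq_add_of_lt hlt
      exact key n d (by simpa [add_assoc] using h)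
    · exact heq
    · exfalso
      obtain ⟨d, rfl⟩ := Nat.exists_eq_add_of_lt hgt
      exact key m d (by simpa [add_assoc] using h.symm)
  set S : Set X := Set.range (fun n : ℕ => g ^ (n + 1) • z') with hS
  have hSinf : S.Infinite := Set.infinite_range_of_injective hinj
  have hSsub : S ⊆ Ec g⁻¹ := by
    rintro _ ⟨n, rfl⟩
    exact hpow n
  have hcomp : IsCompact (Ec g⁻¹) := (hTC g⁻¹).2.isCompact
  obtain ⟨q, hq, hacc⟩ := hSinf.exists_accPt_of_subset_isCompact hcomp hSsub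
  refine ⟨γ⁻¹ • q, hin q hq, ?_⟩
  have hm : AccPt (γ⁻¹ • q) (map (fun w : X => γ⁻¹ • w) (𝓟 S)) :=
    hacc.map (hTA.1 γ⁻¹).continuousAt (MulAction.injective γ⁻¹)
  rw [mem_derivedSet]
  refine hm.mono ?_
  rw [map_principal, le_principal_iff, mem_principal]
  rintro _ ⟨_, ⟨n, rfl⟩, rfl⟩
  obtain ⟨δ, hδ, rfl⟩ := hz'O
  refine ⟨γ⁻¹ * (g ^ (n + 1) * δ), ?_, ?_⟩
  · exact mul_mem (inv_mem hγ) (mul_mem (pow_mem hgc _) hδ)
  · simp only [mul_smul]

end Pool.Agent.T2H64.AP
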