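import Pool.Agent.T2H64.AP.Stm

set_option autoImplicit false
set_option maxHeartbeats 1000000

namespace Pool.Agent.T2H64.AP

open Matrix Complex OnePoint Topology Filter Set

/-- Gaussian integers of bounded modulus -/
def LU_GB (R : ℝ) : Set ℂ := {x : ℂ | (∃ m n : ℤ, x = (m : ℂ) + (n : ℂ) * I) ∧ ‖x‖ ≤ R}

theorem LU_fin (R : ℝ) : (LU_GB R).Finite := by
  have hf : (Set.image2 (fun m n : ℤ => (m : ℂ) + (n : ℂ) * I)
      (Set.Icc (-⌈R⌉) ⌈R⌉) (Set.Icc (-⌈R⌉) ⌈R⌉)).Finite :=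
    Set.Finite.image2 _ (Set.finite_Icc _ _) (Set.finite_Icc _ _)
  refine hf.subset ?_
  rintro x ⟨⟨m, n, rfl⟩, hx⟩
  have hre : ((m : ℂ) + (n : ℂ) * I).re = m := by simp
  have him : ((m : ℂ) + (n : ℂ) * I).im = n := by simp
  have h1 := (Complex.abs_re_le_norm ((m : ℂ) + (n : ℂ) * I)).trans hx
  have h2 := (Complex.abs_im_le_norm ((m : ℂ) + (n : ℂ) * I)).trans hx
  rw [hre] at h1
  rw [him] at h2
  have hc := Int.le_ceil R
  refine ⟨m, ?_, n, ?_, rfl⟩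
  · rw [Set.mem_Icc, ← abs_le]
    have : (|m| : ℝ) ≤ (⌈R⌉ : ℝ) := h1.trans hc
    exact_mod_cast this
  · rw [Set.mem_Icc, ← abs_le]
    have : (|n| : ℝ) ≤ (⌈R⌉ : ℝ) := h2.trans hc
    exact_mod_cast this

theorem LU_int (x : ℂ) (hx : ∃ m n : ℤ, x = (m : ℂ) + (n : ℂ) * I) (h0 : x ≠ 0) : 1 ≤ ‖x‖ := by
  obtain ⟨m, n, rfl⟩ := hx
  have hsq : ‖(m : ℂ) + (n : ℂ) * I‖ ^ 2 = (m : ℝ) ^ 2 + (n : ℝ) ^ 2 := by
    rw [← Complex.normSq_eq_norm_sq, Complex.normSq_apply]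
    simp
    ring
  have h1 : (1 : ℝ) ≤ (m : ℝ) ^ 2 + (n : ℝ) ^ 2 := by
    have : 1 ≤ m ^ 2 + n ^ 2 := by
      by_contra hlt
      have hz : m ^ 2 + n ^ 2 = 0 := by nlinarith [sq_nonneg m, sq_nonneg n]
      have hm : m = 0 := by nlinarith [sq_nonneg m, sq_nonneg n]
      have hn : n = 0 := by nlinarith [sq_nonneg m, sq_nonneg n]
      exact h0 (by rw [hm, hn]; simp)
    exact_mod_cast this
  nlinarith [norm_nonneg ((m : ℂ) + (n : ℂ) * I)]

/-- the entries are bounded -/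
theorem LU_bound (a b c d z w : ℂ) (δ ε : ℝ) (hδ : 0 < δ) (hε : 0 < ε)
    (ha : ∃ m n : ℤ, a = (m : ℂ) + (n : ℂ) * I) (_hb : ∃ m n : ℤ, b = (m : ℂ) + (n : ℂ) * I)
    (hc : ∃ m n : ℤ, c = (m : ℂ) + (n : ℂ) * I) (hd : ∃ m n : ℤ, d = (m : ℂ) + (n : ℂ) * I)
    (hdet : a * d - b * c = 1) (hcd : c * z + d ≠ 0)
    (h1 : c ≠ 0 → δ ≤ ‖z - (-d / c)‖) (h2 : c ≠ 0 → 2 * ε ≤ ‖w - a / c‖)
    (h3 : ‖(a * z + b) / (c * z + d) - w‖ < ε) :
    ∃ R : ℝ, R = (1 / (ε * δ) + 1 + 1 / ε + ‖z‖ + ‖w‖ + ε + 1 / δ + 1) ^ 4 ∧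
      ‖a‖ ≤ R ∧ ‖b‖ ≤ R ∧ ‖c‖ ≤ R ∧ ‖d‖ ≤ R := by
  set Q : ℝ := 1 / (ε * δ) + 1 + 1 / ε + ‖z‖ + ‖w‖ + ε + 1 / δ + 1 with hQ
  have p1 : 0 < 1 / (ε * δ) := by positivity
  have p2 : 0 < 1 / ε := by positivity
  have p3 : 0 < 1 / δ := by positivity
  have p4 := norm_nonneg z
  have p5 := norm_nonneg w
  have hQ2 : 2 ≤ Q := by rw [hQ]; linarith
  have hQ1 : (1 : ℝ) ≤ Q := by linarith
  have hQ0 : (0 : ℝ) ≤ Q := by linarith
  have hQp : ∀ x : ℝ, x ≤ Q → x ≤ Q ^ 4 := fun x hx => hx.trans (by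
    have := pow_le_pow_right₀ hQ1 (show 1 ≤ 4 by norm_num)
    rwa [pow_one] at this)
  have hQ2p : ∀ x : ℝ, x ≤ Q ^ 2 → x ≤ Q ^ 4 := fun x hx => hx.trans
    (pow_le_pow_right₀ hQ1 (show 2 ≤ 4 by norm_num))
  have hQ3p : ∀ x : ℝ, x ≤ Q ^ 3 → x ≤ Q ^ 4 := fun x hx => hx.trans
    (pow_le_pow_right₀ hQ1 (show 3 ≤ 4 by norm_num))
  clear_value Q
  refine ⟨Q ^ 4, rfl, ?_⟩
  by_cases hc0 : c = 0
  · subst hc0
    have hd0 : d ≠ 0 := by simpa using hcd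
    have ha0 : a ≠ 0 := by
      rintro rfl
      simp at hdet
    have had : a * d = 1 := by simpa using hdet
    have hn : ‖a‖ * ‖d‖ = 1 := by rw [← norm_mul, had, norm_one]
    have na := LU_int a ha ha0
    have nd := LU_int d hd hd0
    have na1 : ‖a‖ ≤ 1 := by nlinarith
    have nd1 : ‖d‖ ≤ 1 := by nlinarith
    have hb1 : b = d * (((a * z + b) / (0 * z + d) - w) + w) - a * z := by
      have e : d * ((a * z + b) / (0 * z + d)) = a * z + b := by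
        rw [zero_mul, zero_add]
        exact mul_div_cancel₀ _ hd0
      linear_combination -e
    have hb2 : ‖b‖ ≤ 1 * (ε + ‖w‖) + 1 * ‖z‖ := by
      rw [hb1]
      refine (norm_sub_le _ _).trans ?_
      rw [norm_mul, norm_mul]
      have h5 : ‖((a * z + b) / (0 * z + d) - w) + w‖ ≤ ε + ‖w‖ :=
        (norm_add_le _ _).trans (by linarith)
      have := mul_le_mul nd1 h5 (norm_nonneg _) zero_le_one
      have := mul_le_mul na1 (le_refl ‖z‖) (norm_nonneg _) zero_le_one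
      linarith
    refine ⟨hQp _ (by linarith), hQp _ ?_, ?_, hQp _ (by linarith)⟩
    · rw [hQ]; linarith
    · rw [norm_zero]; positivity
  · have nc := LU_int c hc hc0
    have h1' := h1 hc0
    have h2' := h2 hc0
    have hcn : 0 < ‖c‖ := by linarith
    -- the difference
    have e1 : (a * z + b) / (c * z + d) - a / c = -1 / (c * (c * z + d)) := by
      rw [div_sub_div _ _ hcd hc0, div_eq_div_iff (mul_ne_zero hcd hc0) (mul_ne_zero hc0 hcd)]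
      linear_combination (-(c * (c * z + d))) * hdet
    have e2 : ε ≤ ‖(a * z + b) / (c * z + d) - a / c‖ := by
      have : w - a / c = ((a * z + b) / (c * z + d) - a / c) - ((a * z + b) / (c * z + d) - w) := by
        ring
      rw [this] at h2'
      have h5 := norm_sub_le ((a * z + b) / (c * z + d) - a / c) ((a * z + b) / (c * z + d) - w)
      linarith
    rw [e1, norm_div, norm_neg, norm_one, norm_mul] at e2
    have hcd' : 0 < ‖c * z + d‖ := norm_pos_iff.mpr hcd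
    have e3 : ‖c‖ * ‖c * z + d‖ ≤ 1 / ε := by
      rw [le_div_iff₀ (by positivity)] at e2
      rw [le_div_iff₀ hε]
      linarith
    have e4 : δ * ‖c‖ ≤ ‖c * z + d‖ := by
      have : c * z + d = (z - (-d / c)) * c := by field_simp; ring
      rw [this, norm_mul]
      exact mul_le_mul_of_nonneg_right h1' hcn.le
    have e5 : ‖c‖ ≤ 1 / (ε * δ) := by
      have h6 : ‖c‖ * (δ * ‖c‖) ≤ 1 / ε := (mul_le_mul_of_nonneg_left e4 hcn.le).trans e3
      have h7 : δ * ‖c‖ ≤ ‖c‖ * (δ * ‖c‖) := le_mul_of_one_le_left (mul_pos hδ hcn).le nc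
      have h8 : δ * ‖c‖ ≤ 1 / ε := h7.trans h6
      rw [le_div_iff₀ (by positivity)]
      rw [le_div_iff₀ hε] at h8
      linarith
    have e6 : ‖c * z + d‖ ≤ 1 / ε := (le_mul_of_one_le_left hcd'.le nc).trans e3
    have e7 : ‖d‖ ≤ 1 / ε + 1 / (ε * δ) * ‖z‖ := by
      have : d = (c * z + d) - c * z := by ring
      calc ‖d‖ = ‖(c * z + d) - c * z‖ := by rw [← this]
        _ ≤ ‖c * z + d‖ + ‖c * z‖ := norm_sub_le _ _
        _ ≤ 1 / ε + 1 / (ε * δ) * ‖z‖ := by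
          rw [norm_mul]
          have := mul_le_mul_of_nonneg_right e5 (norm_nonneg z)
          linarith
    have e8 : ‖a / c‖ ≤ ‖w‖ + ε + 1 / δ := by
      have h9 : a / c = w + ((a * z + b) / (c * z + d) - w) - ((a * z + b) / (c * z + d) - a / c) := by
        ring
      have h10 : ‖(a * z + b) / (c * z + d) - a / c‖ ≤ 1 / δ := by
        rw [e1, norm_div, norm_neg, norm_one, norm_mul]
        refine one_div_le_one_div_of_le hδ ?_
        have h11 : ‖c‖ * (δ * ‖c‖) ≤ ‖c‖ * ‖c * z + d‖ := mul_le_mul_of_nonneg_left e4 hcn.le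
        have h12 : δ ≤ δ * ‖c‖ := le_mul_of_one_le_right hδ.le nc
        have h13 : δ * ‖c‖ ≤ ‖c‖ * (δ * ‖c‖) := le_mul_of_one_le_left (mul_pos hδ hcn).le nc
        linarith
      calc ‖a / c‖ = ‖w + ((a * z + b) / (c * z + d) - w) - ((a * z + b) / (c * z + d) - a / c)‖ := by
            rw [← h9]
        _ ≤ ‖w + ((a * z + b) / (c * z + d) - w)‖ + ‖(a * z + b) / (c * z + d) - a / c‖ :=
            norm_sub_le _ _
        _ ≤ (‖w‖ + ‖(a * z + b) / (c * z + d) - w‖) + 1 / δ := add_le_add (norm_add_le _ _) h10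
        _ ≤ ‖w‖ + ε + 1 / δ := by linarith
    have e9 : ‖a‖ ≤ 1 / (ε * δ) * (‖w‖ + ε + 1 / δ) := by
      have : a = c * (a / c) := by field_simp
      calc ‖a‖ = ‖c * (a / c)‖ := by rw [← this]
        _ = ‖c‖ * ‖a / c‖ := norm_mul _ _
        _ ≤ _ := mul_le_mul e5 e8 (norm_nonneg _) p1.le
    have q1 : 1 / (ε * δ) ≤ Q := by rw [hQ]; linarith
    have q2 : ‖w‖ + ε + 1 / δ ≤ Q := by rw [hQ]; linarith
    have e10 : ‖a‖ ≤ Q ^ 2 := e9.trans (by
      have := mul_le_mul q1 q2 (by positivity) (by linarith)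
      rwa [← sq] at this)
    have q3 : 1 / ε + 1 / (ε * δ) * ‖z‖ ≤ Q ^ 2 := by
      have r1 : 1 / ε + ‖z‖ ≤ Q := by rw [hQ]; linarith
      have r2 : 1 / (ε * δ) + 1 ≤ Q := by rw [hQ]; linarith
      have : 1 / ε + 1 / (ε * δ) * ‖z‖ ≤ (1 / ε + ‖z‖) * (1 / (ε * δ) + 1) := by
        have h1 := mul_pos p2 p1
        have h2 : (1 / ε + ‖z‖) * (1 / (ε * δ) + 1) =
          1 / ε + 1 / (ε * δ) * ‖z‖ + (1 / ε * (1 / (ε * δ)) + ‖z‖) := by ring
        linarith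
      refine this.trans ?_
      have := mul_le_mul r1 r2 (by positivity) (by linarith)
      rwa [← sq] at this
    have e11 : ‖d‖ ≤ Q ^ 2 := e7.trans q3
    have e12 : ‖b‖ ≤ Q ^ 4 := by
      -- `b = (g z)(c z + d) - a z`
      have hb1 : b = (((a * z + b) / (c * z + d) - w) + w) * (c * z + d) - a * z := by
        have e : ((a * z + b) / (c * z + d)) * (c * z + d) = a * z + b := div_mul_cancel₀ _ hcd
        linear_combination -e
      rw [hb1]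
      refine (norm_sub_le _ _).trans ?_
      rw [norm_mul, norm_mul]
      have h5 : ‖((a * z + b) / (c * z + d) - w) + w‖ ≤ ε + ‖w‖ :=
        (norm_add_le _ _).trans (by linarith)
      have h6 := mul_le_mul h5 e6 (norm_nonneg _) (by positivity)
      have h7 : ‖a‖ * ‖z‖ ≤ Q ^ 2 * ‖z‖ := mul_le_mul_of_nonneg_right e10 (norm_nonneg _)
      have h8 : (ε + ‖w‖) * (1 / ε) ≤ Q * Q := mul_le_mul (by rw [hQ]; linarith)
        (by rw [hQ]; linarith) (by positivity) (by linarith)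
      have h9 : Q * Q + Q ^ 2 * ‖z‖ ≤ Q ^ 3 := by
        have h1 : 1 + ‖z‖ ≤ Q := by rw [hQ]; linarith
        have h2 := mul_le_mul_of_nonneg_left h1 (sq_nonneg Q)
        have h3 : Q ^ 2 * Q = Q ^ 3 := by ring
        have h4 : Q ^ 2 * (1 + ‖z‖) = Q * Q + Q ^ 2 * ‖z‖ := by ring
        linarith
      have h10 := hQ3p (Q ^ 3) le_rfl
      linarith
    exact ⟨hQ2p _ e10, e12, hQp _ (e5.trans q1), hQ2p _ e11⟩

theorem LU_acc {Y : Type*} [TopologicalSpace Y] [T1Space Y] (S U : Set Y) (w : Y) (hU : U ∈ 𝓝 w)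
    (hf : (S ∩ U).Finite) : w ∉ derivedSet S := by
  intro h
  rw [mem_derivedSet, accPt_iff_frequently] at h
  have h1 : ∀ᶠ y in 𝓝 w, y ∈ U ∧ y ∉ (S ∩ U) \ {w} := by
    have hc : IsClosed ((S ∩ U) \ {w}) := (hf.subset sdiff_subset).isClosed
    exact Filter.Eventually.and hU (hc.isOpen_compl.mem_nhds (by simp))
  obtain ⟨y, ⟨hy1, hy2⟩, hy3, hy4⟩ := (h.and_eventually h1).exists
  exact hy4 ⟨⟨hy2, hy3⟩, hy1⟩

theorem T_LU (hGR : P_GR) : P_LU := by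
  intro Γ hΓ z w hw
  obtain ⟨-, -, -, -, -, hinv, hRL, hcl⟩ := hGR
  by_contra hwL
  have hinf : (∞ : X) ∈ Lam := hRL (Set.mem_insert _ _)
  -- the point `z` is not in the limit set
  have hz : z ∉ Lam := by
    intro hz
    have hsub : {w : OnePoint ℂ | ∃ g ∈ Γ, w = g • z} ⊆ Lam := by
      rintro _ ⟨g, hg, rfl⟩
      exact (hinv g (hΓ g hg).2 z).1 hz
    exact hwL (hcl.closure_subset_iff.2 hsub (derivedSet_subset_closure _ hw))
  induction z using OnePoint.rec with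
  | infty => exact hz hinf
  | coe z0 =>
  induction w using OnePoint.rec with
  | infty => exact hwL hinf
  | coe w0 =>
  have hopen : IsOpen ((fun x : ℂ => (x : X)) ⁻¹' Lamᶜ) :=
    hcl.isOpen_compl.preimage OnePoint.continuous_coe
  obtain ⟨δ, hδ, hδ'⟩ := Metric.isOpen_iff.1 hopen z0 hz
  obtain ⟨ε, hε, hε'⟩ := Metric.isOpen_iff.1 hopen w0 hwL
  have hU : (fun x : ℂ => (x : X)) '' (Metric.ball w0 (ε / 2)) ∈ 𝓝 (w0 : X) := by
    exact (OnePoint.isOpenEmbedding_coe.isOpenMap _ Metric.isOpen_ball).mem_nhds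
      ⟨w0, Metric.mem_ball_self (by positivity), rfl⟩
  refine LU_acc _ _ _ hU ?_ hw
  set R : ℝ := (1 / (ε / 2 * δ) + 1 + 1 / (ε / 2) + ‖z0‖ + ‖w0‖ + ε / 2 + 1 / δ + 1) ^ 4 with hR
  have hfin : ((fun q : (ℂ × ℂ) × (ℂ × ℂ) =>
      (((q.1.1 * z0 + q.1.2) / (q.2.1 * z0 + q.2.2) : ℂ) : X)) ''
      ((LU_GB R ×ˢ LU_GB R) ×ˢ (LU_GB R ×ˢ LU_GB R))).Finite :=
    (((LU_fin R).prod (LU_fin R)).prod ((LU_fin R).prod (LU_fin R))).image _
  refine hfin.subset ?_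
  rintro _ ⟨⟨g, hg, rfl⟩, y, hy, hyg⟩
  have hyg' : (y : X) = g • (z0 : X) := hyg
  rw [OnePoint.smul_some_eq_ite] at hyg'
  obtain ⟨⟨hgi, hdet⟩, hst⟩ := hΓ g hg
  by_cases hcd : g 1 0 * z0 + g 1 1 = 0
  · rw [if_pos hcd] at hyg'
    exact absurd hyg' (OnePoint.coe_ne_infty _)
  · rw [if_neg hcd] at hyg'
    have hy' : y = (g 0 0 * z0 + g 0 1) / (g 1 0 * z0 + g 1 1) := OnePoint.coe_injective hyg'
    have hb := LU_bound (g 0 0) (g 0 1) (g 1 0) (g 1 1) z0 w0 δ (ε / 2) hδ (by positivity)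
      (hgi 0 0) (hgi 0 1) (hgi 1 0) (hgi 1 1) hdet hcd ?_ ?_ ?_
    · obtain ⟨R', hR', b1, b2, b3, b4⟩ := hb
      have hRR : R' = R := by rw [hR', hR]
      rw [hRR] at b1 b2 b3 b4
      refine ⟨((g 0 0, g 0 1), (g 1 0, g 1 1)), ⟨⟨⟨hgi 0 0, b1⟩, ⟨hgi 0 1, b2⟩⟩,
        ⟨⟨hgi 1 0, b3⟩, ⟨hgi 1 1, b4⟩⟩⟩, ?_⟩
      show (((g 0 0 * z0 + g 0 1) / (g 1 0 * z0 + g 1 1) : ℂ) : X) = g • (z0 : X)
      rw [OnePoint.smul_some_eq_ite, if_neg hcd]
    · intro hc0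
      by_contra hlt
      push Not at hlt
      have hmem : ((-g 1 1 / g 1 0 : ℂ) : X) ∈ Lam := by
        rw [hinv g hst, OnePoint.smul_some_eq_ite, if_pos (by field_simp; ring)]
        exact hinf
      refine hδ' ?_ hmem
      rw [Metric.mem_ball, dist_comm, dist_eq_norm]
      exact hlt
    · intro hc0
      by_contra hlt
      push Not at hlt
      have hmem : ((g 0 0 / g 1 0 : ℂ) : X) ∈ Lam := by
        have := (hinv g hst ∞).1 hinf
        rw [OnePoint.smul_infty_eq_ite, if_neg hc0] at this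
        exact this
      refine hε' ?_ hmem
      rw [Metric.mem_ball, dist_comm, dist_eq_norm]
      linarith
    · rw [← hy', ← dist_eq_norm]
      exact hy

end Pool.Agent.T2H64.AP
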