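import Pool.Agent.T2H64.AP.Stm2

set_option autoImplicit false

namespace Pool.Agent.T2H64.AP

open Matrix Complex OnePoint Topology Filter Set

namespace PkgNF

lemma mk_apply (a b c d : ℂ) (h : a * d - b * c ≠ 0) :
    mk a b c d h 0 0 = a ∧ mk a b c d h 0 1 = b ∧ mk a b c d h 1 0 = c ∧ mk a b c d h 1 1 = d := by
  refine ⟨?_, ?_, ?_, ?_⟩ <;> simp [mk]

lemma act_coe (a b c d : ℂ) (h : a * d - b * c ≠ 0) (z : ℂ) (hz : c * z + d ≠ 0) :
    mk a b c d h • (z : X) = (((a * z + b) / (c * z + d) : ℂ) : X) := by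
  obtain ⟨h1, h2, h3, h4⟩ := mk_apply a b c d h
  rw [OnePoint.smul_some_eq_ite, h1, h2, h3, h4, if_neg hz]

lemma act_coe_inf (a b c d : ℂ) (h : a * d - b * c ≠ 0) (z : ℂ) (hz : c * z + d = 0) :
    mk a b c d h • (z : X) = ∞ := by
  obtain ⟨h1, h2, h3, h4⟩ := mk_apply a b c d h
  rw [OnePoint.smul_some_eq_ite, h1, h2, h3, h4, if_pos hz]

lemma act_inf (a b d : ℂ) (h : a * d - b * 0 ≠ 0) :
    mk a b 0 d h • (∞ : X) = ∞ := by
  obtain ⟨h1, h2, h3, h4⟩ := mk_apply a b 0 d h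
  rw [OnePoint.smul_infty_eq_ite, h3, if_pos rfl]

/-- the hypotheses -/
def Q4 (C₁ C₂ C₃ C₄ : Set X) : Prop := IsCir C₁ ∧ IsCir C₂ ∧ IsCir C₃ ∧ IsCir C₄ ∧
  Tan C₁ C₂ ∧ Tan C₁ C₃ ∧ Tan C₁ C₄ ∧ Tan C₂ C₃ ∧ Tan C₂ C₄ ∧ Tan C₃ C₄ ∧
  C₁ ∩ C₂ ∩ C₃ = ∅

def Gl (C₁ C₂ C₃ C₄ : Set X) : Prop :=
  ∃ g : G, ({img g C₁, img g C₂, img g C₃, img g C₄} : Set (Set X)) =
    {cir 1, cir tJ, cir (tW * tJ), cir (tT * tW * tJ)}

lemma Q4_img (hG : P_TG) (g : G) {C₁ C₂ C₃ C₄ : Set X} (h : Q4 C₁ C₂ C₃ C₄) :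
    Q4 (img g C₁) (img g C₂) (img g C₃) (img g C₄) := by
  obtain ⟨-, -, -, hT, hI, hE, -⟩ := hG
  obtain ⟨a1, a2, a3, a4, a5, a6, a7, a8, a9, a10, a11⟩ := h
  exact ⟨(hI _ _).2 a1, (hI _ _).2 a2, (hI _ _).2 a3, (hI _ _).2 a4, (hT _ _ _).2 a5,
    (hT _ _ _).2 a6, (hT _ _ _).2 a7, (hT _ _ _).2 a8, (hT _ _ _).2 a9, (hT _ _ _).2 a10,
    (hE _ _ _ _).2 a11⟩

lemma Gl_img (hG : P_TG) (g : G) {C₁ C₂ C₃ C₄ : Set X}
    (h : Gl (img g C₁) (img g C₂) (img g C₃) (img g C₄)) : Gl C₁ C₂ C₃ C₄ := by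
  obtain ⟨k, hk⟩ := h
  refine ⟨k * g, ?_⟩
  simp only [hG.2.1] at hk
  exact hk

lemma mem_RL_real (x : ℝ) : (((x : ℂ) : OnePoint ℂ) : X) ∈ RL := Or.inr ⟨x, rfl⟩

lemma mem_RL_inf : (∞ : X) ∈ RL := Or.inl rfl

lemma RL_cases {p : X} (hp : p ∈ RL) : p = ∞ ∨ ∃ x : ℝ, p = ((x : ℂ) : X) := by
  rcases hp with h | ⟨x, hx⟩
  · exact Or.inl h
  · exact Or.inr ⟨x, hx.symm⟩

/-- form of a circle through infinity which touches the real line there -/
lemma N2 (hCQ : P_CQ) {C₂ : Set X} (hc : IsCir C₂) (hi : (∞ : X) ∈ C₂) (ht : Tan RL C₂) :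
    ∃ k : ℝ, k ≠ 0 ∧ C₂ = {p | p = ∞ ∨ ∃ z : ℂ, p = (z : X) ∧ z.im = k} := by
  obtain ⟨g, rfl⟩ := hc
  obtain ⟨A, D, B, hpos, he⟩ := hCQ g
  rw [he] at hi ht ⊢
  have hA : A = 0 := by
    rcases hi with h | ⟨z, hz, -⟩
    · exact h.2
    · exact absurd hz (OnePoint.infty_ne_coe z)
  subst hA
  obtain ⟨p, hp, hu⟩ := ht
  have hno : ∀ x : ℝ, 2 * (B * (x : ℂ)).re + D ≠ 0 := by
    intro x hx
    have h1 := hu ∞ ⟨mem_RL_inf, Or.inl ⟨rfl, rfl⟩⟩
    have h2 := hu ((x : ℂ) : X) ⟨mem_RL_real x, Or.inr ⟨_, rfl, by rw [zero_mul, zero_add]; exact hx⟩⟩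
    exact OnePoint.infty_ne_coe _ (h1.trans h2.symm)
  have hBre : B.re = 0 := by
    by_contra hne
    apply hno (-D / (2 * B.re))
    simp only [Complex.mul_re, Complex.ofReal_re, Complex.ofReal_im, mul_zero, sub_zero]
    field_simp
    ring
  have hD : D ≠ 0 := by
    have := hno 0
    simpa using this
  have hBim : B.im ≠ 0 := by
    intro h
    rw [Complex.normSq_apply, hBre, h] at hpos
    simp at hpos
  refine ⟨D / (2 * B.im), by positivity, ?_⟩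
  ext q
  simp only [Set.mem_setOf_eq, zero_mul, zero_add, and_true]
  refine or_congr Iff.rfl (exists_congr fun z => and_congr_right fun _ => ?_)
  simp only [Complex.mul_re, hBre, zero_mul, zero_sub]
  rw [eq_div_iff (by positivity)]
  constructor <;> intro h <;> linarith

lemma img_line (x k : ℝ) (hk : k ≠ 0) (h : (1 : ℂ) * k - (-(x : ℂ)) * 0 ≠ 0) :
    img (mk 1 (-(x : ℂ)) 0 k h) {p | p = ∞ ∨ ∃ z : ℂ, p = (z : X) ∧ z.im = k} =
      {p | p = ∞ ∨ ∃ z : ℂ, p = (z : X) ∧ z.im = 1} := by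
  have hkC : (k : ℂ) ≠ 0 := by exact_mod_cast hk
  ext q
  constructor
  · rintro ⟨w, hw, rfl⟩
    rcases hw with rfl | ⟨z, rfl, hz⟩
    · left; exact act_inf _ _ _ h
    · right
      refine ⟨(1 * z + -(x : ℂ)) / (0 * z + k), act_coe _ _ _ _ h z (by simpa using hkC), ?_⟩
      rw [zero_mul, zero_add, Complex.div_ofReal_im]
      simp [hz, hk]
  · rintro (rfl | ⟨z, rfl, hz⟩)
    · exact ⟨∞, Or.inl rfl, act_inf _ _ _ h⟩
    · refine ⟨((k * z + x : ℂ) : X), Or.inr ⟨_, rfl, by simp [hz]⟩, ?_⟩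
      show mk 1 (-(x : ℂ)) 0 k h • (((k * z + x : ℂ) : OnePoint ℂ)) = _
      rw [act_coe _ _ _ _ h _ (by simpa using hkC)]
      congr 1
      rw [zero_mul, zero_add]
      field_simp
      ring

lemma img_circ (x k : ℝ) (hk : k ≠ 0) (h : (1 : ℂ) * k - (-(x : ℂ)) * 0 ≠ 0) :
    img (mk 1 (-(x : ℂ)) 0 k h) {p | ∃ z : ℂ, p = (z : X) ∧ normSq (z - x) = k * z.im} =
      {p | ∃ z : ℂ, p = (z : X) ∧ normSq z = z.im} := by
  have hkC : (k : ℂ) ≠ 0 := by exact_mod_cast hk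
  ext q
  constructor
  · rintro ⟨w, ⟨z, rfl, hz⟩, rfl⟩
    refine ⟨(1 * z + -(x : ℂ)) / (0 * z + k), act_coe _ _ _ _ h z (by simpa using hkC), ?_⟩
    rw [zero_mul, zero_add, Complex.div_ofReal_im, Complex.normSq_div, one_mul, ← sub_eq_add_neg, hz,
      Complex.normSq_ofReal]
    simp only [Complex.sub_im, Complex.ofReal_im, sub_zero]
    field_simp
  · rintro ⟨z, rfl, hz⟩
    refine ⟨((k * z + x : ℂ) : X), ⟨_, rfl, ?_⟩, ?_⟩
    · rw [add_sub_cancel_right, Complex.normSq_mul, hz, Complex.normSq_ofReal]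
      simp
      ring
    · show mk 1 (-(x : ℂ)) 0 k h • (((k * z + x : ℂ) : OnePoint ℂ)) = _
      rw [act_coe _ _ _ _ h _ (by simpa using hkC)]
      congr 1
      rw [zero_mul, zero_add]
      field_simp
      ring

/-- the third circle -/
lemma N3 (hCQ : P_CQ) {C₃ : Set X} (hc : IsCir C₃) (hi : (∞ : X) ∉ C₃) (ht : Tan RL C₃) {k : ℝ}
    (hk : k ≠ 0) (ht2 : Tan {p : X | p = ∞ ∨ ∃ z : ℂ, p = (z : X) ∧ z.im = k} C₃) :
    ∃ x : ℝ, C₃ = {p | ∃ z : ℂ, p = (z : X) ∧ normSq (z - x) = k * z.im} := by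
  obtain ⟨g, rfl⟩ := hc
  obtain ⟨A, D, B, hpos, he⟩ := hCQ g
  rw [he] at hi ht ht2 ⊢
  have hA : A ≠ 0 := fun h => hi (Or.inl ⟨rfl, h⟩)
  -- first tangency
  have hx : A * (B.re / A) ^ 2 = D := by
    obtain ⟨p, ⟨hp1, hp2⟩, hu⟩ := ht
    rcases RL_cases hp1 with rfl | ⟨x, rfl⟩
    · exact absurd hp2 hi
    · have h1 : ∀ y : ℝ, A * normSq (y : ℂ) + 2 * (B * (y : ℂ)).re + D = 0 → y = x := by
        intro y hy
        have h2 := hu ((y : ℂ) : X) ⟨mem_RL_real y, Or.inr ⟨_, rfl, hy⟩⟩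
        have h3 : (y : ℂ) = (x : ℂ) := OnePoint.coe_injective h2
        exact_mod_cast h3
      rcases hp2 with h | ⟨z, hz, hz2⟩
      · exact absurd h.1.symm (OnePoint.infty_ne_coe _)
      · have hz' : (x : ℂ) = z := OnePoint.coe_injective hz
        rw [← hz'] at hz2
        simp only [Complex.normSq_ofReal, Complex.mul_re, Complex.ofReal_re, Complex.ofReal_im,
          mul_zero, sub_zero] at h1 hz2
        have h4 := h1 (-2 * B.re / A - x) (by field_simp; linear_combination A * hz2)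
        have h5 : x = -(B.re / A) := by
          have : 2 * x = -2 * B.re / A := by linarith
          field_simp at this ⊢
          linarith
        have h6 : B.re = -(A * x) := by rw [h5]; field_simp
        have h7 : B.re / A = -x := by rw [h6]; field_simp
        rw [h7]
        rw [h6] at hz2
        linarith
  -- second tangency
  have hy : B.im = A * k / 2 := by
    obtain ⟨p, ⟨hp1, hp2⟩, hu⟩ := ht2
    rcases hp1 with rfl | ⟨w, rfl, hw⟩
    · exact absurd hp2 hi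
    · have h1 : ∀ y : ℝ, A * normSq (⟨y, k⟩ : ℂ) + 2 * (B * (⟨y, k⟩ : ℂ)).re + D = 0 → y = w.re := by
        intro y hy
        have h2 := hu (((⟨y, k⟩ : ℂ) : OnePoint ℂ) : X) ⟨Or.inr ⟨_, rfl, rfl⟩, Or.inr ⟨_, rfl, hy⟩⟩
        have h3 : (⟨y, k⟩ : ℂ) = w := OnePoint.coe_injective h2
        rw [← h3]
      rcases hp2 with h | ⟨z, hz, hz2⟩
      · exact absurd h.1.symm (OnePoint.infty_ne_coe _)
      · have hz' : w = z := OnePoint.coe_injective hz
        rw [← hz'] at hz2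
        simp only [Complex.normSq_apply, Complex.mul_re] at h1 hz2
        rw [hw] at hz2
        have h4 := h1 (-2 * B.re / A - w.re) (by field_simp; linear_combination A * hz2)
        have h5 : w.re = -(B.re / A) := by
          have : 2 * w.re = -2 * B.re / A := by linarith
          field_simp at this ⊢
          linarith
        have h6 : B.re = -(A * w.re) := by rw [h5]; field_simp
        have h7 : B.re / A = -w.re := by rw [h6]; field_simp
        rw [h7] at hx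
        rw [h6] at hz2
        have h8 : k * (A * k - 2 * B.im) = 0 := by nlinarith
        rcases mul_eq_zero.1 h8 with h9 | h9
        · exact absurd h9 hk
        · linarith
  refine ⟨-(B.re / A), ?_⟩
  ext q
  simp only [Set.mem_setOf_eq]
  have hB : B.re = A * (B.re / A) := by field_simp
  set t := B.re / A with ht
  constructor
  · rintro (h | ⟨z, hz, h2⟩)
    · exact absurd h.2 hA
    · refine ⟨z, hz, ?_⟩
      simp only [Complex.normSq_apply, Complex.mul_re, Complex.sub_re, Complex.sub_im,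
        Complex.ofReal_re, Complex.ofReal_im] at h2 ⊢
      rw [hB, hy, ← hx] at h2
      have h3 : A * ((z.re - -t) * (z.re - -t) + (z.im - 0) * (z.im - 0) - k * z.im) = 0 := by
        linarith
      rcases mul_eq_zero.1 h3 with h4 | h4
      · exact absurd h4 hA
      · linarith
  · rintro ⟨z, hz, h2⟩
    refine Or.inr ⟨z, hz, ?_⟩
    simp only [Complex.normSq_apply, Complex.mul_re, Complex.sub_re, Complex.sub_im,
      Complex.ofReal_re, Complex.ofReal_im] at h2 ⊢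
    rw [hB, hy, ← hx]
    linear_combination A * h2

lemma Tan_symm {S T : Set X} (h : Tan S T) : Tan T S := by
  unfold Tan at h ⊢
  rwa [Set.inter_comm]

lemma img_RL (hG : P_TG) (s : G) (hs : ∀ i j, (s i j).im = 0) : img s (cir 1) = cir 1 := by
  rw [hG.1, mul_one, ← one_mul s, hG.2.2.2.2.2.2.2.2 1 s hs]

lemma img_T_line : img tT {p : X | p = ∞ ∨ ∃ z : ℂ, p = (z : X) ∧ z.im = 1} =
    {p | p = ∞ ∨ ∃ z : ℂ, p = (z : X) ∧ z.im = 1} := by
  ext q
  constructor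
  · rintro ⟨w, hw, rfl⟩
    rcases hw with rfl | ⟨z, rfl, hz⟩
    · left; exact act_inf _ _ _ _
    · right
      refine ⟨(1 * z + 1) / (0 * z + 1), act_coe _ _ _ _ _ z (by simp), ?_⟩
      simp [hz]
  · rintro (rfl | ⟨z, rfl, hz⟩)
    · exact ⟨∞, Or.inl rfl, act_inf _ _ _ _⟩
    · refine ⟨((z - 1 : ℂ) : X), Or.inr ⟨_, rfl, by simp [hz]⟩, ?_⟩
      show tT • (((z - 1 : ℂ) : OnePoint ℂ)) = _
      rw [tT, act_coe _ _ _ _ _ _ (by simp)]
      congr 1
      ring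

lemma N1 (hCQ : P_CQ) (hG : P_TG) (h3 : P_TR3) (h4 : P_TR4) {C₂ C₃ C₄ : Set X}
    (h : Q4 (cir 1) C₂ C₃ C₄) (hi : (∞ : X) ∈ C₂) : Gl (cir 1) C₂ C₃ C₄ := by
  have hRL : cir 1 = RL := hG.2.2.2.2.2.2.2.1
  obtain ⟨a1, a2, a3, a4, a5, a6, a7, a8, a9, a10, a11⟩ := h
  obtain ⟨k, hk, e2⟩ := N2 hCQ a2 hi (by rw [← hRL]; exact a5)
  have hi3 : (∞ : X) ∉ C₃ := by
    intro h
    have : (∞ : X) ∈ cir 1 ∩ C₂ ∩ C₃ := ⟨⟨by rw [hRL]; exact mem_RL_inf, hi⟩, h⟩
    rw [a11] at this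
    exact this
  obtain ⟨x, e3⟩ := N3 hCQ a3 hi3 (by rw [← hRL]; exact a6) hk (by rw [← e2]; exact a8)
  have hkC : (k : ℂ) ≠ 0 := by exact_mod_cast hk
  have hdet : (1 : ℂ) * k - (-(x : ℂ)) * 0 ≠ 0 := by simpa using hkC
  set M : G := mk 1 (-(x : ℂ)) 0 k hdet with hM
  have f1 : img M (cir 1) = cir 1 := by
    refine img_RL hG M fun i j => ?_
    obtain ⟨m1, m2, m3, m4⟩ := mk_apply 1 (-(x : ℂ)) 0 k hdet
    fin_cases i <;> fin_cases j
    · show (M 0 0).im = 0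
      rw [hM, m1]; simp
    · show (M 0 1).im = 0
      rw [hM, m2]; simp
    · show (M 1 0).im = 0
      rw [hM, m3]; simp
    · show (M 1 1).im = 0
      rw [hM, m4]; simp
  have f2 : img M C₂ = cir tJ := by
    rw [e2, h4.1]; exact img_line x k hk hdet
  have f3 : img M C₃ = cir (tW * tJ) := by
    have := h4.2 0
    rw [zpow_zero, one_mul] at this
    rw [e3, this, hM, img_circ x k hk hdet]
    simp
  have hT := hG.2.2.2.1
  have g1 : Tan (img M C₄) (cir 1) := by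
    have := (hT M _ _).2 a7
    rw [f1] at this
    exact Tan_symm this
  have g2 : Tan (img M C₄) (cir tJ) := by
    have := (hT M _ _).2 a9
    rw [f2] at this
    exact Tan_symm this
  have g3 : Tan (img M C₄) (cir (tT ^ (0:ℤ) * tW * tJ)) := by
    have := (hT M _ _).2 a10
    rw [f3] at this
    rw [zpow_zero, one_mul]
    exact Tan_symm this
  have g4 : IsCir (img M C₄) := (hG.2.2.2.2.1 _ _).2 a4
  rcases h3 0 _ g4 g1 g2 g3 with h5 | h5
  · refine ⟨M, ?_⟩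
    rw [f1, f2, f3, h5]
    simp
  · refine ⟨tT * M, ?_⟩
    rw [← hG.2.1, ← hG.2.1, ← hG.2.1, ← hG.2.1, f1, f2, f3, h5]
    have k1 : img tT (cir 1) = cir 1 := by
      refine img_RL hG tT fun i j => ?_
      obtain ⟨m1, m2, m3, m4⟩ := mk_apply 1 1 0 1 (by norm_num)
      fin_cases i <;> fin_cases j
      · show (tT 0 0).im = 0
        rw [tT, m1]; simp
      · show (tT 0 1).im = 0
        rw [tT, m2]; simp
      · show (tT 1 0).im = 0
        rw [tT, m3]; simp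
      · show (tT 1 1).im = 0
        rw [tT, m4]; simp
    have k2 : img tT (cir tJ) = cir tJ := by
      rw [h4.1]; exact img_T_line
    have k3 : img tT (cir (tW * tJ)) = cir (tT * tW * tJ) := by
      rw [hG.1, mul_assoc]
    have k4 : img tT (cir (tT ^ ((0:ℤ) - 1) * tW * tJ)) = cir (tW * tJ) := by
      rw [hG.1]
      congr 1
      rw [zero_sub, _root_.zpow_neg_one, mul_assoc, mul_inv_cancel_left]
    rw [k1, k2, k3, k4]
    ext S
    simp only [Set.mem_insert_iff, Set.mem_singleton_iff]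
    tauto

end PkgNF

open PkgNF in
theorem T_NF (hCQ : P_CQ) (h3 : P_TR3) (h4 : P_TR4) (hG : P_TG) : P_NF := by
  intro C₁ C₂ C₃ C₄ c1 c2 c3 c4 t12 t13 t14 t23 t24 t34 e123 _ _ _
  change Gl C₁ C₂ C₃ C₄
  have hRL : cir 1 = RL := hG.2.2.2.2.2.2.2.1
  have hQ : Q4 C₁ C₂ C₃ C₄ := ⟨c1, c2, c3, c4, t12, t13, t14, t23, t24, t34, e123⟩
  obtain ⟨g, hg⟩ := c1
  refine Gl_img hG g⁻¹ ?_
  have hQ1 := Q4_img hG g⁻¹ hQ
  have e1 : img g⁻¹ C₁ = cir 1 := by rw [hg, hG.1, inv_mul_cancel]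
  rw [e1] at hQ1 ⊢
  obtain ⟨p, ⟨hp1, hp2⟩, -⟩ := hQ1.2.2.2.2.1
  rw [hRL] at hp1
  rcases RL_cases hp1 with rfl | ⟨x, rfl⟩
  · exact N1 hCQ hG h3 h4 hQ1 hp2
  · have hdet : (0 : ℂ) * x - 1 * (-1) ≠ 0 := by simp
    set s : G := mk 0 1 (-1) x hdet with hs
    have hreal : ∀ i j, (s i j).im = 0 := by
      intro i j
      obtain ⟨m1, m2, m3, m4⟩ := mk_apply 0 1 (-1) (x : ℂ) hdet
      fin_cases i <;> fin_cases j
      · show (s 0 0).im = 0
        rw [hs, m1]; simp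
      · show (s 0 1).im = 0
        rw [hs, m2]; simp
      · show (s 1 0).im = 0
        rw [hs, m3]; simp
      · show (s 1 1).im = 0
        rw [hs, m4]; simp
    refine Gl_img hG s ?_
    have hQ2 := Q4_img hG s hQ1
    rw [img_RL hG s hreal] at hQ2 ⊢
    refine N1 hCQ hG h3 h4 hQ2 ?_
    refine ⟨_, hp2, ?_⟩
    exact act_coe_inf _ _ _ _ hdet _ (by ring)

end Pool.Agent.T2H64.AP
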