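import Pool.Agent.T2H64.AP.Stm

set_option autoImplicit false

namespace Pool.Agent.T2H64.AP

open Matrix Complex OnePoint Topology Filter Set

namespace PkgNX

theorem quad (α β γ : ℝ) (h : β ^ 2 - 4 * α * γ ≤ 0) :
    (0 ≤ α ∧ ∀ x : ℝ, 0 ≤ α * x ^ 2 + β * x + γ) ∨ (α ≤ 0 ∧ ∀ x : ℝ, α * x ^ 2 + β * x + γ ≤ 0) := by
  rcases lt_trichotomy α 0 with ha | ha | ha
  · right
    refine ⟨ha.le, fun x => ?_⟩
    have h1 : 0 ≤ 4 * α * (α * x ^ 2 + β * x + γ) := by nlinarith [sq_nonneg (2 * α * x + β)]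
    by_contra hcon
    push Not at hcon
    nlinarith [mul_pos (neg_pos.mpr ha) hcon]
  · subst ha
    have hb : β = 0 := by nlinarith [sq_nonneg β]
    subst hb
    rcases le_total 0 γ with hg | hg
    · left
      exact ⟨le_refl _, fun x => by linarith⟩
    · right
      exact ⟨le_refl _, fun x => by linarith⟩
  · left
    refine ⟨ha.le, fun x => ?_⟩
    have h1 : 0 ≤ 4 * α * (α * x ^ 2 + β * x + γ) := by nlinarith [sq_nonneg (2 * α * x + β)]
    by_contra hcon
    push Not at hcon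
    nlinarith [mul_pos ha (neg_pos.mpr hcon)]

theorem im_div (z w : ℂ) : (z / w).im = (z * (starRingEnd ℂ) w).im / normSq w := by
  rw [Complex.div_im, Complex.mul_im, Complex.conj_re, Complex.conj_im]
  ring

theorem im_num (a b c d : ℂ) (x : ℝ) : ((a * x + b) * (starRingEnd ℂ) (c * x + d)).im =
    (a.im * c.re - a.re * c.im) * x ^ 2 + (a.im * d.re - a.re * d.im + b.im * c.re - b.re * c.im) * x +
      (b.im * d.re - b.re * d.im) := by
  simp [Complex.mul_im, Complex.mul_re, Complex.add_re, Complex.add_im]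
  ring

end PkgNX

open PkgNX in
theorem T_NX : P_NX := by
  intro h hG
  obtain ⟨hent, hdet⟩ := hG
  obtain ⟨a1, a2, ha⟩ := hent 0 0
  obtain ⟨b1, b2, hb⟩ := hent 0 1
  obtain ⟨c1, c2, hc⟩ := hent 1 0
  obtain ⟨d1, d2, hd⟩ := hent 1 1
  have hre : ∀ m n : ℤ, ((m : ℂ) + (n : ℂ) * I).re = m := by intro m n; simp
  have him : ∀ m n : ℤ, ((m : ℂ) + (n : ℂ) * I).im = n := by intro m n; simp
  -- determinant
  have hdr : (a1 * d1 - a2 * d2 - (b1 * c1 - b2 * c2) : ℤ) = 1 := by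
    have := congrArg Complex.re hdet
    rw [ha, hb, hc, hd] at this
    simp at this
    exact_mod_cast this
  have hdi : (a1 * d2 + a2 * d1 - (b1 * c2 + b2 * c1) : ℤ) = 0 := by
    have := congrArg Complex.im hdet
    rw [ha, hb, hc, hd] at this
    simp at this
    exact_mod_cast this
  -- the discriminant
  set n : ℤ := a1 * d1 + a2 * d2 - (b1 * c1 + b2 * c2) with hn
  have hnodd : n ≠ 0 := by
    intro h0
    have h1 : n - 1 = 2 * (a2 * d2 - b2 * c2) := by rw [hn, ← hdr]; ring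
    omega
  have hdisc : ((a2 * d1 - a1 * d2 + b2 * c1 - b1 * c2 : ℤ)) ^ 2 -
      4 * (a2 * c1 - a1 * c2) * (b2 * d1 - b1 * d2) = 1 - n ^ 2 := by
    have e1 : (1 : ℤ) = (a1 * d1 - a2 * d2 - (b1 * c1 - b2 * c2)) ^ 2 +
        (a1 * d2 + a2 * d1 - (b1 * c2 + b2 * c1)) ^ 2 := by rw [hdr, hdi]; norm_num
    rw [e1, hn]
    ring
  have hn1 : 1 ≤ n ^ 2 := by
    have := sq_nonneg n
    have h2 : n ^ 2 ≠ 0 := pow_ne_zero 2 hnodd
    omega
  set α : ℝ := (a2 * c1 - a1 * c2 : ℝ) with hα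
  set β : ℝ := (a2 * d1 - a1 * d2 + b2 * c1 - b1 * c2 : ℝ) with hβ
  set γ : ℝ := (b2 * d1 - b1 * d2 : ℝ) with hγ
  have hD : β ^ 2 - 4 * α * γ ≤ 0 := by
    have h1 : ((((a2 * d1 - a1 * d2 + b2 * c1 - b1 * c2 : ℤ)) ^ 2 -
      4 * (a2 * c1 - a1 * c2) * (b2 * d1 - b1 * d2) : ℤ) : ℝ) ≤ 0 := by
      rw [hdisc]
      exact_mod_cast (by linarith : 1 - n ^ 2 ≤ 0)
    push_cast at h1
    rw [hα, hβ, hγ]
    exact h1
  have hnum : ∀ x : ℝ, ((h 0 0 * x + h 0 1) * (starRingEnd ℂ) (h 1 0 * x + h 1 1)).im =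
      α * x ^ 2 + β * x + γ := by
    intro x
    rw [im_num, ha, hb, hc, hd]
    simp only [hre, him]
    rw [hα, hβ, hγ]
  have hinf : (h 0 0 * (starRingEnd ℂ) (h 1 0)).im = α := by
    rw [ha, hc, Complex.mul_im, Complex.conj_re, Complex.conj_im, hre, him, hre, him, hα]
    ring
  rcases quad α β γ hD with ⟨h0, hq⟩ | ⟨h0, hq⟩
  · left
    rintro p ⟨w, hw, rfl⟩
    simp only
    rcases hw with rfl | ⟨x, rfl⟩
    · rw [OnePoint.smul_infty_eq_ite]
      split_ifs with h1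
      · exact Or.inl rfl
      · right
        refine ⟨_, rfl, ?_⟩
        rw [im_div, hinf]
        exact div_nonneg h0 (normSq_nonneg _)
    · rw [OnePoint.smul_some_eq_ite]
      split_ifs with h1
      · exact Or.inl rfl
      · right
        refine ⟨_, rfl, ?_⟩
        rw [im_div, hnum]
        exact div_nonneg (hq x) (normSq_nonneg _)
  · right
    rintro p ⟨w, hw, rfl⟩
    simp only
    rcases hw with rfl | ⟨x, rfl⟩
    · rw [OnePoint.smul_infty_eq_ite]
      split_ifs with h1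
      · exact Or.inl rfl
      · right
        refine ⟨_, rfl, ?_⟩
        rw [im_div, hinf]
        exact div_nonpos_of_nonpos_of_nonneg h0 (normSq_nonneg _)
    · rw [OnePoint.smul_some_eq_ite]
      split_ifs with h1
      · exact Or.inl rfl
      · right
        refine ⟨_, rfl, ?_⟩
        rw [im_div, hnum]
        exact div_nonpos_of_nonpos_of_nonneg (hq x) (normSq_nonneg _)

end Pool.Agent.T2H64.AP
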