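import Pool.Agent.T2H64.AP.Stm

/-! # Package OR of project AP -/

set_option autoImplicit false

namespace Pool.Agent.T2H64.AP

open Matrix Complex OnePoint Topology Filter Set

namespace PkgOR

theorem mk_apply (a b c d : ℂ) (h : a * d - b * c ≠ 0) (i j : Fin 2) :
    (mk a b c d h) i j = (!![a, b; c, d] : Matrix (Fin 2) (Fin 2) ℂ) i j := rfl

theorem gi_T : GI tT := by
  refine ⟨?_, ?_⟩
  · intro i j
    rw [tT, mk_apply]
    fin_cases i <;> fin_cases j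
    · exact ⟨1, 0, by simp⟩
    · exact ⟨1, 0, by simp⟩
    · exact ⟨0, 0, by simp⟩
    · exact ⟨1, 0, by simp⟩
  · rw [tT, mk_apply, mk_apply, mk_apply, mk_apply]
    simp

theorem gi_W : GI tW := by
  refine ⟨?_, ?_⟩
  · intro i j
    rw [tW, mk_apply]
    fin_cases i <;> fin_cases j
    · exact ⟨0, 0, by simp⟩
    · exact ⟨-1, 0, by simp⟩
    · exact ⟨1, 0, by simp⟩
    · exact ⟨0, 0, by simp⟩
  · rw [tW, mk_apply, mk_apply, mk_apply, mk_apply]
    simp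

theorem gi_J : GI tJ := by
  refine ⟨?_, ?_⟩
  · intro i j
    rw [tJ, mk_apply]
    fin_cases i <;> fin_cases j
    · exact ⟨0, -1, by simp⟩
    · exact ⟨-1, 0, by simp⟩
    · exact ⟨0, 0, by simp⟩
    · exact ⟨0, 1, by simp⟩
  · rw [tJ, mk_apply, mk_apply, mk_apply, mk_apply]
    simp

/-- `InG0` as a subgroup -/
def H0 (hGR : P_GR) : Subgroup G where
  carrier := {g | InG0 g}
  mul_mem' := by
    intro a b ha hb
    obtain ⟨-, h2, h3, h4, -⟩ := hGR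
    exact ⟨h2 a b ha.1 hb.1, h4 a b ha.2 hb.2⟩
  one_mem' := hGR.1
  inv_mem' := by
    intro a ha
    obtain ⟨-, -, h3, -, h5, -⟩ := hGR
    exact ⟨h3 a ha.1, h5 a ha.2⟩

theorem mem_H0 (hGR : P_GR) (g : G) : g ∈ H0 hGR ↔ InG0 g := Iff.rfl

end PkgOR

open PkgOR in
theorem T_OR (hTQ : P_TQ) (hTR : P_TR) (hUP : P_UP) (hSZ : P_SZ) (hSB : P_SB) (hGR : P_GR)
    (hTG : P_TG) : P_OR := by
  obtain ⟨g1, g2, g3, g4, g5, g6, g7, g8, g9⟩ := hTG
  obtain ⟨s1, ⟨p1, p2, p3, p4⟩, sT, sW, sJ⟩ := hSB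
  have hT : tT ∈ H0 hGR := ⟨gi_T, sT⟩
  have hW : tW ∈ H0 hGR := ⟨gi_W, sW⟩
  have hJ : tJ ∈ H0 hGR := ⟨gi_J, sJ⟩
  have hTn : ∀ n : ℤ, tT ^ n * tW * tJ ∈ H0 hGR := fun n =>
    (H0 hGR).mul_mem ((H0 hGR).mul_mem ((H0 hGR).zpow_mem hT n) hW) hJ
  set F : Set (Set X) := {S | ∃ h : G, InG0 h ∧ S = cir h} with hF
  have hcl : ClF F := by
    rintro S ⟨s, hs, rfl⟩ T ⟨t, ht, rfl⟩ U ⟨u, hu, rfl⟩ V hV hST hTU hSU hSTU hVS hVT hVU
    have hs' : s ∈ H0 hGR := hs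
    have ht' : t ∈ H0 hGR := ht
    have hu' : u ∈ H0 hGR := hu
    -- first step
    have e1 : img s⁻¹ (cir s) = cir 1 := by rw [g1, inv_mul_cancel]
    have hT1 : Tan (cir 1) (cir (s⁻¹ * t)) := by
      rw [← e1, ← g1, g4]
      exact hST
    have hst : GI (s⁻¹ * t) := ((H0 hGR).mul_mem ((H0 hGR).inv_mem hs') ht').1
    obtain ⟨p, hp, -⟩ := id hT1
    obtain ⟨r, hr1, hr2, hr3⟩ := hTQ.2.2 (s⁻¹ * t) hst hT1 p hp
    have hr : InG0 r := hSZ r hr1 hr2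
    have hr' : r ∈ H0 hGR := hr
    have hrim : ∀ i j, (r i j).im = 0 := by
      intro i j
      obtain ⟨m, hm⟩ := hr1 i j
      rw [hm]
      simp
    have e2 : img r (cir 1) = cir 1 := by
      rw [g1, mul_one, ← one_mul r, g9 1 r hrim]
    set q : G := r * s⁻¹ with hq
    have hq' : q ∈ H0 hGR := (H0 hGR).mul_mem hr' ((H0 hGR).inv_mem hs')
    have eS : img q (cir s) = cir 1 := by
      rw [hq, ← g2, e1, e2]
    have eT : img q (cir t) = cir (q * t) := g1 _ _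
    have eU : img q (cir u) = cir (q * u) := g1 _ _
    have hqt : q * t ∈ H0 hGR := (H0 hGR).mul_mem hq' ht'
    have hqu : q * u ∈ H0 hGR := (H0 hGR).mul_mem hq' hu'
    have hinf : (∞ : X) ∈ cir (q * t) := by
      have h1 : cir (q * t) = img r (cir (s⁻¹ * t)) := by
        rw [g1, hq, mul_assoc]
      rw [h1, ← hr3]
      exact ⟨p, hp.2, rfl⟩
    have t1 : Tan (cir 1) (cir (q * t)) := by
      rw [← eS, ← eT, g4]; exact hST
    have t2 : Tan (cir (q * t)) (cir (q * u)) := by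
      rw [← eT, ← eU, g4]; exact hTU
    have t3 : Tan (cir 1) (cir (q * u)) := by
      rw [← eS, ← eU, g4]; exact hSU
    have t4 : cir 1 ∩ cir (q * t) ∩ cir (q * u) = ∅ := by
      rw [← eS, ← eT, ← eU, g6]; exact hSTU
    have key : ∀ w : G, w ∈ H0 hGR → img q V = cir w → V ∈ F := by
      intro w hw hVw
      refine ⟨q⁻¹ * w, (H0 hGR).mul_mem ((H0 hGR).inv_mem hq') hw, ?_⟩
      rw [← g1, ← hVw, g2, inv_mul_cancel, g3]
    rcases hTR (q * t) (q * u) hqt.1 hqu.1 hinf t1 t2 t3 t4 with ⟨-, n, -, hn⟩ | hbad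
    · have v1 : IsCir (img q V) := (g5 q V).mpr hV
      have v2 : Tan (img q V) (cir 1) := by
        rw [← eS, g4]; exact hVS
      have v3 : Tan (img q V) (cir (q * t)) := by
        rw [← eT, g4]; exact hVT
      have v4 : Tan (img q V) (cir (q * u)) := by
        rw [← eU, g4]; exact hVU
      rcases hn (img q V) v1 v2 v3 v4 with h | h
      · exact key _ (hTn (n + 1)) h
      · exact key _ (hTn (n - 1)) h
    · exfalso
      have h1 : cir (q * t) ∈ PP := by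
        have h2 := (hqt.2 (cir 1)).mp p1
        rwa [g1, mul_one] at h2
      have h3 : (((-I : ℂ)) : X) ∈ cir (q * t) := (hbad (-I)).mpr (by simp)
      have h4 := hUP.1 _ h1 h3
      rcases h4 with h4 | ⟨z, hz, hz0, -⟩
      · exact OnePoint.coe_ne_infty _ h4
      · have h5 : (-I : ℂ) = z := OnePoint.coe_injective hz
        rw [← h5] at hz0
        simp at hz0
        linarith
  intro S hS
  have hmem : F ∈ {F : Set (Set X) | cir 1 ∈ F ∧ cir tJ ∈ F ∧ cir (tW * tJ) ∈ F ∧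
      cir (tT * tW * tJ) ∈ F ∧ ClF F} := by
    refine ⟨⟨1, (H0 hGR).one_mem, rfl⟩, ⟨tJ, hJ, rfl⟩, ⟨tW * tJ, (H0 hGR).mul_mem hW hJ, rfl⟩,
      ⟨tT * tW * tJ, (H0 hGR).mul_mem ((H0 hGR).mul_mem hT hW) hJ, rfl⟩, hcl⟩
  have h1 : S ∈ F := hS F hmem
  exact h1

end Pool.Agent.T2H64.AP
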