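import Pool.Agent.T2H64.AP.Stm

set_option autoImplicit false

namespace Pool.Agent.T2H64.AP

open Matrix Complex OnePoint Topology Filter Set

namespace PkgPT

lemma det_ne (g : G) : g 0 0 * g 1 1 - g 0 1 * g 1 0 ≠ 0 := by
  have := g.det_ne_zero
  rwa [Matrix.det_fin_two] at this

lemma ne_zero_iff (v : Fin 2 → ℂ) : v ≠ 0 ↔ v 0 ≠ 0 ∨ v 1 ≠ 0 := by
  constructor
  · intro h
    by_contra hcon
    push Not at hcon
    apply h
    funext i
    fin_cases i
    · exact hcon.1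
    · exact hcon.2
  · rintro (h | h) rfl
    · exact h rfl
    · exact h rfl

lemma pt_inf {v : Fin 2 → ℂ} (h : v 1 = 0) : pt v = ∞ := by
  unfold pt
  rw [if_pos h]

lemma pt_fin {v : Fin 2 → ℂ} (h : v 1 ≠ 0) : pt v = ((v 0 / v 1 : ℂ) : X) := by
  unfold pt
  rw [if_neg h]

lemma ex_vec (p : X) : ∃ v : Fin 2 → ℂ, v ≠ 0 ∧ p = pt v := by
  induction p using OnePoint.rec with
  | infty =>
    refine ⟨![1, 0], ?_, ?_⟩
    · rw [ne_zero_iff]
      left
      simp
    · rw [pt_inf (by simp)]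
  | coe z =>
    refine ⟨![z, 1], ?_, ?_⟩
    · rw [ne_zero_iff]
      right
      simp
    · rw [pt_fin (by simp)]
      simp

lemma pt_eq (v w : Fin 2 → ℂ) (hv : v ≠ 0) (hw : w ≠ 0) :
    pt v = pt w ↔ ∃ c : ℂ, c ≠ 0 ∧ w = c • v := by
  rw [ne_zero_iff] at hv hw
  constructor
  · intro h
    by_cases hv1 : v 1 = 0
    · have hv0 : v 0 ≠ 0 := hv.resolve_right (by simpa using hv1)
      by_cases hw1 : w 1 = 0
      · have hw0 : w 0 ≠ 0 := hw.resolve_right (by simpa using hw1)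
        refine ⟨w 0 / v 0, div_ne_zero hw0 hv0, ?_⟩
        funext i
        fin_cases i
        · simp [div_mul_cancel₀ _ hv0]
        · simp [hv1, hw1]
      · exfalso
        rw [pt_inf hv1, pt_fin hw1] at h
        exact OnePoint.infty_ne_coe _ h
    · by_cases hw1 : w 1 = 0
      · exfalso
        rw [pt_inf hw1, pt_fin hv1] at h
        exact OnePoint.coe_ne_infty _ h
      · rw [pt_fin hv1, pt_fin hw1, OnePoint.coe_eq_coe] at h
        refine ⟨w 1 / v 1, div_ne_zero hw1 hv1, ?_⟩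
        rw [div_eq_div_iff hv1 hw1] at h
        funext i
        fin_cases i
        · simp only [Fin.zero_eta, Pi.smul_apply, smul_eq_mul]
          rw [div_mul_eq_mul_div, eq_div_iff hv1]
          linear_combination -h
        · simp only [Fin.mk_one, Pi.smul_apply, smul_eq_mul]
          rw [div_mul_cancel₀ _ hv1]
  · rintro ⟨c, hc, rfl⟩
    by_cases hv1 : v 1 = 0
    · rw [pt_inf hv1, pt_inf (by simp [hv1])]
    · rw [pt_fin hv1, pt_fin (by simp [hv1, hc]), OnePoint.coe_eq_coe]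
      simp only [Pi.smul_apply, smul_eq_mul]
      rw [mul_div_mul_left _ _ hc]

lemma act0 (g : G) (v : Fin 2 → ℂ) : act g v 0 = g 0 0 * v 0 + g 0 1 * v 1 := rfl
lemma act1 (g : G) (v : Fin 2 → ℂ) : act g v 1 = g 1 0 * v 0 + g 1 1 * v 1 := rfl

lemma act_ne (g : G) (v : Fin 2 → ℂ) (hv : v ≠ 0) : act g v ≠ 0 := by
  intro h
  have h0 : g 0 0 * v 0 + g 0 1 * v 1 = 0 := congrFun h 0
  have h1 : g 1 0 * v 0 + g 1 1 * v 1 = 0 := congrFun h 1
  have hd := det_ne g
  rw [ne_zero_iff] at hv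
  rcases hv with hv | hv
  · apply mul_ne_zero hd hv
    linear_combination g 1 1 * h0 - g 0 1 * h1
  · apply mul_ne_zero hd hv
    linear_combination g 0 0 * h1 - g 1 0 * h0

lemma smul_pt (g : G) (v : Fin 2 → ℂ) (hv : v ≠ 0) : g • pt v = pt (act g v) := by
  have hv' := (ne_zero_iff v).1 hv
  by_cases hv1 : v 1 = 0
  · have hv0 : v 0 ≠ 0 := hv'.resolve_right (by simpa using hv1)
    rw [pt_inf hv1, OnePoint.smul_infty_eq_ite]
    by_cases hg : g 1 0 = 0
    · rw [if_pos hg, pt_inf (by rw [act1, hg, hv1]; ring)]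
    · rw [if_neg hg]
      have h1 : act g v 1 ≠ 0 := by
        rw [act1, hv1, mul_zero, add_zero]
        exact mul_ne_zero hg hv0
      rw [pt_fin h1, act0, act1, hv1]
      congr 1
      rw [mul_zero, mul_zero, add_zero, add_zero, mul_div_mul_right _ _ hv0]
  · rw [pt_fin hv1, OnePoint.smul_some_eq_ite]
    have key : g 1 0 * (v 0 / v 1) + g 1 1 = act g v 1 / v 1 := by
      rw [act1]
      field_simp
    have key0 : g 0 0 * (v 0 / v 1) + g 0 1 = act g v 0 / v 1 := by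
      rw [act0]
      field_simp
    by_cases h1 : act g v 1 = 0
    · rw [if_pos (by rw [key, h1, zero_div]), pt_inf h1]
    · rw [if_neg (by rw [key]; exact div_ne_zero h1 hv1), pt_fin h1, key, key0]
      rw [div_div_div_cancel_right₀ hv1]

lemma act_mul (g h : G) (v : Fin 2 → ℂ) : act (g * h) v = act g (act h v) := by
  have e : ∀ i j, (g * h) i j = g i 0 * h 0 j + g i 1 * h 1 j := by
    intro i j
    have : (g * h) i j = ((g : Matrix (Fin 2) (Fin 2) ℂ) * (h : Matrix (Fin 2) (Fin 2) ℂ)) i j :=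
      rfl
    rw [this, Matrix.mul_apply, Fin.sum_univ_two]
  funext i
  fin_cases i
  · change (g * h) 0 0 * v 0 + (g * h) 0 1 * v 1 =
      g 0 0 * (h 0 0 * v 0 + h 0 1 * v 1) + g 0 1 * (h 1 0 * v 0 + h 1 1 * v 1)
    rw [e, e]
    ring
  · change (g * h) 1 0 * v 0 + (g * h) 1 1 * v 1 =
      g 1 0 * (h 0 0 * v 0 + h 0 1 * v 1) + g 1 1 * (h 1 0 * v 0 + h 1 1 * v 1)
    rw [e, e]
    ring

lemma act_one (v : Fin 2 → ℂ) : act 1 v = v := by
  funext i
  fin_cases i
  · change (1 : G) 0 0 * v 0 + (1 : G) 0 1 * v 1 = v 0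
    simp
  · change (1 : G) 1 0 * v 0 + (1 : G) 1 1 * v 1 = v 1
    simp

lemma act_smul (c : ℂ) (g : G) (v : Fin 2 → ℂ) : act g (c • v) = c • act g v := by
  funext i
  fin_cases i
  · change g 0 0 * (c * v 0) + g 0 1 * (c * v 1) = c * (g 0 0 * v 0 + g 0 1 * v 1)
    ring
  · change g 1 0 * (c * v 0) + g 1 1 * (c * v 1) = c * (g 1 0 * v 0 + g 1 1 * v 1)
    ring

lemma nn_smul (c : ℂ) (v : Fin 2 → ℂ) : nn (c • v) = Complex.normSq c * nn v := by
  unfold nn
  simp only [Pi.smul_apply, smul_eq_mul, Complex.normSq_mul]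
  ring

lemma nn_pos (v : Fin 2 → ℂ) (hv : v ≠ 0) : 0 < nn v := by
  unfold nn
  rw [ne_zero_iff] at hv
  have h0 := Complex.normSq_nonneg (v 0)
  have h1 := Complex.normSq_nonneg (v 1)
  rcases hv with hv | hv
  · have := Complex.normSq_pos.2 hv
    linarith
  · have := Complex.normSq_pos.2 hv
    linarith

end PkgPT

theorem T_PT : P_PT :=
  ⟨PkgPT.ex_vec, PkgPT.pt_eq, fun g v hv => ⟨PkgPT.act_ne g v hv, PkgPT.smul_pt g v hv⟩,
    PkgPT.act_mul, PkgPT.act_one, PkgPT.act_smul, PkgPT.nn_smul, PkgPT.nn_pos⟩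

end Pool.Agent.T2H64.AP
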