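import Pool.Agent.T2H64.AP.Stm

set_option autoImplicit false

namespace Pool.Agent.T2H64.AP

open Matrix Complex OnePoint Topology Filter Set

namespace PkgQD

theorem tan_of {A B : Set X} (w : ℂ) (hinf : (∞ : X) ∉ A ∨ (∞ : X) ∉ B) (hA : (w : X) ∈ A) (hB : (w : X) ∈ B)
    (huniq : ∀ z : ℂ, (z : X) ∈ A → (z : X) ∈ B → z = w) : Tan A B := by
  refine ⟨(w : X), ⟨hA, hB⟩, ?_⟩
  rintro p ⟨hpA, hpB⟩
  induction p using OnePoint.rec with
  | infty =>
    rcases hinf with h | h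
    · exact absurd hpA h
    · exact absurd hpB h
  | coe z => rw [huniq z hpA hpB]

theorem tan_inf {A B : Set X} (hA : (∞ : X) ∈ A) (hB : (∞ : X) ∈ B)
    (h : ∀ z : ℂ, (z : X) ∈ A → (z : X) ∈ B → False) : Tan A B := by
  refine ⟨∞, ⟨hA, hB⟩, ?_⟩
  rintro p ⟨hpA, hpB⟩
  induction p using OnePoint.rec with
  | infty => rfl
  | coe z => exact (h z hpA hpB).elim

theorem empty_of {A B C : Set X} (hinf : ¬ ((∞ : X) ∈ A ∧ (∞ : X) ∈ B ∧ (∞ : X) ∈ C))
    (h : ∀ z : ℂ, (z : X) ∈ A → (z : X) ∈ B → (z : X) ∈ C → False) : A ∩ B ∩ C = ∅ := by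
  ext p
  simp only [mem_inter_iff, mem_empty_iff_false, iff_false]
  rintro ⟨⟨hA, hB⟩, hC⟩
  induction p using OnePoint.rec with
  | infty => exact hinf ⟨hA, hB, hC⟩
  | coe z => exact h z hA hB hC

end PkgQD

open PkgQD in
theorem T_QD (hTG : P_TG) (hTR4 : P_TR4) : P_QD := by
  obtain ⟨-, -, -, -, -, -, -, h1, -⟩ := hTG
  obtain ⟨h2, hn⟩ := hTR4
  have h3 := hn 0
  have h4 := hn 1
  rw [zpow_zero, one_mul] at h3
  rw [zpow_one] at h4
  unfold P_QD
  rw [h1, h2, h3, h4]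
  have m1 : ∀ z : ℂ, (z : X) ∈ RL ↔ z.im = 0 := by
    intro z
    unfold RL
    rw [mem_insert_iff]
    constructor
    · rintro (h | ⟨x, hx⟩)
      · exact absurd h (OnePoint.coe_ne_infty z)
      · have := OnePoint.coe_injective hx
        rw [← this]
        simp
    · intro h
      refine Or.inr ⟨z.re, ?_⟩
      have e : ((z.re : ℝ) : ℂ) = z := Complex.ext (by simp) (by simp [h])
      show OnePoint.some ((z.re : ℝ) : ℂ) = OnePoint.some z
      rw [e]
  have i1 : (∞ : X) ∈ RL := mem_insert _ _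
  have m2 : ∀ z : ℂ, (z : X) ∈ {p : X | p = ∞ ∨ ∃ z : ℂ, p = (z : X) ∧ z.im = 1} ↔ z.im = 1 := by
    intro z
    constructor
    · rintro (h | ⟨w, hw, hw2⟩)
      · exact absurd h (OnePoint.coe_ne_infty z)
      · rw [OnePoint.coe_injective hw]; exact hw2
    · intro h
      exact Or.inr ⟨z, rfl, h⟩
  have i2 : (∞ : X) ∈ {p : X | p = ∞ ∨ ∃ z : ℂ, p = (z : X) ∧ z.im = 1} := Or.inl rfl
  have m3 : ∀ z : ℂ, (z : X) ∈ {p : X | ∃ z : ℂ, p = (z : X) ∧ normSq (z - ((0 : ℤ) : ℂ)) = z.im} ↔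
      z.re * z.re + z.im * z.im = z.im := by
    intro z
    constructor
    · rintro ⟨w, hw, hw2⟩
      rw [OnePoint.coe_injective hw]
      rw [normSq_apply] at hw2
      simpa using hw2
    · intro h
      refine ⟨z, rfl, ?_⟩
      rw [normSq_apply]
      simpa using h
  have i3 : (∞ : X) ∉ {p : X | ∃ z : ℂ, p = (z : X) ∧ normSq (z - ((0 : ℤ) : ℂ)) = z.im} := by
    rintro ⟨w, hw, _⟩
    exact OnePoint.coe_ne_infty w hw.symm
  have m4 : ∀ z : ℂ, (z : X) ∈ {p : X | ∃ z : ℂ, p = (z : X) ∧ normSq (z - ((1 : ℤ) : ℂ)) = z.im} ↔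
      (z.re - 1) * (z.re - 1) + z.im * z.im = z.im := by
    intro z
    constructor
    · rintro ⟨w, hw, hw2⟩
      rw [OnePoint.coe_injective hw]
      rw [normSq_apply] at hw2
      simpa using hw2
    · intro h
      refine ⟨z, rfl, ?_⟩
      rw [normSq_apply]
      simpa using h
  have i4 : (∞ : X) ∉ {p : X | ∃ z : ℂ, p = (z : X) ∧ normSq (z - ((1 : ℤ) : ℂ)) = z.im} := by
    rintro ⟨w, hw, _⟩
    exact OnePoint.coe_ne_infty w hw.symm
  generalize {p : X | p = ∞ ∨ ∃ z : ℂ, p = (z : X) ∧ z.im = 1} = C2 at *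
  generalize {p : X | ∃ z : ℂ, p = (z : X) ∧ normSq (z - ((0 : ℤ) : ℂ)) = z.im} = C3 at *
  generalize {p : X | ∃ z : ℂ, p = (z : X) ∧ normSq (z - ((1 : ℤ) : ℂ)) = z.im} = C4 at *
  refine ⟨?_, ?_, ?_, ?_, ?_, ?_, ?_, ?_, ?_, ?_⟩
  · refine tan_inf i1 i2 fun z ha hb => ?_
    rw [m1] at ha
    rw [m2] at hb
    linarith
  · refine tan_of 0 (Or.inr i3) ((m1 0).2 (by simp)) ((m3 0).2 (by simp)) fun z ha hb => ?_
    rw [m1] at ha
    rw [m3, ha] at hb
    apply Complex.ext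
    · have : z.re * z.re = 0 := by linarith
      simpa using this
    · simpa using ha
  · refine tan_of 1 (Or.inr i4) ((m1 1).2 (by simp)) ((m4 1).2 (by simp)) fun z ha hb => ?_
    rw [m1] at ha
    rw [m4, ha] at hb
    apply Complex.ext
    · have : (z.re - 1) * (z.re - 1) = 0 := by linarith
      have h5 : z.re - 1 = 0 := by simpa using this
      rw [Complex.one_re]
      linarith
    · simpa using ha
  · refine tan_of I (Or.inr i3) ((m2 I).2 (by simp)) ((m3 I).2 (by simp)) fun z ha hb => ?_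
    rw [m2] at ha
    rw [m3, ha] at hb
    apply Complex.ext
    · have : z.re * z.re = 0 := by linarith
      simpa using this
    · simpa using ha
  · refine tan_of (1 + I) (Or.inr i4) ((m2 _).2 (by simp)) ((m4 _).2 (by simp)) fun z ha hb => ?_
    rw [m2] at ha
    rw [m4, ha] at hb
    apply Complex.ext
    · have : (z.re - 1) * (z.re - 1) = 0 := by linarith
      have h5 : z.re - 1 = 0 := by simpa using this
      have h6 : (1 + I : ℂ).re = 1 := by simp
      rw [h6]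
      linarith
    · have h6 : (1 + I : ℂ).im = 1 := by simp
      rw [h6, ha]
  · refine tan_of ⟨1 / 2, 1 / 2⟩ (Or.inr i4) ((m3 _).2 (by norm_num)) ((m4 _).2 (by norm_num)) fun z ha hb => ?_
    rw [m3] at ha
    rw [m4] at hb
    have h5 : z.re = 1 / 2 := by linarith
    have h6 : (z.im - 1 / 2) * (z.im - 1 / 2) = 0 := by
      rw [h5] at ha
      linarith
    have h7 : z.im - 1 / 2 = 0 := by simpa using h6
    apply Complex.ext
    · simpa using h5
    · simp only
      linarith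
  · refine empty_of (fun h => i3 h.2.2) fun z ha hb _ => ?_
    rw [m1] at ha
    rw [m2] at hb
    linarith
  · refine empty_of (fun h => i4 h.2.2) fun z ha hb _ => ?_
    rw [m1] at ha
    rw [m2] at hb
    linarith
  · refine empty_of (fun h => i3 h.2.1) fun z ha hb hc => ?_
    rw [m1] at ha
    rw [m3, ha] at hb
    rw [m4, ha] at hc
    nlinarith
  · refine empty_of (fun h => i3 h.2.1) fun z ha hb hc => ?_
    rw [m2] at ha
    rw [m3, ha] at hb
    rw [m4, ha] at hc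
    nlinarith

end Pool.Agent.T2H64.AP
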