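import Pool.Agent.T2H64.AP.Stm

set_option autoImplicit false

namespace Pool.Agent.T2H64.AP

open Matrix Complex OnePoint Topology Filter Set

namespace PkgSB

lemma clPP : ClF PP := by
  intro S hS T hT U hU V hV h1 h2 h3 h4 h5 h6 h7 F hF
  exact hF.2.2.2.2 S (hS F hF) T (hT F hF) U (hU F hF) V hV h1 h2 h3 h4 h5 h6 h7

lemma m1 : cir 1 ∈ PP := fun _ hF => hF.1
lemma m2 : cir tJ ∈ PP := fun _ hF => hF.2.1
lemma m3 : cir (tW * tJ) ∈ PP := fun _ hF => hF.2.2.1
lemma m4 : cir (tT * tW * tJ) ∈ PP := fun _ hF => hF.2.2.2.1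

/-- images of the packing -/
lemma img_mem (hTG : P_TG) (g : G) (h1 : img g (cir 1) ∈ PP) (h2 : img g (cir tJ) ∈ PP)
    (h3 : img g (cir (tW * tJ)) ∈ PP) (h4 : img g (cir (tT * tW * tJ)) ∈ PP) :
    ∀ S ∈ PP, img g S ∈ PP := by
  obtain ⟨-, -, -, tan, isc, trip, -⟩ := hTG
  intro S hS
  have : {S | img g S ∈ PP} ∈ {F : Set (Set X) | cir 1 ∈ F ∧ cir tJ ∈ F ∧ cir (tW * tJ) ∈ F ∧
      cir (tT * tW * tJ) ∈ F ∧ ClF F} := by
    refine ⟨h1, h2, h3, h4, ?_⟩
    intro S hS T hT U hU V hV k1 k2 k3 k4 k5 k6 k7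
    exact clPP (img g S) hS (img g T) hT (img g U) hU (img g V) ((isc g V).2 hV)
      ((tan g S T).2 k1) ((tan g T U).2 k2) ((tan g S U).2 k3) ((trip g S T U).2 k4)
      ((tan g V S).2 k5) ((tan g V T).2 k6) ((tan g V U).2 k7)
  exact hS _ this

/-- three circles determine the fourth -/
lemma fourth (hTG : P_TG) (g : G) (S T U V : Set X) (hS : img g S ∈ PP) (hT : img g T ∈ PP)
    (hU : img g U ∈ PP) (hV : IsCir V) (k1 : Tan S T) (k2 : Tan T U) (k3 : Tan S U)
    (k4 : S ∩ T ∩ U = ∅) (k5 : Tan V S) (k6 : Tan V T) (k7 : Tan V U) : img g V ∈ PP := by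
  obtain ⟨-, -, -, tan, isc, trip, -⟩ := hTG
  exact clPP (img g S) hS (img g T) hT (img g U) hU (img g V) ((isc g V).2 hV)
      ((tan g S T).2 k1) ((tan g T U).2 k2) ((tan g S U).2 k3) ((trip g S T U).2 k4)
      ((tan g V S).2 k5) ((tan g V T).2 k6) ((tan g V U).2 k7)

/-- the inverse -/
lemma img_inv (hTG : P_TG) (g : G) (S T : Set X) (h : img g S = T) : img g⁻¹ T = S := by
  obtain ⟨-, mulimg, one, -⟩ := hTG
  rw [← h, mulimg, inv_mul_cancel, one]

lemma stab (hTG : P_TG) (g : G) (h1 : ∀ S ∈ PP, img g S ∈ PP) (h2 : ∀ S ∈ PP, img g⁻¹ S ∈ PP) :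
    StabP g := by
  intro S
  refine ⟨h1 S, fun h => ?_⟩
  have := h2 _ h
  rwa [img_inv hTG g S _ rfl] at this

lemma mk_apply (a b c d : ℂ) (h : a * d - b * c ≠ 0) :
    ((mk a b c d h : G) : Matrix (Fin 2) (Fin 2) ℂ) = !![a, b; c, d] := rfl

end PkgSB

open PkgSB in
theorem T_SB (hTG : P_TG) (hQD : P_QD) : P_SB := by
  have hTG' := hTG
  obtain ⟨icir, mulimg, one, tan, isc, trip, tsymm, c1, creal⟩ := hTG'
  obtain ⟨t12, t13, t14, t23, t24, t34, e123, e124, e134, e234⟩ := hQD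
  have hc1 : IsCir (cir 1) := ⟨1, rfl⟩
  have hc2 : IsCir (cir tJ) := ⟨_, rfl⟩
  have hc3 : IsCir (cir (tW * tJ)) := ⟨_, rfl⟩
  have hc4 : IsCir (cir (tT * tW * tJ)) := ⟨_, rfl⟩
  -- T
  have T1 : img tT (cir 1) = cir 1 := by
    rw [icir, mul_one]
    have := creal 1 tT (by
      intro i j
      fin_cases i <;> fin_cases j <;> simp [tT, mk_apply])
    rwa [one_mul] at this
  have T2 : img tT (cir tJ) = cir tJ := by
    rw [icir]
    have e : tT * tJ = tJ * mk 1 (-1) 0 1 (by norm_num) := by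
      apply Units.ext
      simp only [tT, tJ, Units.val_mul, mk_apply]
      ext i j
      fin_cases i <;> fin_cases j <;> simp [Matrix.mul_apply, Fin.sum_univ_two] <;> ring
    rw [e]
    refine creal _ _ ?_
    intro i j
    fin_cases i <;> fin_cases j <;> simp [mk_apply]
  have T3 : img tT (cir (tW * tJ)) = cir (tT * tW * tJ) := by
    rw [icir, mul_assoc]
  have T4 : img tT (cir (tT * tW * tJ)) ∈ PP :=
    fourth hTG tT (cir 1) (cir tJ) (cir (tW * tJ)) _ (by rw [T1]; exact m1) (by rw [T2]; exact m2)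
      (by rw [T3]; exact m4) hc4 t12 t23 t13 e123 (tsymm _ _ t14) (tsymm _ _ t24) (tsymm _ _ t34)
  have T1' := img_inv hTG _ _ _ T1
  have T2' := img_inv hTG _ _ _ T2
  have T3' := img_inv hTG _ _ _ T3
  have T4' : img tT⁻¹ (cir (tW * tJ)) ∈ PP :=
    fourth hTG tT⁻¹ (cir 1) (cir tJ) (cir (tT * tW * tJ)) _ (by rw [T1']; exact m1)
      (by rw [T2']; exact m2) (by rw [T3']; exact m3) hc3 t12 t24 t14 e124
      (tsymm _ _ t13) (tsymm _ _ t23) t34
  have hT : StabP tT := stab hTG tT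
    (img_mem hTG tT (by rw [T1]; exact m1) (by rw [T2]; exact m2) (by rw [T3]; exact m4) T4)
    (img_mem hTG tT⁻¹ (by rw [T1']; exact m1) (by rw [T2']; exact m2) T4'
      (by rw [T3']; exact m3))
  -- W
  have W1 : img tW (cir 1) = cir 1 := by
    rw [icir, mul_one]
    have := creal 1 tW (by
      intro i j
      fin_cases i <;> fin_cases j <;> simp [tW, mk_apply])
    rwa [one_mul] at this
  have W2 : img tW (cir tJ) = cir (tW * tJ) := icir _ _
  have W3 : img tW (cir (tW * tJ)) = cir tJ := by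
    rw [icir]
    have e : tW * (tW * tJ) = tJ * (tW * tW) := by
      apply Units.ext
      simp only [tW, tJ, Units.val_mul, mk_apply]
      ext i j
      fin_cases i <;> fin_cases j <;> simp [Matrix.mul_apply, Fin.sum_univ_two]
    rw [e]
    refine creal _ _ ?_
    intro i j
    fin_cases i <;> fin_cases j <;> simp [tW, mk_apply, Matrix.mul_apply, Fin.sum_univ_two]
  have W1' := img_inv hTG _ _ _ W1
  have W2' := img_inv hTG _ _ _ W2
  have W3' := img_inv hTG _ _ _ W3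
  have W4 : img tW (cir (tT * tW * tJ)) ∈ PP :=
    fourth hTG tW (cir 1) (cir tJ) (cir (tW * tJ)) _ (by rw [W1]; exact m1) (by rw [W2]; exact m3)
      (by rw [W3]; exact m2) hc4 t12 t23 t13 e123 (tsymm _ _ t14) (tsymm _ _ t24) (tsymm _ _ t34)
  have W4' : img tW⁻¹ (cir (tT * tW * tJ)) ∈ PP :=
    fourth hTG tW⁻¹ (cir 1) (cir tJ) (cir (tW * tJ)) _ (by rw [W1']; exact m1)
      (by rw [W3']; exact m3) (by rw [W2']; exact m2) hc4 t12 t23 t13 e123 (tsymm _ _ t14)
      (tsymm _ _ t24) (tsymm _ _ t34)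
  have hW : StabP tW := stab hTG tW
    (img_mem hTG tW (by rw [W1]; exact m1) (by rw [W2]; exact m3) (by rw [W3]; exact m2) W4)
    (img_mem hTG tW⁻¹ (by rw [W1']; exact m1) (by rw [W3']; exact m3) (by rw [W2']; exact m2) W4')
  -- J
  have J1 : img tJ (cir 1) = cir tJ := by rw [icir, mul_one]
  have J2 : img tJ (cir tJ) = cir 1 := by
    rw [icir]
    have := creal 1 (tJ * tJ) (by
      intro i j
      fin_cases i <;> fin_cases j <;>
        simp [tJ, mk_apply, Matrix.mul_apply, Fin.sum_univ_two])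
    rwa [one_mul] at this
  have J3 : img tJ (cir (tW * tJ)) = cir (tW * tJ) := by
    rw [icir]
    have e : tJ * (tW * tJ) = (tW * tJ) * mk 0 1 (-1) 0 (by norm_num) := by
      apply Units.ext
      simp only [tW, tJ, Units.val_mul, mk_apply]
      ext i j
      fin_cases i <;> fin_cases j <;> simp [Matrix.mul_apply, Fin.sum_univ_two]
    rw [e]
    refine creal _ _ ?_
    intro i j
    fin_cases i <;> fin_cases j <;> simp [mk_apply]
  have J1' := img_inv hTG _ _ _ J1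
  have J2' := img_inv hTG _ _ _ J2
  have J3' := img_inv hTG _ _ _ J3
  have J4 : img tJ (cir (tT * tW * tJ)) ∈ PP :=
    fourth hTG tJ (cir 1) (cir tJ) (cir (tW * tJ)) _ (by rw [J1]; exact m2) (by rw [J2]; exact m1)
      (by rw [J3]; exact m3) hc4 t12 t23 t13 e123 (tsymm _ _ t14) (tsymm _ _ t24) (tsymm _ _ t34)
  have J4' : img tJ⁻¹ (cir (tT * tW * tJ)) ∈ PP :=
    fourth hTG tJ⁻¹ (cir 1) (cir tJ) (cir (tW * tJ)) _ (by rw [J2']; exact m2)
      (by rw [J1']; exact m1) (by rw [J3']; exact m3) hc4 t12 t23 t13 e123 (tsymm _ _ t14)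
      (tsymm _ _ t24) (tsymm _ _ t34)
  have hJ : StabP tJ := stab hTG tJ
    (img_mem hTG tJ (by rw [J1]; exact m2) (by rw [J2]; exact m1) (by rw [J3]; exact m3) J4)
    (img_mem hTG tJ⁻¹ (by rw [J2']; exact m2) (by rw [J1']; exact m1) (by rw [J3']; exact m3) J4')
  exact ⟨clPP, ⟨m1, m2, m3, m4⟩, hT, hW, hJ⟩

end Pool.Agent.T2H64.AP
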