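import Pool.Agent.T2H64.AP.Stm

set_option autoImplicit false

namespace Pool.Agent.T2H64.AP

open Matrix Complex OnePoint Topology Filter Set

namespace PkgSE

lemma ph_gt_one : 1 < ph := by
  have h := ph_pos
  have h2 := ph_sq
  nlinarith

lemma mk_val (a b c d : ℂ) (h : a * d - b * c ≠ 0) :
    ((mk a b c d h : G) : Matrix (Fin 2) (Fin 2) ℂ) = !![a, b; c, d] := rfl

lemma mk_inv_val (a b c d : ℂ) (h : a * d - b * c ≠ 0) :
    (((mk a b c d h)⁻¹ : G) : Matrix (Fin 2) (Fin 2) ℂ) =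
      (a * d - b * c)⁻¹ • !![d, -b; -c, a] := by
  rw [Matrix.coe_units_inv, mk_val, Matrix.inv_def, Matrix.adjugate_fin_two_of,
    Matrix.det_fin_two_of, Ring.inverse_eq_inv']

lemma mr_cont (τ : ℝ) : Continuous fun t : ℝ => Mr τ t := by
  rw [Units.continuous_iff]
  constructor
  · have : (fun t : ℝ => ((Mr τ t : G) : Matrix (Fin 2) (Fin 2) ℂ)) =
        fun t : ℝ => !![I * (1 + I * τ), 0; I * (t : ℂ), 1] := by
      funext t; exact mk_val _ _ _ _ _
    change Continuous (fun t : ℝ => ((Mr τ t : G) : Matrix (Fin 2) (Fin 2) ℂ))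
    rw [this]
    refine continuous_matrix ?_
    intro i j
    fin_cases i <;> fin_cases j <;> simp <;> fun_prop
  · have : (fun t : ℝ => (((Mr τ t)⁻¹ : G) : Matrix (Fin 2) (Fin 2) ℂ)) =
        fun t : ℝ => (I * (1 + I * τ) * 1 - 0 * (I * (t : ℂ)))⁻¹ •
          !![1, -0; -(I * (t : ℂ)), I * (1 + I * τ)] := by
      funext t; exact mk_inv_val _ _ _ _ _
    rw [this]
    have h2 : (fun t : ℝ => (I * (1 + I * τ) * 1 - 0 * (I * (t : ℂ)))⁻¹ •
          !![1, -0; -(I * (t : ℂ)), I * (1 + I * τ)]) =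
        fun t : ℝ => (I * (1 + I * (τ : ℂ)))⁻¹ •
          !![1, -0; -(I * (t : ℂ)), I * (1 + I * τ)] := by
      funext t; simp
    rw [h2]
    refine continuous_matrix ?_
    intro i j
    fin_cases i <;> fin_cases j <;> simp <;> fun_prop

lemma kk_real (x : ℝ) (hx : x + ph ≠ 0) : ∃ y : ℝ, kk • ((x : ℂ) : X) = ((y : ℂ) : X) := by
  refine ⟨(ph * x - 1) / (x + ph), ?_⟩
  rw [OnePoint.smul_some_eq_ite]
  have h00 : kk 0 0 = (ph : ℂ) := rfl
  have h01 : kk 0 1 = (-1 : ℂ) := rfl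
  have h10 : kk 1 0 = (1 : ℂ) := rfl
  have h11 : kk 1 1 = (ph : ℂ) := rfl
  rw [h00, h01, h10, h11]
  have hne : (1 : ℂ) * (x : ℂ) + (ph : ℂ) ≠ 0 := by
    rw [one_mul]
    exact_mod_cast hx
  rw [if_neg hne]
  congr 1
  push_cast
  ring

lemma mr_smul (τ a : ℝ) (w z : ℂ) (h : I * a * w + 1 ≠ 0)
    (hz : I * (1 + I * τ) * w = z * (I * a * w + 1)) :
    Mr τ a • (w : X) = (z : X) := by
  rw [OnePoint.smul_some_eq_ite]
  have h00 : (Mr τ a) 0 0 = I * (1 + I * (τ : ℂ)) := rfl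
  have h01 : (Mr τ a) 0 1 = 0 := rfl
  have h10 : (Mr τ a) 1 0 = I * (a : ℂ) := rfl
  have h11 : (Mr τ a) 1 1 = (1 : ℂ) := rfl
  rw [h00, h01, h10, h11, if_neg h, add_zero, hz]
  congr 1
  field_simp

lemma key (τ a x : ℝ) (_ha : 0 < a) (hx : 1 - a * x ≠ 0) :
    ∃ w : ℂ, (w.im = -x * (1 - a * x) / ((1 - a * x) ^ 2 + τ ^ 2)) ∧
      Mr τ a • (w : X) = ((x : ℂ) : X) := by
  have hd : (0 : ℝ) < (1 - a * x) ^ 2 + τ ^ 2 := by positivity
  have hD : ((1 - a * x : ℝ) : ℂ) + I * τ ≠ 0 := by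
    intro h
    have := congrArg Complex.re h
    simp at this
    exact hx (by linarith)
  have hI : (I : ℂ) * I = -1 := Complex.I_mul_I
  refine ⟨-I * x / (((1 - a * x : ℝ) : ℂ) + I * τ), ?_, ?_⟩
  · rw [Complex.div_im]
    have hns : Complex.normSq (((1 - a * x : ℝ) : ℂ) + I * τ) = (1 - a * x) ^ 2 + τ ^ 2 := by
      rw [Complex.normSq_apply]
      simp
      ring
    rw [hns]
    simp
  · have h1 : I * a * (-I * x / (((1 - a * x : ℝ) : ℂ) + I * τ)) + 1 =
        (1 + I * τ) / (((1 - a * x : ℝ) : ℂ) + I * τ) := by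
      field_simp
      push_cast
      linear_combination (-(a : ℂ) * x) * hI
    have hT : (1 : ℂ) + I * τ ≠ 0 := by
      intro h
      have := congrArg Complex.re h
      simp at this
    apply mr_smul
    · rw [h1]
      exact div_ne_zero hT hD
    · rw [h1]
      field_simp
      linear_combination (-(x : ℂ)) * hI

end PkgSE

open PkgSE in
theorem T_SE (hGR : P_GR) : P_SE := by
  obtain ⟨-, -, -, -, -, -, hRL, -⟩ := hGR
  intro τ a ha
  have hph := ph_gt_one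
  have hphp := ph_pos
  refine ⟨⟨?_, ?_⟩, ?_⟩
  · obtain ⟨w, hw, hMw⟩ := key τ a (-1) ha (by nlinarith)
    obtain ⟨y, hy⟩ := kk_real (-1) (by linarith)
    refine ⟨((y : ℂ) : X), ⟨(w : X), ⟨w, ?_, rfl⟩, ?_⟩, hRL (Or.inr ⟨y, rfl⟩)⟩
    · show 0 < w.im
      rw [hw]
      have : (0 : ℝ) < (1 - a * (-1)) ^ 2 + τ ^ 2 := by
        have : (1 - a * (-1)) ≠ 0 := by nlinarith
        positivity
      apply div_pos _ this
      nlinarith
    · show (kk * Mr τ a) • (w : X) = _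
      rw [mul_smul, hMw, hy]
  · have hx : (1 : ℝ) - a * (1 / (2 * a)) = 1 / 2 := by field_simp; norm_num
    obtain ⟨w, hw, hMw⟩ := key τ a (1 / (2 * a)) ha (by rw [hx]; norm_num)
    have hpos : (0 : ℝ) < 1 / (2 * a) := by positivity
    obtain ⟨y, hy⟩ := kk_real (1 / (2 * a)) (by positivity)
    refine ⟨((y : ℂ) : X), ⟨(w : X), ⟨w, ?_, rfl⟩, ?_⟩, hRL (Or.inr ⟨y, rfl⟩)⟩
    · show w.im < 0
      rw [hw, hx]
      have : (0 : ℝ) < (1 / 2) ^ 2 + τ ^ 2 := by positivity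
      apply div_neg_of_neg_of_pos _ this
      nlinarith
    · show (kk * Mr τ a) • (w : X) = _
      rw [mul_smul, hMw, hy]
  · have h1 : Tendsto (fun n : ℕ => a * ph ^ (-(4 * (n : ℤ)))) atTop (𝓝 0) := by
      have h2 : (fun n : ℕ => a * ph ^ (-(4 * (n : ℤ)))) = fun n : ℕ => a * ((ph ^ 4)⁻¹) ^ n := by
        funext n
        rw [_root_.zpow_neg, _root_.zpow_mul, inv_pow]
        norm_cast
      rw [h2]
      have h3 : Tendsto (fun n : ℕ => ((ph ^ 4)⁻¹) ^ n) atTop (𝓝 0) := by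
        apply tendsto_pow_atTop_nhds_zero_of_lt_one (by positivity)
        apply inv_lt_one_of_one_lt₀
        exact one_lt_pow₀ hph (by norm_num)
      simpa using h3.const_mul a
    have h4 : Continuous fun t : ℝ => kk * Mr τ t := continuous_const.mul (mr_cont τ)
    exact (h4.tendsto 0).comp h1

end Pool.Agent.T2H64.AP
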