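import Pool.Agent.T2H64.AP.Stm

set_option autoImplicit false

namespace Pool.Agent.T2H64.AP

open Matrix Complex OnePoint Topology Filter Set

namespace PkgSQ

/-- the Gaussian matrices are countable -/
lemma countable_GI : {g : G | GI g}.Countable := by
  have h : ∀ g : G, GI g → ∃ m : Fin 2 → Fin 2 → ℤ × ℤ,
      ∀ i j, g i j = ((m i j).1 : ℂ) + ((m i j).2 : ℂ) * I := by
    intro g hg
    choose m n hmn using hg.1
    exact ⟨fun i j => (m i j, n i j), hmn⟩
  classical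
  choose! f hf using h
  refine Set.MapsTo.countable_of_injOn (f := f) (t := Set.univ) (fun _ _ => Set.mem_univ _) ?_
    (Set.to_countable _)
  intro g hg g' hg' hgg
  apply Units.ext
  ext i j
  have h1 := hf g hg i j
  have h2 := hf g' hg' i j
  rw [hgg] at h1
  exact h1.trans h2.symm

/-- neighbourhoods of infinity -/
def Vn (n : ℕ) : Set X := ((fun z : ℂ => (z : X)) '' Metric.closedBall (0 : ℂ) n)ᶜ

lemma isOpen_Vn (n : ℕ) : IsOpen (Vn n) := by
  unfold Vn
  exact OnePoint.isOpen_compl_image_coe.2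
    ⟨Metric.isClosed_closedBall, isCompact_closedBall _ _⟩

lemma infty_mem_Vn (n : ℕ) : (∞ : X) ∈ Vn n := by
  rintro ⟨z, -, hz⟩
  exact OnePoint.coe_ne_infty z hz

lemma mem_Vn {n : ℕ} {z : ℂ} (h : (z : X) ∈ Vn n) : (n : ℝ) < ‖z‖ := by
  by_contra hc
  apply h
  refine ⟨z, ?_, rfl⟩
  rw [mem_closedBall_zero_iff]
  exact not_lt.1 hc

/-- the countable family of open sets -/
def Un (h : G) (n : ℕ) : Set X := (fun p : X => h⁻¹ • p) ⁻¹' Vn n

end PkgSQ

open PkgSQ in
theorem T_SQ (hSG : P_SG) (hCU : P_CU) (hGR : P_GR) (hFD : P_FD) (hTA : P_TA) : P_SQ := by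
  classical
  intro F hF hcusp
  obtain ⟨hcont, hnb⟩ := hTA
  obtain ⟨⟨gi1, st1⟩, gimul, giinv, stmul, stinv, lam, rl, lamc⟩ := hGR
  have hUo : ∀ (h : G) (n : ℕ), IsOpen (Un h n) := fun h n => (isOpen_Vn n).preimage (hcont h⁻¹)
  have hinf : (∞ : X) ∈ Lam := rl (Set.mem_insert _ _)
  have hUl : ∀ (h : G) (n : ℕ), InG0 h → (Un h n ∩ Lam).Nonempty := by
    intro h n hh
    refine ⟨h • (∞ : X), ?_, (lam h hh.2 _).1 hinf⟩
    show h⁻¹ • (h • (∞ : X)) ∈ Vn n
    rw [inv_smul_smul]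
    exact infty_mem_Vn n
  -- every open set which meets Lam contains one of the sets
  have hsmall : ∀ U : Set X, IsOpen U → (U ∩ Lam).Nonempty →
      ∃ h : G, InG0 h ∧ ∃ n : ℕ, Un h n ⊆ U := by
    intro U hU hUL
    obtain ⟨h, hh, hhU⟩ := hCU U hU hUL
    have hpre : IsOpen ((fun p : X => h • p) ⁻¹' U) := hU.preimage (hcont h)
    obtain ⟨R, hR⟩ := hnb _ hpre hhU
    obtain ⟨n, hn⟩ := exists_nat_ge R
    refine ⟨h, hh, n, ?_⟩
    intro p hp
    have hp' : h⁻¹ • p ∈ Vn n := hp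
    have key : ∀ q : X, q ∈ Vn n → h • q ∈ U := by
      intro q hq
      induction q using OnePoint.rec with
      | infty => exact hhU
      | coe z => exact hR z (lt_of_le_of_lt hn (mem_Vn hq))
    have := key _ hp'
    rwa [smul_inv_smul] at this
  -- enumeration
  let ι := {h : G // InG0 h} × ℕ
  have : Countable {h : G // InG0 h} := by
    have : {h : G | InG0 h}.Countable := countable_GI.mono fun g hg => hg.1
    exact this.to_subtype
  have : Nonempty ι := ⟨(⟨1, gi1, st1⟩, 0)⟩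
  obtain ⟨e, he⟩ := exists_surjective_nat ι
  -- one step
  have step : ∀ (A : {A : Finset G // Fam F (A : Set G)}) (i : ι),
      ∃ A' : {A : Finset G // Fam F (A : Set G)}, (A.1 ⊆ A'.1) ∧
        ∃ g ∈ A'.1, ∃ γ ∈ Subgroup.closure (A'.1 : Set G), g ≠ g0 ∧
          ∀ p ∈ Ec g⁻¹, γ⁻¹ • p ∈ Un i.1.1 i.2 := by
    intro A i
    obtain ⟨g, γ, hγ, hfam, hg, hp⟩ := hSG F A.1 (Un i.1.1 i.2) hF hcusp A.2 (hUo _ _)
      (hUl _ _ i.1.2)
    have hcoe : ((insert g A.1 : Finset G) : Set G) = insert g (A.1 : Set G) :=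
      Finset.coe_insert g A.1
    refine ⟨⟨insert g A.1, by rw [hcoe]; exact hfam⟩, Finset.subset_insert _ _, g,
      Finset.mem_insert_self _ _, γ, ?_, hg, hp⟩
    refine Subgroup.closure_mono ?_ hγ
    rw [hcoe]
    exact Set.subset_insert _ _
  choose nx hsub hnx using step
  have hfd : Fam F (({g0} : Finset G) : Set G) := by
    refine ⟨by simp, ?_, ?_, ?_, ?_⟩
    · intro g hg
      have : g = g0 := by simpa using hg
      rw [this]; exact hFD.2.2.2
    · intro g hg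
      have : g = g0 := by simpa using hg
      rw [this]; exact hFD.2.2.1
    · intro g hg h hh hne
      have h1 : g = g0 := by simpa using hg
      have h2 : h = g0 := by simpa using hh
      exact absurd (h1.trans h2.symm) hne
    · intro g hg hne
      have h1 : g = g0 := by simpa using hg
      exact absurd h1 hne
  let s : ℕ → {A : Finset G // Fam F (A : Set G)} :=
    fun n => Nat.rec ⟨{g0}, hfd⟩ (fun k A => nx A (e k)) n
  have hs : ∀ k, s (k + 1) = nx (s k) (e k) := fun k => rfl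
  have hmono : Monotone fun k => (s k).1 := by
    refine monotone_nat_of_le_succ fun k => ?_
    show (s k).1 ⊆ (s (k + 1)).1
    rw [hs]
    exact hsub _ _
  refine ⟨⋃ k, ((s k).1 : Set G), ⟨?_, ?_, ?_, ?_, ?_⟩, ?_⟩
  · exact Set.mem_iUnion.2 ⟨0, (s 0).2.1⟩
  · intro g hg
    obtain ⟨k, hk⟩ := Set.mem_iUnion.1 hg
    exact (s k).2.2.1 g hk
  · intro g hg
    obtain ⟨k, hk⟩ := Set.mem_iUnion.1 hg
    exact (s k).2.2.2.1 g hk
  · intro g hg h hh hne
    obtain ⟨k, hk⟩ := Set.mem_iUnion.1 hg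
    obtain ⟨l, hl⟩ := Set.mem_iUnion.1 hh
    exact (s (max k l)).2.2.2.2.1 g (hmono (le_max_left k l) hk) h (hmono (le_max_right k l) hl) hne
  · intro g hg hne
    obtain ⟨k, hk⟩ := Set.mem_iUnion.1 hg
    exact (s k).2.2.2.2.2 g hk hne
  · intro U hU hUL
    obtain ⟨h, hh, n, hn⟩ := hsmall U hU hUL
    obtain ⟨k, hk⟩ := he (⟨h, hh⟩, n)
    obtain ⟨g, hg, γ, hγ, hne, hp⟩ := hnx (s k) (e k)
    rw [← hs] at hg hγ
    rw [hk] at hp
    exact ⟨g, Set.mem_iUnion.2 ⟨k + 1, hg⟩, γ,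
      Subgroup.closure_mono (Set.subset_iUnion (fun k => ((s k).1 : Set G)) (k + 1)) hγ, hne,
      fun p hpp => hn (hp p hpp)⟩

end Pool.Agent.T2H64.AP
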