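import Pool.Agent.T2H64.AP.Stm

set_option autoImplicit false

namespace Pool.Agent.T2H64.AP

open Matrix Complex OnePoint Topology Filter Set

namespace PkgSZ

/-- `SL₂(ℤ) → GL₂(ℂ)` -/
noncomputable def phi : Matrix.SpecialLinearGroup (Fin 2) ℤ →* G :=
  (Matrix.SpecialLinearGroup.toGL (n := Fin 2) (R := ℂ)).comp
    (Matrix.SpecialLinearGroup.map (Int.castRingHom ℂ))

lemma phi_apply (A : Matrix.SpecialLinearGroup (Fin 2) ℤ) (i j : Fin 2) :
    phi A i j = ((A i j : ℤ) : ℂ) := rfl

lemma phi_S : phi ModularGroup.S = tW := by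
  ext i j
  rw [phi_apply]
  fin_cases i <;> fin_cases j <;> simp [ModularGroup.S, tW, mk]

lemma phi_T : phi ModularGroup.T = tT := by
  ext i j
  rw [phi_apply]
  fin_cases i <;> fin_cases j <;> simp [ModularGroup.T, tT, mk]

lemma stab (h1 : P_GR) (h2 : P_SB) (A : Matrix.SpecialLinearGroup (Fin 2) ℤ) : StabP (phi A) := by
  let H : Subgroup (Matrix.SpecialLinearGroup (Fin 2) ℤ) :=
    { carrier := {A | StabP (phi A)}
      one_mem' := by
        show StabP (phi 1)
        rw [map_one]; exact h1.1.2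
      mul_mem' := by
        intro a b ha hb
        show StabP (phi (a * b))
        rw [map_mul]
        exact h1.2.2.2.1 _ _ ha hb
      inv_mem' := by
        intro a ha
        show StabP (phi a⁻¹)
        rw [map_inv]
        exact h1.2.2.2.2.1 _ ha }
  have hH : Subgroup.closure {ModularGroup.S, ModularGroup.T} ≤ H := by
    rw [Subgroup.closure_le]
    intro x hx
    rcases hx with rfl | hx
    · show StabP (phi ModularGroup.S)
      rw [phi_S]; exact h2.2.2.2.1
    · rw [Set.mem_singleton_iff] at hx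
      subst hx
      show StabP (phi ModularGroup.T)
      rw [phi_T]; exact h2.2.2.1
  rw [SpecialLinearGroup.SL2Z_generators] at hH
  exact hH (Subgroup.mem_top A)

end PkgSZ

open PkgSZ in
theorem T_SZ (h1 : P_GR) (h2 : P_SB) : P_SZ := by
  intro g hg hd
  choose m hm using hg
  have hdet : m 0 0 * m 1 1 - m 0 1 * m 1 0 = 1 := by
    rw [hm, hm, hm, hm] at hd
    exact_mod_cast hd
  let A : Matrix.SpecialLinearGroup (Fin 2) ℤ :=
    ⟨Matrix.of m, by rw [Matrix.det_fin_two]; exact hdet⟩
  have hA : phi A = g := by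
    ext i j
    rw [phi_apply]
    exact (hm i j).symm
  refine ⟨⟨fun i j => ⟨m i j, 0, by rw [hm]; simp⟩, hd⟩, ?_⟩
  rw [← hA]
  exact stab h1 h2 A

end Pool.Agent.T2H64.AP
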