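import Pool.Agent.T2H64.AP.Stm

set_option autoImplicit false

namespace Pool.Agent.T2H64.AP

open Matrix Complex OnePoint Topology Filter Set

namespace PkgTA

/-- quotients of continuous functions without common zeros, as a map to the sphere -/
theorem cont_quot {Y : Type*} [TopologicalSpace Y] (N D : Y → ℂ) (hN : Continuous N) (hD : Continuous D)
    (h : ∀ y, D y = 0 → N y ≠ 0) :
    Continuous (fun y => if D y = 0 then (∞ : X) else ((N y / D y : ℂ) : X)) := by
  rw [continuous_iff_continuousAt]
  intro y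
  by_cases hy : D y = 0
  · have hNy := h y hy
    have hval : (fun y => if D y = 0 then (∞ : X) else ((N y / D y : ℂ) : X)) y = ∞ := if_pos hy
    unfold ContinuousAt
    rw [hval, Filter.Tendsto, OnePoint.le_nhds_infty]
    intro s _ hs
    obtain ⟨R, hR⟩ := hs.isBounded.exists_norm_le
    rw [Filter.mem_map]
    have hc : 0 < ‖N y‖ / 2 := by
      have := norm_pos_iff.mpr hNy
      positivity
    have hR1 : 0 < |R| + 1 := by positivity
    have e1 : ∀ᶠ y' in 𝓝 y, ‖N y‖ / 2 < ‖N y'‖ := by
      exact (hN.norm.continuousAt (x := y)).eventually (lt_mem_nhds (a := ‖N y‖ / 2) (by linarith))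
    have hD0 : ‖D y‖ < ‖N y‖ / 2 / (|R| + 1) := by
      rw [hy, norm_zero]
      positivity
    have e2 : ∀ᶠ y' in 𝓝 y, ‖D y'‖ < ‖N y‖ / 2 / (|R| + 1) :=
      (hD.norm.continuousAt (x := y)).eventually (gt_mem_nhds hD0)
    filter_upwards [e1, e2] with y' h1 h2
    rw [Set.mem_preimage]
    by_cases hy' : D y' = 0
    · right
      rw [if_pos hy']
      exact Set.mem_singleton _
    · left
      rw [if_neg hy']
      refine ⟨N y' / D y', fun hx => ?_, rfl⟩
      have h3 := hR _ hx
      rw [norm_div, div_le_iff₀ (norm_pos_iff.mpr hy')] at h3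
      rw [lt_div_iff₀ hR1] at h2
      have h4 : R * ‖D y'‖ ≤ (|R| + 1) * ‖D y'‖ :=
        mul_le_mul_of_nonneg_right (by linarith [le_abs_self R]) (norm_nonneg _)
      linarith
  · have hev : ∀ᶠ y' in 𝓝 y, D y' ≠ 0 := hD.continuousAt.eventually_ne hy
    have hcont : ContinuousAt (fun y' => ((N y' / D y' : ℂ) : X)) y :=
      OnePoint.continuous_coe.continuousAt.comp (hN.continuousAt.div hD.continuousAt hy)
    refine hcont.congr ?_
    filter_upwards [hev] with y' hy'
    rw [if_neg hy']

theorem det_ne (g : G) : g 0 0 * g 1 1 - g 0 1 * g 1 0 ≠ 0 := by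
  have h := g.det.ne_zero
  simpa [Matrix.det_fin_two] using h

end PkgTA

open PkgTA in
theorem T_TA : P_TA := by
  refine ⟨fun g => ?_, fun V hV hi => ?_⟩
  · have hdet := det_ne g
    rw [OnePoint.continuous_iff]
    constructor
    · have hcw : Continuous (fun w : ℂ => if g 1 0 + g 1 1 * w = 0 then (∞ : X) else
          (((g 0 0 + g 0 1 * w) / (g 1 0 + g 1 1 * w) : ℂ) : X)) := by
        refine cont_quot (fun w => g 0 0 + g 0 1 * w) (fun w => g 1 0 + g 1 1 * w) (by fun_prop) (by fun_prop) ?_
        intro w h1 h2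
        apply hdet
        linear_combination g 1 1 * h2 - g 0 1 * h1
      have h0 : (if g 1 0 + g 1 1 * (0 : ℂ) = 0 then (∞ : X) else
          (((g 0 0 + g 0 1 * 0) / (g 1 0 + g 1 1 * 0) : ℂ) : X)) = g • (∞ : X) := by
        rw [OnePoint.smul_infty_eq_ite]
        simp
      have hlim := hcw.tendsto 0
      rw [h0] at hlim
      have hinv : Tendsto (fun z : ℂ => z⁻¹) (Filter.coclosedCompact ℂ) (𝓝 0) := by
        rw [Filter.coclosedCompact_eq_cocompact, ← Metric.cobounded_eq_cocompact]
        exact tendsto_inv₀_cobounded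
      have hcomp := hlim.comp hinv
      refine hcomp.congr' ?_
      have hne : ∀ᶠ z : ℂ in Filter.coclosedCompact ℂ, z ≠ 0 := by
        rw [Filter.coclosedCompact_eq_cocompact]
        exact (isCompact_singleton (x := (0 : ℂ))).compl_mem_cocompact
      filter_upwards [hne] with z hz
      simp only [Function.comp]
      rw [OnePoint.smul_some_eq_ite]
      have e : g 1 0 + g 1 1 * z⁻¹ = (g 1 0 * z + g 1 1) / z := by field_simp
      have e' : g 0 0 + g 0 1 * z⁻¹ = (g 0 0 * z + g 0 1) / z := by field_simp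
      rw [e, e']
      by_cases hd : g 1 0 * z + g 1 1 = 0
      · rw [if_pos hd, if_pos (by rw [hd, zero_div])]
      · rw [if_neg hd, if_neg (div_ne_zero hd hz)]
        congr 1
        field_simp
    · have hc := cont_quot (fun z : ℂ => g 0 0 * z + g 0 1) (fun z => g 1 0 * z + g 1 1) (by fun_prop) (by fun_prop) (by
        intro z h1 h2
        apply hdet
        linear_combination g 1 0 * (-h2) + g 0 0 * h1)
      refine hc.congr fun z => ?_
      rw [OnePoint.smul_some_eq_ite]
  · rw [OnePoint.isOpen_iff_of_mem hi] at hV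
    obtain ⟨R, hR⟩ := hV.2.isBounded.exists_norm_le
    refine ⟨R, fun z hz => ?_⟩
    by_contra hzV
    have := hR z hzV
    linarith

end Pool.Agent.T2H64.AP
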