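import Pool.Agent.T2H64.AP.T_TA

set_option autoImplicit false

namespace Pool.Agent.T2H64.AP

open Matrix Complex OnePoint Topology Filter Set

open PkgTA in
theorem T_TB : P_TB := by
  have hent : ∀ i j : Fin 2, Continuous (fun g : G => g i j) := by
    intro i j
    have h : Continuous (fun g : G => (g : Matrix (Fin 2) (Fin 2) ℂ)) := Units.continuous_val
    exact h.matrix_elem i j
  intro p
  induction p using OnePoint.rec with
  | infty =>
    have hc := cont_quot (fun g : G => g 0 0) (fun g : G => g 1 0) (hent 0 0) (hent 1 0) (by
      intro g h1 h2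
      apply det_ne g
      simp only [h1, h2]
      ring)
    refine hc.congr fun g => ?_
    rw [OnePoint.smul_infty_eq_ite]
  | coe z =>
    have hc := cont_quot (fun g : G => g 0 0 * z + g 0 1) (fun g : G => g 1 0 * z + g 1 1)
      (((hent 0 0).mul continuous_const).add (hent 0 1)) (((hent 1 0).mul continuous_const).add (hent 1 1)) (by
      intro g h1 h2
      apply det_ne g
      linear_combination g 1 0 * (-h2) + g 0 0 * h1)
    refine hc.congr fun g => ?_
    rw [OnePoint.smul_some_eq_ite]

end Pool.Agent.T2H64.AP
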