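import Pool.Agent.T2H64.AP.Stm

set_option autoImplicit false

namespace Pool.Agent.T2H64.AP

open Matrix Complex OnePoint Topology Filter Set

namespace PkgTC

/-- the expansion factor -/
noncomputable def Phi (g : G) : X → ℝ := fun p =>
  Option.elim p (nn (act g ![1, 0])) (fun z : ℂ => nn (act g ![z, 1]) / nn ![z, 1])

lemma pt_z (z : ℂ) : (z : X) = pt ![z, 1] := by
  simp [pt]

lemma pt_inf : (∞ : X) = pt ![1, 0] := by
  simp [pt]

lemma vz (z : ℂ) : (![z, 1] : Fin 2 → ℂ) ≠ 0 := by
  intro h
  have := congrFun h 1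
  simp at this

lemma vi : (![1, 0] : Fin 2 → ℂ) ≠ 0 := by
  intro h
  have := congrFun h 0
  simp at this

lemma nn_z (z : ℂ) : nn ![z, 1] = normSq z + 1 := by simp [nn]

lemma nn_i : nn ![1, 0] = 1 := by simp [nn]

lemma Phi_cont (g : G) : Continuous (Phi g) := by
  rw [OnePoint.continuous_iff]
  constructor
  · have h1 : ∀ z : ℂ, z ≠ 0 → Phi g (z : X) = (normSq (g 0 0 + g 0 1 * z⁻¹) + normSq (g 1 0 + g 1 1 * z⁻¹)) /
        (1 + normSq z⁻¹) := by
      intro z hz
      have e1 : Phi g (z : X) = nn (act g ![z, 1]) / nn ![z, 1] := rfl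
      have hn : normSq z ≠ 0 := by simpa using hz
      have hn' : 0 < normSq z := normSq_pos.2 hz
      rw [e1, nn_z]
      have e2 : nn (act g ![z, 1]) = normSq z * (normSq (g 0 0 + g 0 1 * z⁻¹) + normSq (g 1 0 + g 1 1 * z⁻¹)) := by
        rw [mul_add, ← normSq_mul, ← normSq_mul]
        have e3 : z * (g 0 0 + g 0 1 * z⁻¹) = g 0 0 * z + g 0 1 := by
          field_simp
        have e4 : z * (g 1 0 + g 1 1 * z⁻¹) = g 1 0 * z + g 1 1 := by
          field_simp
        rw [e3, e4]
        simp [nn, act]
      have e5 : normSq z + 1 = normSq z * (1 + normSq z⁻¹) := by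
        rw [map_inv₀]
        field_simp
      rw [e2, e5, mul_div_mul_left _ _ hn]
    have h2 : Tendsto (fun z : ℂ => (normSq (g 0 0 + g 0 1 * z⁻¹) + normSq (g 1 0 + g 1 1 * z⁻¹)) /
        (1 + normSq z⁻¹)) (coclosedCompact ℂ) (𝓝 (Phi g ∞)) := by
      have h3 : Tendsto (fun z : ℂ => z⁻¹) (coclosedCompact ℂ) (𝓝 0) := by
        rw [coclosedCompact_eq_cocompact, ← Metric.cobounded_eq_cocompact]
        exact tendsto_inv₀_cobounded
      have h4 : Continuous (fun w : ℂ => (normSq (g 0 0 + g 0 1 * w) + normSq (g 1 0 + g 1 1 * w)) /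
          (1 + normSq w)) := by
        refine Continuous.div ?_ ?_ ?_
        · exact (continuous_normSq.comp (by fun_prop)).add (continuous_normSq.comp (by fun_prop))
        · exact continuous_const.add continuous_normSq
        · intro w
          have := normSq_nonneg w
          linarith
      have h5 := (h4.tendsto 0).comp h3
      have h6 : (normSq (g 0 0 + g 0 1 * 0) + normSq (g 1 0 + g 1 1 * 0)) / (1 + normSq 0) = Phi g ∞ := by
        have e1 : Phi g ∞ = nn (act g ![1, 0]) := rfl
        rw [e1]
        simp [nn, act]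
      rw [h6] at h5
      exact h5
    refine h2.congr' ?_
    have h7 : ∀ᶠ z : ℂ in coclosedCompact ℂ, z ≠ 0 := by
      rw [coclosedCompact_eq_cocompact, ← Metric.cobounded_eq_cocompact]
      exact (Bornology.eventually_ne_cobounded 0)
    filter_upwards [h7] with z hz
    exact (h1 z hz).symm
  · have h1 : (fun z : ℂ => Phi g (z : X)) = fun z : ℂ => (normSq (g 0 0 * z + g 0 1) + normSq (g 1 0 * z + g 1 1)) /
        (normSq z + 1) := by
      funext z
      have e1 : Phi g (z : X) = nn (act g ![z, 1]) / nn ![z, 1] := rfl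
      rw [e1, nn_z]
      simp [nn, act]
    rw [h1]
    refine Continuous.div ?_ ?_ ?_
    · exact (continuous_normSq.comp (by fun_prop)).add (continuous_normSq.comp (by fun_prop))
    · exact continuous_normSq.add continuous_const
    · intro w
      have := normSq_nonneg w
      linarith

end PkgTC

open PkgTC

theorem T_TC : P_PT → P_EE → P_TC := by
  intro _ hEE g
  have h1 : Eo g = {p | Phi g p < 1} := by
    ext p
    induction p using OnePoint.rec with
    | infty =>
      rw [Set.mem_setOf_eq]
      have h2 := ((hEE.1 g _ vi).1)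
      rw [← pt_inf] at h2
      rw [h2, nn_i]
      rfl
    | coe z =>
      rw [Set.mem_setOf_eq]
      have h2 := ((hEE.1 g _ (vz z)).1)
      rw [← pt_z] at h2
      rw [h2]
      have e1 : Phi g (z : X) = nn (act g ![z, 1]) / nn ![z, 1] := rfl
      have h3 : 0 < nn ![z, 1] := by
        rw [nn_z]
        have := normSq_nonneg z
        linarith
      rw [e1, div_lt_one h3]
  have h1' : Ec g = {p | Phi g p ≤ 1} := by
    ext p
    induction p using OnePoint.rec with
    | infty =>
      rw [Set.mem_setOf_eq]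
      have h2 := ((hEE.1 g _ vi).2)
      rw [← pt_inf] at h2
      rw [h2, nn_i]
      rfl
    | coe z =>
      rw [Set.mem_setOf_eq]
      have h2 := ((hEE.1 g _ (vz z)).2)
      rw [← pt_z] at h2
      rw [h2]
      have e1 : Phi g (z : X) = nn (act g ![z, 1]) / nn ![z, 1] := rfl
      have h3 : 0 < nn ![z, 1] := by
        rw [nn_z]
        have := normSq_nonneg z
        linarith
      rw [e1, div_le_one h3]
  rw [h1, h1']
  exact ⟨isOpen_lt (Phi_cont g) continuous_const, isClosed_le (Phi_cont g) continuous_const⟩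

end Pool.Agent.T2H64.AP
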