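import Pool.Agent.T2H64.AP.Stm

set_option autoImplicit false

namespace Pool.Agent.T2H64.AP

open Matrix Complex OnePoint Topology Filter Set

namespace PkgTG

lemma img_img (g h : G) (S : Set X) : img g (img h S) = img (g * h) S := by
  unfold img
  rw [image_image]
  exact image_congr fun w _ => (mul_smul g h w).symm

lemma img_one (S : Set X) : img 1 S = S := by
  unfold img
  simp

lemma cir_eq (g : G) : cir g = img g RL := rfl

lemma img_cir (g h : G) : img g (cir h) = cir (g * h) := by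
  rw [cir_eq, cir_eq, img_img]

lemma mem_img (g : G) (S : Set X) (p : X) : p ∈ img g S ↔ g⁻¹ • p ∈ S := by
  unfold img
  constructor
  · rintro ⟨w, hw, rfl⟩
    simpa using hw
  · intro h
    exact ⟨g⁻¹ • p, h, by simp⟩

lemma tan_img_of (g : G) (S T : Set X) (h : Tan S T) : Tan (img g S) (img g T) := by
  obtain ⟨p, hp, hu⟩ := h
  refine ⟨g • p, ⟨?_, ?_⟩, ?_⟩
  · rw [mem_img]
    simpa using hp.1
  · rw [mem_img]
    simpa using hp.2
  · rintro q ⟨h1, h2⟩
    rw [mem_img] at h1 h2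
    have := hu (g⁻¹ • q) ⟨h1, h2⟩
    rw [← this]
    simp

lemma tan_img (g : G) (S T : Set X) : Tan (img g S) (img g T) ↔ Tan S T := by
  constructor
  · intro h
    have := tan_img_of g⁻¹ _ _ h
    rw [img_img, img_img, inv_mul_cancel, img_one, img_one] at this
    exact this
  · exact tan_img_of g S T

lemma isCir_img_of (g : G) (V : Set X) (h : IsCir V) : IsCir (img g V) := by
  obtain ⟨a, rfl⟩ := h
  exact ⟨g * a, img_cir g a⟩

lemma isCir_img (g : G) (V : Set X) : IsCir (img g V) ↔ IsCir V := by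
  constructor
  · intro h
    have := isCir_img_of g⁻¹ _ h
    rw [img_img, inv_mul_cancel, img_one] at this
    exact this
  · exact isCir_img_of g V

lemma inter3 (g : G) (S T U : Set X) : img g S ∩ img g T ∩ img g U = ∅ ↔ S ∩ T ∩ U = ∅ := by
  constructor
  · intro h
    rw [eq_empty_iff_forall_notMem] at h ⊢
    rintro p ⟨⟨h1, h2⟩, h3⟩
    refine h (g • p) ⟨⟨?_, ?_⟩, ?_⟩ <;> rw [mem_img] <;> simpa
  · intro h
    rw [eq_empty_iff_forall_notMem] at h ⊢
    rintro p ⟨⟨h1, h2⟩, h3⟩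
    rw [mem_img] at h1 h2 h3
    exact h _ ⟨⟨h1, h2⟩, h3⟩

lemma real_of_im {z : ℂ} (h : z.im = 0) : z = ((z.re : ℝ) : ℂ) := by
  apply Complex.ext <;> simp [h]

lemma real_sub (s : G) (hs : ∀ i j, (s i j).im = 0) (p : X) (hp : p ∈ RL) : s • p ∈ RL := by
  have ha := real_of_im (hs 0 0)
  have hb := real_of_im (hs 0 1)
  have hc := real_of_im (hs 1 0)
  have hd := real_of_im (hs 1 1)
  rcases hp with rfl | ⟨x, rfl⟩
  · rw [OnePoint.smul_infty_eq_ite]
    split_ifs with h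
    · exact mem_insert _ _
    · refine mem_insert_of_mem _ ⟨(s 0 0).re / (s 1 0).re, ?_⟩
      congr 1
      rw [ha, hc]
      push_cast
      simp
  · rw [OnePoint.smul_some_eq_ite]
    split_ifs with h
    · exact mem_insert _ _
    · refine mem_insert_of_mem _ ⟨((s 0 0).re * x + (s 0 1).re) / ((s 1 0).re * x + (s 1 1).re), ?_⟩
      congr 1
      rw [ha, hb, hc, hd]
      push_cast
      simp

lemma inv_real (s : G) (hs : ∀ i j, (s i j).im = 0) : ∀ i j, (s⁻¹ i j).im = 0 := by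
  have ha := real_of_im (hs 0 0)
  have hb := real_of_im (hs 0 1)
  have hc := real_of_im (hs 1 0)
  have hd := real_of_im (hs 1 1)
  have h1 : ((s⁻¹ : G) : Matrix (Fin 2) (Fin 2) ℂ) = ((s : Matrix (Fin 2) (Fin 2) ℂ))⁻¹ := by
    exact Matrix.coe_units_inv s
  intro i j
  have h2 : (s⁻¹ : G) i j = ((s : Matrix (Fin 2) (Fin 2) ℂ))⁻¹ i j := by
    rw [← h1]
  rw [h2, Matrix.inv_def, Matrix.smul_apply, Matrix.adjugate_fin_two, Ring.inverse_eq_inv', Matrix.det_fin_two,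
    smul_eq_mul]
  have hdet : ((s : Matrix (Fin 2) (Fin 2) ℂ) 0 0 * (s : Matrix (Fin 2) (Fin 2) ℂ) 1 1 -
      (s : Matrix (Fin 2) (Fin 2) ℂ) 0 1 * (s : Matrix (Fin 2) (Fin 2) ℂ) 1 0)⁻¹.im = 0 := by
    rw [ha, hb, hc, hd]
    rw [← Complex.ofReal_mul, ← Complex.ofReal_mul, ← Complex.ofReal_sub, ← Complex.ofReal_inv]
    exact Complex.ofReal_im _
  rw [Complex.mul_im, hdet, zero_mul, add_zero]
  have h3 : ((!![(s : Matrix (Fin 2) (Fin 2) ℂ) 1 1, -(s : Matrix (Fin 2) (Fin 2) ℂ) 0 1;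
      -(s : Matrix (Fin 2) (Fin 2) ℂ) 1 0, (s : Matrix (Fin 2) (Fin 2) ℂ) 0 0] : Matrix (Fin 2) (Fin 2) ℂ) i j).im = 0 := by
    have h00 := hs 0 0
    have h01 := hs 0 1
    have h10 := hs 1 0
    have h11 := hs 1 1
    fin_cases i <;> fin_cases j <;> simp [h00, h01, h10, h11]
  rw [h3, mul_zero]

lemma cir_real (s : G) (hs : ∀ i j, (s i j).im = 0) : cir s = RL := by
  apply Subset.antisymm
  · rintro p ⟨w, hw, rfl⟩
    exact real_sub s hs w hw
  · intro p hp
    exact ⟨s⁻¹ • p, real_sub s⁻¹ (inv_real s hs) p hp, by simp⟩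

end PkgTG

theorem T_TG : P_TG := by
  refine ⟨PkgTG.img_cir, PkgTG.img_img, PkgTG.img_one, PkgTG.tan_img, PkgTG.isCir_img, PkgTG.inter3, ?_, ?_, ?_⟩
  · intro S T h
    unfold Tan at h ⊢
    rwa [inter_comm]
  · rw [PkgTG.cir_eq, PkgTG.img_one]
  · intro h s hs
    rw [← PkgTG.img_cir, PkgTG.cir_real s hs]
    rfl

end Pool.Agent.T2H64.AP
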