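import Pool.Agent.T2H64.AP.Stm

/-!
# Package TQ of project AP: the circles of `SL₂(ℤ[i])` form a closed family
-/

set_option autoImplicit false

namespace Pool.Agent.T2H64.AP

open Matrix Complex OnePoint Topology Filter Set

namespace PkgTQ

lemma mem_RL_inf : (∞ : X) ∈ RL := Set.mem_insert _ _

lemma mem_RL_coe (z : ℂ) : ((z : ℂ) : X) ∈ RL ↔ z.im = 0 := by
  unfold RL
  rw [Set.mem_insert_iff, Set.mem_range]
  constructor
  · rintro (h | ⟨x, h⟩)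
    · exact absurd h (OnePoint.coe_ne_infty z)
    · have h1 : (x : ℂ) = z := OnePoint.coe_injective h
      rw [← h1]; simp
  · intro h
    refine Or.inr ⟨z.re, ?_⟩
    congr 1
    apply Complex.ext <;> simp [h]

lemma mem_cir (h : G) (p : X) : p ∈ cir h ↔ h⁻¹ • p ∈ RL := by
  unfold cir
  rw [Set.mem_image]
  constructor
  · rintro ⟨w, hw, rfl⟩
    rwa [inv_smul_smul]
  · intro hp
    exact ⟨h⁻¹ • p, hp, smul_inv_smul h p⟩

lemma mem_img (h : G) (S : Set X) (p : X) : p ∈ img h S ↔ h⁻¹ • p ∈ S := by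
  unfold img
  rw [Set.mem_image]
  constructor
  · rintro ⟨w, hw, rfl⟩
    rwa [inv_smul_smul]
  · intro hp
    exact ⟨h⁻¹ • p, hp, smul_inv_smul h p⟩

lemma div_im_zero (u v : ℂ) (hv : v ≠ 0) : (u / v).im = 0 ↔ (u * (starRingEnd ℂ) v).im = 0 := by
  have h1 : 0 < normSq v := Complex.normSq_pos.mpr hv
  have h2 : (u / v).im = (u * (starRingEnd ℂ) v).im / normSq v := by
    rw [Complex.div_im, Complex.mul_im, Complex.conj_re, Complex.conj_im]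
    ring
  rw [h2, div_eq_zero_iff]
  constructor
  · rintro (h | h)
    · exact h
    · exact absurd h h1.ne'
  · exact Or.inl

lemma smul_inf_mem (k : G) : k • (∞ : X) ∈ RL ↔ (k 0 0 * (starRingEnd ℂ) (k 1 0)).im = 0 := by
  rw [OnePoint.smul_infty_eq_ite]
  split_ifs with h
  · rw [h]; simp [mem_RL_inf]
  · rw [← div_im_zero _ _ h, ← mem_RL_coe]
    try rfl

lemma smul_coe_mem (k : G) (x : ℂ) : k • ((x : ℂ) : X) ∈ RL ↔
    ((k 0 0 * x + k 0 1) * (starRingEnd ℂ) (k 1 0 * x + k 1 1)).im = 0 := by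
  rw [OnePoint.smul_some_eq_ite]
  split_ifs with h
  · rw [h]; simp [mem_RL_inf]
  · rw [← div_im_zero _ _ h, ← mem_RL_coe]
    try rfl

lemma quad (a b c d : ℂ) (x : ℝ) :
    ((a * (x : ℂ) + b) * (starRingEnd ℂ) (c * (x : ℂ) + d)).im
      = (a * (starRingEnd ℂ) c).im * x ^ 2
        + ((a * (starRingEnd ℂ) d).im + (b * (starRingEnd ℂ) c).im) * x
        + (b * (starRingEnd ℂ) d).im := by
  simp only [Complex.mul_im, Complex.mul_re, Complex.add_re, Complex.add_im, map_add, map_mul,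
    Complex.conj_re, Complex.conj_im, Complex.ofReal_re, Complex.ofReal_im]
  ring

lemma im_int (m n m' n' : ℤ) : (((m : ℂ) + (n : ℂ) * I) * (starRingEnd ℂ) ((m' : ℂ) + (n' : ℂ) * I)).im
    = ((n * m' - m * n' : ℤ) : ℝ) := by
  simp only [Complex.mul_im, Complex.mul_re, Complex.add_re, Complex.add_im, map_add, map_mul,
    Complex.conj_re, Complex.conj_im, Complex.intCast_re, Complex.intCast_im, Complex.I_re,
    Complex.I_im]
  push_cast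
  ring

lemma im_int' {u v : ℂ} (hu : ∃ m n : ℤ, u = (m : ℂ) + (n : ℂ) * I)
    (hv : ∃ m n : ℤ, v = (m : ℂ) + (n : ℂ) * I) : ∃ a : ℤ, (u * (starRingEnd ℂ) v).im = (a : ℝ) := by
  obtain ⟨m, n, rfl⟩ := hu
  obtain ⟨m', n', rfl⟩ := hv
  exact ⟨_, im_int m n m' n'⟩

/-- a rational point goes to infinity -/
lemma rat_inf (q : ℚ) : ∃ s : G, (∀ i j, ∃ m : ℤ, s i j = (m : ℂ)) ∧
    s 0 0 * s 1 1 - s 0 1 * s 1 0 = 1 ∧ s • (((q : ℝ) : ℂ) : X) = ∞ := by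
  have h1 : IsCoprime q.num (q.den : ℤ) := by
    rw [Int.isCoprime_iff_gcd_eq_one]
    exact q.reduced
  obtain ⟨u, v, huv⟩ := h1
  have hdet : ((u : ℂ)) * ((q.num : ℤ) : ℂ) - (v : ℂ) * (-((q.den : ℤ) : ℂ)) ≠ 0 := by
    have : ((u : ℂ)) * ((q.num : ℤ) : ℂ) - (v : ℂ) * (-((q.den : ℤ) : ℂ)) = 1 := by
      have h2 : ((u * q.num + v * (q.den : ℤ) : ℤ) : ℂ) = 1 := by rw [huv]; simp
      push_cast at h2 ⊢
      linear_combination h2
    rw [this]; exact one_ne_zero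
  refine ⟨mk (u : ℂ) (v : ℂ) (-((q.den : ℤ) : ℂ)) ((q.num : ℤ) : ℂ) hdet, ?_, ?_, ?_⟩
  · intro i j
    fin_cases i <;> fin_cases j
    · exact ⟨u, rfl⟩
    · exact ⟨v, rfl⟩
    · exact ⟨-(q.den : ℤ), by show (-((q.den : ℤ) : ℂ)) = _; push_cast; ring⟩
    · exact ⟨q.num, rfl⟩
  · show ((u : ℂ)) * ((q.num : ℤ) : ℂ) - (v : ℂ) * (-((q.den : ℤ) : ℂ)) = 1
    have h2 : ((u * q.num + v * (q.den : ℤ) : ℤ) : ℂ) = 1 := by rw [huv]; simp
    push_cast at h2 ⊢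
    linear_combination h2
  · rw [OnePoint.smul_some_eq_ite, if_pos]
    show (-((q.den : ℤ) : ℂ)) * (((q : ℝ) : ℂ)) + ((q.num : ℤ) : ℂ) = 0
    have hd : ((q.den : ℤ) : ℂ) ≠ 0 := by
      have := q.den_nz
      exact_mod_cast this
    have hq : (((q : ℝ) : ℂ)) = ((q.num : ℤ) : ℂ) / ((q.den : ℤ) : ℂ) := by
      have h3 : (q : ℚ) = (q.num : ℚ) / (q.den : ℚ) := (Rat.num_div_den q).symm
      have h4 : ((q : ℚ) : ℂ) = ((q.num : ℚ) : ℂ) / ((q.den : ℚ) : ℂ) := by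
        conv_lhs => rw [h3]
        push_cast
        rfl
      push_cast
      push_cast at h4
      exact h4
    rw [hq]
    field_simp
    ring

/-- third part -/
lemma third (hGI : ∀ g : G, GI g → GI g⁻¹) : ∀ h : G, GI h → Tan (cir 1) (cir h) → ∀ p ∈ cir 1 ∩ cir h,
    ∃ s : G, (∀ i j, ∃ m : ℤ, s i j = (m : ℂ)) ∧
    s 0 0 * s 1 1 - s 0 1 * s 1 0 = 1 ∧ s • p = ∞ := by
  intro h hh hT p hp
  obtain ⟨p₀, hp₀, huniq⟩ := hT
  have hpp : p = p₀ := huniq p hp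
  have hu : ∀ q : X, q ∈ cir 1 → q ∈ cir h → q = p := fun q h1 h2 => (huniq q ⟨h1, h2⟩).trans hpp.symm
  have h1RL : ∀ q : X, q ∈ cir 1 ↔ q ∈ RL := fun q => by rw [mem_cir, inv_one, one_smul]
  obtain ⟨k, hk⟩ : ∃ k : G, k = h⁻¹ := ⟨_, rfl⟩
  have hkG : GI k := hk ▸ hGI h hh
  have hch : ∀ q : X, q ∈ cir h ↔ k • q ∈ RL := fun q => by rw [mem_cir, hk]
  have hpRL : p ∈ RL := (h1RL p).mp hp.1
  induction p using OnePoint.rec with
  | infty =>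
    refine ⟨1, ?_, ?_, one_smul _ _⟩
    · intro i j
      fin_cases i <;> fin_cases j
      · exact ⟨1, by simp⟩
      · exact ⟨0, by simp⟩
      · exact ⟨0, by simp⟩
      · exact ⟨1, by simp⟩
    · simp
  | coe z =>
    have hz : z.im = 0 := (mem_RL_coe z).mp hpRL
    obtain ⟨x₀, rfl⟩ : ∃ x₀ : ℝ, z = (x₀ : ℂ) := ⟨z.re, by apply Complex.ext <;> simp [hz]⟩
    obtain ⟨A, hA⟩ := im_int' (hkG.1 0 0) (hkG.1 1 0)
    obtain ⟨B₁, hB₁⟩ := im_int' (hkG.1 0 0) (hkG.1 1 1)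
    obtain ⟨B₂, hB₂⟩ := im_int' (hkG.1 0 1) (hkG.1 1 0)
    obtain ⟨C, hC⟩ := im_int' (hkG.1 0 1) (hkG.1 1 1)
    have hQ : ∀ x : ℝ, (((x : ℂ) : X) ∈ cir h ↔ (A : ℝ) * x ^ 2 + ((B₁ : ℝ) + B₂) * x + C = 0) := by
      intro x
      rw [hch, smul_coe_mem, quad, hA, hB₁, hB₂, hC]
    have hA0 : (A : ℝ) ≠ 0 := by
      intro hA0
      have h2 : (∞ : X) ∈ cir h := by
        rw [hch, smul_inf_mem, hA, hA0]
      have h3 := hu ∞ ((h1RL _).mpr mem_RL_inf) h2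
      exact OnePoint.coe_ne_infty _ h3.symm
    have hx0 := (hQ x₀).mp hp.2
    have hx1 : (A : ℝ) * (-((B₁ : ℝ) + B₂) / A - x₀) ^ 2 + ((B₁ : ℝ) + B₂) * (-((B₁ : ℝ) + B₂) / A - x₀) + C = 0 := by
      rw [← hx0]
      field_simp
      ring
    have h4 := hu _ ((h1RL _).mpr ((mem_RL_coe (((-((B₁ : ℝ) + B₂) / A - x₀ : ℝ)) : ℂ)).mpr
      (Complex.ofReal_im _))) ((hQ _).mpr hx1)
    have h5 : (-((B₁ : ℝ) + B₂) / A - x₀ : ℝ) = x₀ := by
      have h6 := OnePoint.coe_injective h4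
      exact_mod_cast h6
    have h7 : x₀ = ((((-((B₁ : ℚ) + B₂) / A) / 2 : ℚ)) : ℝ) := by
      push_cast
      linarith
    rw [h7]
    exact rat_inf _

lemma GI_mk (a b c d : ℂ) (h : a * d - b * c ≠ 0) (ha : ∃ m n : ℤ, a = (m : ℂ) + (n : ℂ) * I)
    (hb : ∃ m n : ℤ, b = (m : ℂ) + (n : ℂ) * I) (hc : ∃ m n : ℤ, c = (m : ℂ) + (n : ℂ) * I)
    (hd : ∃ m n : ℤ, d = (m : ℂ) + (n : ℂ) * I) (h1 : a * d - b * c = 1) : GI (mk a b c d h) := by
  refine ⟨?_, h1⟩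
  intro i j
  fin_cases i <;> fin_cases j
  · exact ha
  · exact hb
  · exact hc
  · exact hd

lemma GI_T : GI tT := GI_mk _ _ _ _ _ ⟨1, 0, by simp⟩ ⟨1, 0, by simp⟩ ⟨0, 0, by simp⟩ ⟨1, 0, by simp⟩
  (by norm_num)

lemma GI_W : GI tW := GI_mk _ _ _ _ _ ⟨0, 0, by simp⟩ ⟨-1, 0, by simp⟩ ⟨1, 0, by simp⟩ ⟨0, 0, by simp⟩
  (by norm_num)

lemma GI_J : GI tJ := GI_mk _ _ _ _ _ ⟨0, -1, by simp⟩ ⟨-1, 0, by simp⟩ ⟨0, 0, by simp⟩ ⟨0, 1, by simp⟩
  (by norm_num)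

/-- `z ↦ -z` -/
noncomputable def tN : G := mk I 0 0 (-I) (by norm_num)

lemma GI_N : GI tN := GI_mk _ _ _ _ _ ⟨0, 1, by simp⟩ ⟨0, 0, by simp⟩ ⟨0, 0, by simp⟩ ⟨0, -1, by simp⟩
  (by norm_num)

lemma tN_inf : tN • (∞ : X) = ∞ := by
  rw [OnePoint.smul_infty_eq_ite, if_pos]
  rfl

lemma tN_coe (z : ℂ) : tN • ((z : ℂ) : X) = ((-z : ℂ) : X) := by
  rw [OnePoint.smul_some_eq_ite]
  have h0 : tN 0 0 = I := rfl
  have h1 : tN 0 1 = 0 := rfl
  have h2 : tN 1 0 = 0 := rfl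
  have h3 : tN 1 1 = -I := rfl
  rw [h0, h1, h2, h3, if_neg (by simp)]
  congr 1
  have : (I : ℂ) ≠ 0 := Complex.I_ne_zero
  field_simp
  ring

lemma tN_RL (p : X) : tN • p ∈ RL ↔ p ∈ RL := by
  induction p using OnePoint.rec with
  | infty => rw [tN_inf]
  | coe z => rw [tN_coe, mem_RL_coe, mem_RL_coe]; simp

lemma tN_cir1 : img tN (cir 1) = cir 1 := by
  ext p
  rw [mem_img, mem_cir, mem_cir, inv_one, one_smul, one_smul, ← tN_RL, smul_inv_smul]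

/-- Gaussian subgroup -/
def GG (h1 : GI 1) (h2 : ∀ g h : G, GI g → GI h → GI (g * h)) (h3 : ∀ g : G, GI g → GI g⁻¹) : Subgroup G where
  carrier := {g | GI g}
  mul_mem' {a b} ha hb := h2 a b ha hb
  one_mem' := h1
  inv_mem' {a} ha := h3 a ha

lemma GI_zpow (h1 : GI 1) (h2 : ∀ g h : G, GI g → GI h → GI (g * h)) (h3 : ∀ g : G, GI g → GI g⁻¹)
    {g : G} (hg : GI g) (n : ℤ) : GI (g ^ n) :=
  (GG h1 h2 h3).zpow_mem hg n

/-- the closed family -/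
lemma first (hTG : P_TG) (hTR : P_TR) (h1 : GI 1) (h2 : ∀ g h : G, GI g → GI h → GI (g * h))
    (h3 : ∀ g : G, GI g → GI g⁻¹) : ClF {S | ∃ h : G, GI h ∧ S = cir h} := by
  obtain ⟨g1, g2, g3, g4, g5, g6, g7, g8, g9⟩ := hTG
  rintro S ⟨s, hs, rfl⟩ T ⟨t, ht, rfl⟩ U ⟨u, hu, rfl⟩ V hV hST hTU hSU hSTU hVS hVT hVU
  -- the point of tangency of `S` and `T` can be moved to infinity
  have hT' : Tan (cir 1) (cir (s⁻¹ * t)) := by
    have h := (g4 s⁻¹ (cir s) (cir t)).mpr hST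
    rwa [g1, g1, inv_mul_cancel] at h
  obtain ⟨p, hp, -⟩ := id hT'
  obtain ⟨r, hr1, hr2, hr3⟩ := third h3 _ (h2 _ _ (h3 _ hs) ht) hT' p hp
  have hrG : GI r := by
    refine ⟨fun i j => ?_, hr2⟩
    obtain ⟨m, hm⟩ := hr1 i j
    exact ⟨m, 0, by rw [hm]; simp⟩
  have hr_im : ∀ i j, (r i j).im = 0 := by
    intro i j
    obtain ⟨m, hm⟩ := hr1 i j
    rw [hm]; simp
  -- the transformation `k = r s⁻¹`
  obtain ⟨k, hk⟩ : ∃ k : G, k = r * s⁻¹ := ⟨_, rfl⟩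
  have hkG : GI k := hk ▸ h2 _ _ hrG (h3 _ hs)
  have hkS : img k (cir s) = cir 1 := by
    rw [hk, g1, mul_assoc, inv_mul_cancel, mul_one]
    have := g9 1 r hr_im
    rwa [one_mul] at this
  have hkT : (∞ : X) ∈ img k (cir t) := by
    rw [mem_img, hk, _root_.mul_inv_rev, inv_inv, mul_smul, ← hr3, inv_smul_smul]
    have h := (mem_cir _ _).mp hp.2
    rw [_root_.mul_inv_rev, inv_inv, mul_smul] at h
    exact (mem_cir _ _).mpr h
  -- finishing: some `k`, with `TR`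
  have fin : ∀ k : G, GI k → img k (cir s) = cir 1 → (∞ : X) ∈ img k (cir t) →
      ¬ (∀ z : ℂ, (z : X) ∈ img k (cir t) ↔ z.im = -1) → ∃ h : G, GI h ∧ V = cir h := by
    intro k hkG hkS hkT hno
    have e1 : Tan (cir 1) (cir (k * t)) := by
      have h := (g4 k (cir s) (cir t)).mpr hST
      rwa [hkS, g1] at h
    have e2 : Tan (cir (k * t)) (cir (k * u)) := by
      have h := (g4 k (cir t) (cir u)).mpr hTU
      rwa [g1, g1] at h
    have e3 : Tan (cir 1) (cir (k * u)) := by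
      have h := (g4 k (cir s) (cir u)).mpr hSU
      rwa [hkS, g1] at h
    have e4 : cir 1 ∩ cir (k * t) ∩ cir (k * u) = ∅ := by
      have h := (g6 k (cir s) (cir t) (cir u)).mpr hSTU
      rwa [hkS, g1, g1] at h
    rw [g1] at hkT
    rcases hTR (k * t) (k * u) (h2 _ _ hkG ht) (h2 _ _ hkG hu) hkT e1 e2 e3 e4 with ⟨_, n, _, hn⟩ | h
    · have v1 : Tan (img k V) (cir 1) := by
        have h := (g4 k V (cir s)).mpr hVS
        rwa [hkS] at h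
      have v2 : Tan (img k V) (cir (k * t)) := by
        have h := (g4 k V (cir t)).mpr hVT
        rwa [g1] at h
      have v3 : Tan (img k V) (cir (k * u)) := by
        have h := (g4 k V (cir u)).mpr hVU
        rwa [g1] at h
      have hback : ∀ h : G, img k V = cir h → V = cir (k⁻¹ * h) := by
        intro h hh
        rw [← g1, ← hh, g2, inv_mul_cancel, g3]
      have hz : ∀ m : ℤ, GI (tT ^ m * tW * tJ) := fun m =>
        h2 _ _ (h2 _ _ (GI_zpow h1 h2 h3 GI_T m) GI_W) GI_J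
      rcases hn (img k V) ((g5 k V).mpr hV) v1 v2 v3 with h | h
      · exact ⟨_, h2 _ _ (h3 _ hkG) (hz (n + 1)), hback _ h⟩
      · exact ⟨_, h2 _ _ (h3 _ hkG) (hz (n - 1)), hback _ h⟩
    · rw [← g1] at h
      exact absurd h hno
  by_cases hno : ∀ z : ℂ, (z : X) ∈ img k (cir t) ↔ z.im = -1
  · refine fin (tN * k) (h2 _ _ GI_N hkG) ?_ ?_ ?_
    · rw [← g2, hkS, tN_cir1]
    · rw [← g2, mem_img]
      have : tN⁻¹ • (∞ : X) = ∞ := by
        rw [inv_smul_eq_iff, tN_inf]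
      rw [this]
      exact hkT
    · intro h
      have h4 := (h (-I)).mpr (by simp)
      rw [← g2, mem_img] at h4
      have : tN⁻¹ • (((-I : ℂ)) : X) = ((I : ℂ) : X) := by
        rw [inv_smul_eq_iff, tN_coe]
      rw [this, hno] at h4
      norm_num at h4
  · exact fin k hkG hkS hkT hno

end PkgTQ

theorem T_TQ (hTG : P_TG) (hGR : P_GR) (hTR : P_TR) : P_TQ := by
  obtain ⟨⟨h1, -⟩, h2, h3, -⟩ := hGR
  have hc := PkgTQ.first hTG hTR h1 h2 h3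
  refine ⟨hc, ?_, PkgTQ.third h3⟩
  intro S hS
  exact Set.mem_sInter.mp hS {S | ∃ h : G, GI h ∧ S = cir h} ⟨⟨1, h1, rfl⟩, ⟨tJ, PkgTQ.GI_J, rfl⟩, ⟨tW * tJ, h2 _ _ PkgTQ.GI_W PkgTQ.GI_J, rfl⟩,
    ⟨tT * tW * tJ, h2 _ _ (h2 _ _ PkgTQ.GI_T PkgTQ.GI_W) PkgTQ.GI_J, rfl⟩, hc⟩

end Pool.Agent.T2H64.AP
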