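import Mathlib

/-!
# Project AP: MP_cc6c48_an (S06166): an infinitely generated symmetry group of the Apollonian packing
with an orbit of circles which is neither closed nor dense.

Points of the Riemann sphere are `pt v`, `v` a nonzero vector of `ℂ²`.  `nn v = |v 0|² + |v 1|²`.
`Eo g` is the open disc of the points which `g` expands (spherical metric), `Ec g` the closed disc.
-/

set_option autoImplicit false

namespace Pool.Agent.T2H64.AP

open Matrix Complex OnePoint Topology Filter Set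

abbrev G := Matrix.GeneralLinearGroup (Fin 2) ℂ
abbrev X := OnePoint ℂ

/-- the extended real line -/
def RL : Set X := insert (OnePoint.infty : OnePoint ℂ) (Set.range (fun x : ℝ => OnePoint.some (x : ℂ)))
def img (g : G) (S : Set X) : Set X := (fun w : OnePoint ℂ => g • w) '' S
def cir (g : G) : Set X := (fun w : OnePoint ℂ => g • w) '' RL
def Tan (S T : Set X) : Prop := ∃! p, p ∈ S ∩ T
def IsCir (V : Set X) : Prop := ∃ g : G, V = cir g
def ClF (F : Set (Set X)) : Prop := ∀ S ∈ F, ∀ T ∈ F, ∀ U ∈ F, ∀ V : Set X, IsCir V →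
  Tan S T → Tan T U → Tan S U → S ∩ T ∩ U = ∅ → Tan V S → Tan V T → Tan V U → V ∈ F

/-- the matrix `a b; c d` -/
noncomputable def mk (a b c d : ℂ) (h : a * d - b * c ≠ 0) : G :=
  Matrix.GeneralLinearGroup.mkOfDetNeZero !![a, b; c, d] (by simpa [Matrix.det_fin_two_of] using h)

/-- `z ↦ z + 1` -/
noncomputable def tT : G := mk 1 1 0 1 (by norm_num)
/-- `z ↦ -1/z` -/
noncomputable def tW : G := mk 0 (-1) 1 0 (by norm_num)
/-- `z ↦ i - z` -/
noncomputable def tJ : G := mk (-I) (-1) 0 I (by norm_num)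
/-- the hyperbolic element `2 1; 1 1` -/
noncomputable def g0 : G := mk 2 1 1 1 (by norm_num)
/-- golden ratio -/
noncomputable def ph : ℝ := (1 + Real.sqrt 5) / 2
lemma ph_pos : 0 < ph := by unfold ph; positivity
lemma ph_sq : ph ^ 2 = ph + 1 := by
  unfold ph
  have := Real.sq_sqrt (show (0 : ℝ) ≤ 5 by norm_num)
  nlinarith
/-- the rotation taking `∞` to `ph` and `0` to `-1/ph`; `g0 * kk = kk * diag (ph^2, ph^(-2))` -/
noncomputable def kk : G := mk ph (-1) 1 ph (by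
  have h := ph_pos
  have : (ph : ℂ) * ph - (-1) * 1 = ((ph ^ 2 + 1 : ℝ) : ℂ) := by push_cast; ring
  rw [this]
  exact_mod_cast (by positivity : (ph ^ 2 + 1 : ℝ) ≠ 0))
lemma Mr_det (τ : ℝ) (a : ℝ) : (I * (1 + I * τ)) * 1 - 0 * (I * (a : ℂ)) ≠ 0 := by
  have h : (1 + I * (τ : ℂ)) ≠ 0 := by
    intro h
    have := congrArg Complex.re h
    simp at this
  simp [h]
/-- takes the real line to the circle `a |ζ|² = Re ζ + τ Im ζ` (a line, if `a = 0`) -/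
noncomputable def Mr (τ a : ℝ) : G := mk (I * (1 + I * τ)) 0 (I * a) 1 (Mr_det τ a)
/-- `kk` of the circle `a |ζ|² = Re ζ + τ Im ζ` -/
noncomputable def cc (τ a : ℝ) : Set X := cir (kk * Mr τ a)
/-- the closure of the union of the circles `g0 ^ n (cc τ a)` -/
noncomputable def FF (τ a : ℝ) : Set X := cc τ 0 ∪ ⋃ n : ℤ, cc τ (a * ph ^ (4 * n))
/-- an open half plane, `g0` invariant -/
noncomputable def Om (τ : ℝ) : Set X := {p | ∃ ζ : ℂ, p = kk • (ζ : X) ∧ ζ.re + τ * ζ.im < 0}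

/-- the Apollonian strip packing -/
noncomputable def PP : Set (Set X) := ⋂₀ {F : Set (Set X) | cir 1 ∈ F ∧ cir tJ ∈ F ∧ cir (tW * tJ) ∈ F ∧
  cir (tT * tW * tJ) ∈ F ∧ ClF F}
noncomputable def Lam : Set X := closure (⋃₀ PP)
def StabP (g : G) : Prop := ∀ S : Set X, S ∈ PP ↔ img g S ∈ PP
/-- Gaussian integer entries, determinant one -/
def GI (g : G) : Prop := (∀ i j, ∃ m n : ℤ, g i j = (m : ℂ) + (n : ℂ) * I) ∧
  g 0 0 * g 1 1 - g 0 1 * g 1 0 = 1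
def InG0 (g : G) : Prop := GI g ∧ StabP g

noncomputable def nn (v : Fin 2 → ℂ) : ℝ := Complex.normSq (v 0) + Complex.normSq (v 1)
def act (g : G) (v : Fin 2 → ℂ) : Fin 2 → ℂ := ![g 0 0 * v 0 + g 0 1 * v 1, g 1 0 * v 0 + g 1 1 * v 1]
noncomputable def pt (v : Fin 2 → ℂ) : X := if v 1 = 0 then ∞ else ((v 0 / v 1 : ℂ) : X)
def Eo (g : G) : Set X := {p | ∃ v : Fin 2 → ℂ, v ≠ 0 ∧ p = pt v ∧ nn (act g v) < nn v}
def Ec (g : G) : Set X := {p | ∃ v : Fin 2 → ℂ, v ≠ 0 ∧ p = pt v ∧ nn (act g v) ≤ nn v}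

/-- closed upper half plane -/
def UH : Set X := insert ∞ {p | ∃ z : ℂ, p = (z : X) ∧ 0 ≤ z.im}
def LH : Set X := insert ∞ {p | ∃ z : ℂ, p = (z : X) ∧ z.im ≤ 0}
/-- closed strip -/
def ST : Set X := insert ∞ {p | ∃ z : ℂ, p = (z : X) ∧ 0 ≤ z.im ∧ z.im ≤ 1}

/-! ## Packages -/

/-- PT. Points and vectors. -/
def P_PT : Prop :=
  (∀ p : X, ∃ v : Fin 2 → ℂ, v ≠ 0 ∧ p = pt v) ∧
  (∀ v w : Fin 2 → ℂ, v ≠ 0 → w ≠ 0 → (pt v = pt w ↔ ∃ c : ℂ, c ≠ 0 ∧ w = c • v)) ∧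
  (∀ (g : G) (v : Fin 2 → ℂ), v ≠ 0 → act g v ≠ 0 ∧ g • pt v = pt (act g v)) ∧
  (∀ (g h : G) (v : Fin 2 → ℂ), act (g * h) v = act g (act h v)) ∧
  (∀ v : Fin 2 → ℂ, act 1 v = v) ∧
  (∀ (c : ℂ) (g : G) (v : Fin 2 → ℂ), act g (c • v) = c • act g v) ∧
  (∀ (c : ℂ) (v : Fin 2 → ℂ), nn (c • v) = Complex.normSq c * nn v) ∧
  (∀ v : Fin 2 → ℂ, v ≠ 0 → 0 < nn v)

/-- EE. Membership in the discs (from PT). -/
def P_EE : Prop :=
  (∀ (g : G) (v : Fin 2 → ℂ), v ≠ 0 → ((pt v ∈ Eo g ↔ nn (act g v) < nn v) ∧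
    (pt v ∈ Ec g ↔ nn (act g v) ≤ nn v))) ∧
  (∀ g : G, Eo g ⊆ Ec g) ∧
  (∀ (g : G) (p : X), p ∉ Eo g → g • p ∈ Ec g⁻¹) ∧
  (∀ (g : G) (p : X), p ∉ Ec g → g • p ∈ Eo g⁻¹)

/-- TA. The action is continuous in the point. Also: the finite points `z : X` with `‖z‖ > R` and
infinity form a neighbourhood basis of infinity. -/
def P_TA : Prop := (∀ g : G, Continuous fun p : X => g • p) ∧
  (∀ V : Set X, IsOpen V → (∞ : X) ∈ V → ∃ R : ℝ, ∀ z : ℂ, R < ‖z‖ → (z : X) ∈ V)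

/-- TB. The action is continuous in the group element. -/
def P_TB : Prop := ∀ p : X, Continuous fun g : G => g • p

/-- TC. The discs are open, closed. -/
def P_TC : Prop := ∀ g : G, IsOpen (Eo g) ∧ IsClosed (Ec g)

/-- TG. Circles, tangency and the group. -/
def P_TG : Prop :=
  (∀ g h : G, img g (cir h) = cir (g * h)) ∧
  (∀ (g h : G) (S : Set X), img g (img h S) = img (g * h) S) ∧
  (∀ S : Set X, img 1 S = S) ∧
  (∀ (g : G) (S T : Set X), Tan (img g S) (img g T) ↔ Tan S T) ∧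
  (∀ (g : G) (V : Set X), IsCir (img g V) ↔ IsCir V) ∧
  (∀ (g : G) (S T U : Set X), img g S ∩ img g T ∩ img g U = ∅ ↔ S ∩ T ∩ U = ∅) ∧
  (∀ S T : Set X, Tan S T → Tan T S) ∧
  cir 1 = RL ∧
  (∀ h s : G, (∀ i j, (s i j).im = 0) → cir (h * s) = cir h)

/-- QD. The four circles are mutually tangent, without common points of three of them. -/
def P_QD : Prop :=
  Tan (cir 1) (cir tJ) ∧ Tan (cir 1) (cir (tW * tJ)) ∧ Tan (cir 1) (cir (tT * tW * tJ)) ∧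
  Tan (cir tJ) (cir (tW * tJ)) ∧ Tan (cir tJ) (cir (tT * tW * tJ)) ∧
  Tan (cir (tW * tJ)) (cir (tT * tW * tJ)) ∧
  cir 1 ∩ cir tJ ∩ cir (tW * tJ) = ∅ ∧ cir 1 ∩ cir tJ ∩ cir (tT * tW * tJ) = ∅ ∧
  cir 1 ∩ cir (tW * tJ) ∩ cir (tT * tW * tJ) = ∅ ∧
  cir tJ ∩ cir (tW * tJ) ∩ cir (tT * tW * tJ) = ∅

/-- GR. `StabP`, `GI`, `InG0` are closed under products and inverses; `img g` preserves `Lam`
if `StabP g`; `RL ⊆ Lam`, `∞ ∈ Lam`, `Lam` is closed. -/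
def P_GR : Prop :=
  (GI 1 ∧ StabP 1) ∧ (∀ g h : G, GI g → GI h → GI (g * h)) ∧ (∀ g : G, GI g → GI g⁻¹) ∧
  (∀ g h : G, StabP g → StabP h → StabP (g * h)) ∧ (∀ g : G, StabP g → StabP g⁻¹) ∧
  (∀ g : G, StabP g → ∀ p : X, p ∈ Lam ↔ g • p ∈ Lam) ∧ RL ⊆ Lam ∧ IsClosed Lam

/-- SB. `PP` is a closed family containing the four circles, and `tT, tW, tJ` preserve it.
Proof: `F = {S | img g S ∈ PP}` is a closed family; it contains the four circles:
`T`: `C1, C2 → C1, C2`, `C3 → C4`, and `T C4` is tangent to `T C1 = C1`, `T C2 = C2`, `T C3 = C4`;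
`T⁻¹`: `C4 → C3` and `T⁻¹ C3` is tangent to `T⁻¹ (C1, C2, C4) = C1, C2, C3`;
`W`: `C1 → C1`, `C2 → C3`, `C3 → C2` (as `W W = -1`), `W C4` is tangent to `C1, C3, C2`; `W⁻¹ = - W`;
`J`: `C1 → C2`, `C2 → C1` (as `J J = -1`), `J (W J) = (W J) (0 1; -1 0)` so `C3 → C3`; `J C4` is
tangent to `C2, C1, C3`; `J⁻¹ = -J` -/
def P_SB : Prop :=
  ClF PP ∧ (cir 1 ∈ PP ∧ cir tJ ∈ PP ∧ cir (tW * tJ) ∈ PP ∧ cir (tT * tW * tJ) ∈ PP) ∧
  StabP tT ∧ StabP tW ∧ StabP tJ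

/-- SZ. `SL₂(ℤ)` preserves the packing (Mathlib: `S` and `T` generate `SL(2, ℤ)`). -/
def P_SZ : Prop := ∀ g : G, (∀ i j, ∃ m : ℤ, g i j = (m : ℂ)) → g 0 0 * g 1 1 - g 0 1 * g 1 0 = 1 → InG0 g

/-- NX. The circles of `SL₂(ℤ[i])` do not cross the real line. Proof: for `x` real the sign of
`Im (h x)` is that of `Im (a x + b) conj (c x + d)`, a quadratic form in `x` with discriminant
`Im (a conj d + b conj c)² - 4 Im (a conj c) Im (b conj d) = 1 - n²`, `n = Re (a conj d - b conj c)`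
(as `a d - b c = 1`), and `n` is odd because `n = Re (a d - b c)` modulo `2`. -/
def P_NX : Prop := ∀ h : G, GI h → cir h ⊆ UH ∨ cir h ⊆ LH

/-- CQ. Every circle is given by a hermitian equation. -/
def P_CQ : Prop := ∀ g : G, ∃ (A D : ℝ) (B : ℂ), 0 < normSq B - A * D ∧
  cir g = {p | (p = ∞ ∧ A = 0) ∨ ∃ z : ℂ, p = (z : X) ∧ A * normSq z + 2 * (B * z).re + D = 0}

/-- TR1. Circles of `SL₂(ℤ[i])` which touch the real line at infinity. (`t⁻¹ ∞` is rational or infinite, as it is in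
`P¹(ℚ(i))` and real; multiply `t` from the right with an element of `SL₂(ℤ)` to get `t = (a b; 0 a⁻¹)`, `a` a unit.) -/
def P_TR1 : Prop := ∀ t : G, GI t → (∞ : X) ∈ cir t → Tan (cir 1) (cir t) →
  ∃ k : ℤ, k ≠ 0 ∧ cir t = {p | p = ∞ ∨ ∃ z : ℂ, p = (z : X) ∧ z.im = k}

/-- TR2. Circles of `SL₂(ℤ[i])` which touch the real line at a finite point (from TR1 and the second part of TQ, or
directly from the equation of the circle). -/
def P_TR2 : Prop := ∀ u : G, GI u → (∞ : X) ∉ cir u → Tan (cir 1) (cir u) →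
  ∃ a c k : ℤ, c ≠ 0 ∧ k ≠ 0 ∧
    cir u = {p | ∃ z : ℂ, p = (z : X) ∧ (k * c ^ 2 : ℝ) * normSq (z - (a : ℂ) / c) = z.im}

/-- TR3. The circles tangent to `Im = 0`, `Im = 1` and to the circle of diameter one at `n`. -/
def P_TR3 : Prop := ∀ (n : ℤ) (V : Set X), IsCir V → Tan V (cir 1) → Tan V (cir tJ) →
  Tan V (cir (tT ^ n * tW * tJ)) → V = cir (tT ^ (n + 1) * tW * tJ) ∨ V = cir (tT ^ (n - 1) * tW * tJ)

/-- TR4. The standard circles. -/
def P_TR4 : Prop := cir tJ = {p | p = ∞ ∨ ∃ z : ℂ, p = (z : X) ∧ z.im = 1} ∧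
  ∀ n : ℤ, cir (tT ^ n * tW * tJ) = {p | ∃ z : ℂ, p = (z : X) ∧ normSq (z - n) = z.im}

/-- TR (from TR1, TR2, TR3, TR4). A mutually tangent triple of circles of `SL₂(ℤ[i])`. Put `S = cir 1` and `T` tangent to `S` at `∞`.
Then `T` is the line `Im = 1` or `Im = -1` and `U` is the circle of diameter one tangent to both at an
integer `n`, and every circle `V` tangent to the three is the circle `U ± 1`. Here `cir (tT ^ n * tW * tJ)`
is the circle of diameter one tangent to the real line at `n`, in the upper half plane. The version for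
the lower half plane only says `T = {Im = -1}`. -/
def P_TR : Prop := ∀ t u : G, GI t → GI u → (∞ : X) ∈ cir t → Tan (cir 1) (cir t) → Tan (cir t) (cir u) →
  Tan (cir 1) (cir u) → cir 1 ∩ cir t ∩ cir u = ∅ →
  ((cir t = cir tJ ∧ ∃ n : ℤ, cir u = cir (tT ^ n * tW * tJ) ∧
    ∀ V : Set X, IsCir V → Tan V (cir 1) → Tan V (cir t) → Tan V (cir u) →
      V = cir (tT ^ (n + 1) * tW * tJ) ∨ V = cir (tT ^ (n - 1) * tW * tJ)) ∨
   (∀ z : ℂ, (z : X) ∈ cir t ↔ z.im = -1)) 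

/-- TQ. The circles of the closed family of all circles of `SL₂(ℤ[i])` (used for NX below):
`PP ⊆ {cir h | GI h}`.  For the lower half plane use complex conjugation or the map `z ↦ -z`
(matrix `diag (i, -i)`, it is in `GI`).
Proof: `{cir h | GI h}` contains the four circles and is a closed family: for `S = cir s`, apply `s⁻¹`; the
point of `S ∩ T` goes to a point of `RL` and of `cir (s⁻¹ t)`, which is rational or infinity, apply an element of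
`SL₂(ℤ)` to get `∞`, then TR (if `Im = -1`, first apply `diag (i, -i)`). -/
def P_TQ : Prop := ClF {S | ∃ h : G, GI h ∧ S = cir h} ∧ (∀ S ∈ PP, ∃ h : G, GI h ∧ S = cir h) ∧
  (∀ h : G, GI h → Tan (cir 1) (cir h) → ∀ p ∈ cir 1 ∩ cir h, ∃ s : G, (∀ i j, ∃ m : ℤ, s i j = (m : ℂ)) ∧
    s 0 0 * s 1 1 - s 0 1 * s 1 0 = 1 ∧ s • p = ∞)

/-- UP. All circles of the packing are in the closed upper half plane and in the strip.
Proof: `{cir h | GI h, cir h ⊆ UH}` is a closed family: `V` is some `cir h`, `GI h`, (TQ argument, or intersect with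
`{cir h | GI h}`), so by NX it is in `UH` or in `LH`; if it is in `LH`, then it meets `S, T, U ⊆ UH` only in points of
the real line, hence (if `V ≠ RL`) all in one point, against `S ∩ T ∩ U = ∅`. The strip: `tJ` preserves `PP`. -/
def P_UP : Prop := (∀ S ∈ PP, S ⊆ ST) ∧ Lam ⊆ ST

/-- OR. Every circle of the packing is `cir h` with `InG0 h`. Proof: the family of these circles is closed: for
`S = cir s`, `InG0 s`, apply `s⁻¹` and then an element of `SL₂(ℤ)` (TQ, SZ) such that `T` touches `S = RL` at `∞`.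
Then `T ∈ PP` is not `Im = -1` by UP, and TR gives `V = cir (tT ^ (n ± 1) * tW * tJ)`. -/
def P_OR : Prop := ∀ S ∈ PP, ∃ h : G, InG0 h ∧ S = cir h

/-- CU. The cusps are dense in the limit set. -/
def P_CU : Prop := ∀ U : Set X, IsOpen U → (U ∩ Lam).Nonempty → ∃ h : G, InG0 h ∧ h • (∞ : X) ∈ U

/-- EX. Elements with small discs near a cusp: `g = h f h⁻¹` with `f = m (m²-1); 1 m`, `m` a large integer.
`f⁻¹ = -(−m (m²-1); 1 −m)`. If `|h v| ≤ κ |v|` and `|v| ≤ κ |h v|`, then `pt (z, 1) ∈ h⁻¹ Ec g` gives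
`|f (z, 1)| ≤ κ² |(z, 1)|`, with `u = z + m`: `|m u - 1|² + |u|² ≤ κ⁴ (|u - m|² + 1)`, so `|u| ≤ 3 κ²` for large `|m|`. -/
def P_EX : Prop := ∀ (h : G) (V : Set X), InG0 h → IsOpen V → h • (∞ : X) ∈ V →
  ∃ g : G, InG0 g ∧ Ec g ⊆ V ∧ Ec g⁻¹ ⊆ V ∧ Ec g ∩ Ec g⁻¹ = ∅

/-- TS. Two sided lemma. With `Φ w = |s h w|² - |h w|²` a hermitian form, `Φ (z, 1) = α |z|² + 2 Re (β z) + δ`,
`α ≥ 0` as `h • ∞ ∉ Eo s`. If `α > 0` take `h' = h`. If `α = 0` and all the cusps `h n`, `h (n + i)`, `n` an integer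
with `|n|` large, were in `Ec s`, then `Re β = 0`, `δ ≤ 0`, `δ - 2 Im β ≤ 0`, so that `Φ (z, 1) ≤ 0` for all `z`
in the strip and `Lam = h • Lam ⊆ h • ST ⊆ Ec s`. -/
def P_TS : Prop := ∀ (s h : G) (V : Set X), InG0 h → IsOpen V → h • (∞ : X) ∈ V → h • (∞ : X) ∉ Eo s →
  (∃ p ∈ Lam, p ∉ Ec s) → ∃ h' : G, InG0 h' ∧ h' • (∞ : X) ∈ V ∧ h' • (∞ : X) ∉ Ec s

/-- FC. Facts about the circles `cc τ a` and the fixed points `kk • ∞`, `kk • 0` of `g0`. -/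
def P_FC : Prop := ∀ τ a : ℝ, 0 < a →
  IsClosed (FF τ a) ∧ IsOpen (Om τ) ∧ (∀ b : ℝ, 0 ≤ b → cc τ b ∩ Om τ = ∅) ∧
  (∀ (b : ℝ) (n : ℤ), img (g0 ^ n) (cc τ b) = cc τ (b * ph ^ (-(4 * n)))) ∧
  kk • ((-1 : ℂ) : X) ∈ Om τ ∧ kk • ((-1 : ℂ) : X) ∈ RL ∧ kk • (∞ : X) ∈ RL ∧ kk • ((0 : ℂ) : X) ∈ RL ∧
  (∀ b : ℝ, 0 < b → kk • (∞ : X) ∉ cc τ b) ∧ kk • (∞ : X) ∈ cc τ 0 ∧ kk • ((0 : ℂ) : X) ∈ cc τ 0

/-- FD. The discs of `g0`. -/
def P_FD : Prop := kk • (∞ : X) ∈ Eo g0⁻¹ ∧ kk • ((0 : ℂ) : X) ∈ Eo g0 ∧ Ec g0 ∩ Ec g0⁻¹ = ∅ ∧ InG0 g0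

/-- GE. Generic choice: countably many cusps. -/
def P_GE : Prop := ∃ τ a : ℝ, 0 < a ∧ ∀ h : G, GI h → h • (∞ : X) ∉ FF τ a

/-- SE. The circle separates the limit set, and the non closed sequence. -/
def P_SE : Prop := ∀ τ a : ℝ, 0 < a →
  (((fun w : OnePoint ℂ => (kk * Mr τ a) • w) '' (OnePoint.some '' {z : ℂ | 0 < z.im}) ∩ Lam).Nonempty ∧
   ((fun w : OnePoint ℂ => (kk * Mr τ a) • w) '' (OnePoint.some '' {z : ℂ | z.im < 0}) ∩ Lam).Nonempty) ∧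
  Tendsto (fun n : ℕ => kk * Mr τ (a * ph ^ (-(4 * (n : ℤ))))) atTop (𝓝 (kk * Mr τ 0))

/-- Finite or infinite ping-pong families. -/
def Fam (F : Set X) (A : Set G) : Prop := g0 ∈ A ∧ (∀ g ∈ A, InG0 g) ∧
  (∀ g ∈ A, Ec g ∩ Ec g⁻¹ = ∅) ∧
  (∀ g ∈ A, ∀ h ∈ A, g ≠ h → (Ec g ∪ Ec g⁻¹) ∩ (Ec h ∪ Ec h⁻¹) = ∅) ∧
  (∀ g ∈ A, g ≠ g0 → (Ec g ∪ Ec g⁻¹) ∩ F = ∅)

/-- SG. One step of the construction. Take a cusp `c = h ∞ ∈ U` (CU) and `γ` in the group generated by `A` for which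
`nn (act (γ h) (1, 0))` is minimal (it is a natural number). Then `γ c ∉ Eo a` for `a ∈ A ∪ A⁻¹`. It is in at most one
of the discs `Ec a`; in this case replace it with another cusp by TS (`Lam` is not contained in `Ec a`, because
`kk • ∞`, `kk • 0 ∈ Lam` are in `Eo g0⁻¹`, `Eo g0`), in the open set `γ U` minus the other discs. Then EX. -/
def P_SG : Prop := ∀ (F : Set X) (A : Finset G) (U : Set X), IsClosed F → (∀ h : G, GI h → h • (∞ : X) ∉ F) →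
  Fam F (A : Set G) → IsOpen U → (U ∩ Lam).Nonempty →
  ∃ g γ : G, γ ∈ Subgroup.closure (A : Set G) ∧ Fam F (insert g (A : Set G)) ∧ g ≠ g0 ∧
    (∀ p ∈ Ec g⁻¹, γ⁻¹ • p ∈ U)

/-- SQ. The whole family: recursion with SG, `A` is an increasing union of finite sets, starting with `{g0}` (FD). It is
enough to treat the countably many open sets `{h ∞} ∪ {h z : ‖z‖ > n}`, `InG0 h`, `n` natural: by CU and TA every open set
meeting `Lam` contains one of them. -/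
def P_SQ : Prop := ∀ F : Set X, IsClosed F → (∀ h : G, GI h → h • (∞ : X) ∉ F) →
  ∃ A : Set G, Fam F A ∧ ∀ U : Set X, IsOpen U → (U ∩ Lam).Nonempty →
    ∃ g ∈ A, ∃ γ ∈ Subgroup.closure A, g ≠ g0 ∧ ∀ p ∈ Ec g⁻¹, γ⁻¹ • p ∈ U

/-- PG. Ping-pong. Every element of the group is a product of a reduced word in `A ∪ A⁻¹` (take a word of minimal
length); induction on the word: either all letters are `g0` or `g0⁻¹`, or the image of `C` is in `Eo s⁻¹`, `s` the first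
(leftmost) letter. -/
def P_PG : Prop := ∀ (F C : Set X) (A : Set G), Fam F A → (∀ n : ℤ, img (g0 ^ n) C ⊆ F) →
  ∀ γ ∈ Subgroup.closure A, (∃ n : ℤ, img γ C = img (g0 ^ n) C) ∨ img γ C ∩ Eo g0 = ∅ ∨ img γ C ∩ Eo g0⁻¹ = ∅

/-- LU. Orbits accumulate only in `Lam`. Proof: `Lam` is closed, invariant, contains `∞`. For `z ∉ Lam` (finite) and a
compact disc `K` around `w ∉ Lam`: only finitely many `γ` with `GI γ`, `StabP γ` have `γ • z ∈ K`, because the entries are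
bounded: if `c ≠ 0`: `γ z - a/c = -1/(c (c z + d))` has modulus at least `ε = dist (K, Lam)` as `a/c = γ ∞ ∈ Lam`, and
`|c z + d| ≥ |c| dist (z, Lam)` as `-d/c = γ⁻¹ ∞ ∈ Lam`. -/
def P_LU : Prop := ∀ Γ : Subgroup G, (∀ g ∈ Γ, InG0 g) → ∀ z : OnePoint ℂ,
  derivedSet {w : OnePoint ℂ | ∃ g ∈ Γ, w = g • z} ⊆ Lam

/-- LD. Orbits accumulate at all points of `Lam`. Proof: the derived set `D` is closed and `Γ`-invariant. For an open
set `U` meeting `Lam` take `g, γ`. Some `z'` in the orbit is outside `Ec g ∪ Ec g⁻¹` (`z` or `g0 • z`), so that the points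
`g ^ n • z'`, `n ≥ 1`, are distinct and in the compact set `Ec g⁻¹`. So `D` meets `Ec g⁻¹` and `U`. -/
def P_LD : Prop := ∀ (F : Set X) (A : Set G), Fam F A → (∀ U : Set X, IsOpen U → (U ∩ Lam).Nonempty →
    ∃ g ∈ A, ∃ γ ∈ Subgroup.closure A, g ≠ g0 ∧ ∀ p ∈ Ec g⁻¹, γ⁻¹ • p ∈ U) → ∀ z : OnePoint ℂ,
  Lam ⊆ derivedSet {w : OnePoint ℂ | ∃ g ∈ Subgroup.closure A, w = g • z}

end Pool.Agent.T2H64.AP
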