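import Mathlib
import Pool.Agent.T2H64.AP.Stm

set_option autoImplicit false

namespace Pool.Agent.T2H64.AP

open Matrix Complex OnePoint Topology Filter Set ComplexConjugate

namespace PkgTR4

lemma mk00 (a b c d : ℂ) (h : a * d - b * c ≠ 0) : (mk a b c d h) 0 0 = a := rfl
lemma mk01 (a b c d : ℂ) (h : a * d - b * c ≠ 0) : (mk a b c d h) 0 1 = b := rfl
lemma mk10 (a b c d : ℂ) (h : a * d - b * c ≠ 0) : (mk a b c d h) 1 0 = c := rfl
lemma mk11 (a b c d : ℂ) (h : a * d - b * c ≠ 0) : (mk a b c d h) 1 1 = d := rfl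

lemma gext (g h : G) (h0 : g 0 0 = h 0 0) (h1 : g 0 1 = h 0 1) (h2 : g 1 0 = h 1 0)
    (h3 : g 1 1 = h 1 1) : g = h := by
  ext i j
  fin_cases i <;> fin_cases j <;> assumption

lemma mul_entry (g h : G) (i j : Fin 2) : (g * h) i j = g i 0 * h 0 j + g i 1 * h 1 j := by
  rw [Units.val_mul, Matrix.mul_apply, Fin.sum_univ_two]

lemma det_ne (g : G) : g 0 0 * g 1 1 - g 0 1 * g 1 0 ≠ 0 := by
  have := g.det_ne_zero
  rwa [det_fin_two] at this

lemma im_mul_conj_zero {p q : ℂ} (hq : q ≠ 0) (h : (p * conj q).im = 0) :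
    p / q = (((p / q).re : ℝ) : ℂ) := by
  apply Complex.ext
  · simp
  · rw [Complex.ofReal_im, Complex.div_im]
    have h2 : p.im * q.re - p.re * q.im = 0 := by
      simp only [Complex.mul_im, Complex.conj_re, Complex.conj_im] at h
      linarith
    have hn : normSq q ≠ 0 := by simpa using hq
    rw [div_sub_div_same, h2, zero_div]

/-- the real points -/
lemma mem_cir_some (g : G) (z : ℂ) : ((z : ℂ) : X) ∈ cir g ↔
    ((g 1 1 * z - g 0 1) * conj (g 0 0 - g 1 0 * z)).im = 0 := by
  have hd := det_ne g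
  constructor
  · rintro ⟨p, hp, hpz⟩
    rcases hp with hp | ⟨x, hx⟩
    · subst hp
      simp only [OnePoint.smul_infty_eq_ite] at hpz
      by_cases hc : g 1 0 = 0
      · rw [if_pos hc] at hpz
        exact absurd hpz.symm (OnePoint.coe_ne_infty z)
      rw [if_neg hc] at hpz
      have hz : g 0 0 / g 1 0 = z := OnePoint.coe_injective hpz
      have : g 0 0 - g 1 0 * z = 0 := by
        rw [← hz, mul_div_cancel₀ _ hc, sub_self]
      rw [this]; simp
    · subst hx
      simp only [OnePoint.smul_some_eq_ite] at hpz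
      by_cases hc : g 1 0 * x + g 1 1 = 0
      · rw [if_pos hc] at hpz
        exact absurd hpz.symm (OnePoint.coe_ne_infty z)
      rw [if_neg hc] at hpz
      have hz : (g 0 0 * x + g 0 1) / (g 1 0 * x + g 1 1) = z := OnePoint.coe_injective hpz
      have hz' : z * (g 1 0 * x + g 1 1) = g 0 0 * x + g 0 1 := by
        rw [← hz, div_mul_cancel₀ _ hc]
      have h1 : (g 0 0 - g 1 0 * z) * (g 1 0 * x + g 1 1) = g 0 0 * g 1 1 - g 0 1 * g 1 0 := by
        linear_combination (-g 1 0) * hz'
      have h2 : (g 1 1 * z - g 0 1) * (g 1 0 * x + g 1 1) =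
          x * (g 0 0 * g 1 1 - g 0 1 * g 1 0) := by
        linear_combination (g 1 1) * hz'
      have h3 : g 1 1 * z - g 0 1 = x * (g 0 0 - g 1 0 * z) := by
        apply mul_right_cancel₀ hc
        rw [h2, mul_assoc, h1]
      rw [h3, mul_assoc, Complex.mul_conj, ← Complex.ofReal_mul, Complex.ofReal_im]
  · intro h
    by_cases h0 : g 0 0 - g 1 0 * z = 0
    · refine ⟨∞, Set.mem_insert _ _, ?_⟩
      have hc : g 1 0 ≠ 0 := by
        intro hc
        apply hd
        have : g 0 0 = 0 := by rw [hc, zero_mul, sub_zero] at h0; exact h0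
        rw [this, hc]; ring
      simp only [OnePoint.smul_infty_eq_ite, if_neg hc]
      have : g 0 0 / g 1 0 = z := by
        field_simp; linear_combination h0
      rw [this]
    · have hr := im_mul_conj_zero h0 h
      refine ⟨_, Set.mem_insert_of_mem _ ⟨((g 1 1 * z - g 0 1) / (g 0 0 - g 1 0 * z)).re, rfl⟩, ?_⟩
      simp only [← hr, OnePoint.smul_some_eq_ite]
      have h1 : g 1 0 * ((g 1 1 * z - g 0 1) / (g 0 0 - g 1 0 * z)) + g 1 1 =
          (g 0 0 * g 1 1 - g 0 1 * g 1 0) / (g 0 0 - g 1 0 * z) := by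
        rw [eq_div_iff h0, add_mul, mul_assoc, div_mul_cancel₀ _ h0]; ring
      have h2 : g 0 0 * ((g 1 1 * z - g 0 1) / (g 0 0 - g 1 0 * z)) + g 0 1 =
          z * (g 0 0 * g 1 1 - g 0 1 * g 1 0) / (g 0 0 - g 1 0 * z) := by
        rw [eq_div_iff h0, add_mul, mul_assoc, div_mul_cancel₀ _ h0]; ring
      rw [h1, h2, if_neg (div_ne_zero hd h0), mul_div_assoc, mul_div_assoc,
        div_self (div_ne_zero hd h0), mul_one]

lemma mem_cir_infty (g : G) : (∞ : X) ∈ cir g ↔ (g 1 0 * conj (g 1 1)).im = 0 := by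
  have hd := det_ne g
  constructor
  · rintro ⟨p, hp, hpz⟩
    rcases hp with hp | ⟨x, hx⟩
    · subst hp
      simp only [OnePoint.smul_infty_eq_ite] at hpz
      by_cases hc : g 1 0 = 0
      · rw [hc]; simp
      · rw [if_neg hc] at hpz
        exact absurd hpz (OnePoint.coe_ne_infty _)
    · subst hx
      simp only [OnePoint.smul_some_eq_ite] at hpz
      by_cases hc : g 1 0 * x + g 1 1 = 0
      swap
      · rw [if_neg hc] at hpz
        exact absurd hpz (OnePoint.coe_ne_infty _)
      have h3 : g 1 1 = ((-x : ℝ) : ℂ) * g 1 0 := by push_cast; linear_combination hc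
      rw [h3, map_mul, Complex.conj_ofReal, mul_left_comm, Complex.mul_conj, ← Complex.ofReal_mul,
        Complex.ofReal_im]
  · intro h
    by_cases h0 : g 1 0 = 0
    · refine ⟨∞, Set.mem_insert _ _, ?_⟩
      simp only [OnePoint.smul_infty_eq_ite, if_pos h0]
    · have h' : (-g 1 1 * conj (g 1 0)).im = 0 := by
        have : (-g 1 1 * conj (g 1 0)).im = (g 1 0 * conj (g 1 1)).im := by
          simp only [Complex.mul_im, Complex.conj_re, Complex.conj_im, Complex.neg_re,
            Complex.neg_im]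
          ring
        rw [this, h]
      have hr := im_mul_conj_zero h0 h'
      refine ⟨_, Set.mem_insert_of_mem _ ⟨(-g 1 1 / g 1 0).re, rfl⟩, ?_⟩
      simp only [← hr, OnePoint.smul_some_eq_ite]
      rw [if_pos]
      field_simp; ring

/-- powers of the translation -/
lemma tT_zpow (n : ℤ) : tT ^ n = mk 1 (n : ℂ) 0 1 (by norm_num) := by
  induction n using Int.induction_on with
  | zero =>
    apply gext <;> simp [mk00, mk01, mk10, mk11]
  | succ i ih =>
    rw [_root_.zpow_add_one, ih]
    apply gext <;> simp only [mul_entry, mk00, mk01, mk10, mk11, tT] <;> push_cast <;> ring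
  | pred i ih =>
    have key : tT * tT⁻¹ = 1 := mul_inv_cancel _
    have e : (mk 1 ((-(i : ℤ) - 1 : ℤ) : ℂ) 0 1 (by norm_num)) * tT =
        mk 1 ((-(i : ℤ) : ℤ) : ℂ) 0 1 (by norm_num) := by
      apply gext <;> simp only [mul_entry, mk00, mk01, mk10, mk11, tT] <;> push_cast <;> ring
    rw [_root_.zpow_sub_one, ih, ← e, mul_assoc, key, mul_one]

lemma cirn_entries (n : ℤ) : (tT ^ n * tW * tJ) 0 0 = -n * I ∧ (tT ^ n * tW * tJ) 0 1 = -I - n ∧
    (tT ^ n * tW * tJ) 1 0 = - I ∧ (tT ^ n * tW * tJ) 1 1 = -1 := by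
  rw [tT_zpow]
  refine ⟨?_, ?_, ?_, ?_⟩ <;> simp only [mul_entry, mk00, mk01, mk10, mk11, tW, tJ] <;> ring

end PkgTR4

open PkgTR4 in
theorem T_TR4 : P_TR4 := by
  constructor
  · ext p
    induction p using OnePoint.rec with
    | infty =>
      simp only [mem_cir_infty, tJ, mk10, mk11, zero_mul, Complex.zero_im, true_iff]
      exact Or.inl rfl
    | coe z =>
      rw [mem_cir_some]
      have e : ((tJ 1 1 * z - tJ 0 1) * conj (tJ 0 0 - tJ 1 0 * z)).im = 1 - z.im := by
        simp only [tJ, mk00, mk01, mk10, mk11]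
        simp [Complex.mul_im]
        ring
      rw [e]
      constructor
      · intro h
        exact Or.inr ⟨z, rfl, by linarith⟩
      · rintro (h | ⟨w, hw, h1⟩)
        · exact absurd h (OnePoint.coe_ne_infty z)
        · have : z = w := by exact_mod_cast hw
          rw [this, h1, sub_self]
  · intro n
    obtain ⟨e0, e1, e2, e3⟩ := cirn_entries n
    ext p
    induction p using OnePoint.rec with
    | infty =>
      rw [mem_cir_infty, e2, e3]
      constructor
      · intro h
        simp at h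
      · rintro ⟨w, hw, -⟩
        exact absurd hw.symm (OnePoint.coe_ne_infty w)
    | coe z =>
      rw [mem_cir_some, e0, e1, e2, e3]
      have e : ((-1 * z - (-I - (n : ℂ))) * conj (-(n : ℂ) * I - -I * z)).im =
          normSq (z - n) - z.im := by
        simp only [Complex.normSq_apply, Complex.mul_im, Complex.mul_re, Complex.sub_re,
          Complex.sub_im, Complex.neg_re, Complex.neg_im, Complex.I_re, Complex.I_im,
          Complex.one_re, Complex.one_im, Complex.intCast_re, Complex.intCast_im,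
          Complex.conj_re, Complex.conj_im]
        ring
      rw [e]
      constructor
      · intro h
        exact ⟨z, rfl, by linarith⟩
      · rintro ⟨w, hw, h1⟩
        have : z = w := by exact_mod_cast hw
        rw [this, h1, sub_self]

end Pool.Agent.T2H64.AP
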