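import Mathlib
import Pool.Agent.T2H64.AP.Stm
import Pool.Agent.T2H64.AP.T_TR4

set_option autoImplicit false

namespace Pool.Agent.T2H64.AP

open Matrix Complex OnePoint Topology Filter Set ComplexConjugate

namespace PkgTR2

/-- arithmetic: m r = s ^ 2 -/
lemma arith (m r s : ℤ) (hm : m ≠ 0) (h : m * r = s ^ 2) :
    ∃ a c k : ℤ, c ≠ 0 ∧ k ≠ 0 ∧ m = k * c ^ 2 ∧ s = k * c * a := by
  have hg : (Int.gcd s m : ℤ) ≠ 0 := by
    intro h0
    have : Int.gcd s m = 0 := by exact_mod_cast h0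
    rw [Int.gcd_eq_zero_iff] at this
    exact hm this.2
  obtain ⟨a, ha⟩ : (Int.gcd s m : ℤ) ∣ s := Int.gcd_dvd_left ..
  obtain ⟨c, hc⟩ : (Int.gcd s m : ℤ) ∣ m := Int.gcd_dvd_right ..
  set g : ℤ := (Int.gcd s m : ℤ) with hgdef
  have hcop : IsCoprime a c := by
    have h1 := Int.gcd_eq_gcd_ab s m
    refine ⟨Int.gcdA s m, Int.gcdB s m, ?_⟩
    apply mul_left_cancel₀ hg
    rw [← hgdef] at h1
    calc g * (Int.gcdA s m * a + Int.gcdB s m * c)
        = (g * a) * Int.gcdA s m + (g * c) * Int.gcdB s m := by ring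
      _ = s * Int.gcdA s m + m * Int.gcdB s m := by rw [← ha, ← hc]
      _ = g * 1 := by rw [← h1, mul_one]
  have h2 : c * r = g * a ^ 2 := by
    apply mul_left_cancel₀ hg
    calc g * (c * r) = m * r := by rw [hc]; ring
      _ = s ^ 2 := h
      _ = g * (g * a ^ 2) := by rw [ha]; ring
  have h3 : c ∣ g := by
    have : c ∣ g * a ^ 2 := ⟨r, h2.symm⟩
    exact (hcop.symm.pow_right).dvd_of_dvd_mul_right this
  obtain ⟨k, hk⟩ := h3
  have hc0 : c ≠ 0 := by
    rintro rfl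
    apply hg; rw [hk, zero_mul]
  have hk0 : k ≠ 0 := by
    rintro rfl
    apply hg; rw [hk, mul_zero]
  refine ⟨a, c, k, hc0, hk0, ?_, ?_⟩
  · rw [hc, hk]; ring
  · rw [ha, hk]; ring

/-- the real equation of the circle of a matrix with Gaussian integer entries -/
lemma equation (u : G) (hu : GI u) : ∃ m r q1 q2 : ℤ,
    q1 ^ 2 + q2 ^ 2 - 4 * (m * r) = 1 ∧
    ((∞ : X) ∈ cir u ↔ m = 0) ∧
    ∀ z : ℂ, (z : X) ∈ cir u ↔ (m : ℝ) * normSq z - q2 * z.re - q1 * z.im + r = 0 := by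
  obtain ⟨hent, hdet⟩ := hu
  obtain ⟨a1, a2, ha⟩ := hent 0 0
  obtain ⟨b1, b2, hb⟩ := hent 0 1
  obtain ⟨c1, c2, hc⟩ := hent 1 0
  obtain ⟨d1, d2, hd⟩ := hent 1 1
  have hdet1 : a1 * d1 - a2 * d2 - (b1 * c1 - b2 * c2) = 1 := by
    have := congrArg Complex.re hdet
    rw [ha, hb, hc, hd] at this
    simp at this
    exact_mod_cast this
  have hdet2 : a1 * d2 + a2 * d1 - (b1 * c2 + b2 * c1) = 0 := by
    have := congrArg Complex.im hdet
    rw [ha, hb, hc, hd] at this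
    simp at this
    exact_mod_cast this
  refine ⟨d2 * c1 - d1 * c2, b2 * a1 - b1 * a2, d1 * a1 + d2 * a2 - (b1 * c1 + b2 * c2),
    d2 * a1 - d1 * a2 - (b1 * c2 - b2 * c1), ?_, ?_, ?_⟩
  · have e : (d1 * a1 + d2 * a2 - (b1 * c1 + b2 * c2)) ^ 2 +
        (d2 * a1 - d1 * a2 - (b1 * c2 - b2 * c1)) ^ 2 -
        4 * ((d2 * c1 - d1 * c2) * (b2 * a1 - b1 * a2)) =
        (a1 * d1 - a2 * d2 - (b1 * c1 - b2 * c2)) ^ 2 +
        (a1 * d2 + a2 * d1 - (b1 * c2 + b2 * c1)) ^ 2 := by ring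
    rw [e, hdet1, hdet2]; norm_num
  · rw [PkgTR4.mem_cir_infty, hc, hd]
    have e : (((c1 : ℂ) + c2 * I) * conj ((d1 : ℂ) + d2 * I)).im =
        -((d2 * c1 - d1 * c2 : ℤ) : ℝ) := by
      simp [Complex.mul_im]; ring
    rw [e, neg_eq_zero]
    exact_mod_cast Iff.rfl
  · intro z
    rw [PkgTR4.mem_cir_some, ha, hb, hc, hd]
    have e : ((((d1 : ℂ) + d2 * I) * z - ((b1 : ℂ) + b2 * I)) *
        conj (((a1 : ℂ) + a2 * I) - ((c1 : ℂ) + c2 * I) * z)).im =
        -(((d2 * c1 - d1 * c2 : ℤ) : ℝ) * normSq z -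
        ((d2 * a1 - d1 * a2 - (b1 * c2 - b2 * c1) : ℤ) : ℝ) * z.re -
        ((d1 * a1 + d2 * a2 - (b1 * c1 + b2 * c2) : ℤ) : ℝ) * z.im +
        ((b2 * a1 - b1 * a2 : ℤ) : ℝ)) := by
      simp only [Complex.normSq_apply, Complex.mul_im, Complex.mul_re, Complex.sub_re,
          Complex.sub_im, Complex.add_re, Complex.add_im, Complex.I_re, Complex.I_im,
          Complex.intCast_re, Complex.intCast_im, Complex.conj_re, Complex.conj_im]
      push_cast
      ring
    rw [e, neg_eq_zero]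

lemma mem_RL_some (z : ℂ) : (z : X) ∈ cir 1 ↔ z.im = 0 := by
  rw [PkgTR4.mem_cir_some]
  simp

lemma mem_RL_infty : (∞ : X) ∈ cir 1 := by
  rw [PkgTR4.mem_cir_infty]
  simp

end PkgTR2

open PkgTR2 in
theorem T_TR2 : P_TR2 := by
  intro u hu hinf htan
  obtain ⟨m, r, q1, q2, hdisc, hi, hz⟩ := equation u hu
  have hm : m ≠ 0 := fun h => hinf (hi.2 h)
  have hmR : (m : ℝ) ≠ 0 := by exact_mod_cast hm
  -- the point of contact
  have hreal : ∀ x : ℝ, (((x : ℝ) : ℂ) : X) ∈ cir 1 ∩ cir u ↔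
      (m : ℝ) * x ^ 2 - q2 * x + r = 0 := by
    intro x
    rw [Set.mem_inter_iff, mem_RL_some, hz]
    simp only [Complex.ofReal_im, true_and, Complex.ofReal_re, Complex.normSq_ofReal]
    constructor <;> intro h <;> linarith
  obtain ⟨p, hp, huniq⟩ := htan
  have hpz : ∃ x : ℝ, p = (((x : ℝ) : ℂ) : X) := by
    induction p using OnePoint.rec with
    | infty => exact absurd hp.2 hinf
    | coe z =>
      refine ⟨z.re, ?_⟩
      have := (mem_RL_some z).1 hp.1
      congr 1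
      apply Complex.ext <;> simp [this]
  obtain ⟨x, rfl⟩ := hpz
  have hx := (hreal x).1 hp
  -- the other root
  have hy : (m : ℝ) * (q2 / m - x) ^ 2 - q2 * (q2 / m - x) + r = 0 := by
    have : (m : ℝ) * (q2 / m - x) ^ 2 - q2 * (q2 / m - x) + r =
        (m : ℝ) * x ^ 2 - q2 * x + r := by
      field_simp; ring
    rw [this, hx]
  have h2 := huniq _ ((hreal _).2 hy)
  have h3 : (q2 : ℝ) / m - x = x := by
    have := OnePoint.coe_injective h2
    exact_mod_cast this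
  have h4 : (q2 : ℝ) = 2 * m * x := by
    have : (q2 : ℝ) / m = 2 * x := by linarith
    rw [div_eq_iff hmR] at this
    linarith
  have h5 : (q2 : ℝ) ^ 2 = 4 * (m * r) := by
    have e1 : (m : ℝ) * ((m : ℝ) * x ^ 2 - q2 * x + r) = 0 := by rw [hx, mul_zero]
    rw [h4] at e1 ⊢
    linarith
  have h6 : q2 ^ 2 = 4 * (m * r) := by exact_mod_cast h5
  have h7 : q1 ^ 2 = 1 := by linarith
  have hev : Even q2 := by
    have : Even (q2 ^ 2) := ⟨2 * (m * r), by rw [h6]; ring⟩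
    exact (Int.even_pow' (by norm_num)).1 this
  obtain ⟨s, hs⟩ := hev
  have h8 : m * r = s ^ 2 := by
    rw [hs] at h6
    linarith
  obtain ⟨a, c, k, hc, hk, hm2, hs2⟩ := arith m r s hm h8
  have hq : q1 = 1 ∨ q1 = -1 := by
    have : (q1 - 1) * (q1 + 1) = 0 := by linear_combination h7
    rcases mul_eq_zero.1 this with h | h
    · left; linarith
    · right; linarith
  have hcR : (c : ℝ) ≠ 0 := by exact_mod_cast hc
  have hkR : (k : ℝ) ≠ 0 := by exact_mod_cast hk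
  have hq0 : q1 ≠ 0 := by rcases hq with h | h <;> rw [h] <;> norm_num
  refine ⟨a, c, q1 * k, hc, mul_ne_zero hq0 hk, ?_⟩
  have hr : (r : ℝ) = k * a ^ 2 := by
    have e1 : (m : ℝ) * r = s ^ 2 := by exact_mod_cast h8
    have e2 : (m : ℝ) = k * c ^ 2 := by exact_mod_cast hm2
    have e3 : (s : ℝ) = k * c * a := by exact_mod_cast hs2
    rw [e2, e3] at e1
    have hkc : (k : ℝ) * c ^ 2 ≠ 0 := mul_ne_zero hkR (pow_ne_zero _ hcR)
    apply mul_left_cancel₀ hkc
    rw [e1]; ring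
  have key : ∀ z : ℂ, (z : X) ∈ cir u ↔
      (((q1 * k : ℤ) : ℝ) * (c : ℝ) ^ 2) * normSq (z - (a : ℂ) / c) = z.im := by
    intro z
    rw [hz]
    have e0 : ((a : ℂ) / c) = (((a : ℝ) / c : ℝ) : ℂ) := by push_cast; rfl
    have e1 : normSq (z - (a : ℂ) / c) = (z.re - (a : ℝ) / c) ^ 2 + z.im ^ 2 := by
      rw [e0, Complex.normSq_apply]
      simp only [Complex.sub_re, Complex.sub_im, Complex.ofReal_re, Complex.ofReal_im]
      ring
    have e2 : (m : ℝ) = k * c ^ 2 := by exact_mod_cast hm2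
    have e3 : (q2 : ℝ) = 2 * (k * c * a) := by
      have : (q2 : ℝ) = s + s := by exact_mod_cast hs
      rw [this]
      have e4 : (s : ℝ) = k * c * a := by exact_mod_cast hs2
      rw [e4]; ring
    have e5 : (m : ℝ) * normSq z - q2 * z.re - q1 * z.im + r =
        (k : ℝ) * c ^ 2 * ((z.re - (a : ℝ) / c) ^ 2 + z.im ^ 2) - q1 * z.im := by
      rw [e2, e3, hr, Complex.normSq_apply]
      field_simp
      ring
    rw [e5, e1]
    push_cast
    rcases hq with h | h
    · rw [h]; push_cast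
      constructor <;> intro h' <;> linarith
    · rw [h]; push_cast
      constructor <;> intro h' <;> linarith
  ext p
  induction p using OnePoint.rec with
  | infty =>
    constructor
    · intro h
      exact absurd h hinf
    · rintro ⟨w, hw, -⟩
      exact absurd hw.symm (OnePoint.coe_ne_infty w)
  | coe z =>
    rw [key]
    constructor
    · intro h
      exact ⟨z, rfl, h⟩
    · rintro ⟨w, hw, h1⟩
      have : z = w := OnePoint.coe_injective hw
      rw [this]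
      exact h1

end Pool.Agent.T2H64.AP
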