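import Mathlib
import Pool.Agent.T2H64.AP.Stm
import Pool.Agent.T2H64.AP.T_TR4
import Pool.Agent.T2H64.AP.T_TR2

set_option autoImplicit false

namespace Pool.Agent.T2H64.AP

open Matrix Complex OnePoint Topology Filter Set ComplexConjugate

open PkgTR2 in
theorem T_TR (h1 : P_TR1) (h2 : P_TR2) (h3 : P_TR3) (h4 : P_TR4) : P_TR := by
  intro t u ht hu hinf hSt htu hSu hemp
  obtain ⟨k, hk, hct⟩ := h1 t ht hinf hSt
  have hui : (∞ : X) ∉ cir u := by
    intro h
    have : (∞ : X) ∈ cir 1 ∩ cir t ∩ cir u := ⟨⟨mem_RL_infty, hinf⟩, h⟩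
    rw [hemp] at this
    exact this
  obtain ⟨a, c, m, hc, hm, hcu⟩ := h2 u hu hui hSu
  have hkR : (k : ℝ) ≠ 0 := by exact_mod_cast hk
  have hmR : (m : ℝ) ≠ 0 := by exact_mod_cast hm
  have hcR : (c : ℝ) ≠ 0 := by exact_mod_cast hc
  have hN : (m : ℝ) * (c : ℝ) ^ 2 ≠ 0 := mul_ne_zero hmR (pow_ne_zero _ hcR)
  have e0 : ((a : ℂ) / c) = (((a : ℝ) / c : ℝ) : ℂ) := by push_cast; rfl
  have memt : ∀ z : ℂ, (z : X) ∈ cir t ↔ z.im = k := by
    intro z
    rw [hct]
    constructor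
    · rintro (h | ⟨w, hw, h⟩)
      · exact absurd h (OnePoint.coe_ne_infty z)
      · rw [OnePoint.coe_injective hw, h]
    · intro h
      exact Or.inr ⟨z, rfl, h⟩
  have memu : ∀ z : ℂ, (z : X) ∈ cir u ↔
      (m : ℝ) * (c : ℝ) ^ 2 * ((z.re - (a : ℝ) / c) ^ 2 + z.im ^ 2) = z.im := by
    intro z
    have e1 : normSq (z - (a : ℂ) / c) = (z.re - (a : ℝ) / c) ^ 2 + z.im ^ 2 := by
      rw [e0, Complex.normSq_apply]
      simp only [Complex.sub_re, Complex.sub_im, Complex.ofReal_re, Complex.ofReal_im]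
      ring
    rw [hcu]
    constructor
    · rintro ⟨w, hw, h⟩
      rw [← OnePoint.coe_injective hw, e1] at h
      exact h
    · intro h
      refine ⟨z, rfl, ?_⟩
      rw [e1]; exact h
  -- the point of contact of t and u
  obtain ⟨p, hp, huniq⟩ := htu
  have hpz : ∃ x : ℝ, p = (((⟨x, (k : ℝ)⟩ : ℂ)) : X) := by
    induction p using OnePoint.rec with
    | infty => exact absurd hp.2 hui
    | coe z =>
      refine ⟨z.re, ?_⟩
      have := (memt z).1 hp.1
      congr 1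
      apply Complex.ext <;> simp [this]
  obtain ⟨x, rfl⟩ := hpz
  have hx := (memu _).1 hp.2
  have hy : (((⟨2 * ((a : ℝ) / c) - x, (k : ℝ)⟩ : ℂ)) : X) ∈ cir t ∩ cir u := by
    refine ⟨(memt _).2 rfl, (memu _).2 ?_⟩
    simp only at hx ⊢
    have : (2 * ((a : ℝ) / c) - x - (a : ℝ) / c) ^ 2 = (x - (a : ℝ) / c) ^ 2 := by ring
    rw [this]
    exact hx
  have hxy := huniq _ hy
  have hxy2 : 2 * ((a : ℝ) / c) - x = x := by
    have := congrArg Complex.re (OnePoint.coe_injective hxy)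
    simpa using this
  have hxa : x - (a : ℝ) / c = 0 := by linarith
  simp only [hxa] at hx
  have hmk : (m : ℝ) * (c : ℝ) ^ 2 * k = 1 := by
    apply mul_right_cancel₀ hkR
    linarith
  have hmk' : m * c ^ 2 * k = 1 := by exact_mod_cast hmk
  rcases Int.mul_eq_one_iff_eq_one_or_neg_one.1 hmk' with ⟨h5, h6⟩ | ⟨h5, h6⟩
  · left
    have htJ : cir t = cir tJ := by
      rw [hct, h4.1, h6]
      simp
    have hc1 : c * c = 1 := by
      have : m * (c * c) = 1 := by rw [← h5]; ring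
      rcases Int.mul_eq_one_iff_eq_one_or_neg_one.1 this with ⟨-, h⟩ | ⟨-, h⟩
      · exact h
      · nlinarith [mul_self_nonneg c]
    have hcc : ((a : ℂ) / c) = ((a * c : ℤ) : ℂ) := by
      have hc2 : (c : ℂ) * c = 1 := by exact_mod_cast hc1
      have hc3 : (c : ℂ) ≠ 0 := by exact_mod_cast hc
      rw [div_eq_iff hc3]
      push_cast
      rw [mul_assoc, hc2, mul_one]
    have hcun : cir u = cir (tT ^ (a * c) * tW * tJ) := by
      rw [hcu, h4.2 (a * c), hcc]
      have h7 : (m : ℝ) * (c : ℝ) ^ 2 = 1 := by exact_mod_cast h5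
      ext p
      simp only [h7, one_mul]
    refine ⟨htJ, a * c, hcun, ?_⟩
    intro V hV hV1 hV2 hV3
    exact h3 (a * c) V hV hV1 (htJ ▸ hV2) (hcun ▸ hV3)
  · right
    intro z
    rw [memt, h6]
    simp

end Pool.Agent.T2H64.AP
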