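import Pool.Agent.T2H64.AP.Stm

set_option autoImplicit false
set_option maxHeartbeats 1000000

namespace Pool.Agent.T2H64.AP

open Matrix Complex OnePoint Topology Filter Set

theorem TR1_mem (t : G) (p : X) : p ∈ cir t ↔ t⁻¹ • p ∈ RL := by
  constructor
  · rintro ⟨w, hw, h⟩
    have h' : t • w = p := h
    rw [← h', inv_smul_smul]
    exact hw
  · intro h
    exact ⟨t⁻¹ • p, h, smul_inv_smul t p⟩

theorem TR1_RL (z : ℂ) : (z : X) ∈ RL ↔ z.im = 0 := by
  constructor
  · rintro (h | ⟨x, hx⟩)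
    · exact absurd h (OnePoint.coe_ne_infty z)
    · have : (x : ℂ) = z := OnePoint.coe_injective hx
      rw [← this]
      exact Complex.ofReal_im x
  · intro h
    refine Or.inr ⟨z.re, ?_⟩
    show (((z.re : ℝ) : ℂ) : X) = (z : X)
    congr 1
    exact Complex.ext (by simp) (by simp [h])

theorem TR1_inf (t : G) (h : (∞ : X) ∈ cir t) :
    (t 1 1 * (starRingEnd ℂ) (t 1 0)).im = 0 := by
  rw [TR1_mem] at h
  by_cases hc : t 1 0 = 0
  · simp [hc]
  · have e : t • ((-t 1 1 / t 1 0 : ℂ) : X) = ∞ := by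
      rw [OnePoint.smul_some_eq_ite, if_pos (by field_simp; ring)]
    have e2 : t⁻¹ • (∞ : X) = ((-t 1 1 / t 1 0 : ℂ) : X) := by
      rw [← e, inv_smul_smul]
    rw [e2, TR1_RL] at h
    have h3 : t 1 1 * (starRingEnd ℂ) (t 1 0) = -((-t 1 1 / t 1 0) * ((normSq (t 1 0) : ℝ) : ℂ)) := by
      rw [← Complex.mul_conj]
      field_simp
    rw [h3, Complex.neg_im, Complex.im_mul_ofReal, h]
    simp

theorem TR1_fin (t : G) (hdet : t 0 0 * t 1 1 - t 0 1 * t 1 0 = 1) (z : ℂ) :
    (z : X) ∈ cir t ↔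
      ((t 1 1 * z - t 0 1) * (starRingEnd ℂ) (t 0 0 - t 1 0 * z)).im = 0 := by
  rw [TR1_mem]
  by_cases hv : t 0 0 - t 1 0 * z = 0
  · have hc : t 1 0 ≠ 0 := by
      intro hc
      rw [hc] at hv hdet
      have h0 : t 0 0 = 0 := by simpa using hv
      rw [h0] at hdet
      simp at hdet
    have e : t • (∞ : X) = (z : X) := by
      rw [OnePoint.smul_infty_eq_ite, if_neg hc]
      congr 1
      rw [div_eq_iff hc]
      linear_combination hv
    have e2 : t⁻¹ • (z : X) = ∞ := by rw [← e, inv_smul_smul]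
    rw [e2, hv]
    simp only [map_zero, mul_zero, Complex.zero_im, iff_true]
    exact Set.mem_insert _ _
  · set x : ℂ := (t 1 1 * z - t 0 1) / (t 0 0 - t 1 0 * z) with hx
    have e1 : t 1 0 * x + t 1 1 = 1 / (t 0 0 - t 1 0 * z) := by
      rw [hx, eq_div_iff hv, add_mul, mul_assoc, div_mul_cancel₀ _ hv]
      linear_combination hdet
    have e1' : t 1 0 * x + t 1 1 ≠ 0 := by rw [e1]; exact one_div_ne_zero hv
    have e : t • (x : X) = (z : X) := by
      rw [OnePoint.smul_some_eq_ite, if_neg e1']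
      congr 1
      rw [div_eq_iff e1', e1, mul_one_div, eq_div_iff hv, hx, add_mul, mul_assoc,
        div_mul_cancel₀ _ hv]
      linear_combination z * hdet
    have e2 : t⁻¹ • (z : X) = (x : X) := by rw [← e, inv_smul_smul]
    rw [e2, TR1_RL]
    have h3 : (t 1 1 * z - t 0 1) * (starRingEnd ℂ) (t 0 0 - t 1 0 * z) =
        x * ((normSq (t 0 0 - t 1 0 * z) : ℝ) : ℂ) := by
      rw [← Complex.mul_conj, hx, ← mul_assoc, div_mul_cancel₀ _ hv]
    rw [h3, Complex.im_mul_ofReal]
    have hn : normSq (t 0 0 - t 1 0 * z) ≠ 0 := by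
      rwa [Ne, Complex.normSq_eq_zero]
    constructor
    · intro h; rw [h, zero_mul]
    · intro h; exact (mul_eq_zero.1 h).resolve_right hn

/-- the equation, expanded -/
theorem TR1_exp (a b c d z : ℂ) :
    ((d * z - b) * (starRingEnd ℂ) (a - c * z)).im =
      ((starRingEnd ℂ) a * d - (starRingEnd ℂ) b * c).im * z.re +
      ((starRingEnd ℂ) a * d - (starRingEnd ℂ) b * c).re * z.im -
      (d * (starRingEnd ℂ) c).im * normSq z - (b * (starRingEnd ℂ) a).im := by
  simp only [Complex.mul_im, Complex.sub_re, Complex.sub_im, Complex.mul_re, Complex.conj_re,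
    Complex.conj_im, Complex.normSq_apply]
  ring

theorem TR1_disc (a b c d : ℂ) :
    normSq ((starRingEnd ℂ) a * d - (starRingEnd ℂ) b * c) -
      4 * (d * (starRingEnd ℂ) c).im * (b * (starRingEnd ℂ) a).im = normSq (a * d - b * c) := by
  simp only [Complex.mul_im, Complex.sub_re, Complex.sub_im, Complex.mul_re, Complex.conj_re,
    Complex.conj_im, Complex.normSq_apply]
  ring

theorem TR1_int (x y : ℂ) (hx : ∃ m n : ℤ, x = (m : ℂ) + (n : ℂ) * I)
    (hy : ∃ m n : ℤ, y = (m : ℂ) + (n : ℂ) * I) : ∃ k : ℤ, (x * (starRingEnd ℂ) y).im = k := by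
  obtain ⟨m, n, rfl⟩ := hx
  obtain ⟨m', n', rfl⟩ := hy
  refine ⟨n * m' - m * n', ?_⟩
  simp
  ring

theorem T_TR1 : P_TR1 := by
  intro t hGI hinf htan
  obtain ⟨hgi, hdet⟩ := hGI
  have hc := TR1_inf t hinf
  have hfin := TR1_fin t hdet
  set β : ℂ := (starRingEnd ℂ) (t 0 0) * t 1 1 - (starRingEnd ℂ) (t 0 1) * t 1 0 with hβ
  obtain ⟨m, hm⟩ := TR1_int (t 0 1) (t 0 0) (hgi 0 1) (hgi 0 0)
  have hmem : ∀ z : ℂ, (z : X) ∈ cir t ↔ β.im * z.re + β.re * z.im = m := by
    intro z
    rw [hfin z, TR1_exp, hc, hm, ← hβ, zero_mul, sub_zero, sub_eq_zero]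
  have hcir1 : cir 1 = RL := by
    ext p
    rw [TR1_mem, inv_one, one_smul]
  have hmem1 : (∞ : X) ∈ cir 1 ∩ cir t := ⟨by rw [hcir1]; exact Set.mem_insert _ _, hinf⟩
  have hno : ∀ x : ℝ, β.im * x ≠ m := by
    intro x hx
    obtain ⟨q, -, hq⟩ := htan
    have h1 := hq _ hmem1
    have h2 := hq ((x : ℂ) : X) ⟨by rw [hcir1, TR1_RL]; exact Complex.ofReal_im x,
      by rw [hmem]; simpa using hx⟩
    exact OnePoint.coe_ne_infty ((x : ℂ)) (h2.trans h1.symm)
  have hβi : β.im = 0 := by
    by_contra h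
    exact hno (m / β.im) (by field_simp)
  have hm0 : m ≠ 0 := by
    rintro rfl
    exact hno 0 (by simp)
  have hd := TR1_disc (t 0 0) (t 0 1) (t 1 0) (t 1 1)
  rw [hc, hdet, ← hβ, Complex.normSq_apply, hβi] at hd
  simp only [mul_zero, zero_mul, sub_zero, add_zero, map_one] at hd
  have hr : β.re = 1 ∨ β.re = -1 := by
    have : (β.re - 1) * (β.re + 1) = 0 := by linear_combination hd
    rcases mul_eq_zero.1 this with h | h
    · left; linarith
    · right; linarith
  rcases hr with hr | hr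
  · refine ⟨m, hm0, ?_⟩
    ext p
    induction p using OnePoint.rec with
    | infty => simp [hinf]
    | coe z =>
      rw [hmem z, hβi, hr]
      simp only [zero_mul, zero_add, one_mul, Set.mem_ofPred_eq]
      constructor
      · intro h; exact Or.inr ⟨z, rfl, h⟩
      · rintro (h | ⟨w, hw, h⟩)
        · exact absurd h (OnePoint.coe_ne_infty z)
        · have : z = w := OnePoint.coe_injective hw
          rw [this]; exact h
  · refine ⟨-m, by simpa using hm0, ?_⟩
    ext p
    induction p using OnePoint.rec with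
    | infty => simp [hinf]
    | coe z =>
      rw [hmem z, hβi, hr]
      simp only [zero_mul, zero_add, Set.mem_ofPred_eq]
      constructor
      · intro h
        exact Or.inr ⟨z, rfl, by push_cast; linarith⟩
      · rintro (h | ⟨w, hw, h⟩)
        · exact absurd h (OnePoint.coe_ne_infty z)
        · have : z = w := OnePoint.coe_injective hw
          rw [this, h]; push_cast; ring

end Pool.Agent.T2H64.AP
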