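import Pool.Agent.T2H64.AP.Stm

set_option autoImplicit false
set_option maxHeartbeats 1000000

namespace Pool.Agent.T2H64.AP

open Matrix Complex OnePoint Topology Filter Set

theorem TR3_sq (p s : ℝ) (hex : ∃ x : ℝ, (x - p) ^ 2 = s)
    (hu : ∀ x y : ℝ, (x - p) ^ 2 = s → (y - p) ^ 2 = s → x = y) : s = 0 := by
  obtain ⟨x, hx⟩ := hex
  have h2 : (2 * p - x - p) ^ 2 = s := by rw [← hx]; ring
  have h3 := hu x _ hx h2
  have h4 : x = p := by linarith
  rw [← hx, h4]; ring

theorem TR3_RL (z : ℂ) : (z : X) ∈ RL ↔ z.im = 0 := by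
  constructor
  · rintro (h | ⟨x, hx⟩)
    · exact absurd h (OnePoint.coe_ne_infty z)
    · have : (x : ℂ) = z := OnePoint.coe_injective hx
      rw [← this]
      exact Complex.ofReal_im x
  · intro h
    refine Or.inr ⟨z.re, ?_⟩
    show (((z.re : ℝ) : ℂ) : X) = (z : X)
    congr 1
    exact Complex.ext (by simp) (by simp [h])

theorem TR3_cir1 : cir 1 = RL := by
  unfold cir
  simp

theorem T_TR3 (hCQ : P_CQ) (hTR4 : P_TR4) : P_TR3 := by
  intro n V hV h1 h2 h3
  obtain ⟨hJ, hn⟩ := hTR4
  obtain ⟨g, rfl⟩ := hV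
  obtain ⟨A, D, B, hdisc, hcir⟩ := hCQ g
  rw [TR3_cir1] at h1
  rw [hJ] at h2
  rw [hn n] at h3
  have hmem : ∀ z : ℂ, (z : X) ∈ cir g ↔ A * normSq z + 2 * (B * z).re + D = 0 := by
    intro z
    rw [hcir]
    simp only [Set.mem_ofPred_eq]
    constructor
    · rintro (⟨h, -⟩ | ⟨w, hw, h⟩)
      · exact absurd h (OnePoint.coe_ne_infty z)
      · have : z = w := OnePoint.coe_injective hw
        rw [this]; exact h
    · intro h; exact Or.inr ⟨z, rfl, h⟩
  have hinf : (∞ : X) ∈ cir g ↔ A = 0 := by
    rw [hcir]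
    simp only [Set.mem_ofPred_eq]
    constructor
    · rintro (⟨-, h⟩ | ⟨w, hw, h⟩)
      · exact h
      · exact absurd hw (OnePoint.infty_ne_coe w)
    · intro h; exact Or.inl ⟨trivial, h⟩
  have hTJ : ∀ z : ℂ, (z : X) ∈ {p : X | p = ∞ ∨ ∃ z : ℂ, p = (z : X) ∧ z.im = 1} ↔ z.im = 1 := by
    intro z
    simp only [Set.mem_ofPred_eq]
    constructor
    · rintro (h | ⟨w, hw, h⟩)
      · exact absurd h (OnePoint.coe_ne_infty z)
      · have : z = w := OnePoint.coe_injective hw
        rw [this]; exact h
    · intro h; exact Or.inr ⟨z, rfl, h⟩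
  have hTn : ∀ z : ℂ, (z : X) ∈ {p : X | ∃ z : ℂ, p = (z : X) ∧ normSq (z - n) = z.im} ↔
      normSq (z - n) = z.im := by
    intro z
    simp only [Set.mem_ofPred_eq]
    constructor
    · rintro ⟨w, hw, h⟩
      have : z = w := OnePoint.coe_injective hw
      rw [this]; exact h
    · intro h; exact ⟨z, rfl, h⟩
  by_cases hA : A = 0
  · -- a line
    exfalso
    subst hA
    have hinf' : (∞ : X) ∈ cir g := hinf.2 rfl
    simp only [zero_mul, zero_add, sub_zero] at hmem hdisc
    -- the real part of `B` vanishes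
    have hno : ∀ x : ℝ, 2 * (B.re * x) + D ≠ 0 := by
      intro x hx
      obtain ⟨q, -, hq⟩ := h1
      have e1 := hq ∞ ⟨hinf', Set.mem_insert _ _⟩
      have e2 := hq ((x : ℂ) : X) ⟨by rw [hmem]; simpa using hx,
        by rw [TR3_RL]; exact Complex.ofReal_im x⟩
      exact OnePoint.coe_ne_infty ((x : ℂ)) (e2.trans e1.symm)
    have hBr : B.re = 0 := by
      by_contra h
      refine hno (-D / (2 * B.re)) ?_
      field_simp
      ring
    have hD : D ≠ 0 := by
      rintro rfl
      exact hno 0 (by simp)
    have hBi : B.im ≠ 0 := by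
      intro h
      rw [Complex.normSq_apply, hBr, h] at hdisc
      simp at hdisc
    set k : ℝ := D / (2 * B.im) with hk
    have hmem' : ∀ z : ℂ, (z : X) ∈ cir g ↔ z.im = k := by
      intro z
      rw [hmem z, Complex.mul_re, hBr, hk, eq_div_iff (by simpa using hBi)]
      constructor
      · intro h; linarith
      · intro h; linarith
    have hk0 : k ≠ 0 := by
      rw [hk]; exact div_ne_zero hD (by simpa using hBi)
    have hk1 : k ≠ 1 := by
      intro hk1
      obtain ⟨q, -, hq⟩ := h2
      have e1 := hq ∞ ⟨hinf', Or.inl rfl⟩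
      have e2 := hq ((I : ℂ) : X) ⟨by rw [hmem', hk1]; simp, by rw [hTJ]; simp⟩
      exact OnePoint.coe_ne_infty (I : ℂ) (e2.trans e1.symm)
    have key : ∀ x : ℝ, (x - n) ^ 2 = k - k ^ 2 →
        (((x : ℂ) + (k : ℂ) * I : ℂ) : X) ∈ cir g ∩
          {p : X | ∃ z : ℂ, p = (z : X) ∧ normSq (z - n) = z.im} := by
      intro x hx
      refine ⟨by rw [hmem']; simp, ?_⟩
      rw [hTn, Complex.normSq_apply]
      simp
      nlinarith
    have hs : k - k ^ 2 = 0 := by
      obtain ⟨q, ⟨hq1, z, rfl, hz⟩, hq⟩ := h3
      refine TR3_sq n _ ⟨z.re, ?_⟩ ?_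
      · rw [Complex.normSq_apply] at hz
        rw [hmem'] at hq1
        simp at hz
        rw [hq1] at hz
        nlinarith
      · intro x y hx hy
        have e1 := hq _ (key x hx)
        have e2 := hq _ (key y hy)
        have e3 : (x : ℂ) + (k : ℂ) * I = (y : ℂ) + (k : ℂ) * I :=
          OnePoint.coe_injective (e1.trans e2.symm)
        have := congrArg Complex.re e3
        simpa using this
    have : k * (1 - k) = 0 := by linear_combination hs
    rcases mul_eq_zero.1 this with h | h
    · exact hk0 h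
    · exact hk1 (by linarith)
  · -- a circle
    set p : ℝ := -B.re / A with hp
    set q : ℝ := B.im / A with hq
    set s : ℝ := p ^ 2 + q ^ 2 - D / A with hs
    have hmem' : ∀ z : ℂ, (z : X) ∈ cir g ↔ (z.re - p) ^ 2 + (z.im - q) ^ 2 = s := by
      intro z
      rw [hmem z]
      have e : A * normSq z + 2 * (B * z).re + D =
          A * ((z.re - p) ^ 2 + (z.im - q) ^ 2 - s) := by
        rw [hs, hp, hq, Complex.normSq_apply, Complex.mul_re]
        field_simp
        ring
      rw [e]
      constructor
      · intro h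
        have := (mul_eq_zero.1 h).resolve_left hA
        linarith
      · intro h; rw [h]; ring
    have hninf : (∞ : X) ∉ cir g := fun h => hA (hinf.1 h)
    -- the real line
    have hs1 : s - q ^ 2 = 0 := by
      obtain ⟨w, ⟨hw1, hw2⟩, hw⟩ := h1
      induction w using OnePoint.rec with
      | infty => exact absurd hw1 hninf
      | coe z =>
      rw [TR3_RL] at hw2
      rw [hmem', hw2] at hw1
      refine TR3_sq p _ ⟨z.re, by linarith⟩ ?_
      intro x y hx hy
      have kx : ∀ x : ℝ, (x - p) ^ 2 = s - q ^ 2 → ((x : ℂ) : X) ∈ cir g ∩ RL := by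
        intro x hx
        refine ⟨?_, by rw [TR3_RL]; exact Complex.ofReal_im x⟩
        rw [hmem']
        simp only [Complex.ofReal_re, Complex.ofReal_im]
        linarith
      have e3 : (x : ℂ) = (y : ℂ) := OnePoint.coe_injective
        ((hw _ (kx x hx)).trans (hw _ (kx y hy)).symm)
      exact_mod_cast e3
    -- the line `Im = 1`
    have hs2 : s - (1 - q) ^ 2 = 0 := by
      obtain ⟨w, ⟨hw1, hw2⟩, hw⟩ := h2
      induction w using OnePoint.rec with
      | infty => exact absurd hw1 hninf
      | coe z =>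
      rw [hTJ] at hw2
      rw [hmem', hw2] at hw1
      refine TR3_sq p _ ⟨z.re, by linarith⟩ ?_
      intro x y hx hy
      have kx : ∀ x : ℝ, (x - p) ^ 2 = s - (1 - q) ^ 2 →
          (((x : ℂ) + I : ℂ) : X) ∈ cir g ∩ {p : X | p = ∞ ∨ ∃ z : ℂ, p = (z : X) ∧ z.im = 1} := by
        intro x hx
        refine ⟨?_, by rw [hTJ]; simp⟩
        rw [hmem']
        simp only [Complex.add_re, Complex.add_im, Complex.ofReal_re, Complex.ofReal_im,
          Complex.I_re, Complex.I_im]
        linarith
      have e3 : (x : ℂ) + I = (y : ℂ) + I := OnePoint.coe_injective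
        ((hw _ (kx x hx)).trans (hw _ (kx y hy)).symm)
      have := congrArg Complex.re e3
      simpa using this
    have hq2 : q = 1 / 2 := by nlinarith
    have hs4 : s = 1 / 4 := by rw [hq2] at hs1; linarith
    have hmem2 : ∀ z : ℂ, (z : X) ∈ cir g ↔ (z.re - p) ^ 2 + z.im ^ 2 = z.im := by
      intro z
      rw [hmem' z, hq2, hs4]
      constructor
      · intro h; linarith
      · intro h; linarith
    have hTn2 : ∀ z : ℂ, normSq (z - n) = z.im ↔ (z.re - n) ^ 2 + z.im ^ 2 = z.im := by
      intro z
      rw [Complex.normSq_apply]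
      simp only [Complex.sub_re, Complex.sub_im, Complex.intCast_re, Complex.intCast_im, sub_zero]
      constructor
      · intro h; linarith
      · intro h; linarith
    -- the third circle
    obtain ⟨w, ⟨hw1, z, rfl, hz⟩, hw⟩ := h3
    rw [hmem2] at hw1
    rw [hTn2] at hz
    have hpn : p ≠ n := by
      intro hpn
      -- the two circles coincide
      have k1 : (((n : ℂ)) : X) ∈ cir g ∩ {p : X | ∃ z : ℂ, p = (z : X) ∧ normSq (z - n) = z.im} := by
        refine ⟨?_, ?_⟩
        · rw [hmem2, hpn]; simp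
        · rw [hTn]; simp
      have k2 : (((n : ℂ) + I : ℂ) : X) ∈ cir g ∩
          {p : X | ∃ z : ℂ, p = (z : X) ∧ normSq (z - n) = z.im} := by
        refine ⟨?_, ?_⟩
        · rw [hmem2, hpn]; simp
        · rw [hTn]; simp
      have e3 : (n : ℂ) = (n : ℂ) + I := OnePoint.coe_injective ((hw _ k1).trans (hw _ k2).symm)
      have := congrArg Complex.im e3
      simp at this
    have hzr : z.re = (p + n) / 2 := by
      have h5 : (z.re - p) ^ 2 = (z.re - n) ^ 2 := by linarith
      have h6 : (n - p) * (2 * z.re - p - n) = 0 := by linear_combination h5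
      rcases mul_eq_zero.1 h6 with h | h
      · exact absurd (by linarith : p = n) hpn
      · linarith
    -- symmetric point
    have k3 : (((z.re : ℂ) + ((1 - z.im : ℝ) : ℂ) * I : ℂ) : X) ∈ cir g ∩
        {p : X | ∃ z : ℂ, p = (z : X) ∧ normSq (z - n) = z.im} := by
      have er : ((z.re : ℂ) + ((1 - z.im : ℝ) : ℂ) * I).re = z.re := by simp
      have ei : ((z.re : ℂ) + ((1 - z.im : ℝ) : ℂ) * I).im = 1 - z.im := by simp
      refine ⟨?_, ?_⟩
      · rw [hmem2, er, ei]; linarith
      · rw [hTn, hTn2, er, ei]; linarith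
    have e4 : (z.re : ℂ) + ((1 - z.im : ℝ) : ℂ) * I = z := OnePoint.coe_injective (hw _ k3)
    have e5 := congrArg Complex.im e4
    simp at e5
    have e6 : z.im = 1 / 2 := by linarith
    have e7 : (p - n) ^ 2 = 1 := by
      rw [hzr, e6] at hz
      nlinarith
    have e8 : (p - (n + 1)) * (p - (n - 1)) = 0 := by linear_combination e7
    have final : ∀ m : ℤ, p = m → cir g = cir (tT ^ m * tW * tJ) := by
      intro m hpm
      rw [hn m]
      ext r
      induction r using OnePoint.rec with
      | infty =>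
        constructor
        · intro h; exact absurd h hninf
        · rintro ⟨w, hw, -⟩; exact absurd hw (OnePoint.infty_ne_coe w)
      | coe v =>
        rw [hmem2 v, hpm]
        simp only [Set.mem_ofPred_eq]
        have hv : normSq (v - m) = v.im ↔ (v.re - m) ^ 2 + v.im ^ 2 = v.im := by
          rw [Complex.normSq_apply]
          simp only [Complex.sub_re, Complex.sub_im, Complex.intCast_re, Complex.intCast_im, sub_zero]
          constructor
          · intro h; linarith
          · intro h; linarith
        constructor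
        · intro h; exact ⟨v, rfl, hv.2 h⟩
        · rintro ⟨w, hw, h⟩
          have : v = w := OnePoint.coe_injective hw
          rw [← this] at h
          exact hv.1 h
    rcases mul_eq_zero.1 e8 with h | h
    · left
      exact final (n + 1) (by push_cast; linarith)
    · right
      exact final (n - 1) (by push_cast; linarith)

end Pool.Agent.T2H64.AP
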