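import Pool.Agent.T2H64.AP.Stm

set_option autoImplicit false

namespace Pool.Agent.T2H64.AP

open Matrix Complex OnePoint Topology Filter Set

namespace UP

lemma tJ_GI : GI tJ := by
  refine ⟨?_, ?_⟩
  · intro i j
    fin_cases i <;> fin_cases j
    · exact ⟨0, -1, by change (-I : ℂ) = _; simp⟩
    · exact ⟨-1, 0, by change (-1 : ℂ) = _; simp⟩
    · exact ⟨0, 0, by change (0 : ℂ) = _; simp⟩
    · exact ⟨0, 1, by change (I : ℂ) = _; simp⟩
  · change (-I) * I - (-1) * 0 = 1
    simp

lemma tT_GI : GI tT := by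
  refine ⟨?_, ?_⟩
  · intro i j
    fin_cases i <;> fin_cases j
    · exact ⟨1, 0, by change (1 : ℂ) = _; simp⟩
    · exact ⟨1, 0, by change (1 : ℂ) = _; simp⟩
    · exact ⟨0, 0, by change (0 : ℂ) = _; simp⟩
    · exact ⟨1, 0, by change (1 : ℂ) = _; simp⟩
  · change (1 : ℂ) * 1 - 1 * 0 = 1
    simp

lemma tW_GI : GI tW := by
  refine ⟨?_, ?_⟩
  · intro i j
    fin_cases i <;> fin_cases j
    · exact ⟨0, 0, by change (0 : ℂ) = _; simp⟩
    · exact ⟨-1, 0, by change (-1 : ℂ) = _; simp⟩
    · exact ⟨1, 0, by change (1 : ℂ) = _; simp⟩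
    · exact ⟨0, 0, by change (0 : ℂ) = _; simp⟩
  · change (0 : ℂ) * 0 - (-1) * 1 = 1
    simp

lemma tJ_coe (hPT : P_PT) (z : ℂ) : tJ • ((z : ℂ) : X) = ((I - z : ℂ) : X) := by
  obtain ⟨_, _, h3, _⟩ := hPT
  have hv : (![z, 1] : Fin 2 → ℂ) ≠ 0 := by
    intro h
    have := congrFun h 1
    simp at this
  have hp : pt ![z, 1] = ((z : ℂ) : X) := by
    unfold pt
    simp
  have h1 := (h3 tJ ![z, 1] hv).2
  rw [hp] at h1
  rw [h1]
  have h2 : act tJ ![z, 1] = ![-I * z - 1, I] := by
    unfold act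
    have e1 : tJ 0 0 = -I := rfl
    have e2 : tJ 0 1 = -1 := rfl
    have e3 : tJ 1 0 = 0 := rfl
    have e4 : tJ 1 1 = I := rfl
    rw [e1, e2, e3, e4]
    simp [sub_eq_add_neg]
  rw [h2]
  unfold pt
  simp only [Matrix.cons_val_one, Matrix.cons_val_zero, Matrix.cons_val_fin_one, if_neg I_ne_zero]
  congr 1
  rw [div_eq_iff I_ne_zero]
  ring_nf
  rw [I_sq]
  ring

lemma RL_UH : RL ⊆ UH := by
  rintro p (rfl | ⟨x, rfl⟩)
  · exact Or.inl rfl
  · exact Or.inr ⟨(x : ℂ), rfl, by simp⟩

/-- a circle in the lower half plane, different from the real line, meets it at most once -/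
lemma one_point (hCQ : P_CQ) (g : G) (hL : cir g ⊆ LH) (hne : cir g ≠ RL) (p q : X) (hp : p ∈ cir g)
    (hq : q ∈ cir g) (hpR : p ∈ RL) (hqR : q ∈ RL) : p = q := by
  obtain ⟨A, D, B, hpos, hV⟩ := hCQ g
  have hmem : ∀ z : ℂ, ((z : ℂ) : X) ∈ cir g ↔ A * normSq z + 2 * (B * z).re + D = 0 := by
    intro z
    rw [hV]
    constructor
    · rintro (⟨h, _⟩ | ⟨w, hw, h⟩)
      · exact absurd h (OnePoint.coe_ne_infty z)
      · have : z = w := OnePoint.coe_injective hw
        rw [this]; exact h
    · intro h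
      exact Or.inr ⟨z, rfl, h⟩
  have hinf : (∞ : X) ∈ cir g → A = 0 := by
    intro h
    rw [hV] at h
    rcases h with ⟨_, h⟩ | ⟨w, hw, _⟩
    · exact h
    · exact absurd hw (OnePoint.infty_ne_coe w)
  have hlow : ∀ z : ℂ, A * normSq z + 2 * (B * z).re + D = 0 → z.im ≤ 0 := by
    intro z hz
    have h1 := hL ((hmem z).mpr hz)
    rcases h1 with h1 | ⟨w, hw, h1⟩
    · exact absurd h1 (OnePoint.coe_ne_infty z)
    · have : z = w := OnePoint.coe_injective hw
      rw [this]; exact h1
  have hlow' : ∀ x y : ℝ, A * (x ^ 2 + y ^ 2) + 2 * (B.re * x - B.im * y) + D = 0 → y ≤ 0 := by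
    intro x y h
    have := hlow ⟨x, y⟩ (by
      rw [normSq_apply]
      simp only [mul_re]
      linarith)
    exact this
  have hreal : ∀ x : ℝ, (((x : ℂ) : ℂ) : X) ∈ cir g → A * x ^ 2 + 2 * B.re * x + D = 0 := by
    intro x hx
    have h := (hmem _).mp hx
    rw [normSq_ofReal] at h
    simp only [mul_re, ofReal_re, ofReal_im] at h
    linarith
  -- the line case
  have hline : A = 0 → ∀ x : ℝ, (((x : ℂ) : ℂ) : X) ∈ cir g → (B.re = 0 → False) → False := by
    intro hA x hx hB
    have hB' : B.re ≠ 0 := hB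
    have h1 := hlow' ((2 * B.im - D) / (2 * B.re)) 1 (by
      rw [hA]
      field_simp
      ring)
    linarith
  have hline2 : A = 0 → B.re = 0 → ∀ x : ℝ, (((x : ℂ) : ℂ) : X) ∈ cir g → False := by
    intro hA hB x hx
    have hD : D = 0 := by
      have := hreal x hx
      rw [hA, hB] at this
      linarith
    apply hne
    rw [hV]
    have hBim : B.im ≠ 0 := by
      intro h0
      rw [hA, normSq_apply, hB, h0] at hpos
      simp at hpos
    ext r
    constructor
    · rintro (⟨h, _⟩ | ⟨z, hz, h⟩)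
      · exact Or.inl h
      · right
        rw [hA, hD] at h
        simp only [mul_re, hB] at h
        have him : z.im = 0 := by
          have : B.im * z.im = 0 := by linarith
          rcases mul_eq_zero.mp this with h' | h'
          · exact absurd h' hBim
          · exact h'
        refine ⟨z.re, ?_⟩
        rw [hz]
        have e : ((z.re : ℝ) : ℂ) = z := Complex.ext (by simp) (by rw [ofReal_im, him])
        change (((z.re : ℝ) : ℂ) : X) = ((z : ℂ) : X)
        rw [e]
    · rintro (h | ⟨x', rfl⟩)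
      · exact Or.inl ⟨h, hA⟩
      · refine Or.inr ⟨(x' : ℂ), rfl, ?_⟩
        rw [hA, hD]
        simp [mul_re, hB]
  rcases hpR with rfl | ⟨x, rfl⟩
  · rcases hqR with rfl | ⟨y, rfl⟩
    · rfl
    · exfalso
      have hA := hinf hp
      exact hline hA y hq fun hB => hline2 hA hB y hq
  · rcases hqR with rfl | ⟨y, rfl⟩
    · exfalso
      have hA := hinf hq
      exact hline hA x hp fun hB => hline2 hA hB x hp
    · by_contra hne'
      have hxy : x ≠ y := fun h => hne' (by rw [h])
      by_cases hA : A = 0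
      · exact hline hA x hp fun hB => hline2 hA hB x hp
      · have h1 := hreal x hp
        have h2 := hreal y hq
        have h3 : A * (x + y) + 2 * B.re = 0 := by
          have : (x - y) * (A * (x + y) + 2 * B.re) = 0 := by linear_combination h1 - h2
          rcases mul_eq_zero.mp this with h | h
          · exact absurd (sub_eq_zero.mp h) hxy
          · exact h
        have h4 : D = A * (x * y) := by linear_combination h1 - x * h3
        obtain ⟨δ, hδ⟩ : ∃ δ, δ = (x - y) / 2 := ⟨_, rfl⟩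
        obtain ⟨t, ht⟩ : ∃ t, t = B.im / A := ⟨_, rfl⟩
        have hδ0 : 0 < δ ^ 2 := by
          have : δ ≠ 0 := by
            rw [hδ]
            intro h
            apply hxy
            linarith
          positivity
        have hs : Real.sqrt (t ^ 2 + δ ^ 2) ^ 2 = t ^ 2 + δ ^ 2 := Real.sq_sqrt (by positivity)
        have hs0 : |t| < Real.sqrt (t ^ 2 + δ ^ 2) := by
          rw [← Real.sqrt_sq_eq_abs]
          exact Real.sqrt_lt_sqrt (sq_nonneg t) (by linarith)
        obtain ⟨w, hw⟩ : ∃ w, w = t + Real.sqrt (t ^ 2 + δ ^ 2) := ⟨_, rfl⟩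
        have hw0 : 0 < w := by
          rw [hw]
          have := neg_abs_le t
          linarith
        have hw2 : w ^ 2 - 2 * t * w - δ ^ 2 = 0 := by
          rw [hw]
          ring_nf
          rw [hs]
          ring
        have hBim : B.im = A * t := by rw [ht]; field_simp
        have h5 := hlow' ((x + y) / 2) w (by
          rw [hBim, h4]
          have e1 : 2 * B.re = -(A * (x + y)) := by linarith
          have e2 : δ ^ 2 = (x - y) ^ 2 / 4 := by rw [hδ]; ring
          rw [e2] at hw2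
          linear_combination A * hw2 + (x + y) / 2 * e1)
        linarith

lemma cir1 : cir 1 = RL := by
  unfold cir
  simp

lemma ST_closed : IsClosed ST := by
  rw [← isOpen_compl_iff]
  have h : STᶜ = (fun z : ℂ => (z : X)) '' {z : ℂ | z.im < 0 ∨ 1 < z.im} := by
    ext p
    constructor
    · intro hp
      induction p using OnePoint.rec with
      | infty => exact absurd (Or.inl rfl) hp
      | coe z =>
        refine ⟨z, ?_, rfl⟩
        by_contra hcon
        simp only [mem_setOf_eq, not_or, not_lt] at hcon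
        exact hp (Or.inr ⟨z, rfl, hcon.1, hcon.2⟩)
    · rintro ⟨z, hz, rfl⟩ (h | ⟨w, hw, h0, h1⟩)
      · exact absurd h (OnePoint.coe_ne_infty z)
      · have : z = w := OnePoint.coe_injective hw
        rw [this] at hz
        rcases hz with hz | hz
        · exact absurd hz (not_lt.mpr h0)
        · exact absurd hz (not_lt.mpr h1)
  rw [h]
  refine OnePoint.isOpenEmbedding_coe.isOpenMap _ ?_
  exact (isOpen_lt Complex.continuous_im continuous_const).union
    (isOpen_lt continuous_const Complex.continuous_im)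

end UP

theorem T_UP (hPT : P_PT) (hTG : P_TG) (hGR : P_GR) (hSB : P_SB) (hNX : P_NX) (hCQ : P_CQ)
    (hTR4 : P_TR4) (hTQ : P_TQ) : P_UP := by
  obtain ⟨⟨hGI1, _⟩, hGImul, _, _, _, _, _, _⟩ := hGR
  have hcirc : ∀ n : ℤ, cir (tT ^ n * tW * tJ) ⊆ UH := by
    intro n
    rw [hTR4.2 n]
    rintro p ⟨z, rfl, hz⟩
    exact Or.inr ⟨z, rfl, by rw [← hz]; exact normSq_nonneg _⟩
  have hUH : ∀ S ∈ PP, S ⊆ UH := by
    have hPP : PP ⊆ {S | (∃ h : G, GI h ∧ S = cir h) ∧ S ⊆ UH} := by
      refine sInter_subset_of_mem ⟨?_, ?_, ?_, ?_, ?_⟩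
      · exact ⟨⟨1, hGI1, rfl⟩, by rw [UP.cir1]; exact UP.RL_UH⟩
      · refine ⟨⟨tJ, UP.tJ_GI, rfl⟩, ?_⟩
        rw [hTR4.1]
        rintro p (rfl | ⟨z, rfl, hz⟩)
        · exact Or.inl rfl
        · exact Or.inr ⟨z, rfl, by rw [hz]; norm_num⟩
      · refine ⟨⟨tW * tJ, hGImul _ _ UP.tW_GI UP.tJ_GI, rfl⟩, ?_⟩
        have := hcirc 0
        rwa [_root_.zpow_zero, one_mul] at this
      · refine ⟨⟨tT * tW * tJ, hGImul _ _ (hGImul _ _ UP.tT_GI UP.tW_GI) UP.tJ_GI, rfl⟩, ?_⟩
        have := hcirc 1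
        rwa [_root_.zpow_one] at this
      · intro S hS T hT U hU V hV hST hTU hSU hSTU hVS hVT hVU
        obtain ⟨h, hh, hVh⟩ := hTQ.1 S hS.1 T hT.1 U hU.1 V hV hST hTU hSU hSTU hVS hVT hVU
        refine ⟨⟨h, hh, hVh⟩, ?_⟩
        rcases hNX h hh with h1 | h1
        · rw [hVh]; exact h1
        · by_cases hR : cir h = RL
          · rw [hVh, hR]; exact UP.RL_UH
          · exfalso
            have hreal : ∀ p : X, p ∈ LH → p ∈ UH → p ∈ RL := by
              rintro p (rfl | ⟨z, rfl, hz⟩) hp2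
              · exact Or.inl rfl
              · rcases hp2 with hp2 | ⟨w, hw, hw0⟩
                · exact absurd hp2 (OnePoint.coe_ne_infty z)
                · have : z = w := OnePoint.coe_injective hw
                  rw [← this] at hw0
                  refine Or.inr ⟨z.re, ?_⟩
                  have e : ((z.re : ℝ) : ℂ) = z := Complex.ext (by simp) (by
                    rw [ofReal_im]; linarith)
                  change (((z.re : ℝ) : ℂ) : X) = ((z : ℂ) : X)
                  rw [e]
            obtain ⟨p, ⟨hpV, hpS⟩, _⟩ := hVS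
            obtain ⟨q, ⟨hqV, hqT⟩, _⟩ := hVT
            obtain ⟨r, ⟨hrV, hrU⟩, _⟩ := hVU
            rw [hVh] at hpV hqV hrV
            have e1 := UP.one_point hCQ h h1 hR p q hpV hqV (hreal p (h1 hpV) (hS.2 hpS))
              (hreal q (h1 hqV) (hT.2 hqT))
            have e2 := UP.one_point hCQ h h1 hR p r hpV hrV (hreal p (h1 hpV) (hS.2 hpS))
              (hreal r (h1 hrV) (hU.2 hrU))
            have : p ∈ S ∩ T ∩ U := ⟨⟨hpS, by rw [e1]; exact hqT⟩, by rw [e2]; exact hrU⟩
            rw [hSTU] at this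
            exact this
    intro S hS
    exact (hPP hS).2
  have hST : ∀ S ∈ PP, S ⊆ ST := by
    intro S hS p hp
    have h1 := hUH S hS hp
    have h2 := hUH _ ((hSB.2.2.2.2 S).mp hS) (mem_image_of_mem _ hp)
    rcases h1 with rfl | ⟨z, rfl, hz⟩
    · exact Or.inl rfl
    · refine Or.inr ⟨z, rfl, hz, ?_⟩
      have h3 : tJ • ((z : ℂ) : X) ∈ UH := h2
      rw [UP.tJ_coe hPT] at h3
      rcases h3 with h3 | ⟨w, hw, h3⟩
      · exact absurd h3 (OnePoint.coe_ne_infty _)
      · have : I - z = w := OnePoint.coe_injective hw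
        rw [← this] at h3
        simp at h3
        exact h3
  refine ⟨hST, ?_⟩
  refine closure_minimal ?_ UP.ST_closed
  exact sUnion_subset hST

end Pool.Agent.T2H64.AP
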