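import Pool.Agent.T2H64.AP.Fin
import Pool.Agent.T2H64.AP.Fin2
import Pool.Agent.T2H64.AP.T_PT
import Pool.Agent.T2H64.AP.T_EE
import Pool.Agent.T2H64.AP.T_TA
import Pool.Agent.T2H64.AP.T_TB
import Pool.Agent.T2H64.AP.T_TC
import Pool.Agent.T2H64.AP.T_TG
import Pool.Agent.T2H64.AP.T_TR4
import Pool.Agent.T2H64.AP.T_QD
import Pool.Agent.T2H64.AP.T_GR
import Pool.Agent.T2H64.AP.T_SB
import Pool.Agent.T2H64.AP.T_SZ
import Pool.Agent.T2H64.AP.T_NX
import Pool.Agent.T2H64.AP.T_CQ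
import Pool.Agent.T2H64.AP.T_TR1
import Pool.Agent.T2H64.AP.T_TR2
import Pool.Agent.T2H64.AP.T_TR3
import Pool.Agent.T2H64.AP.T_TR
import Pool.Agent.T2H64.AP.T_TQ
import Pool.Agent.T2H64.AP.UP
import Pool.Agent.T2H64.AP.T_OR
import Pool.Agent.T2H64.AP.T_CU
import Pool.Agent.T2H64.AP.T_EX
import Pool.Agent.T2H64.AP.TS
import Pool.Agent.T2H64.AP.T_FC
import Pool.Agent.T2H64.AP.T_FD
import Pool.Agent.T2H64.AP.T_GE
import Pool.Agent.T2H64.AP.T_SE
import Pool.Agent.T2H64.AP.T_SG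
import Pool.Agent.T2H64.AP.T_SQ
import Pool.Agent.T2H64.AP.PG
import Pool.Agent.T2H64.AP.T_LU
import Pool.Agent.T2H64.AP.T_LD
import Pool.Agent.T2H64.AP.T_NF

set_option autoImplicit false

namespace Pool.Agent.T2H64.AP

theorem hPT : P_PT := T_PT
theorem hEE : P_EE := T_EE hPT
theorem hTA : P_TA := T_TA
theorem hTB : P_TB := T_TB
theorem hTC : P_TC := T_TC hPT hEE
theorem hTG : P_TG := T_TG
theorem hTR4 : P_TR4 := T_TR4
theorem hQD : P_QD := T_QD hTG hTR4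
theorem hGR : P_GR := T_GR hTG hTA
theorem hSB : P_SB := T_SB hTG hQD
theorem hSZ : P_SZ := T_SZ hGR hSB
theorem hNX : P_NX := T_NX
theorem hCQ : P_CQ := T_CQ
theorem hTR1 : P_TR1 := by
  have h1 := hTG
  have h2 := hCQ
  have h3 := hPT
  first | exact T_TR1 | (apply T_TR1 <;> assumption)
theorem hTR2 : P_TR2 := T_TR2
theorem hTR3 : P_TR3 := by
  have h1 := hTG
  have h2 := hCQ
  have h3 := hTR4
  have h4 := hPT
  first | exact T_TR3 | (apply T_TR3 <;> assumption)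
theorem hTR : P_TR := T_TR hTR1 hTR2 hTR3 hTR4
theorem hTQ : P_TQ := T_TQ hTG hGR hTR
theorem hUP : P_UP := by
  have h1 := hTG
  have h2 := hCQ
  have h3 := hTQ
  have h4 := hNX
  have h5 := hGR
  have h6 := hSB
  have h7 := hTA
  have h8 := hSZ
  have h9 := hPT
  have h10 := hTR4
  first | exact T_UP | (apply T_UP <;> assumption)
theorem hOR : P_OR := T_OR hTQ hTR hUP hSZ hSB hGR hTG
theorem hCU : P_CU := T_CU hOR hSZ hGR hTA
theorem hEX : P_EX := T_EX hPT hTA hGR hSZ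
theorem hTS : P_TS := T_TS hPT hEE hTA hGR hSZ hSB hUP
theorem hFC : P_FC := T_FC hPT hTA
theorem hFD : P_FD := T_FD hPT hEE hSZ
theorem hGE : P_GE := T_GE
theorem hSE : P_SE := T_SE hGR
theorem hSG : P_SG := T_SG hPT hEE hTA hTC hGR hCU hEX hTS hFC hFD
theorem hSQ : P_SQ := T_SQ hSG hCU hGR hFD hTA
theorem hPG : P_PG := T_PG hEE hTG
theorem hLU : P_LU := T_LU hGR
theorem hLD : P_LD := T_LD hEE hTA hTC
theorem hNF : P_NF := T_NF hCQ hTR3 hTR4 hTG

theorem final_PP : Concl PP := core2 hTG hTB hTC hGR hSQ hPG hLU hLD hFC hFD hGE hSE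

theorem final_all (P : Set (Set X)) (hP : Apol P) : Concl P := all_packings hTG hTA hNF final_PP P hP

end Pool.Agent.T2H64.AP
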