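import Pool.Agent.T2H64.AP.Stm

set_option autoImplicit false

namespace Pool.Agent.T2H64.AP

open Matrix Complex OnePoint Topology Filter Set

theorem core (hTG : P_TG) (hQD : P_QD) (hTB : P_TB) (hTC : P_TC) (hGR : P_GR) (hSQ : P_SQ) (hPG : P_PG)
    (hLU : P_LU) (hLD : P_LD) (hFC : P_FC) (hFD : P_FD) (hGE : P_GE) (hSE : P_SE) :
    ¬ (∀ (P : Set (Set (OnePoint ℂ))),
  (∃ C₁ C₂ C₃ C₄ : Set (OnePoint ℂ),
    (∃ g : Matrix.GeneralLinearGroup (Fin 2) ℂ, C₁ = (fun w : OnePoint ℂ => g • w) '' (insert (OnePoint.infty : OnePoint ℂ) (Set.range (fun x : ℝ => OnePoint.some (x : ℂ))))) ∧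
    (∃ g : Matrix.GeneralLinearGroup (Fin 2) ℂ, C₂ = (fun w : OnePoint ℂ => g • w) '' (insert (OnePoint.infty : OnePoint ℂ) (Set.range (fun x : ℝ => OnePoint.some (x : ℂ))))) ∧
    (∃ g : Matrix.GeneralLinearGroup (Fin 2) ℂ, C₃ = (fun w : OnePoint ℂ => g • w) '' (insert (OnePoint.infty : OnePoint ℂ) (Set.range (fun x : ℝ => OnePoint.some (x : ℂ))))) ∧
    (∃ g : Matrix.GeneralLinearGroup (Fin 2) ℂ, C₄ = (fun w : OnePoint ℂ => g • w) '' (insert (OnePoint.infty : OnePoint ℂ) (Set.range (fun x : ℝ => OnePoint.some (x : ℂ))))) ∧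
    (∃! p, p ∈ C₁ ∩ C₂) ∧ (∃! p, p ∈ C₁ ∩ C₃) ∧ (∃! p, p ∈ C₁ ∩ C₄) ∧
    (∃! p, p ∈ C₂ ∩ C₃) ∧ (∃! p, p ∈ C₂ ∩ C₄) ∧ (∃! p, p ∈ C₃ ∩ C₄) ∧
    C₁ ∩ C₂ ∩ C₃ = ∅ ∧ C₁ ∩ C₂ ∩ C₄ = ∅ ∧ C₁ ∩ C₃ ∩ C₄ = ∅ ∧ C₂ ∩ C₃ ∩ C₄ = ∅ ∧
    P = ⋂₀ {F : Set (Set (OnePoint ℂ)) | C₁ ∈ F ∧ C₂ ∈ F ∧ C₃ ∈ F ∧ C₄ ∈ F ∧
      ∀ S ∈ F, ∀ T ∈ F, ∀ U ∈ F, ∀ V : Set (OnePoint ℂ),
        (∃ g : Matrix.GeneralLinearGroup (Fin 2) ℂ, V = (fun w : OnePoint ℂ => g • w) '' (insert (OnePoint.infty : OnePoint ℂ) (Set.range (fun x : ℝ => OnePoint.some (x : ℂ))))) →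
        (∃! p, p ∈ S ∩ T) → (∃! p, p ∈ T ∩ U) → (∃! p, p ∈ S ∩ U) → S ∩ T ∩ U = ∅ →
        (∃! p, p ∈ V ∩ S) → (∃! p, p ∈ V ∩ T) → (∃! p, p ∈ V ∩ U) → V ∈ F}) →
  ∀ Γ : Subgroup (Matrix.GeneralLinearGroup (Fin 2) ℂ),
  (∀ g ∈ Γ, ∀ S : Set (OnePoint ℂ), S ∈ P ↔ (fun w : OnePoint ℂ => g • w) '' S ∈ P) →
  (∀ z : OnePoint ℂ, derivedSet {w : OnePoint ℂ | ∃ g ∈ Γ, w = g • z} = closure (⋃₀ P)) →
  ∀ C : Set (OnePoint ℂ),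
  (∃ g : Matrix.GeneralLinearGroup (Fin 2) ℂ,
    C = (fun w : OnePoint ℂ => g • w) '' (insert (OnePoint.infty : OnePoint ℂ) (Set.range (fun x : ℝ => OnePoint.some (x : ℂ)))) ∧
    ((fun w : OnePoint ℂ => g • w) '' (OnePoint.some '' {z : ℂ | 0 < z.im}) ∩ closure (⋃₀ P)).Nonempty ∧
    ((fun w : OnePoint ℂ => g • w) '' (OnePoint.some '' {z : ℂ | z.im < 0}) ∩ closure (⋃₀ P)).Nonempty) →
  (IsClosed {h : Matrix.GeneralLinearGroup (Fin 2) ℂ | ∃ γ ∈ Γ,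
      (fun w : OnePoint ℂ => h • w) '' (insert (OnePoint.infty : OnePoint ℂ) (Set.range (fun x : ℝ => OnePoint.some (x : ℂ)))) = (fun w : OnePoint ℂ => γ • w) '' C} ∨
   ∀ h : Matrix.GeneralLinearGroup (Fin 2) ℂ,
     ((fun w : OnePoint ℂ => h • w) '' (insert (OnePoint.infty : OnePoint ℂ) (Set.range (fun x : ℝ => OnePoint.some (x : ℂ)))) ∩ closure (⋃₀ P)).Nonempty →
     h ∈ closure {h' : Matrix.GeneralLinearGroup (Fin 2) ℂ | ∃ γ ∈ Γ,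
       (fun w : OnePoint ℂ => h' • w) '' (insert (OnePoint.infty : OnePoint ℂ) (Set.range (fun x : ℝ => OnePoint.some (x : ℂ)))) = (fun w : OnePoint ℂ => γ • w) '' C})) := by
  intro H
  obtain ⟨tg1, tg2, tg3, tg4, tg5, tg6, tg7, tg8, tg9⟩ := hTG
  obtain ⟨τ, a, ha, hgen⟩ := hGE
  obtain ⟨hFcl, hOmo, hOmd, hgn, hm1, hm1R, hinfR, h0R, hinfn, hinf0, h00⟩ := hFC τ a ha
  obtain ⟨hFam, hPP⟩ := (⟨trivial, trivial⟩ : True ∧ True)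
  obtain ⟨A, hA, hAU⟩ := hSQ (FF τ a) hFcl hgen
  obtain ⟨⟨gr0, gr0'⟩, gr1, gr2, gr3, gr4, gr5, gr6, gr7⟩ := hGR
  obtain ⟨hg0A, hA1, hA2, hA3, hA4⟩ := id hA
  -- the group
  have hΓ : ∀ g ∈ Subgroup.closure A, InG0 g := by
    intro g hg
    induction hg using Subgroup.closure_induction with
    | mem x hx => exact hA1 x hx
    | one => exact ⟨gr0, gr0'⟩
    | mul x y _ _ hx hy => exact ⟨gr1 _ _ hx.1 hy.1, gr3 _ _ hx.2 hy.2⟩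
    | inv x _ hx => exact ⟨gr2 _ hx.1, gr4 _ hx.2⟩
  obtain ⟨q12, q13, q14, q23, q24, q34, e1, e2, e3, e4⟩ := hQD
  have key := H PP ⟨cir 1, cir tJ, cir (tW * tJ), cir (tT * tW * tJ), ⟨1, rfl⟩, ⟨_, rfl⟩, ⟨_, rfl⟩, ⟨_, rfl⟩,
    q12, q13, q14, q23, q24, q34, e1, e2, e3, e4, rfl⟩ (Subgroup.closure A)
    (fun g hg S => (hΓ g hg).2 S)
    (fun z => Subset.antisymm (hLU _ hΓ z) (hLD (FF τ a) A hA hAU z))
    (cc τ a) ⟨kk * Mr τ a, rfl, (hSE τ a ha).1.1, (hSE τ a ha).1.2⟩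
  have hg0n : ∀ n : ℤ, g0 ^ n ∈ Subgroup.closure A := fun n =>
    (Subgroup.closure A).zpow_mem (Subgroup.subset_closure hg0A) n
  have hpos : ∀ n : ℤ, 0 < a * ph ^ n := fun n => mul_pos ha (zpow_pos ph_pos n)
  have hcn : ∀ n : ℤ, img (g0 ^ n) (cc τ a) = cc τ (a * ph ^ (-(4 * n))) := fun n => hgn a n
  have hPG' := hPG (FF τ a) (cc τ a) A hA (by
    intro n
    rw [hcn n]
    refine subset_union_of_subset_right (Set.subset_iUnion_of_subset (-n) ?_) _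
    rw [show (4 : ℤ) * -n = -(4 * n) by ring])
  -- the two fixed points
  have hx1 := hFD.1
  have hx2 := hFD.2.1
  rcases key with hcl | hde
  · -- closed: the limit circle
    have hmem : kk * Mr τ 0 ∈ {h : G | ∃ γ ∈ Subgroup.closure A, cir h = img γ (cc τ a)} := by
      refine hcl.mem_of_tendsto (hSE τ a ha).2 (Eventually.of_forall fun n => ?_)
      refine ⟨g0 ^ (n : ℤ), hg0n _, ?_⟩
      exact (hcn n).symm
    obtain ⟨γ, hγ, he⟩ := hmem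
    have he' : cc τ 0 = img γ (cc τ a) := he
    rcases hPG' γ hγ with ⟨n, hn⟩ | hd | hd
    · rw [hn, hcn n] at he'
      exact hinfn _ (hpos _) (he' ▸ hinf0)
    · have : kk • ((0 : ℂ) : X) ∈ img γ (cc τ a) ∩ Eo g0 := ⟨he' ▸ h00, hx2⟩
      rw [hd] at this
      exact this
    · have : kk • (∞ : X) ∈ img γ (cc τ a) ∩ Eo g0⁻¹ := ⟨he' ▸ hinf0, hx1⟩
      rw [hd] at this
      exact this
  · -- dense: the real line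
    have h1 := hde 1 ⟨kk • (∞ : X), by
      have : kk • (∞ : X) ∈ cir 1 := by rw [tg8]; exact hinfR
      exact this, gr6 hinfR⟩
    rw [mem_closure_iff] at h1
    have ho1 : IsOpen {h : G | h • (kk • ((0 : ℂ) : X)) ∈ Eo g0} := (hTC g0).1.preimage (hTB _)
    have ho2 : IsOpen {h : G | h • (kk • (∞ : X)) ∈ Eo g0⁻¹} := (hTC g0⁻¹).1.preimage (hTB _)
    have ho3 : IsOpen {h : G | h • (kk • ((-1 : ℂ) : X)) ∈ Om τ} := hOmo.preimage (hTB _)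
    obtain ⟨h, ⟨⟨hh1, hh2⟩, hh3⟩, γ, hγ, he⟩ := h1 _ ((ho1.inter ho2).inter ho3)
      ⟨⟨by simpa using hx2, by simpa using hx1⟩, by simpa using hm1⟩
    have he' : cir h = img γ (cc τ a) := he
    have hc : ∀ p ∈ RL, h • p ∈ img γ (cc τ a) := fun p hp => he' ▸ ⟨p, hp, rfl⟩
    rcases hPG' γ hγ with ⟨n, hn⟩ | hd | hd
    · have h3 := hc _ hm1R
      rw [hn, hcn n] at h3
      have : h • (kk • ((-1 : ℂ) : X)) ∈ cc τ (a * ph ^ (-(4 * n))) ∩ Om τ := ⟨h3, hh3⟩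
      rw [hOmd _ (hpos _).le] at this
      exact this
    · have : h • (kk • ((0 : ℂ) : X)) ∈ img γ (cc τ a) ∩ Eo g0 := ⟨hc _ h0R, hh1⟩
      rw [hd] at this
      exact this
    · have : h • (kk • (∞ : X)) ∈ img γ (cc τ a) ∩ Eo g0⁻¹ := ⟨hc _ hinfR, hh2⟩
      rw [hd] at this
      exact this

end Pool.Agent.T2H64.AP
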