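import Pool.Agent.T2H64.AP.Stm

set_option autoImplicit false

namespace Pool.Agent.T2H64.AP

open Matrix Complex OnePoint Topology Filter Set

/-- NF. Normal form of four mutually tangent circles. Proof: `C₁ = cir g₁`; apply `g₁⁻¹` to get `C₁ = RL`; then an
affine real map or an inversion `w ↦ 1/(x - w)` (real, so it preserves `RL`) to get the point of `C₁ ∩ C₂` to infinity; then
`C₂` is the line `Im = k`, `k ≠ 0` real; divide by `k`: `C₂ = cir tJ` (real scaling). Now `C₃` is a circle of diameter one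
touching the real line at a real `x`; translate: `x = 0`, `C₃ = cir (tW * tJ)`. By TR3 (with `n = 0`) `C₄` is
`cir (tT * tW * tJ)` or `cir (tT⁻¹ * tW * tJ)`, in the second case translate by one. -/
def P_NF : Prop := ∀ C₁ C₂ C₃ C₄ : Set X, IsCir C₁ → IsCir C₂ → IsCir C₃ → IsCir C₄ →
  Tan C₁ C₂ → Tan C₁ C₃ → Tan C₁ C₄ → Tan C₂ C₃ → Tan C₂ C₄ → Tan C₃ C₄ →
  C₁ ∩ C₂ ∩ C₃ = ∅ → C₁ ∩ C₂ ∩ C₄ = ∅ → C₁ ∩ C₃ ∩ C₄ = ∅ → C₂ ∩ C₃ ∩ C₄ = ∅ →
  ∃ g : G, ({img g C₁, img g C₂, img g C₃, img g C₄} : Set (Set X)) =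
    {cir 1, cir tJ, cir (tW * tJ), cir (tT * tW * tJ)}

end Pool.Agent.T2H64.AP
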