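import Pool.Agent.T2H64.AP.Stm

set_option autoImplicit false

namespace Pool.Agent.T2H64.AP

open Matrix Complex OnePoint Topology Filter Set

namespace PkgCQ

lemma smul_some (g : G) (z : ℂ) : g • (z : X) =
    if g 1 0 * z + g 1 1 = 0 then (∞ : X) else (((g 0 0 * z + g 0 1) / (g 1 0 * z + g 1 1) : ℂ) : X) := by
  rw [OnePoint.smul_some_eq_ite]

lemma smul_inf (g : G) : g • (∞ : X) =
    if g 1 0 = 0 then (∞ : X) else ((g 0 0 / g 1 0 : ℂ) : X) := by
  rw [OnePoint.smul_infty_eq_ite]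

lemma mem_RL_coe (w : ℂ) : (w : X) ∈ RL ↔ w.im = 0 := by
  unfold RL
  constructor
  · rintro (h | ⟨x, hx⟩)
    · exact absurd h (OnePoint.coe_ne_infty w)
    · have h1 : (x : ℂ) = w := OnePoint.coe_injective hx
      rw [← h1]
      exact ofReal_im x
  · intro h
    right
    refine ⟨w.re, ?_⟩
    have h1 : ((w.re : ℝ) : ℂ) = w := by
      apply Complex.ext
      · simp
      · simp [h]
    show ((((w.re : ℝ) : ℂ)) : X) = (w : X)
    rw [h1]

lemma mem_RL_inf : (∞ : X) ∈ RL := Or.inl rfl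

lemma im_div_zero (u v : ℂ) (hv : v ≠ 0) : (u / v).im = 0 ↔ (u * (starRingEnd ℂ) v).im = 0 := by
  have h1 : u / v = (u * (starRingEnd ℂ) v) * (((normSq v)⁻¹ : ℝ) : ℂ) := by
    rw [div_eq_mul_inv, Complex.inv_def]
    ring
  rw [h1, Complex.im_mul_ofReal]
  have hn : (normSq v)⁻¹ ≠ 0 := inv_ne_zero (by simpa using hv)
  constructor
  · intro h
    rcases mul_eq_zero.1 h with h | h
    · exact h
    · exact absurd h hn
  · intro h
    rw [h, zero_mul]

lemma det_ne (g : G) : g 0 0 * g 1 1 - g 0 1 * g 1 0 ≠ 0 := by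
  have h := g.det_ne_zero
  rwa [Matrix.det_fin_two] at h

lemma smul_mem (g : G) (z : ℂ) : g • (z : X) ∈ RL ↔
    ((g 0 0 * z + g 0 1) * (starRingEnd ℂ) (g 1 0 * z + g 1 1)).im = 0 := by
  rw [smul_some]
  by_cases h : g 1 0 * z + g 1 1 = 0
  · rw [if_pos h, h]
    simp [mem_RL_inf]
  · rw [if_neg h, mem_RL_coe, im_div_zero _ _ h]

lemma smul_mem_inf (g : G) : g • (∞ : X) ∈ RL ↔ (g 0 0 * (starRingEnd ℂ) (g 1 0)).im = 0 := by
  rw [smul_inf]
  by_cases h : g 1 0 = 0
  · rw [if_pos h, h]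
    simp [mem_RL_inf]
  · rw [if_neg h, mem_RL_coe, im_div_zero _ _ h]

lemma mem_cir (g : G) (p : X) : p ∈ cir g ↔ g⁻¹ • p ∈ RL := by
  unfold cir
  constructor
  · rintro ⟨w, hw, rfl⟩
    simp only [inv_smul_smul]
    exact hw
  · intro h
    exact ⟨g⁻¹ • p, h, smul_inv_smul g p⟩

end PkgCQ

open PkgCQ

theorem T_CQ : P_CQ := by
  intro g
  have hd := det_ne g⁻¹
  obtain ⟨a, ha⟩ : ∃ a, a = g⁻¹ 0 0 := ⟨_, rfl⟩
  obtain ⟨b, hb⟩ : ∃ b, b = g⁻¹ 0 1 := ⟨_, rfl⟩
  obtain ⟨c, hc⟩ : ∃ c, c = g⁻¹ 1 0 := ⟨_, rfl⟩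
  obtain ⟨d, hd'⟩ : ∃ d, d = g⁻¹ 1 1 := ⟨_, rfl⟩
  rw [← ha, ← hb, ← hc, ← hd'] at hd
  refine ⟨(a * (starRingEnd ℂ) c).im, (b * (starRingEnd ℂ) d).im,
    -I / 2 * (a * (starRingEnd ℂ) d - c * (starRingEnd ℂ) b), ?_, ?_⟩
  · have h1 : normSq (-I / 2 * (a * (starRingEnd ℂ) d - c * (starRingEnd ℂ) b)) -
        (a * (starRingEnd ℂ) c).im * (b * (starRingEnd ℂ) d).im = normSq (a * d - b * c) / 4 := by
      rw [normSq_mul]
      have h2 : normSq (-I / 2) = 1 / 4 := by
        rw [normSq_div, normSq_neg, normSq_I]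
        norm_num [normSq_apply]
      rw [h2]
      simp only [normSq_apply, Complex.sub_re, Complex.sub_im, Complex.mul_re, Complex.mul_im,
        Complex.conj_re, Complex.conj_im]
      ring
    rw [h1]
    have h3 : 0 < normSq (a * d - b * c) := normSq_pos.2 hd
    linarith
  · ext p
    rw [mem_cir]
    induction p using OnePoint.rec with
    | infty =>
      rw [smul_mem_inf, ← ha, ← hc]
      constructor
      · intro h
        exact Or.inl ⟨rfl, h⟩
      · rintro (⟨-, h⟩ | ⟨z, hz, -⟩)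
        · exact h
        · exact absurd hz.symm (OnePoint.coe_ne_infty z)
    | coe z =>
      rw [smul_mem, ← ha, ← hb, ← hc, ← hd']
      have h1 : ((a * z + b) * (starRingEnd ℂ) (c * z + d)).im =
          (a * (starRingEnd ℂ) c).im * normSq z +
          2 * ((-I / 2 * (a * (starRingEnd ℂ) d - c * (starRingEnd ℂ) b)) * z).re +
          (b * (starRingEnd ℂ) d).im := by
        have h2 : (-I / 2 * (a * (starRingEnd ℂ) d - c * (starRingEnd ℂ) b)) * z =
            (-I * (a * (starRingEnd ℂ) d - c * (starRingEnd ℂ) b) * z) * (((1 / 2 : ℝ)) : ℂ) := by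
          push_cast
          ring
        rw [h2, Complex.re_mul_ofReal]
        simp only [normSq_apply, Complex.sub_re, Complex.sub_im, Complex.mul_re, Complex.mul_im,
          Complex.conj_re, Complex.conj_im, Complex.add_re, Complex.add_im, Complex.neg_re, Complex.neg_im,
          Complex.I_re, Complex.I_im]
        ring
      rw [h1]
      constructor
      · intro h
        exact Or.inr ⟨z, rfl, h⟩
      · rintro (⟨h, -⟩ | ⟨w, hw, h⟩)
        · exact absurd h (OnePoint.coe_ne_infty z)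
        · have h3 : z = w := OnePoint.coe_injective hw
          rw [h3]
          exact h

end Pool.Agent.T2H64.AP
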