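import Pool.Agent.T2H64.AP.Stm

/-!
# Project AP, package SG: one step of the construction
-/

set_option autoImplicit false

namespace Pool.Agent.T2H64.AP

open Matrix Complex OnePoint Topology Filter Set

namespace PkgSG

/-- the first basis vector -/
def e1 : Fin 2 → ℂ := ![1, 0]

theorem e1_ne : e1 ≠ 0 := by
  intro h
  have := congrFun h 0
  simp [e1] at this

theorem pt_e1 : pt e1 = (∞ : X) := by
  unfold pt e1
  simp

/-- the letters -/
def B (A : Finset G) : Set G := (A : Set G) ∪ (fun a => a⁻¹) '' (A : Set G)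

theorem B_fin (A : Finset G) : (B A).Finite :=
  A.finite_toSet.union (A.finite_toSet.image _)

theorem nn_nat {M : G} (h : GI M) : ∃ n : ℕ, nn (act M e1) = n := by
  obtain ⟨m1, n1, h1⟩ := h.1 0 0
  obtain ⟨m2, n2, h2⟩ := h.1 1 0
  refine ⟨(m1 ^ 2 + n1 ^ 2 + (m2 ^ 2 + n2 ^ 2)).toNat, ?_⟩
  have hpos : 0 ≤ m1 ^ 2 + n1 ^ 2 + (m2 ^ 2 + n2 ^ 2) := by positivity
  have h3 : (((m1 ^ 2 + n1 ^ 2 + (m2 ^ 2 + n2 ^ 2)).toNat : ℤ) : ℝ) =
      ((m1 ^ 2 + n1 ^ 2 + (m2 ^ 2 + n2 ^ 2) : ℤ) : ℝ) := by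
    rw [Int.toNat_of_nonneg hpos]
  have h4 : (((m1 ^ 2 + n1 ^ 2 + (m2 ^ 2 + n2 ^ 2)).toNat : ℕ) : ℝ) =
      ((m1 ^ 2 + n1 ^ 2 + (m2 ^ 2 + n2 ^ 2) : ℤ) : ℝ) := by
    rw [← h3]
    norm_cast
  rw [h4]
  have ea : act M e1 = ![M 0 0, M 1 0] := by
    unfold act e1
    ext i
    fin_cases i <;> simp
  rw [ea]
  unfold nn
  simp only [Matrix.cons_val_zero, Matrix.cons_val_one]
  rw [h1, h2]
  simp only [Complex.normSq_apply]
  simp
  ring

end PkgSG

open PkgSG in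
theorem T_SG (hPT : P_PT) (hEE : P_EE) (hTA : P_TA) (hTC : P_TC) (hGR : P_GR) (hCU : P_CU)
    (hEX : P_EX) (hTS : P_TS) (hFC : P_FC) (hFD : P_FD) : P_SG := by
  intro F A U hF hFc hFam hU hUL
  obtain ⟨-, -, hPTact, hPTmul, -, -, -, -⟩ := hPT
  obtain ⟨hEEm, hEEsub, -, -⟩ := hEE
  obtain ⟨⟨hGI1, hS1⟩, hGImul, hGIinv, hSmul, hSinv, -, hRL, -⟩ := hGR
  obtain ⟨hA0, hAG, hAd, hAdd, hAF⟩ := hFam
  obtain ⟨-, -, -, -, -, -, hkinf, hk0, -⟩ := hFC 0 1 one_pos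
  obtain ⟨hf1, hf2, hf3, hf4⟩ := hFD
  have hInv : ∀ g : G, InG0 g → InG0 g⁻¹ := fun g hg => ⟨hGIinv g hg.1, hSinv g hg.2⟩
  have hMul : ∀ g h : G, InG0 g → InG0 h → InG0 (g * h) := fun g h hg hh =>
    ⟨hGImul g h hg.1 hh.1, hSmul g h hg.2 hh.2⟩
  have hΓ : ∀ γ ∈ Subgroup.closure (A : Set G), InG0 γ := by
    intro γ hγ
    induction hγ using Subgroup.closure_induction with
    | mem x hx => exact hAG x hx
    | one => exact ⟨hGI1, hS1⟩
    | mul x y _ _ hx hy => exact hMul x y hx hy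
    | inv x _ hx => exact hInv x hx
  -- the letters
  have hBΓ : ∀ b ∈ B A, b ∈ Subgroup.closure (A : Set G) := by
    rintro b (hb | ⟨a, ha, rfl⟩)
    · exact Subgroup.subset_closure hb
    · exact Subgroup.inv_mem _ (Subgroup.subset_closure ha)
  have hBdis : ∀ b ∈ B A, ∀ b' ∈ B A, b ≠ b' → Ec b ∩ Ec b' = ∅ := by
    have key : ∀ b ∈ B A, ∃ a ∈ (A : Set G), b = a ∨ b = a⁻¹ := by
      rintro b (hb | ⟨a, ha, rfl⟩)
      · exact ⟨b, hb, Or.inl rfl⟩
      · exact ⟨a, ha, Or.inr rfl⟩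
    intro b hb b' hb' hne
    obtain ⟨a, ha, hba⟩ := key b hb
    obtain ⟨a', ha', hba'⟩ := key b' hb'
    by_cases haa : a = a'
    · subst haa
      rcases hba with h1 | h1 <;> rcases hba' with h2 | h2
      · exact absurd (h1.trans h2.symm) hne
      · rw [h1, h2]
        exact hAd a ha
      · rw [h1, h2, Set.inter_comm]
        exact hAd a ha
      · exact absurd (h1.trans h2.symm) hne
    · have h3 := hAdd a ha a' ha' haa
      rw [Set.eq_empty_iff_forall_notMem]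
      rintro p ⟨hp1, hp2⟩
      rw [Set.eq_empty_iff_forall_notMem] at h3
      refine h3 p ⟨?_, ?_⟩
      · rcases hba with h1 | h1
        · left; rwa [← h1]
        · right; rwa [← h1]
      · rcases hba' with h1 | h1
        · left; rwa [← h1]
        · right; rwa [← h1]
  -- a cusp in `U`
  obtain ⟨h0, hh0, hh0U⟩ := hCU U hU hUL
  -- the minimal element
  have hex : ∃ n : ℕ, ∃ γ ∈ Subgroup.closure (A : Set G), nn (act (γ * h0) e1) = n := by
    obtain ⟨n, hn⟩ := nn_nat (hMul 1 h0 ⟨hGI1, hS1⟩ hh0).1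
    exact ⟨n, 1, Subgroup.one_mem _, hn⟩
  classical
  obtain ⟨γ, hγ, hγn⟩ := Nat.find_spec hex
  have hmin : ∀ δ ∈ Subgroup.closure (A : Set G),
      nn (act (γ * h0) e1) ≤ nn (act (δ * h0) e1) := by
    intro δ hδ
    obtain ⟨n, hn⟩ := nn_nat (hMul δ h0 (hΓ δ hδ) hh0).1
    have h1 : Nat.find hex ≤ n := Nat.find_min' hex ⟨δ, hδ, hn⟩
    rw [hγn, hn]
    exact_mod_cast h1
  have hc1 : (γ * h0) • (∞ : X) = pt (act (γ * h0) e1) := by
    rw [← pt_e1]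
    exact (hPTact (γ * h0) e1 e1_ne).2
  have hv : act (γ * h0) e1 ≠ 0 := (hPTact (γ * h0) e1 e1_ne).1
  have hnotE : ∀ b ∈ B A, (γ * h0) • (∞ : X) ∉ Eo b := by
    intro b hb hmem
    rw [hc1, (hEEm b _ hv).1, ← hPTmul, ← mul_assoc] at hmem
    have h1 := hmin (b * γ) (Subgroup.mul_mem _ (hBΓ b hb) hγ)
    linarith
  have hγ0 : InG0 (γ * h0) := hMul γ h0 (hΓ γ hγ) hh0
  -- the open set
  set V0 : Set X := {p | γ⁻¹ • p ∈ U} with hV0
  have hV0o : IsOpen V0 := hU.preimage (hTA.1 γ⁻¹)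
  have hc1V : (γ * h0) • (∞ : X) ∈ V0 := by
    rw [hV0]
    change γ⁻¹ • ((γ * h0) • (∞ : X)) ∈ U
    rw [mul_smul, inv_smul_smul]
    exact hh0U
  -- a cusp outside all discs
  obtain ⟨h', hh', hh'V, hh'B⟩ : ∃ h' : G, InG0 h' ∧ h' • (∞ : X) ∈ V0 ∧
      ∀ b ∈ B A, h' • (∞ : X) ∉ Ec b := by
    by_cases hcase : ∀ b ∈ B A, (γ * h0) • (∞ : X) ∉ Ec b
    · exact ⟨γ * h0, hγ0, hc1V, hcase⟩
    · push Not at hcase
      obtain ⟨s, hsB, hs⟩ := hcase
      set V1 : Set X := V0 ∩ (⋃ b ∈ B A \ {s}, Ec b)ᶜ with hV1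
      have hV1o : IsOpen V1 := by
        refine hV0o.inter ?_
        rw [isOpen_compl_iff]
        exact ((B_fin A).subset Set.sdiff_subset).isClosed_biUnion fun b _ => (hTC b).2
      have hc1V1 : (γ * h0) • (∞ : X) ∈ V1 := by
        refine ⟨hc1V, ?_⟩
        simp only [Set.mem_compl_iff, Set.mem_iUnion, not_exists]
        intro b hb hbm
        have h1 := hBdis b hb.1 s hsB hb.2
        rw [Set.eq_empty_iff_forall_notMem] at h1
        exact h1 _ ⟨hbm, hs⟩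
      have hp : ∃ p ∈ Lam, p ∉ Ec s := by
        by_contra hcon
        push Not at hcon
        have m1 : kk • (∞ : X) ∈ Ec s := hcon _ (hRL hkinf)
        have m2 : kk • ((0 : ℂ) : X) ∈ Ec s := hcon _ (hRL hk0)
        have g1 : kk • (∞ : X) ∈ Ec g0⁻¹ := hEEsub _ hf1
        have g2 : kk • ((0 : ℂ) : X) ∈ Ec g0 := hEEsub _ hf2
        have hg0B : g0 ∈ B A := Or.inl hA0
        have hg0B' : g0⁻¹ ∈ B A := Or.inr ⟨g0, hA0, rfl⟩
        have n1 : s = g0⁻¹ := by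
          by_contra hne
          have h1 := hBdis s hsB _ hg0B' hne
          rw [Set.eq_empty_iff_forall_notMem] at h1
          exact h1 _ ⟨m1, g1⟩
        have n2 : s = g0 := by
          by_contra hne
          have h1 := hBdis s hsB _ hg0B hne
          rw [Set.eq_empty_iff_forall_notMem] at h1
          exact h1 _ ⟨m2, g2⟩
        rw [Set.eq_empty_iff_forall_notMem] at hf3
        rw [n2] at m1
        exact hf3 _ ⟨m1, g1⟩
      obtain ⟨h', hh', hh'V, hh's⟩ := hTS s (γ * h0) V1 hγ0 hV1o hc1V1 (hnotE s hsB) hp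
      refine ⟨h', hh', hh'V.1, fun b hb => ?_⟩
      by_cases hbs : b = s
      · rw [hbs]
        exact hh's
      · intro hbm
        have h1 := hh'V.2
        simp only [Set.mem_compl_iff, Set.mem_iUnion, not_exists] at h1
        exact h1 b ⟨hb, hbs⟩ hbm
  -- the final open set
  set V : Set X := (V0 ∩ (⋃ b ∈ B A, Ec b)ᶜ) ∩ Fᶜ with hVdef
  have hVo : IsOpen V := by
    refine (hV0o.inter ?_).inter hF.isOpen_compl
    rw [isOpen_compl_iff]
    exact (B_fin A).isClosed_biUnion fun b _ => (hTC b).2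
  have hh'V' : h' • (∞ : X) ∈ V := by
    refine ⟨⟨hh'V, ?_⟩, hFc h' hh'.1⟩
    simp only [Set.mem_compl_iff, Set.mem_iUnion, not_exists]
    exact fun b hb => hh'B b hb
  obtain ⟨g, hg, hgV, hgV', hgd⟩ := hEX h' V hh' hVo hh'V'
  have hVB : ∀ p ∈ V, ∀ b ∈ B A, p ∉ Ec b := by
    intro p hp b hb hbm
    have h1 := hp.1.2
    simp only [Set.mem_compl_iff, Set.mem_iUnion, not_exists] at h1
    exact h1 b hb hbm
  have hgsub : ∀ p ∈ Ec g ∪ Ec g⁻¹, p ∈ V := by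
    rintro p (hp | hp)
    · exact hgV hp
    · exact hgV' hp
  have hnew : ∀ a ∈ (A : Set G), (Ec g ∪ Ec g⁻¹) ∩ (Ec a ∪ Ec a⁻¹) = ∅ := by
    intro a ha
    rw [Set.eq_empty_iff_forall_notMem]
    rintro p ⟨hp1, hp2⟩
    have hpV := hgsub p hp1
    rcases hp2 with h2 | h2
    · exact hVB p hpV a (Or.inl ha) h2
    · exact hVB p hpV a⁻¹ (Or.inr ⟨a, ha, rfl⟩) h2
  have hgne : g ≠ g0 := by
    intro hgg
    have h1 : kk • ((0 : ℂ) : X) ∈ Ec g0 := hEEsub _ hf2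
    have h2 : kk • ((0 : ℂ) : X) ∈ V := hgV (by rw [hgg]; exact h1)
    exact hVB _ h2 g0 (Or.inl hA0) h1
  refine ⟨g, γ, hγ, ⟨?_, ?_, ?_, ?_, ?_⟩, hgne, fun p hp => (hgV' hp).1.1⟩
  · exact Or.inr hA0
  · rintro x (hx | hx)
    · rw [hx]; exact hg
    · exact hAG x hx
  · rintro x (hx | hx)
    · rw [hx]; exact hgd
    · exact hAd x hx
  · rintro x (hx | hx) y (hy | hy) hne
    · exact absurd (hx.trans hy.symm) hne
    · rw [hx]; exact hnew y hy
    · rw [hy, Set.inter_comm]; exact hnew x hx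
    · exact hAdd x hx y hy hne
  · rintro x (hx | hx) hne
    · rw [hx, Set.eq_empty_iff_forall_notMem]
      rintro p ⟨hp1, hp2⟩
      exact (hgsub p hp1).2 hp2
    · exact hAF x hx hne

end Pool.Agent.T2H64.AP
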